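import Pool.Agent.KTen.Splice
import Pool.Agent.MP_aea6d5_co.Pair

/-! Translations of parts of polygons. -/

set_option autoImplicit false

open Set

namespace Pool.Agent.KTen

open Pool.Agent.LK Pool.Agent.KTube

variable {E F G H : ES} {k l s t : ℤ}

theorem lowE_shift (r : P3) (E : ES) (k : ℤ) : lowE (shift r E) (k + r.2.2) = shift r (lowE E k) := by
  apply edge_ext
  intro u v
  rw [mem_lowE, mem_shift, mem_shift, mem_lowE]
  simp only [Prod.snd_sub]
  constructor <;> rintro ⟨h1, h2⟩ <;> exact ⟨h1, by omega⟩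

theorem splice_shift (r : P3) (E F : ES) (k : ℤ) :
    splice (shift r E) (shift r F) (k + r.2.2) = shift r (splice E F k) := by
  apply edge_ext
  intro u v
  rw [mem_splice, mem_shift, mem_shift, mem_shift, mem_splice]
  simp only [Prod.snd_sub]
  constructor
  · rintro (⟨h1, h2⟩ | ⟨h1, h2⟩)
    · exact Or.inl ⟨h1, by omega⟩
    · exact Or.inr ⟨h1, by omega⟩
  · rintro (⟨h1, h2⟩ | ⟨h1, h2⟩)
    · exact Or.inl ⟨h1, by omega⟩
    · exact Or.inr ⟨h1, by omega⟩

theorem midE_shift (r : P3) (E : ES) (s t : ℤ) :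
    midE (shift r E) (s + r.2.2) (t + r.2.2) = shift r (midE E s t) := by
  apply edge_ext
  intro u v
  rw [mem_midE, mem_shift, mem_shift, mem_midE]
  simp only [Prod.snd_sub]
  constructor <;> rintro ⟨h1, h2⟩ <;> exact ⟨h1, by omega⟩

theorem botE_shift (r : P3) (E : ES) (s : ℤ) : botE (shift r E) (s + r.2.2) = shift r (botE E s) := by
  apply edge_ext
  intro u v
  rw [mem_botE, mem_shift, mem_shift, mem_botE]
  simp only [Prod.snd_sub]
  constructor <;> rintro ⟨h1, h2⟩ <;> exact ⟨h1, by omega⟩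

theorem topE_shift (r : P3) (E : ES) (t : ℤ) : topE (shift r E) (t + r.2.2) = shift r (topE E t) := by
  apply edge_ext
  intro u v
  rw [mem_topE, mem_shift, mem_shift, mem_topE]
  simp only [Prod.snd_sub]
  constructor <;> rintro ⟨h1, h2⟩ <;> exact ⟨h1, by omega⟩

theorem cross_shift (r : P3) (E : ES) (k : ℤ) :
    cross (shift r E) (k + r.2.2) = (fun c : ℤ × ℤ => (c.1 + r.1, c.2 + r.2.1)) '' cross E k := by
  ext c
  have h1 : c ∈ cross (shift r E) (k + r.2.2) ↔ (c.1 - r.1, c.2 - r.2.1) ∈ cross E k := by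
    change s((c.1, c.2, k + r.2.2), (c.1, c.2, k + r.2.2 + 1)) ∈ shift r E ↔ _
    rw [mem_shift]
    have e1 : ((c.1, c.2, k + r.2.2) : P3) - r = (c.1 - r.1, c.2 - r.2.1, k) := by
      refine Prod.ext rfl (Prod.ext rfl ?_)
      change k + r.2.2 - r.2.2 = k
      omega
    have e2 : ((c.1, c.2, k + r.2.2 + 1) : P3) - r = (c.1 - r.1, c.2 - r.2.1, k + 1) := by
      refine Prod.ext rfl (Prod.ext rfl ?_)
      change k + r.2.2 + 1 - r.2.2 = k + 1
      omega
    rw [e1, e2]
    exact Iff.rfl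
  rw [h1, mem_image]
  constructor
  · intro h
    exact ⟨_, h, Prod.ext (sub_add_cancel _ _) (sub_add_cancel _ _)⟩
  · rintro ⟨d, hd, rfl⟩
    have e3 : ((d.1 + r.1) - r.1, (d.2 + r.2.1) - r.2.1) = d :=
      Prod.ext (add_sub_cancel_right _ _) (add_sub_cancel_right _ _)
    change ((d.1 + r.1) - r.1, (d.2 + r.2.1) - r.2.1) ∈ cross E k
    rw [e3]
    exact hd

private lemma tr_inj (r : P3) :
    Function.Injective fun c : ℤ × ℤ => (c.1 + r.1, c.2 + r.2.1) := by
  intro c d h
  have h1 : c.1 + r.1 = d.1 + r.1 := congrArg Prod.fst h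
  have h2 : c.2 + r.2.1 = d.2 + r.2.1 := congrArg Prod.snd h
  exact Prod.ext (by omega) (by omega)

theorem isTwo_shift (r : P3) (E : ES) (k : ℤ) : IsTwo (shift r E) (k + r.2.2) ↔ IsTwo E k := by
  unfold IsTwo
  rw [cross_shift, ncard_image_of_injective _ (tr_inj r)]

theorem span_shift (r : P3) (E : ES) : span (shift r E) = span E := by
  unfold span
  have h1 : {k : ℤ | (cross (shift r E) k).Nonempty} =
      (fun k => k + r.2.2) '' {k : ℤ | (cross E k).Nonempty} := by
    ext k
    rw [mem_image]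
    constructor
    · intro h
      refine ⟨k - r.2.2, ?_, sub_add_cancel _ _⟩
      have h2 : (cross (shift r E) (k - r.2.2 + r.2.2)).Nonempty := by
        rw [sub_add_cancel]
        exact h
      rw [cross_shift, image_nonempty] at h2
      exact h2
    · rintro ⟨l, hl, rfl⟩
      change (cross (shift r E) (l + r.2.2)).Nonempty
      rw [cross_shift, image_nonempty]
      exact hl
  rw [h1, ncard_image_of_injective _ (add_left_injective _)]

theorem lowU_shift (r : P3) (E : ES) (k : ℤ) : LowU (shift r E) (k + r.2.2) ↔ LowU E k := by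
  have key : ∀ (r : P3) (E : ES) (k : ℤ), LowU E k → LowU (shift r E) (k + r.2.2) := by
    rintro r E k ⟨F, hF, hc, hU⟩
    refine ⟨shift r F, isPolygon_shift hF r, ?_, ?_⟩
    · rw [cross_shift, cross_shift, hc]
    · rw [splice_shift]
      exact (SameType.symm (moveFacts.trans r _)).unknotted hU
  refine ⟨fun h => ?_, key r E k⟩
  have h1 := key (-r) _ _ h
  rw [shift_shift, neg_add_cancel, shift_zero] at h1
  have e : k + r.2.2 + (-r).2.2 = k := by
    change k + r.2.2 + -r.2.2 = k
    omega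
  rwa [e] at h1

theorem uppU_shift (r : P3) (E : ES) (k : ℤ) : UppU (shift r E) (k + r.2.2) ↔ UppU E k := by
  have key : ∀ (r : P3) (E : ES) (k : ℤ), UppU E k → UppU (shift r E) (k + r.2.2) := by
    rintro r E k ⟨F, hF, hc, hU⟩
    refine ⟨shift r F, isPolygon_shift hF r, ?_, ?_⟩
    · rw [cross_shift, cross_shift, hc]
    · rw [splice_shift]
      exact (SameType.symm (moveFacts.trans r _)).unknotted hU
  refine ⟨fun h => ?_, key r E k⟩
  have h1 := key (-r) _ _ h
  rw [shift_shift, neg_add_cancel, shift_zero] at h1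
  have e : k + r.2.2 + (-r).2.2 = k := by
    change k + r.2.2 + -r.2.2 = k
    omega
  rwa [e] at h1

end Pool.Agent.KTen
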