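import Pool.Agent.KTen.ConnPath
import Pool.Agent.KTen.SpliceShift
import Pool.Agent.LatticeTube.Closing
import Pool.Agent.LatticeTube.Transfer
import Pool.Agent.LatticeTube.M2
import Pool.Agent.LatticeTube.M3
import Pool.Agent.LatticeTube.M4
import Pool.Agent.MP_aea6d5_co.Pair

/-! Connectors: monotone unknotted polygons with two strands; one strand is vertical, the other one
makes one horizontal step in each of `d` blocks of `q` levels. -/

set_option autoImplicit false

open Set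

namespace Pool.Agent.KTen

open Pool.Agent.LK Pool.Agent.KTube

open Pool.Agent.LatticeTube (pedges mem_pedges mem_of_mem_pedges PathIn Inv inv_zero lev mem_lev UpDown)

/-! ### Edges of appended walks -/

private theorem cn_append {x y : P3} {e : Sym2 P3} : ∀ {P l : List P3}, P.getLast? = some x →
    l.head? = some y → (e ∈ pedges (P ++ l) ↔ e ∈ pedges P ∨ e = s(x, y) ∨ e ∈ pedges l)
  | [], _, h, _ => by simp at h
  | [a], l, h, h' => by
    obtain ⟨l', rfl⟩ : ∃ l', l = y :: l' := by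
      rcases l with _ | ⟨z, l'⟩
      · simp at h'
      · simp only [List.head?_cons, Option.some.injEq] at h'
        exact ⟨l', by rw [h']⟩
    simp only [List.getLast?_singleton, Option.some.injEq] at h
    subst h
    simp [pedges]
  | a :: b :: P, l, h, h' => by
    have h2 : (b :: P).getLast? = some x := by
      simpa using h
    have ih := cn_append (e := e) h2 h'
    have e1 : pedges (a :: b :: P ++ l) = insert s(a, b) (pedges (b :: P ++ l)) := rfl
    have e2 : pedges (a :: b :: P) = insert s(a, b) (pedges (b :: P)) := rfl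
    rw [e1, e2, Finset.mem_insert, Finset.mem_insert, ih, or_assoc]

/-! ### Paths of columns -/

private theorem cn_step (a a' : ℤ × ℤ) (h : a ≠ a') :
    ∃ c, LatticeTube.Adj2 a c ∧ nrm1 (a' - c) + 1 = nrm1 (a' - a) := by
  obtain ⟨x, y⟩ := a
  obtain ⟨x', y'⟩ := a'
  simp only [ne_eq, Prod.mk.injEq] at h
  rcases lt_trichotomy x x' with h1 | h1 | h1
  · refine ⟨(x + 1, y), ?_, ?_⟩
    · simp only [LatticeTube.Adj2]
      have : |x - (x + 1)| = 1 := by rw [show x - (x + 1) = -1 by ring]; rfl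
      rw [this]; simp
    · simp only [nrm1, Prod.fst_sub, Prod.snd_sub]
      omega
  · subst h1
    rcases lt_trichotomy y y' with h2 | h2 | h2
    · refine ⟨(x, y + 1), ?_, ?_⟩
      · simp only [LatticeTube.Adj2]
        have : |y - (y + 1)| = 1 := by rw [show y - (y + 1) = -1 by ring]; rfl
        rw [this]; simp
      · simp only [nrm1, Prod.fst_sub, Prod.snd_sub]
        omega
    · exact absurd ⟨rfl, h2⟩ h
    · refine ⟨(x, y - 1), ?_, ?_⟩
      · simp only [LatticeTube.Adj2]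
        have : |y - (y - 1)| = 1 := by rw [show y - (y - 1) = 1 by ring]; rfl
        rw [this]; simp
      · simp only [nrm1, Prod.fst_sub, Prod.snd_sub]
        omega
  · refine ⟨(x - 1, y), ?_, ?_⟩
    · simp only [LatticeTube.Adj2]
      have : |x - (x - 1)| = 1 := by rw [show x - (x - 1) = 1 by ring]; rfl
      rw [this]; simp
    · simp only [nrm1, Prod.fst_sub, Prod.snd_sub]
      omega

private theorem cn_path (a' : ℤ × ℤ) : ∀ (n : ℕ) (a : ℤ × ℤ), nrm1 (a' - a) = n →
    ∃ p : List (ℤ × ℤ), p.head? = some a ∧ p.getLast? = some a' ∧ p.Nodup ∧ p.IsChain LatticeTube.Adj2 ∧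
      ∀ c ∈ p, nrm1 (a' - c) ≤ n := by
  intro n
  induction n with
  | zero =>
    intro a ha
    have : a = a' := by
      simp only [nrm1, Prod.fst_sub, Prod.snd_sub] at ha
      refine Prod.ext ?_ ?_ <;> omega
    subst this
    refine ⟨[a], rfl, rfl, List.nodup_singleton _, List.isChain_singleton _, ?_⟩
    intro c hc
    rw [List.mem_singleton] at hc
    subst hc
    exact ha.le
  | succ n ih =>
    intro a ha
    have hne : a ≠ a' := by
      rintro rfl
      simp [nrm1] at ha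
    obtain ⟨c, hc, hcn⟩ := cn_step a a' hne
    obtain ⟨p, h1, h2, h3, h4, h5⟩ := ih c (by omega)
    obtain ⟨r, rfl⟩ : ∃ r, p = c :: r := by
      rcases p with _ | ⟨z, r⟩
      · simp at h1
      · simp only [List.head?_cons, Option.some.injEq] at h1
        exact ⟨r, by rw [h1]⟩
    refine ⟨a :: c :: r, rfl, ?_, ?_, ?_, ?_⟩
    · simpa using h2
    · refine List.nodup_cons.2 ⟨fun h => ?_, h3⟩
      have := h5 a h
      omega
    · exact List.isChain_cons_cons.2 ⟨hc, h4⟩
    · intro x hx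
      rcases List.mem_cons.1 hx with rfl | hx
      · exact ha.le
      · exact (h5 x hx).trans (Nat.le_succ n)

private theorem cn_exists_path (a a' : ℤ × ℤ) : ∃ p : List (ℤ × ℤ), p.head? = some a ∧
    p.getLast? = some a' ∧ p.Nodup ∧ p.IsChain LatticeTube.Adj2 := by
  obtain ⟨p, h1, h2, h3, h4, -⟩ := cn_path a' _ a rfl
  exact ⟨p, h1, h2, h3, h4⟩

/-! ### Two strands, one of them vertical -/

private theorem cn_unknotted (E : ES) (hE : IsPolygon E) {n N : ℕ} {g : ℕ → P3}
    (hc : Cyc E n g) (hu : UpDown n N g) : Unknotted E := by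
  obtain ⟨t0, t1, T, a, b, hs, Θ, hΘ⟩ := LatticeTube.liftStatement E n N g hE hc hu
  obtain ⟨Φ, hΦ⟩ := LatticeTube.straightenStatement t0 t1 T a b hs
  obtain ⟨Ψ, hΨ⟩ := LatticeTube.quadStatement t0 t1 T hs.pos hs.lt hs.lt'
  refine ⟨(Θ.trans Φ).trans Ψ, ?_⟩
  rw [← hΨ, ← hΦ, ← hΘ, image_image, image_image]
  rfl

/-- The vertical edge over the column `c` from the level `k`. -/
private def vEd (c : ℤ × ℤ) (k : ℕ) : Sym2 P3 := s((c.1, c.2, (k : ℤ)), (c.1, c.2, (k : ℤ) + 1))

/-- The horizontal edge at the level `k`. -/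
private def hEd (c c' : ℤ × ℤ) (k : ℕ) : Sym2 P3 := s((c.1, c.2, (k : ℤ)), (c'.1, c'.2, (k : ℤ)))

private theorem cn_lists {B : Finset (ℤ × ℤ)} {p0 : List (ℤ × ℤ)} (N : ℕ) (b : ℕ → ℤ × ℤ)
    (hb : ∀ k ≤ N, b k ≠ 0) (hs : ∀ k < N, b (k + 1) = b k ∨ LatticeTube.Adj2 (b k) (b (k + 1)))
    (hB0 : (0 : ℤ × ℤ) ∈ B) (hB : ∀ k ≤ N, b k ∈ B) (hp : PathIn B 0 (b 0) p0) :
    ∀ n ≤ N, ∃ P R : List P3, Inv B p0 0 n (0, b n) P R ∧
      (∀ e, e ∈ pedges P ↔ e ∈ pedges (lev 0 p0) ∨ (∃ k < n, e = vEd (b k) k) ∨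
        ∃ k < n, b k ≠ b (k + 1) ∧ e = hEd (b k) (b (k + 1)) (k + 1)) ∧
      (∀ e, e ∈ pedges R ↔ ∃ k < n, e = vEd 0 k) := by
  intro n
  induction n with
  | zero =>
    intro _
    refine ⟨_, _, inv_zero (s := (0, b 0)) hp (Ne.symm (hb 0 (Nat.zero_le _))), ?_, ?_⟩
    · intro e
      simp
    · intro e
      simp [pedges]
  | succ n ih =>
    intro hn
    obtain ⟨P, R, hI, hP, hR⟩ := ih (by omega)
    -- the link
    obtain ⟨m2, hm2, hm2m, hm2e⟩ : ∃ m2 : List (ℤ × ℤ), PathIn B (b n) (b (n + 1)) m2 ∧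
        (∀ c ∈ m2, c ≠ 0) ∧ ∀ e, e ∈ pedges (lev (n + 1) m2) ↔
          b n ≠ b (n + 1) ∧ e = hEd (b n) (b (n + 1)) (n + 1) := by
      have b1 := hb n (by omega)
      have b2 := hb (n + 1) hn
      rcases hs n (by omega) with h | h
      · refine ⟨[b n], ⟨rfl, by rw [h]; rfl, List.nodup_singleton _, List.isChain_singleton _, ?_⟩,
          ?_, ?_⟩
        · intro c hc
          rw [List.mem_singleton] at hc
          subst hc
          exact hB n (by omega)
        · intro c hc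
          rw [List.mem_singleton] at hc
          subst hc
          exact b1
        · intro e
          simp [lev, pedges, h]
      · have hne : b n ≠ b (n + 1) := by
          intro he
          rw [← he] at h
          simp [LatticeTube.Adj2] at h
        refine ⟨[b n, b (n + 1)], ⟨rfl, rfl, ?_, ?_, ?_⟩, ?_, ?_⟩
        · simpa using hne
        · simpa using h
        · intro c hc
          simp only [List.mem_cons, List.not_mem_nil, or_false] at hc
          rcases hc with rfl | rfl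
          · exact hB n (by omega)
          · exact hB (n + 1) hn
        · intro c hc
          simp only [List.mem_cons, List.not_mem_nil, or_false] at hc
          rcases hc with rfl | rfl
          · exact b1
          · exact b2
        · intro e
          simp [lev, pedges, hne, hEd]
    have hlink : (([0], m2) : List (ℤ × ℤ) × List (ℤ × ℤ)) ∈
        LatticeTube.Links B (0, b n) (0, b (n + 1)) := by
      refine ⟨⟨rfl, rfl, List.nodup_singleton _, List.isChain_singleton _, ?_⟩, hm2, ?_⟩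
      · intro c hc
        rw [List.mem_singleton] at hc
        subst hc
        exact hB0
      · intro c hc hc'
        simp only [List.mem_singleton] at hc
        exact hm2m c hc' hc
    refine ⟨_, _, hI.ext hlink, ?_, ?_⟩
    · intro e
      rw [cn_append hI.lastP (hm2.head_lev (n + 1)), hP, hm2e]
      constructor
      · rintro ((h | ⟨k, hk, h⟩ | ⟨k, hk, h⟩) | h | h)
        · exact Or.inl h
        · exact Or.inr (Or.inl ⟨k, by omega, h⟩)
        · exact Or.inr (Or.inr ⟨k, by omega, h⟩)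
        · refine Or.inr (Or.inl ⟨n, by omega, ?_⟩)
          rw [h, vEd]
          push_cast
          rfl
        · exact Or.inr (Or.inr ⟨n, by omega, h⟩)
      · rintro (h | ⟨k, hk, h⟩ | ⟨k, hk, h⟩)
        · exact Or.inl (Or.inl h)
        · rcases Nat.lt_succ_iff_lt_or_eq.1 hk with hk | rfl
          · exact Or.inl (Or.inr (Or.inl ⟨k, hk, h⟩))
          · refine Or.inr (Or.inl ?_)
            rw [h, vEd]
            push_cast
            rfl
        · rcases Nat.lt_succ_iff_lt_or_eq.1 hk with hk | rfl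
          · exact Or.inl (Or.inr (Or.inr ⟨k, hk, h⟩))
          · exact Or.inr (Or.inr h)
    · intro e
      have e1 : (lev (n + 1) [(0 : ℤ × ℤ)]).reverse = [((0 : ℤ), (0 : ℤ), ((n + 1 : ℕ) : ℤ))] := rfl
      have e2 : ((lev (n + 1) [(0 : ℤ × ℤ)]).reverse).getLast? =
          some ((0 : ℤ), (0 : ℤ), ((n + 1 : ℕ) : ℤ)) := rfl
      rw [cn_append e2 hI.headR, hR, e1]
      constructor
      · rintro (h | h | ⟨k, hk, h⟩)
        · simp [pedges] at h
        · refine ⟨n, by omega, ?_⟩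
          rw [h, vEd, Sym2.eq_swap]
          push_cast
          rfl
        · exact ⟨k, by omega, h⟩
      · rintro ⟨k, hk, h⟩
        rcases Nat.lt_succ_iff_lt_or_eq.1 hk with hk | rfl
        · exact Or.inr (Or.inr ⟨k, hk, h⟩)
        · refine Or.inr (Or.inl ?_)
          rw [h, vEd, Sym2.eq_swap]
          push_cast
          rfl

/-- The polygon with a vertical strand over the column `0` and a strand over the columns `b k`. -/
private theorem cn_two (N : ℕ) (b : ℕ → ℤ × ℤ) (hb : ∀ k ≤ N, b k ≠ 0)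
    (hs : ∀ k < N, b (k + 1) = b k ∨ LatticeTube.Adj2 (b k) (b (k + 1))) :
    ∃ C T : ES, IsPolygon C ∧ Unknotted C ∧
      (∀ e ∈ T, (∀ u ∈ e, u.2.2 = 0) ∨ ∀ u ∈ e, u.2.2 = (N : ℤ) + 1) ∧
      ∀ e, e ∈ C ↔ e ∈ T ∨ (∃ k ≤ N, e = vEd 0 k) ∨ (∃ k ≤ N, e = vEd (b k) k) ∨
        ∃ k < N, b k ≠ b (k + 1) ∧ e = hEd (b k) (b (k + 1)) (k + 1) := by
  classical
  obtain ⟨p0, hp1, hp2, hp3, hp4⟩ := cn_exists_path 0 (b 0)
  obtain ⟨q, hq1, hq2, hq3, hq4⟩ := cn_exists_path (b N) 0
  let B : Finset (ℤ × ℤ) := insert 0 ((Finset.range (N + 1)).image b ∪ p0.toFinset ∪ q.toFinset)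
  have hB0 : (0 : ℤ × ℤ) ∈ B := Finset.mem_insert_self _ _
  have hBb : ∀ k ≤ N, b k ∈ B := fun k hk => Finset.mem_insert_of_mem
    (Finset.mem_union_left _ (Finset.mem_union_left _
      (Finset.mem_image.2 ⟨k, Finset.mem_range.2 (by omega), rfl⟩)))
  have hBp : PathIn B 0 (b 0) p0 := ⟨hp1, hp2, hp3, hp4, fun c hc => Finset.mem_insert_of_mem
    (Finset.mem_union_left _ (Finset.mem_union_right _ (List.mem_toFinset.2 hc)))⟩
  have hBq : PathIn B (b N) 0 q := ⟨hq1, hq2, hq3, hq4, fun c hc => Finset.mem_insert_of_mem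
    (Finset.mem_union_right _ (List.mem_toFinset.2 hc))⟩
  obtain ⟨P, R, hI, hP, hR⟩ := cn_lists N b hb hs hB0 hBb hBp N le_rfl
  obtain ⟨hpoly, hcyc, hup, -, -, -⟩ := hI.close hBp (Ne.symm (hb 0 (Nat.zero_le _))) hBq
  refine ⟨_, pedges (lev 0 p0) ∪ pedges (lev (N + 1) q), hpoly, cn_unknotted _ hpoly hcyc hup,
    ?_, ?_⟩
  · intro e he
    have key : ∀ (k : ℕ) (l : List (ℤ × ℤ)), e ∈ pedges (lev k l) → ∀ u ∈ e, u.2.2 = (k : ℤ) := by
      intro k l hl u hu
      obtain ⟨v, rfl⟩ := hu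
      exact (mem_lev.1 (mem_of_mem_pedges hl).1).2
    rcases Finset.mem_union.1 he with he | he
    · left
      intro u hu
      simpa using key 0 p0 he u hu
    · right
      intro u hu
      simpa using key (N + 1) q he u hu
  · intro e
    have g1 : (P ++ lev (N + 1) q).getLast? = some ((0 : ℤ), (0 : ℤ), ((N + 1 : ℕ) : ℤ)) := by
      rw [List.getLast?_append, hBq.last_lev]
      rfl
    rw [cn_append g1 hI.headR, cn_append hI.lastP (hBq.head_lev (N + 1)), hP, hR, Finset.mem_union]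
    constructor
    · rintro (((h | ⟨k, hk, h⟩ | ⟨k, hk, h⟩) | h | h) | h | ⟨k, hk, h⟩)
      · exact Or.inl (Or.inl h)
      · exact Or.inr (Or.inr (Or.inl ⟨k, by omega, h⟩))
      · exact Or.inr (Or.inr (Or.inr ⟨k, hk, h⟩))
      · refine Or.inr (Or.inr (Or.inl ⟨N, le_rfl, ?_⟩))
        rw [h, vEd]
        push_cast
        rfl
      · exact Or.inl (Or.inr h)
      · refine Or.inr (Or.inl ⟨N, le_rfl, ?_⟩)
        rw [h, vEd, Sym2.eq_swap]
        push_cast
        rfl
      · exact Or.inr (Or.inl ⟨k, by omega, h⟩)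
    · rintro ((h | h) | ⟨k, hk, h⟩ | ⟨k, hk, h⟩ | ⟨k, hk, h⟩)
      · exact Or.inl (Or.inl (Or.inl h))
      · exact Or.inl (Or.inr (Or.inr h))
      · rcases Nat.lt_or_eq_of_le hk with hk | rfl
        · exact Or.inr (Or.inr ⟨k, hk, h⟩)
        · refine Or.inr (Or.inl ?_)
          rw [h, vEd, Sym2.eq_swap]
          push_cast
          rfl
      · rcases Nat.lt_or_eq_of_le hk with hk | rfl
        · exact Or.inl (Or.inl (Or.inr (Or.inl ⟨k, hk, h⟩)))
        · refine Or.inl (Or.inr (Or.inl ?_))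
          rw [h, vEd]
          push_cast
          rfl
      · exact Or.inl (Or.inl (Or.inr (Or.inr ⟨k, hk, h⟩)))

private theorem vEd_inj {c c' : ℤ × ℤ} {k k' : ℕ} : vEd c k = vEd c' k' ↔ c = c' ∧ k = k' := by
  constructor
  · intro h
    rw [vEd, vEd, Sym2.eq_iff] at h
    simp only [Prod.mk.injEq] at h
    rcases h with ⟨⟨h1, h2, h3⟩, -⟩ | ⟨⟨h1, h2, h3⟩, -, -, h4⟩
    · exact ⟨Prod.ext h1 h2, by omega⟩
    · omega
  · rintro ⟨rfl, rfl⟩
    rfl

private theorem vEd_ne_hEd {c d d' : ℤ × ℤ} {k l : ℕ} : vEd c k ≠ hEd d d' l := by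
  intro h
  rw [vEd, hEd, Sym2.eq_iff] at h
  simp only [Prod.mk.injEq] at h
  omega

private theorem hEd_lev {c c' d d' : ℤ × ℤ} {k l : ℕ} (h : hEd c c' k = hEd d d' l) : k = l := by
  rw [hEd, hEd, Sym2.eq_iff] at h
  simp only [Prod.mk.injEq] at h
  omega

private theorem vEd_T {T : ES} {N : ℕ}
    (hT : ∀ e ∈ T, (∀ u ∈ e, u.2.2 = 0) ∨ ∀ u ∈ e, u.2.2 = (N : ℤ) + 1) {c : ℤ × ℤ} {k : ℕ} :
    vEd c k ∉ T := by
  intro h
  rcases hT _ h with h1 | h1
  · have a := h1 _ (Sym2.mem_mk_left _ _)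
    have b := h1 _ (Sym2.mem_mk_right _ _)
    simp only at a b
    omega
  · have a := h1 _ (Sym2.mem_mk_left _ _)
    have b := h1 _ (Sym2.mem_mk_right _ _)
    simp only at a b
    omega

/-- The sections and the middle part of the polygon of `cn_two`. -/
private theorem cn_facts {N : ℕ} {b : ℕ → ℤ × ℤ} (hb : ∀ k ≤ N, b k ≠ 0) {C T : ES}
    (hT : ∀ e ∈ T, (∀ u ∈ e, u.2.2 = 0) ∨ ∀ u ∈ e, u.2.2 = (N : ℤ) + 1)
    (hC : ∀ e, e ∈ C ↔ e ∈ T ∨ (∃ k ≤ N, e = vEd 0 k) ∨ (∃ k ≤ N, e = vEd (b k) k) ∨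
        ∃ k < N, b k ≠ b (k + 1) ∧ e = hEd (b k) (b (k + 1)) (k + 1)) :
    (∀ k : ℕ, k ≤ N → cross C (k : ℤ) = {0, b k}) ∧
    (1 ≤ N → ∀ e, e ∈ midE C 0 N ↔ (∃ k ≤ N, e = vEd 0 k) ∨ (∃ k ≤ N, e = vEd (b k) k) ∨
        ∃ k < N, b k ≠ b (k + 1) ∧ e = hEd (b k) (b (k + 1)) (k + 1)) := by
  constructor
  · intro k hk
    ext c
    have h1 : c ∈ cross C (k : ℤ) ↔ vEd c k ∈ C := Iff.rfl
    rw [h1, hC]
    simp only [mem_insert_iff, mem_singleton_iff]
    constructor
    · rintro (h | ⟨k', _, h⟩ | ⟨k', _, h⟩ | ⟨k', _, _, h⟩)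
      · exact absurd h (vEd_T hT)
      · exact Or.inl (vEd_inj.1 h).1
      · obtain ⟨h2, h3⟩ := vEd_inj.1 h
        right
        rw [h2, h3]
      · exact absurd h vEd_ne_hEd
    · rintro (rfl | rfl)
      · exact Or.inr (Or.inl ⟨k, hk, rfl⟩)
      · exact Or.inr (Or.inr (Or.inl ⟨k, hk, rfl⟩))
  · intro hN e
    simp only [midE, Finset.mem_filter]
    rw [hC]
    constructor
    · rintro ⟨h | h, u, hu, h1, h2⟩
      · rcases hT e h with h3 | h3
        · have := h3 u hu; omega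
        · have := h3 u hu; omega
      · exact h
    · intro h
      refine ⟨Or.inr h, ?_⟩
      have key : ∀ (c : ℤ × ℤ) (k : ℕ), k ≤ N → ∃ u ∈ vEd c k, (0 : ℤ) + 1 ≤ u.2.2 ∧ u.2.2 ≤ N := by
        intro c k hk
        rcases Nat.eq_zero_or_pos k with h0 | h0
        · refine ⟨_, Sym2.mem_mk_right _ _, ?_⟩
          simp only
          omega
        · refine ⟨_, Sym2.mem_mk_left _ _, ?_⟩
          simp only
          omega
      rcases h with ⟨k, hk, rfl⟩ | ⟨k, hk, rfl⟩ | ⟨k, hk, _, rfl⟩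
      · exact key _ _ hk
      · exact key _ _ hk
      · refine ⟨_, Sym2.mem_mk_left _ _, ?_⟩
        simp only
        omega

/-- The number of edges of the middle part. -/
private theorem cn_card {N : ℕ} {b : ℕ → ℤ × ℤ} (hb : ∀ k ≤ N, b k ≠ 0) {M : ES}
    (hM : ∀ e, e ∈ M ↔ (∃ k ≤ N, e = vEd 0 k) ∨ (∃ k ≤ N, e = vEd (b k) k) ∨
        ∃ k < N, b k ≠ b (k + 1) ∧ e = hEd (b k) (b (k + 1)) (k + 1)) :
    M.card = 2 * (N + 1) + ((Finset.range N).filter fun k => b k ≠ b (k + 1)).card := by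
  classical
  have h1 : M = ((Finset.range (N + 1)).image (vEd 0) ∪
      (Finset.range (N + 1)).image fun k => vEd (b k) k) ∪
      ((Finset.range N).filter fun k => b k ≠ b (k + 1)).image
        fun k => hEd (b k) (b (k + 1)) (k + 1) := by
    ext e
    rw [hM]
    simp only [Finset.mem_union, Finset.mem_image, Finset.mem_range, Finset.mem_filter,
      Nat.lt_succ_iff]
    constructor
    · rintro (⟨k, hk, h⟩ | ⟨k, hk, h⟩ | ⟨k, hk, h', h⟩)
      · exact Or.inl (Or.inl ⟨k, hk, h.symm⟩)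
      · exact Or.inl (Or.inr ⟨k, hk, h.symm⟩)
      · exact Or.inr ⟨k, ⟨hk, h'⟩, h.symm⟩
    · rintro ((⟨k, hk, h⟩ | ⟨k, hk, h⟩) | ⟨k, ⟨hk, h'⟩, h⟩)
      · exact Or.inl ⟨k, hk, h.symm⟩
      · exact Or.inr (Or.inl ⟨k, hk, h.symm⟩)
      · exact Or.inr (Or.inr ⟨k, hk, h', h.symm⟩)
  rw [h1, Finset.card_union_of_disjoint, Finset.card_union_of_disjoint, Finset.card_image_of_injOn,
    Finset.card_image_of_injOn, Finset.card_image_of_injOn, Finset.card_range]
  · ring
  · intro k _ k' _ h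
    have := hEd_lev h
    omega
  · intro k _ k' _ h
    exact (vEd_inj.1 h).2
  · intro k _ k' _ h
    exact (vEd_inj.1 h).2
  · rw [Finset.disjoint_left]
    intro e he he'
    obtain ⟨k, hk, rfl⟩ := Finset.mem_image.1 he
    obtain ⟨k', hk', h⟩ := Finset.mem_image.1 he'
    have h2 := (vEd_inj.1 h).1
    exact hb k' (by rw [Finset.mem_range] at hk'; omega) h2
  · rw [Finset.disjoint_left]
    intro e he he'
    obtain ⟨k', hk', h⟩ := Finset.mem_image.1 he'
    rcases Finset.mem_union.1 he with he | he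
    · obtain ⟨k, hk, rfl⟩ := Finset.mem_image.1 he
      exact vEd_ne_hEd h.symm
    · obtain ⟨k, hk, rfl⟩ := Finset.mem_image.1 he
      exact vEd_ne_hEd h.symm

/-! ### The sequence of columns -/

/-- The number of steps made at levels `≤ k`. -/
private def st {q d : ℕ} (f : Fin d → Fin q) (k : ℕ) : ℕ :=
  if h : k / q < d then k / q + (if (f ⟨k / q, h⟩ : ℕ) < k % q then 1 else 0) else d

private theorem st_zero {q d : ℕ} (f : Fin d → Fin q) (hd : 0 < d) : st f 0 = 0 := by
  have h : 0 / q < d := by rw [Nat.zero_div]; exact hd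
  rw [st, dif_pos h]
  simp

private theorem st_end {q d : ℕ} (f : Fin d → Fin q) (hq : 1 ≤ q) : st f (q * d) = d := by
  have h : ¬ (q * d) / q < d := by
    rw [Nat.mul_div_cancel_left _ (by omega)]
    omega
  rw [st, dif_neg h]

private theorem st_div {q Q R : ℕ} (h : R < q) : (q * Q + R) / q = Q ∧ (q * Q + R) % q = R := by
  have hq : 0 < q := by omega
  constructor
  · rw [Nat.mul_add_div hq, Nat.div_eq_of_lt h, add_zero]
  · rw [Nat.mul_add_mod, Nat.mod_eq_of_lt h]

private theorem st_step {q d : ℕ} (f : Fin d → Fin q) {k : ℕ} (hk : k < q * d) :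
    ∃ h : k / q < d, ((f ⟨k / q, h⟩ : ℕ) = k % q ∧ st f k = k / q ∧ st f (k + 1) = k / q + 1) ∨
      ((f ⟨k / q, h⟩ : ℕ) ≠ k % q ∧ st f (k + 1) = st f k) := by
  have hq : 0 < q := by
    rcases Nat.eq_zero_or_pos q with h | h
    · subst h; simp at hk
    · exact h
  have h : k / q < d := by
    rw [Nat.div_lt_iff_lt_mul hq, mul_comm]
    exact hk
  refine ⟨h, ?_⟩
  have hr : k % q < q := Nat.mod_lt _ hq
  have hkd := Nat.div_add_mod k q
  have h1 : st f k = k / q + (if (f ⟨k / q, h⟩ : ℕ) < k % q then 1 else 0) := by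
    rw [st, dif_pos h]
  have hf : (f ⟨k / q, h⟩ : ℕ) < q := (f ⟨k / q, h⟩).2
  rcases Nat.lt_or_ge (k % q + 1) q with h2 | h2
  · have e0 := st_div (Q := k / q) h2
    have e00 : q * (k / q) + (k % q + 1) = k + 1 := by omega
    rw [e00] at e0
    obtain ⟨e1, e2⟩ := e0
    have h3 : st f (k + 1) = k / q + (if (f ⟨k / q, h⟩ : ℕ) < k % q + 1 then 1 else 0) := by
      have h4 : (k + 1) / q < d := by rw [e1]; exact h
      rw [st, dif_pos h4]
      have e3 : (⟨(k + 1) / q, h4⟩ : Fin d) = ⟨k / q, h⟩ := Fin.ext e1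
      rw [e3, e1, e2]
    rw [h1, h3]
    by_cases h5 : (f ⟨k / q, h⟩ : ℕ) = k % q
    · left
      refine ⟨h5, ?_, ?_⟩
      · rw [if_neg (by omega)]; rfl
      · rw [if_pos (by omega)]
    · right
      refine ⟨h5, ?_⟩
      by_cases h6 : (f ⟨k / q, h⟩ : ℕ) < k % q
      · rw [if_pos (by omega), if_pos h6]
      · rw [if_neg (by omega), if_neg h6]
  · have h2' : k % q + 1 = q := by omega
    have e1 : (k + 1) / q = k / q + 1 := by
      have : k + 1 = q * (k / q + 1) := by rw [mul_add, mul_one]; omega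
      rw [this, Nat.mul_div_cancel_left _ hq]
    have e2 : (k + 1) % q = 0 := by
      have : k + 1 = q * (k / q + 1) := by rw [mul_add, mul_one]; omega
      rw [this, Nat.mul_mod_right]
    have h3 : st f (k + 1) = k / q + 1 := by
      rw [st]
      by_cases h4 : (k + 1) / q < d
      · rw [dif_pos h4, e2, if_neg (Nat.not_lt_zero _), e1, add_zero]
      · rw [dif_neg h4]
        omega
    rw [h1, h3]
    by_cases h5 : (f ⟨k / q, h⟩ : ℕ) = k % q
    · left
      refine ⟨h5, ?_, rfl⟩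
      rw [if_neg (by omega)]; rfl
    · right
      refine ⟨h5, ?_⟩
      rw [if_pos (by omega)]

/-- **Connectors.** For all `v, w ≠ 0` there are `q ^ d` unknotted polygons, `d = |w - v| + 2`,
which have sections with two edges at all heights `0, …, q * d`, pass through the columns `0, v`
at height `0` and through the columns `0, w` at height `q * d`, and have `2 (q d + 1) + d` edges
with an end at a level between. -/
theorem exists_conn {q : ℕ} (hq : 1 ≤ q) {v w : ℤ × ℤ}
    (hv : v ≠ 0) (hw : w ≠ 0) {d : ℕ} (hd : d = nrm1 (w - v) + 2) :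
    ∃ C : (Fin d → Fin q) → ES, (∀ f, IsPolygon (C f) ∧ Unknotted (C f) ∧
      cross (C f) 0 = {0, v} ∧ cross (C f) (q * d) = {0, w} ∧
      (∀ k : ℤ, 0 ≤ k → k ≤ q * d → IsTwo (C f) k) ∧
      (midE (C f) 0 (q * d)).card = 2 * (q * d + 1) + d) ∧
      ∀ f g, midE (C f) 0 (q * d) = midE (C g) 0 (q * d) → f = g := by
  classical
  obtain ⟨c, hc0, hcd, hcne, hcs⟩ := exists_cols hv hw
  rw [← hd] at hcd hcs
  have hd2 : 2 ≤ d := by omega
  have hN : 1 ≤ q * d := Nat.mul_pos hq (by omega)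
  have hcstep : ∀ i < d, c i ≠ c (i + 1) := by
    intro i hi h
    have := hcs i hi
    rw [h] at this
    simp at this
  -- the steps
  have hstep : ∀ (f : Fin d → Fin q) (k : ℕ), k < q * d →
      (c (st f (k + 1)) = c (st f k) ∨ LatticeTube.Adj2 (c (st f k)) (c (st f (k + 1)))) ∧
      (c (st f k) ≠ c (st f (k + 1)) ↔ ∃ h : k / q < d, (f ⟨k / q, h⟩ : ℕ) = k % q) := by
    intro f k hk
    obtain ⟨h, h1 | h1⟩ := st_step f hk
    · obtain ⟨h2, h3, h4⟩ := h1
      rw [h3, h4]
      refine ⟨Or.inr ?_, ?_⟩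
      · have := hcs _ h
        rw [LatticeTube.Adj2, abs_sub_comm, abs_sub_comm (c (k / q)).2]
        exact this
      · exact ⟨fun _ => ⟨h, h2⟩, fun _ => hcstep _ h⟩
    · obtain ⟨h2, h3⟩ := h1
      rw [h3]
      refine ⟨Or.inl rfl, ⟨fun h4 => absurd rfl h4, ?_⟩⟩
      rintro ⟨_, h4⟩
      exact absurd h4 h2
  have hex := fun f : Fin d → Fin q => cn_two (q * d) (fun k => c (st f k))
    (fun k _ => hcne _) (fun k hk => (hstep f k hk).1)
  choose C T hCp hCu hT hC using hex
  have hfacts := fun f : Fin d → Fin q => cn_facts (b := fun k => c (st f k))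
    (fun k _ => hcne _) (hT f) (hC f)
  have hcast : ((q * d : ℕ) : ℤ) = (q : ℤ) * d := by push_cast; ring
  have hmid : ∀ f, ∀ e, e ∈ midE (C f) 0 (q * d) ↔ (∃ k ≤ q * d, e = vEd 0 k) ∨
      (∃ k ≤ q * d, e = vEd (c (st f k)) k) ∨ ∃ k < q * d, c (st f k) ≠ c (st f (k + 1)) ∧
        e = hEd (c (st f k)) (c (st f (k + 1))) (k + 1) := by
    intro f e
    have := (hfacts f).2 hN e
    rw [hcast] at this
    exact this
  refine ⟨C, fun f => ⟨hCp f, hCu f, ?_, ?_, ?_, ?_⟩, ?_⟩
  · have := (hfacts f).1 0 (Nat.zero_le _)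
    rw [st_zero f (by omega), hc0] at this
    exact_mod_cast this
  · have := (hfacts f).1 (q * d) le_rfl
    rw [st_end f hq, hcd, hcast] at this
    exact this
  · intro k hk0 hk1
    obtain ⟨n, rfl⟩ := Int.eq_ofNat_of_zero_le hk0
    have hn : n ≤ q * d := by
      rw [← hcast] at hk1
      exact_mod_cast hk1
    have := (hfacts f).1 n hn
    unfold IsTwo
    rw [this]
    exact Set.ncard_pair (Ne.symm (hcne _))
  · rw [cn_card (b := fun k => c (st f k)) (fun k _ => hcne _) (hmid f)]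
    congr 1
    have h1 : ((Finset.range (q * d)).filter fun k => c (st f k) ≠ c (st f (k + 1))) =
        (Finset.univ : Finset (Fin d)).image fun i : Fin d => q * (i : ℕ) + (f i : ℕ) := by
      ext k
      simp only [Finset.mem_filter, Finset.mem_range, Finset.mem_image, Finset.mem_univ, true_and]
      constructor
      · rintro ⟨hk, h⟩
        obtain ⟨h2, h3⟩ := (hstep f k hk).2.1 h
        refine ⟨⟨k / q, h2⟩, ?_⟩
        rw [h3]
        exact Nat.div_add_mod k q
      · rintro ⟨i, rfl⟩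
        have hf := (f i).2
        have hi := i.2
        have e1 : (q * (i : ℕ) + (f i : ℕ)) / q = i := by
          rw [Nat.mul_add_div (by omega), Nat.div_eq_of_lt hf, add_zero]
        have e2 : (q * (i : ℕ) + (f i : ℕ)) % q = f i := by
          rw [Nat.mul_add_mod, Nat.mod_eq_of_lt hf]
        have hk : q * (i : ℕ) + (f i : ℕ) < q * d := by
          have : q * ((i : ℕ) + 1) ≤ q * d := Nat.mul_le_mul_left _ hi
          rw [mul_add, mul_one] at this
          omega
        refine ⟨hk, (hstep f _ hk).2.2 ⟨by rw [e1]; exact hi, ?_⟩⟩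
        rw [e2]
        congr 2
        exact Fin.ext e1
    rw [h1, Finset.card_image_of_injective, Finset.card_univ, Fintype.card_fin]
    intro i j hij
    simp only at hij
    have hi := (f i).2
    have hj := (f j).2
    have e1 : (q * (i : ℕ) + (f i : ℕ)) / q = i := by
      rw [Nat.mul_add_div (by omega), Nat.div_eq_of_lt hi, add_zero]
    have e2 : (q * (j : ℕ) + (f j : ℕ)) / q = j := by
      rw [Nat.mul_add_div (by omega), Nat.div_eq_of_lt hj, add_zero]
    rw [hij, e2] at e1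
    exact Fin.ext e1.symm
  · intro f g hfg
    funext i
    have hf := (f i).2
    have hi := i.2
    have e1 : (q * (i : ℕ) + (f i : ℕ)) / q = i := by
      rw [Nat.mul_add_div (by omega), Nat.div_eq_of_lt hf, add_zero]
    have e2 : (q * (i : ℕ) + (f i : ℕ)) % q = f i := by
      rw [Nat.mul_add_mod, Nat.mod_eq_of_lt hf]
    have hk : q * (i : ℕ) + (f i : ℕ) < q * d := by
      have : q * ((i : ℕ) + 1) ≤ q * d := Nat.mul_le_mul_left _ hi
      rw [mul_add, mul_one] at this
      omega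
    set k := q * (i : ℕ) + (f i : ℕ) with hkdef
    have hne : c (st f k) ≠ c (st f (k + 1)) := (hstep f _ hk).2.2 ⟨by rw [e1]; exact hi, by
      rw [e2]
      congr 2
      exact Fin.ext e1⟩
    have hm : hEd (c (st f k)) (c (st f (k + 1))) (k + 1) ∈ midE (C f) 0 (q * d) :=
      (hmid f _).2 (Or.inr (Or.inr ⟨k, hk, hne, rfl⟩))
    rw [hfg, hmid g] at hm
    rcases hm with ⟨k', _, h⟩ | ⟨k', _, h⟩ | ⟨k', hk', h', h⟩
    · exact absurd h.symm vEd_ne_hEd
    · exact absurd h.symm vEd_ne_hEd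
    · have hkk : k = k' := by have := hEd_lev h; omega
      subst hkk
      obtain ⟨h2, h3⟩ := (hstep g k hk).2.1 h'
      have e3 : (⟨k / q, h2⟩ : Fin d) = i := Fin.ext e1
      rw [e3, e2] at h3
      exact Fin.ext h3.symm

/-- There are unknotted polygons with a given section with two edges. -/
theorem exists_unknot_two {a b : ℤ × ℤ} (hab : a ≠ b) (k : ℤ) :
    ∃ G : ES, IsPolygon G ∧ Unknotted G ∧ cross G k = {a, b} := by
  obtain ⟨C, T, hp, hu, hT, hC⟩ := cn_two 0 (fun _ => b - a) (fun _ _ => sub_ne_zero.2 (Ne.symm hab))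
    (fun k hk => absurd hk (Nat.not_lt_zero _))
  have h1 := (cn_facts (b := fun _ => b - a) (fun _ _ => sub_ne_zero.2 (Ne.symm hab)) hT hC).1 0
    le_rfl
  refine ⟨shift (a.1, a.2, k) C, isPolygon_shift hp _, (moveFacts.trans _ C).symm.unknotted hu, ?_⟩
  have h2 := cross_shift (a.1, a.2, k) C 0
  have h3 : (0 : ℤ) + ((a.1, a.2, k) : P3).2.2 = k := by simp
  rw [h3] at h2
  have h4 : cross C 0 = {0, b - a} := by exact_mod_cast h1
  rw [h2, h4, Set.image_pair]
  simp

end Pool.Agent.KTen
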