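import Pool.Agent.KTen.Splice
import Pool.Agent.MP_aea6d5_co.PolyCyc
import Pool.Agent.MP_aea6d5_co.Count
import Pool.Agent.MP_aea6d5_co.KMoves

/-! Finite sums over polygons in normal position; counting with a weight for horizontal edges. -/

set_option autoImplicit false

open Set

namespace Pool.Agent.KTen

open Pool.Agent.LK Pool.Agent.KTube

variable {C C' : ES → Prop} {n : ℕ} {y : ℝ}

theorem nset_finite (C : ES → Prop) (n : ℕ) : (NSet C n).Finite := by
  obtain ⟨K, hK⟩ := boundStatement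
  refine (hK n).1.subset ?_
  rintro E ⟨h1, -, h2, h3⟩
  exact ⟨h1, h3, h2⟩

private theorem zt_eq (y : ℝ) (C : ES → Prop) (n : ℕ) :
    Zt y C n = ∑ E ∈ (nset_finite C n).toFinset, y ^ span E :=
  finsum_mem_eq_finite_toFinset_sum _ (nset_finite C n)

theorem zt_le_add (hy : 0 ≤ y) (C C' : ES → Prop) (n : ℕ) :
    Zt y C n ≤ Zt y C' n + Zt y (fun F => C F ∧ ¬ C' F) n := by
  classical
  rw [zt_eq, zt_eq, zt_eq]
  have h1 : (nset_finite C n).toFinset ⊆ (nset_finite C' n).toFinset ∪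
      (nset_finite (fun F => C F ∧ ¬ C' F) n).toFinset := by
    intro E hE
    rw [Finset.mem_union, Finite.mem_toFinset, Finite.mem_toFinset]
    rw [Finite.mem_toFinset] at hE
    obtain ⟨h1, h2, h3, h4⟩ := hE
    by_cases h : C' E
    · exact Or.inl ⟨h1, h, h3, h4⟩
    · exact Or.inr ⟨h1, ⟨h2, h⟩, h3, h4⟩
  refine (Finset.sum_le_sum_of_subset_of_nonneg h1 fun E _ _ => pow_nonneg hy _).trans ?_
  rw [← Finset.sum_union_inter]
  exact le_add_of_nonneg_right (Finset.sum_nonneg fun E _ => pow_nonneg hy _)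

theorem zt_mono (hy : 0 ≤ y) (h : ∀ E, IsPolygon E → C E → C' E) (n : ℕ) : Zt y C n ≤ Zt y C' n := by
  rw [zt_eq, zt_eq]
  refine Finset.sum_le_sum_of_subset_of_nonneg ?_ fun E _ _ => pow_nonneg hy _
  intro E hE
  rw [Finite.mem_toFinset] at hE ⊢
  exact ⟨hE.1, h E hE.1 hE.2.1, hE.2.2⟩

theorem zt_nonneg (hy : 0 ≤ y) (C : ES → Prop) (n : ℕ) : 0 ≤ Zt y C n := by
  rw [zt_eq]
  exact Finset.sum_nonneg fun E _ => pow_nonneg hy _

private theorem span_shift' (r : P3) (E : ES) : span (shift r E) = span E := by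
  have h : {k : ℤ | (cross (shift r E) k).Nonempty} =
      (fun k => k + r.2.2) '' {k : ℤ | (cross E k).Nonempty} := by
    ext k
    simp only [Set.mem_ofPred_eq, Set.mem_image]
    constructor
    · rintro ⟨c, hc⟩
      refine ⟨k - r.2.2, ⟨(c.1 - r.1, c.2 - r.2.1), ?_⟩, by ring⟩
      have h1 : s(((c.1, c.2, k) : P3), (c.1, c.2, k + 1)) ∈ shift r E := hc
      rw [mem_shift] at h1
      show s(((c.1 - r.1, c.2 - r.2.1, k - r.2.2) : P3),
        (c.1 - r.1, c.2 - r.2.1, k - r.2.2 + 1)) ∈ E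
      have e1 : ((c.1 - r.1, c.2 - r.2.1, k - r.2.2) : P3) = (c.1, c.2, k) - r := rfl
      have e2 : ((c.1 - r.1, c.2 - r.2.1, k - r.2.2 + 1) : P3) = (c.1, c.2, k + 1) - r :=
        Prod.ext rfl (Prod.ext rfl (show k - r.2.2 + 1 = k + 1 - r.2.2 by ring))
      rw [e1, e2]
      exact h1
    · rintro ⟨j, ⟨c, hc⟩, rfl⟩
      refine ⟨(c.1 + r.1, c.2 + r.2.1), ?_⟩
      have h1 : s(((c.1, c.2, j) : P3), (c.1, c.2, j + 1)) ∈ E := hc
      show s(((c.1 + r.1, c.2 + r.2.1, j + r.2.2) : P3),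
        (c.1 + r.1, c.2 + r.2.1, j + r.2.2 + 1)) ∈ shift r E
      rw [mem_shift]
      have e1 : ((c.1 + r.1, c.2 + r.2.1, j + r.2.2) : P3) - r = (c.1, c.2, j) :=
        Prod.ext (add_sub_cancel_right _ _) (Prod.ext (add_sub_cancel_right _ _)
          (add_sub_cancel_right _ _))
      have e2 : ((c.1 + r.1, c.2 + r.2.1, j + r.2.2 + 1) : P3) - r = (c.1, c.2, j + 1) :=
        Prod.ext (add_sub_cancel_right _ _) (Prod.ext (add_sub_cancel_right _ _)
          (show j + r.2.2 + 1 - r.2.2 = j + 1 by ring))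
      rw [e1, e2]
      exact h1
  unfold span
  rw [h, Set.ncard_image_of_injective _ (add_left_injective r.2.2)]

/-- **Comparison of partition functions by a map.** Let `X` be a set of polygons in normal
position with `n` edges, `Y` a finite set of labels, and let `g` assign to each `E ∈ X` and each
label a polygon of the class `C'` with `m` edges (in any position) and a mark; if `E` and the label
are determined up to translation by the polygon up to translation and the mark, and at most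
`M` marks occur for each polygon, then the weighted sums compare. -/
theorem compare {ι μ : Type} [Fintype ι] (hC' : HInv C') (hy : 0 ≤ y) {X : Set ES}
    (hX : ∀ E ∈ X, IsPolygon E ∧ Normed E ∧ E.card = n) (g : ES → ι → ES) (mk : ES → ι → μ)
    {m : ℕ} (hg : ∀ E ∈ X, ∀ i, IsPolygon (g E i) ∧ C' (g E i) ∧ (g E i).card = m)
    (hinj : ∀ E ∈ X, ∀ i, ∀ E' ∈ X, ∀ i', ∀ r : P3, g E' i' = shift r (g E i) →
      mk E i = mk E' i' → (∃ r' : P3, E' = shift r' E) ∧ i = i')
    (S : ES → Finset μ) (hS : ∀ E ∈ X, ∀ i, ∀ r : P3, mk E i ∈ S (shift r (g E i))) {M : ℕ}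
    (hM : ∀ F, IsPolygon F → F.card = m → (S F).card ≤ M) :
    ∑ᶠ E ∈ X, ∑ i : ι, y ^ span (g E i) ≤ M * Zt y C' m := by
  classical
  have hXf : X.Finite := (nset_finite (fun _ => True) n).subset fun E hE =>
    ⟨(hX E hE).1, trivial, (hX E hE).2⟩
  rw [finsum_mem_eq_finite_toFinset_sum _ hXf, zt_eq, ← Finset.sum_product']
  -- normal forms
  have hne : ∀ E : ES, IsPolygon E → (verts E).Nonempty := by
    intro E hE
    obtain ⟨e, he⟩ := hE.nonempty
    induction e using Sym2.ind with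
    | _ u v => exact ⟨u, mem_verts_left he⟩
  have hnf : ∀ E : ES, IsPolygon E → ∃ r : P3, Normed (shift r E) := fun E hE =>
    exists_normed (hne E hE)
  choose! r hr using hnf
  set Φ : ES × ι → (_ : ES) × μ := fun p => ⟨shift (r (g p.1 p.2)) (g p.1 p.2), mk p.1 p.2⟩ with hΦ
  have hinjΦ : Set.InjOn Φ (hXf.toFinset ×ˢ (Finset.univ : Finset ι) : Finset (ES × ι)) := by
    rintro ⟨E, i⟩ hE ⟨E', i'⟩ hE' heq
    rw [Finset.mem_coe, Finset.mem_product, Finite.mem_toFinset] at hE hE'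
    simp only [hΦ, Sigma.mk.injEq, heq_eq_eq] at heq
    obtain ⟨h1, h2⟩ := heq
    have h3 : g E' i' = shift (-(r (g E' i')) + r (g E i)) (g E i) := by
      have h4 := congrArg (shift (-(r (g E' i')))) h1
      rw [shift_shift, shift_shift, neg_add_cancel, shift_zero] at h4
      exact h4.symm
    obtain ⟨⟨r', hr'⟩, hi⟩ := hinj E hE.1 i E' hE'.1 i' _ h3 h2
    have h5 : r' = 0 := (hX E hE.1).2.1.eq_zero (hr' ▸ (hX E' hE'.1).2.1)
    rw [h5, shift_zero] at hr'
    rw [hr', hi]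
  have hpoly : ∀ p ∈ (hXf.toFinset ×ˢ (Finset.univ : Finset ι) : Finset (ES × ι)),
      Φ p ∈ (nset_finite C' m).toFinset.sigma S := by
    rintro ⟨E, i⟩ hE
    rw [Finset.mem_product, Finite.mem_toFinset] at hE
    obtain ⟨h1, h2, h3⟩ := hg E hE.1 i
    rw [Finset.mem_sigma, Finite.mem_toFinset]
    refine ⟨⟨isPolygon_shift h1 _, hC' _ _ (moveFacts.trans _ _) h2, hr _ h1, ?_⟩, hS E hE.1 i _⟩
    show (shift (r (g E i)) (g E i)).card = m
    rw [card_shift, h3]
  calc ∑ p ∈ hXf.toFinset ×ˢ (Finset.univ : Finset ι), y ^ span (g p.1 p.2)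
      = ∑ p ∈ hXf.toFinset ×ˢ (Finset.univ : Finset ι), y ^ span (Φ p).1 :=
        Finset.sum_congr rfl fun p _ => by
          show _ = y ^ span (shift (r (g p.1 p.2)) (g p.1 p.2))
          rw [span_shift']
    _ = ∑ q ∈ (hXf.toFinset ×ˢ (Finset.univ : Finset ι)).image Φ, y ^ span q.1 :=
        (Finset.sum_image (f := fun q : (_ : ES) × μ => y ^ span q.1) hinjΦ).symm
    _ ≤ ∑ q ∈ (nset_finite C' m).toFinset.sigma S, y ^ span q.1 := by
        refine Finset.sum_le_sum_of_subset_of_nonneg ?_ fun q _ _ => pow_nonneg hy _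
        exact Finset.image_subset_iff.2 hpoly
    _ = ∑ F ∈ (nset_finite C' m).toFinset, ((S F).card : ℝ) * y ^ span F := by
        rw [Finset.sum_sigma]
        exact Finset.sum_congr rfl fun F _ => by simp only [Finset.sum_const, nsmul_eq_mul]
    _ ≤ ∑ F ∈ (nset_finite C' m).toFinset, (M : ℝ) * y ^ span F := by
        refine Finset.sum_le_sum fun F hF => ?_
        rw [Finite.mem_toFinset] at hF
        refine mul_le_mul_of_nonneg_right ?_ (pow_nonneg hy _)
        exact_mod_cast hM F hF.1 hF.2.2.2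
    _ = M * ∑ F ∈ (nset_finite C' m).toFinset, y ^ span F := by rw [Finset.mul_sum]

end Pool.Agent.KTen
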