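import Pool.Agent.KTen.Splice
import Pool.Agent.LatticeTube.G1

/-! Numbers of edges, sections and straight levels. -/

set_option autoImplicit false

open Set

namespace Pool.Agent.KTen

open Pool.Agent.LK Pool.Agent.KTube

variable {E F : ES} {k : ℤ}

private theorem sec_adj {u v : P3} (h : Adj u v) :
    (u.2.2 = v.2.2) ∨ (v = (u.1, u.2.1, u.2.2 + 1)) ∨ (u = (v.1, v.2.1, v.2.2 + 1)) := by
  obtain ⟨u1, u2, u3⟩ := u
  obtain ⟨v1, v2, v3⟩ := v
  unfold Adj at h
  simp only at h
  have e1 := abs_nonneg (u1 - v1)
  have e2 := abs_nonneg (u2 - v2)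
  have e3 := abs_nonneg (u3 - v3)
  by_cases h3 : u3 = v3
  · exact Or.inl h3
  · right
    have h4 : 1 ≤ |u3 - v3| := Int.one_le_abs (sub_ne_zero.mpr h3)
    have a1 := abs_eq_zero.1 (show |u1 - v1| = 0 by omega)
    have a2 := abs_eq_zero.1 (show |u2 - v2| = 0 by omega)
    have h5 : |u3 - v3| = 1 := by omega
    have e1 : v1 = u1 := by omega
    have e2 : v2 = u2 := by omega
    subst e1 e2
    rcases (abs_eq (by norm_num : (0 : ℤ) ≤ 1)).mp h5 with h6 | h6
    · right
      have : u3 = v3 + 1 := by omega
      subst this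
      rfl
    · left
      have : v3 = u3 + 1 := by omega
      subst this
      rfl

theorem card_eq (hE : IsPolygon E) : E.card = hor E + ver E := by
  classical
  unfold hor ver
  rw [← Finset.card_filter_add_card_filter_not (s := E) (fun e => ∃ k : ℤ, ∀ u ∈ e, u.2.2 = k)]
  congr 1
  apply congrArg Finset.card
  apply Finset.filter_congr
  intro e he
  induction e using Sym2.ind with
  | _ u v =>
    have hadj := hE.adj u v he
    constructor
    · intro h
      rcases sec_adj hadj with h1 | h1 | h1
      · exfalso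
        apply h
        refine ⟨u.2.2, ?_⟩
        intro w hw
        rw [Sym2.mem_iff] at hw
        rcases hw with rfl | rfl
        · rfl
        · exact h1.symm
      · refine ⟨u.1, u.2.1, u.2.2, ?_⟩
        rw [h1]
      · refine ⟨v.1, v.2.1, v.2.2, ?_⟩
        rw [h1, Sym2.eq_swap]
    · rintro ⟨a, b, k, h1⟩ ⟨l, hl⟩
      rw [h1] at hl
      have h2 := hl (a, b, k) (Sym2.mem_mk_left _ _)
      have h3 := hl (a, b, k + 1) (Sym2.mem_mk_right _ _)
      simp only at h2 h3
      omega

private theorem ver_eq (E : ES) : Pool.Agent.LatticeTube.vert E = ver E := by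
  classical
  unfold Pool.Agent.LatticeTube.vert ver
  rw [← Set.ncard_coe_finset]
  congr 1
  ext e
  simp only [Set.mem_ofPred_eq, Finset.coe_filter]

private theorem levels_finite (E : ES) : {k : ℤ | (cross E k).Nonempty}.Finite := by
  refine ((verts_finite E).image (fun u : P3 => u.2.2)).subset ?_
  rintro k ⟨c, hc⟩
  exact ⟨(c.1, c.2, k), left_mem_verts hc, rfl⟩

private theorem isTwo_sub (E : ES) : {k : ℤ | IsTwo E k} ⊆ {k : ℤ | (cross E k).Nonempty} := by
  intro k hk
  have h : (cross E k).ncard = 2 := hk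
  exact Set.nonempty_of_ncard_ne_zero (by omega)

theorem numTwo_le (hE : IsPolygon E) : numTwo E ≤ span E :=
  Set.ncard_le_ncard (isTwo_sub E) (levels_finite E)

/-- A section with more than two edges has at least four. -/
theorem numTwo_ge (hE : IsPolygon E) : 4 * span E ≤ ver E + 2 * numTwo E := by
  have h := Pool.Agent.LatticeTube.sectionStatement.1 E hE
  rw [ver_eq] at h
  exact h

/-- Sections of polygons have at least two edges. -/
theorem two_span_le (hE : IsPolygon E) : 2 * span E ≤ ver E := by
  have h1 := numTwo_ge hE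
  have h2 := numTwo_le hE
  omega

/-- There are at least two horizontal edges. -/
theorem two_le_hor (hE : IsPolygon E) : 2 ≤ hor E := by
  classical
  have hne := hE.verts_nonempty
  obtain ⟨u, hu, hmax⟩ := Set.exists_max_image (verts E) (fun u : P3 => u.2.2) (verts_finite E) hne
  obtain ⟨v, hv, hmin⟩ := Set.exists_min_image (verts E) (fun u : P3 => u.2.2) (verts_finite E) hne
  have two : ∀ u ∈ verts E, ∃ p q, p ≠ q ∧ s(u, p) ∈ E ∧ s(u, q) ∈ E := by
    intro u hu
    obtain ⟨p, q, hpq, h⟩ := Set.ncard_eq_two.mp (hE.deg u hu)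
    refine ⟨p, q, hpq, ?_, ?_⟩
    · have : p ∈ {w | s(u, w) ∈ E} := by
        rw [h]
        exact Set.mem_insert _ _
      exact this
    · have : q ∈ {w | s(u, w) ∈ E} := by
        rw [h]
        exact Set.mem_insert_of_mem _ rfl
      exact this
  have hhor : ∀ a b : P3, s(a, b) ∈ E → a.2.2 = b.2.2 →
      s(a, b) ∈ E.filter fun e => ∃ k : ℤ, ∀ u ∈ e, u.2.2 = k := by
    intro a b hab h
    rw [Finset.mem_filter]
    refine ⟨hab, a.2.2, ?_⟩
    intro w hw
    rw [Sym2.mem_iff] at hw
    rcases hw with rfl | rfl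
    · rfl
    · exact h.symm
  have key : ∃ e1 e2 : Sym2 P3, e1 ≠ e2 ∧
      e1 ∈ (E.filter fun e => ∃ k : ℤ, ∀ u ∈ e, u.2.2 = k) ∧
      e2 ∈ (E.filter fun e => ∃ k : ℤ, ∀ u ∈ e, u.2.2 = k) := by
    obtain ⟨p, q, hpq, hp, hq⟩ := two u hu
    obtain ⟨p', q', hpq', hp', hq'⟩ := two v hv
    by_cases huv : u.2.2 = v.2.2
    · have hall : ∀ w ∈ verts E, w.2.2 = u.2.2 := by
        intro w hw
        have h1 := hmax w hw
        have h2 := hmin w hw
        omega
      refine ⟨s(u, p), s(u, q), ?_, hhor u p hp (hall p (right_mem_verts hp)).symm,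
        hhor u q hq (hall q (right_mem_verts hq)).symm⟩
      intro h
      rw [Sym2.eq_iff] at h
      rcases h with ⟨_, h⟩ | ⟨h1, h2⟩
      · exact hpq h
      · exact hpq (h2.trans h1)
    · have h1 : ∃ w, s(u, w) ∈ E ∧ u.2.2 = w.2.2 := by
        by_contra hcon
        push Not at hcon
        have hdown : ∀ w, s(u, w) ∈ E → w = (u.1, u.2.1, u.2.2 - 1) := by
          intro w hw
          have h2 := hmax w (right_mem_verts hw)
          rcases sec_adj (hE.adj u w hw) with h3 | h3 | h3
          · exact absurd h3 (hcon w hw)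
          · rw [h3] at h2
            simp only at h2
            omega
          · rw [h3]
            refine Prod.ext rfl (Prod.ext rfl ?_)
            simp only
            omega
        exact hpq ((hdown p hp).trans (hdown q hq).symm)
      have h1' : ∃ w, s(v, w) ∈ E ∧ v.2.2 = w.2.2 := by
        by_contra hcon
        push Not at hcon
        have hup : ∀ w, s(v, w) ∈ E → w = (v.1, v.2.1, v.2.2 + 1) := by
          intro w hw
          have h2 := hmin w (right_mem_verts hw)
          rcases sec_adj (hE.adj v w hw) with h3 | h3 | h3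
          · exact absurd h3 (hcon w hw)
          · exact h3
          · rw [h3] at h2
            simp only at h2
            omega
        exact hpq' ((hup p' hp').trans (hup q' hq').symm)
      obtain ⟨w, hw, hwz⟩ := h1
      obtain ⟨w', hw', hwz'⟩ := h1'
      refine ⟨s(u, w), s(v, w'), ?_, hhor u w hw hwz, hhor v w' hw' hwz'⟩
      intro h
      have h2 : u ∈ s(v, w') := by
        rw [← h]
        exact Sym2.mem_mk_left _ _
      rw [Sym2.mem_iff] at h2
      rcases h2 with h2 | h2
      · exact huv (by rw [h2])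
      · exact huv (by rw [h2, hwz'])
  obtain ⟨e1, e2, hne12, h1, h2⟩ := key
  unfold hor
  have h3 : ({e1, e2} : Finset (Sym2 P3)) ⊆ E.filter fun e => ∃ k : ℤ, ∀ u ∈ e, u.2.2 = k := by
    intro e he
    rw [Finset.mem_insert, Finset.mem_singleton] at he
    rcases he with rfl | rfl
    · exact h1
    · exact h2
  have h4 := Finset.card_le_card h3
  rw [Finset.card_pair hne12] at h4
  exact h4

theorem isTwo_finite (E : ES) : {k : ℤ | IsTwo E k}.Finite :=
  (levels_finite E).subset (isTwo_sub E)

theorem isStr_finite (E : ES) : {k : ℤ | IsStr E k}.Finite :=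
  (isTwo_finite E).subset fun _ hk => hk.1

/-- The nonempty sections are contiguous. -/
private theorem contiguous (hE : IsPolygon E) {j l : ℤ} (hk : (cross E k).Nonempty)
    (hl : (cross E l).Nonempty) (hkj : k ≤ j) (hjl : j ≤ l) : (cross E j).Nonempty := by
  obtain ⟨c, hc⟩ := hk
  obtain ⟨d, hd⟩ := hl
  have hpath := hE.conn _ (left_mem_verts hc) _ (right_mem_verts hd)
  have key : ∀ v, Relation.ReflTransGen (fun a b => s(a, b) ∈ E) (c.1, c.2, k) v → j < v.2.2 →
      (cross E j).Nonempty := by
    intro v hv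
    induction hv with
    | refl =>
      intro h
      simp only at h
      omega
    | @tail a b hab hb ih =>
      intro h
      by_cases h1 : j < a.2.2
      · exact ih h1
      · rcases sec_adj (hE.adj a b hb) with h2 | h2 | h2
        · omega
        · have h3 : a.2.2 = j := by
            rw [h2] at h
            simp only at h
            omega
          refine ⟨(a.1, a.2.1), ?_⟩
          show s((a.1, a.2.1, j), (a.1, a.2.1, j + 1)) ∈ E
          rw [← h3]
          rw [h2] at hb
          exact hb
        · rw [h2] at h1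
          simp only at h1
          omega
  apply key _ hpath
  show j < l + 1
  omega

/-- **Many straight levels.** -/
theorem numStr_ge (hE : IsPolygon E) : 3 * span E ≤ numStr E + 1 + hor E + ver E := by
  classical
  have h4 := numTwo_ge hE
  rcases Nat.eq_zero_or_pos (span E) with h0 | hpos
  · rw [h0]
    omega
  set S : Finset ℤ := (levels_finite E).toFinset with hS
  have hmS : ∀ k, k ∈ S ↔ (cross E k).Nonempty := fun k => by
    rw [hS, Set.Finite.mem_toFinset]
    rfl
  have hScard : S.card = span E := by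
    unfold span
    rw [hS, Set.ncard_eq_toFinset_card _ (levels_finite E)]
  have hSne : S.Nonempty := by
    rw [← Finset.card_pos, hScard]
    exact hpos
  set A : Finset ℤ := (isStr_finite E).toFinset with hA
  have hmA : ∀ k, k ∈ A ↔ IsStr E k := fun k => by
    rw [hA, Set.Finite.mem_toFinset]
    rfl
  have hAcard : A.card = numStr E := by
    unfold numStr
    rw [hA, Set.ncard_eq_toFinset_card _ (isStr_finite E)]
  set H : Finset (Sym2 P3) := E.filter fun e => ∃ k : ℤ, ∀ u ∈ e, u.2.2 = k with hH
  have hHcard : H.card = hor E := rfl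
  let lev : Sym2 P3 → ℤ := fun e => (Quot.out e).1.2.2 - 1
  set B : Finset ℤ := H.image lev with hB
  have hBcard : B.card ≤ hor E := Finset.card_image_le
  have hmB : ∀ u v : P3, s(u, v) ∈ E → u.2.2 = v.2.2 → u.2.2 - 1 ∈ B := by
    intro u v huv h
    rw [hB, Finset.mem_image]
    refine ⟨s(u, v), ?_, ?_⟩
    · rw [hH, Finset.mem_filter]
      refine ⟨huv, u.2.2, ?_⟩
      intro w hw
      rw [Sym2.mem_iff] at hw
      rcases hw with rfl | rfl
      · rfl
      · exact h.symm
    · have h1 : (Quot.out s(u, v)).1 ∈ s(u, v) := Sym2.out_fst_mem _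
      rw [Sym2.mem_iff] at h1
      change (Quot.out s(u, v)).1.2.2 - 1 = u.2.2 - 1
      rcases h1 with h1 | h1
      · rw [h1]
      · rw [h1, h]
  set T : Finset ℤ := (isTwo_finite E).toFinset with hT
  have hmT : ∀ k, k ∈ T ↔ IsTwo E k := fun k => by
    rw [hT, Set.Finite.mem_toFinset]
    rfl
  have hTcard : T.card = numTwo E := by
    unfold numTwo
    rw [hT, Set.ncard_eq_toFinset_card _ (isTwo_finite E)]
  have hTS : T ⊆ S := by
    intro k hk
    rw [hmT] at hk
    rw [hmS]
    exact isTwo_sub E hk
  set C : Finset ℤ := S \ T with hC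
  have hCcard : C.card + numTwo E = span E := by
    rw [hC, Finset.card_sdiff_of_subset hTS, hTcard, hScard]
    have := numTwo_le hE
    omega
  set D : Finset ℤ := C.image (fun k => k - 1) with hD
  have hDcard : D.card ≤ C.card := Finset.card_image_le
  have hsub : S ⊆ A ∪ B ∪ C ∪ D ∪ {S.max' hSne} := by
    intro k hk
    by_contra hcon
    simp only [Finset.mem_union, Finset.mem_singleton, not_or] at hcon
    obtain ⟨⟨⟨⟨hkA, hkB⟩, hkC⟩, hkD⟩, hkm⟩ := hcon
    apply hkA
    rw [hmA]
    have hk1 : k + 1 ∈ S := by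
      have h5 : k < S.max' hSne := lt_of_le_of_ne (S.le_max' k hk) hkm
      rw [hmS]
      exact contiguous hE ((hmS k).mp hk) ((hmS _).mp (S.max'_mem hSne)) (by omega) (by omega)
    have hkT : k ∈ T := by
      by_contra h
      exact hkC (Finset.mem_sdiff.mpr ⟨hk, h⟩)
    have hk1T : k + 1 ∈ T := by
      by_contra h
      apply hkD
      rw [hD, Finset.mem_image]
      exact ⟨k + 1, Finset.mem_sdiff.mpr ⟨hk1, h⟩, by ring⟩
    refine ⟨(hmT _).mp hkT, (hmT _).mp hk1T, ?_⟩
    intro u v huv hu hv
    apply hkB
    have h5 := hmB u v huv (by omega)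
    rwa [hu, add_sub_cancel_right] at h5
  have h5 := Finset.card_le_card hsub
  have h6 := Finset.card_union_le (A ∪ B ∪ C ∪ D) {S.max' hSne}
  have h7 := Finset.card_union_le (A ∪ B ∪ C) D
  have h8 := Finset.card_union_le (A ∪ B) C
  have h9 := Finset.card_union_le A B
  rw [Finset.card_singleton] at h6
  omega

end Pool.Agent.KTen
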