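import Pool.Agent.KTen.SpliceType
import Pool.Agent.KTen.Sections
import Pool.Agent.KTen.Count
import Pool.Agent.KTen.Conn
import Pool.Agent.KTen.SpliceShift
import Pool.Agent.MP_aea6d5_co.Geo
import Pool.Agent.MP_aea6d5_co.PolyClosed

/-! Adding a cap at the top and at the bottom. -/

set_option autoImplicit false

open Set

namespace Pool.Agent.KTen

open Pool.Agent.LK Pool.Agent.KTube

variable {C : ES → Prop} {E : ES} {n : ℕ} {y : ℝ}

/-- The first and the last section have two edges, the part below the first one and the part above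
the last one are unknotted. -/
def Capped (E : ES) : Prop := ∃ s t : ℤ, (∀ k, (cross E k).Nonempty → s ≤ k ∧ k ≤ t) ∧
  IsTwo E s ∧ IsTwo E t ∧ LowU E s ∧ UppU E t

/-! ### Extremal horizontal edges -/

/-- `p, p + d` is a horizontal edge at the extremal level in direction `σ = ±1`. -/
private def BP (σ : ℤ) (E : ES) (p d : P3) : Prop :=
  s(p, p + d) ∈ E ∧ IsUnit3 d ∧ d.2.2 = 0 ∧ ∀ u ∈ verts E, σ * u.2.2 ≤ σ * p.2.2

private theorem unit_eq {σ : ℤ} (hσ : σ = 1 ∨ σ = -1) {d : P3} (hd : IsUnit3 d)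
    (h0 : d.2.2 ≠ 0) (h : σ * d.2.2 ≤ 0) : d = (0, 0, -σ) := by
  rw [isUnit3_iff] at hd
  rcases hd with rfl | rfl | rfl | rfl | rfl | rfl
  · exact absurd rfl h0
  · exact absurd rfl h0
  · exact absurd rfl h0
  · exact absurd rfl h0
  · have : -σ = 1 := by
      simp only at h
      rcases hσ with rfl | rfl <;> omega
    rw [this]
  · have : -σ = -1 := by
      simp only at h
      rcases hσ with rfl | rfl <;> omega
    rw [this]

private theorem bp_exists {σ : ℤ} (hσ : σ = 1 ∨ σ = -1) (hE : IsPolygon E) :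
    ∃ p d, BP σ E p d := by
  obtain ⟨u, hu, hmax⟩ := Set.exists_max_image (verts E) (fun v => σ * v.2.2) (verts_finite E)
    hE.verts_nonempty
  obtain ⟨d, d', hd, hd', hne, h1, h2, -⟩ := hE.two hu
  have hle : ∀ d : P3, s(u, u + d) ∈ E → σ * d.2.2 ≤ 0 := by
    intro d h1
    have := hmax _ (right_mem_verts h1)
    simp only [Prod.snd_add, mul_add] at this
    omega
  by_cases h0 : d.2.2 = 0
  · exact ⟨u, d, h1, hd, h0, hmax⟩
  · by_cases h0' : d'.2.2 = 0
    · exact ⟨u, d', h2, hd', h0', hmax⟩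
    · exfalso
      apply hne
      rw [unit_eq hσ hd h0 (hle d h1), unit_eq hσ hd' h0' (hle d' h2)]

section bump

variable {σ : ℤ} {p d : P3}

private theorem bp_unit (hσ : σ = 1 ∨ σ = -1) : IsUnit3 ((0, 0, σ) : P3) := by
  rcases hσ with rfl | rfl <;> simp [IsUnit3, Adj]

private theorem bp_new (hσ : σ = 1 ∨ σ = -1) (h : BP σ E p d) :
    p + (0, 0, σ) ∉ verts E ∧ p + d + (0, 0, σ) ∉ verts E := by
  obtain ⟨h1, h2, h3, h4⟩ := h
  constructor
  · intro hc
    have := h4 _ hc
    simp only [Prod.snd_add] at this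
    rcases hσ with rfl | rfl <;> omega
  · intro hc
    have := h4 _ hc
    simp only [Prod.snd_add, h3] at this
    rcases hσ with rfl | rfl <;> omega

private theorem card_bump' {E : Finset (Sym2 P3)} {x y d : P3} (he : s(x, y) ∈ E) (hne : x ≠ y)
    (hx : x + d ∉ verts E) (hy : y + d ∉ verts E) : (bump E x y d).card = E.card + 2 := by
  have hxv : x ∈ verts E := left_mem_verts he
  have hyv : y ∈ verts E := right_mem_verts he
  have h1 : x ≠ x + d := fun h => hx (h ▸ hxv)
  have h2 : x ≠ y + d := fun h => hy (h ▸ hxv)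
  have h3 : y ≠ x + d := fun h => hx (h ▸ hyv)
  have h4 : y ≠ y + d := fun h => hy (h ▸ hyv)
  have h5 : x + d ≠ y + d := fun h => hne (add_right_cancel h)
  have hcard : ({s(x, x + d), s(x + d, y + d), s(y + d, y)} : Finset (Sym2 P3)).card = 3 := by
    rw [Finset.card_eq_three]
    refine ⟨_, _, _, ?_, ?_, ?_, rfl⟩
    · intro h
      rcases Sym2.eq_iff.1 h with ⟨h6, -⟩ | ⟨h6, -⟩
      · exact h1 h6
      · exact h2 h6
    · intro h
      rcases Sym2.eq_iff.1 h with ⟨h6, -⟩ | ⟨h6, -⟩
      · exact h2 h6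
      · exact hne h6
    · intro h
      rcases Sym2.eq_iff.1 h with ⟨h6, -⟩ | ⟨h6, -⟩
      · exact h5 h6
      · exact h3 h6.symm
  have hdis : Disjoint (E \ {s(x, y)}) {s(x, x + d), s(x + d, y + d), s(y + d, y)} := by
    rw [Finset.disjoint_left]
    intro e h6 h7
    rw [Finset.mem_sdiff] at h6
    simp only [Finset.mem_insert, Finset.mem_singleton] at h7
    rcases h7 with h7 | h7 | h7
    · subst h7; exact hx (right_mem_verts h6.1)
    · subst h7; exact hx (left_mem_verts h6.1)
    · subst h7; exact hy (left_mem_verts h6.1)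
  unfold bump
  rw [Finset.card_union_of_disjoint hdis, hcard, Finset.card_sdiff_of_subset (by simpa using he),
    Finset.card_singleton]
  have : 0 < E.card := Finset.card_pos.2 ⟨_, he⟩
  omega

/-- The basic facts. -/
private theorem bp_facts (hσ : σ = 1 ∨ σ = -1) (hE : IsPolygon E) (h : BP σ E p d) :
    IsPolygon (bump E p (p + d) (0, 0, σ)) ∧ SameType E (bump E p (p + d) (0, 0, σ)) ∧
      (bump E p (p + d) (0, 0, σ)).card = E.card + 2 := by
  obtain ⟨n1, n2⟩ := bp_new hσ h
  exact ⟨isPolygon_bump hE h.1 (bp_unit hσ) n1 n2, moveFacts.bump E _ _ _ hE h.1 (bp_unit hσ) n1 n2,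
    card_bump' h.1 (hE.adj _ _ h.1).ne n1 n2⟩

/-- The edges of the new polygon. -/
private theorem bp_mem (u v : P3) : s(u, v) ∈ bump E p (p + d) (0, 0, σ) ↔
    (s(u, v) ∈ E ∧ s(u, v) ≠ s(p, p + d)) ∨ s(u, v) = s(p, p + (0, 0, σ)) ∨
      s(u, v) = s(p + (0, 0, σ), p + d + (0, 0, σ)) ∨ s(u, v) = s(p + d + (0, 0, σ), p + d) :=
  mem_bump

private theorem bp_verts (hσ : σ = 1 ∨ σ = -1) (h : BP σ E p d) {u : P3}
    (hu : u ∈ verts (bump E p (p + d) (0, 0, σ))) : σ * u.2.2 ≤ σ * p.2.2 + 1 := by
  have h3 := h.2.2.1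
  rcases verts_bump h.1 hu with h1 | h1 | h1
  · have := h.2.2.2 u h1
    omega
  · subst h1
    simp only [Prod.snd_add]
    rcases hσ with rfl | rfl <;> omega
  · subst h1
    simp only [Prod.snd_add, h3]
    rcases hσ with rfl | rfl <;> omega

/-- The plane of the new vertical edges. -/
private def pl (σ : ℤ) (p : P3) : ℤ := min p.2.2 (p.2.2 + σ)

private theorem bp_cross_old (hσ : σ = 1 ∨ σ = -1) (h : BP σ E p d) : cross E (pl σ p) = ∅ := by
  rw [Set.eq_empty_iff_forall_notMem]
  rintro ⟨a, b⟩ hc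
  rw [mem_cross] at hc
  have h1 := h.2.2.2 _ (left_mem_verts hc)
  have h2 := h.2.2.2 _ (right_mem_verts hc)
  unfold pl at h1 h2
  rcases hσ with rfl | rfl
  · simp only at h1 h2
    omega
  · simp only at h1 h2
    omega

private theorem bp_cross_new (hσ : σ = 1 ∨ σ = -1) (h : BP σ E p d) :
    cross (bump E p (p + d) (0, 0, σ)) (pl σ p) =
      {(p.1, p.2.1), (p.1 + d.1, p.2.1 + d.2.1)} := by
  have h3 := h.2.2.1
  obtain ⟨p1, p2, p3⟩ := p
  obtain ⟨d1, d2, d3⟩ := d
  simp only at h3
  subst h3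
  have hold : ∀ a b : ℤ,
      s(((a, b, pl σ (p1, p2, p3)) : P3), (a, b, pl σ (p1, p2, p3) + 1)) ∉ E := by
    intro a b hc
    have : (a, b) ∈ cross E (pl σ (p1, p2, p3)) := hc
    rw [bp_cross_old hσ h] at this
    exact this
  clear h
  ext ⟨a, b⟩
  rw [mem_cross, bp_mem]
  simp only [hold a b, false_and, false_or]
  clear hold
  simp only [Sym2.eq_iff, Prod.mk.injEq, Prod.mk_add_mk, mem_insert_iff, mem_singleton_iff,
    add_zero]
  rcases hσ with rfl | rfl
  · have hpl : pl 1 (p1, p2, p3) = p3 := by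
      unfold pl
      simp only
      omega
    rw [hpl]
    constructor
    · rintro (h1 | h1 | h1) <;> omega
    · rintro (h1 | h1)
      · left
        left
        omega
      · right
        right
        right
        omega
  · have hpl : pl (-1) (p1, p2, p3) = p3 - 1 := by
      unfold pl
      simp only
      omega
    rw [hpl]
    constructor
    · rintro (h1 | h1 | h1) <;> omega
    · rintro (h1 | h1)
      · left
        right
        omega
      · right
        right
        left
        omega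

private theorem bp_cross_ne (hσ : σ = 1 ∨ σ = -1) (h : BP σ E p d) {k : ℤ} (hk : k ≠ pl σ p) :
    cross (bump E p (p + d) (0, 0, σ)) k = cross E k := by
  have h3 := h.2.2.1
  obtain ⟨p1, p2, p3⟩ := p
  obtain ⟨d1, d2, d3⟩ := d
  simp only at h3
  subst h3
  ext ⟨a, b⟩
  rw [mem_cross, mem_cross, bp_mem]
  simp only [ne_eq, Sym2.eq_iff, Prod.mk.injEq, Prod.mk_add_mk]
  unfold pl at hk
  simp only at hk
  rcases hσ with rfl | rfl
  · constructor
    · rintro (⟨h1, -⟩ | h1 | h1 | h1)
      · exact h1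
      all_goals omega
    · intro h1
      exact Or.inl ⟨h1, by omega⟩
  · constructor
    · rintro (⟨h1, -⟩ | h1 | h1 | h1)
      · exact h1
      all_goals omega
    · intro h1
      exact Or.inl ⟨h1, by omega⟩

private theorem planes_finite (E : ES) : {k : ℤ | (cross E k).Nonempty}.Finite := by
  refine ((verts_finite E).image fun u => u.2.2).subset ?_
  rintro k ⟨⟨a, b⟩, hc⟩
  exact ⟨(a, b, k), left_mem_verts hc, rfl⟩

private theorem bp_span (hσ : σ = 1 ∨ σ = -1) (h : BP σ E p d) :
    span (bump E p (p + d) (0, 0, σ)) = span E + 1 := by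
  unfold span
  have h1 : {k : ℤ | (cross (bump E p (p + d) (0, 0, σ)) k).Nonempty} =
      insert (pl σ p) {k : ℤ | (cross E k).Nonempty} := by
    ext k
    rw [mem_insert_iff]
    by_cases hk : k = pl σ p
    · subst hk
      simp only [mem_ofPred_eq, true_or, iff_true]
      rw [bp_cross_new hσ h]
      exact ⟨_, mem_insert _ _⟩
    · simp only [mem_ofPred_eq, hk, false_or]
      rw [bp_cross_ne hσ h hk]
  rw [h1, Set.ncard_insert_of_notMem _ (planes_finite E)]
  intro hc
  have hc' : (cross E (pl σ p)).Nonempty := hc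
  rw [bp_cross_old hσ h] at hc'
  exact Set.not_nonempty_empty hc'

private theorem bp_two (hσ : σ = 1 ∨ σ = -1) (h : BP σ E p d) :
    IsTwo (bump E p (p + d) (0, 0, σ)) (pl σ p) := by
  unfold IsTwo
  rw [bp_cross_new hσ h]
  apply Set.ncard_pair
  have h2 := h.2.1
  have h3 := h.2.2.1
  rw [isUnit3_iff] at h2
  rw [ne_eq, Prod.mk.injEq]
  rcases h2 with rfl | rfl | rfl | rfl | rfl | rfl <;> simp_all

/-- Recovering the old edges from the new ones. -/
private theorem bp_old (hσ : σ = 1 ∨ σ = -1) (h : BP σ E p d) (u v : P3) :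
    s(u, v) ∈ E ↔ (s(u, v) ∈ bump E p (p + d) (0, 0, σ) ∧ u.2.2 ≠ p.2.2 + σ ∧
      v.2.2 ≠ p.2.2 + σ) ∨ s(u, v) = s(p, p + d) := by
  have h3 := h.2.2.1
  constructor
  · intro huv
    by_cases he : s(u, v) = s(p, p + d)
    · exact Or.inr he
    · left
      have h1 := h.2.2.2 _ (left_mem_verts huv)
      have h2 := h.2.2.2 _ (right_mem_verts huv)
      refine ⟨(bp_mem u v).mpr (Or.inl ⟨huv, he⟩), ?_, ?_⟩
      · rcases hσ with rfl | rfl <;> omega
      · rcases hσ with rfl | rfl <;> omega
  · rintro (⟨huv, hu, hv⟩ | he)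
    · rw [bp_mem] at huv
      rcases huv with ⟨h1, -⟩ | h1 | h1 | h1
      · exact h1
      · exfalso
        rw [Sym2.eq_iff] at h1
        rcases h1 with ⟨-, rfl⟩ | ⟨rfl, -⟩
        · exact hv rfl
        · exact hu rfl
      · exfalso
        rw [Sym2.eq_iff] at h1
        rcases h1 with ⟨rfl, -⟩ | ⟨-, rfl⟩
        · exact hu rfl
        · exact hv rfl
      · exfalso
        rw [Sym2.eq_iff] at h1
        rcases h1 with ⟨rfl, -⟩ | ⟨-, rfl⟩
        · exact hu (by simp [h3])
        · exact hv (by simp [h3])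
    · rw [he]
      exact h.1

private theorem bp_inj (hσ : σ = 1 ∨ σ = -1) {E' : ES} {p' d' r : P3} (h : BP σ E p d)
    (h' : BP σ E' p' d')
    (hr : bump E' p' (p' + d') (0, 0, σ) = shift r (bump E p (p + d) (0, 0, σ))) :
    E' = shift r E := by
  have h3 := h.2.2.1
  have h3' := h'.2.2.1
  -- the top edges
  have e1 : s(p + (0, 0, σ), p + d + (0, 0, σ)) ∈ bump E p (p + d) (0, 0, σ) :=
    (bp_mem _ _).mpr (Or.inr (Or.inr (Or.inl rfl)))
  have e1' : s(p' + (0, 0, σ), p' + d' + (0, 0, σ)) ∈ bump E' p' (p' + d') (0, 0, σ) :=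
    (bp_mem _ _).mpr (Or.inr (Or.inr (Or.inl rfl)))
  have hlev : p'.2.2 = p.2.2 + r.2.2 := by
    have a1 : σ * (p'.2.2 + σ - r.2.2) ≤ σ * p.2.2 + 1 := by
      have := e1'
      rw [hr, mem_shift] at this
      exact bp_verts hσ h (left_mem_verts this)
    have a2 : σ * (p.2.2 + σ + r.2.2) ≤ σ * p'.2.2 + 1 := by
      have : s(p + (0, 0, σ) + r, p + d + (0, 0, σ) + r) ∈ bump E' p' (p' + d') (0, 0, σ) := by
        rw [hr, mem_shift, add_sub_cancel_right, add_sub_cancel_right]
        exact e1
      exact bp_verts hσ h' (left_mem_verts this)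
    rcases hσ with rfl | rfl <;> omega
  have hedge : s(p' - r, p' + d' - r) = s(p, p + d) := by
    have h1 := e1'
    rw [hr, mem_shift, bp_mem] at h1
    have l1 : (p' + (0, 0, σ) - r).2.2 = p.2.2 + σ := by
      simp only [Prod.snd_add, Prod.snd_sub]
      omega
    have l2 : (p' + d' + (0, 0, σ) - r).2.2 = p.2.2 + σ := by
      simp only [Prod.snd_add, Prod.snd_sub, h3']
      omega
    have hσ0 : σ ≠ 0 := by rcases hσ with rfl | rfl <;> norm_num
    rcases h1 with ⟨h1, -⟩ | h1 | h1 | h1
    · exfalso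
      have := h.2.2.2 _ (left_mem_verts h1)
      rw [l1] at this
      rcases hσ with rfl | rfl <;> omega
    · exfalso
      rw [Sym2.eq_iff] at h1
      rcases h1 with ⟨h1, -⟩ | ⟨-, h1⟩
      · rw [h1] at l1
        omega
      · rw [h1] at l2
        omega
    · rw [Sym2.eq_iff] at h1 ⊢
      rcases h1 with ⟨h1, h2⟩ | ⟨h1, h2⟩
      · left
        constructor
        · have := congrArg (fun z : P3 => z - (0, 0, σ)) h1
          simp only [add_sub_cancel_right] at this
          rw [← this]
          abel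
        · have := congrArg (fun z : P3 => z - (0, 0, σ)) h2
          simp only [add_sub_cancel_right] at this
          rw [← this]
          abel
      · right
        constructor
        · have := congrArg (fun z : P3 => z - (0, 0, σ)) h1
          simp only [add_sub_cancel_right] at this
          rw [← this]
          abel
        · have := congrArg (fun z : P3 => z - (0, 0, σ)) h2
          simp only [add_sub_cancel_right] at this
          rw [← this]
          abel
    · exfalso
      rw [Sym2.eq_iff] at h1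
      rcases h1 with ⟨-, h1⟩ | ⟨h1, -⟩
      · rw [h1] at l2
        simp only [Prod.snd_add, h3] at l2
        omega
      · rw [h1] at l1
        simp only [Prod.snd_add, h3] at l1
        omega
  apply edge_ext
  intro u v
  rw [mem_shift, bp_old hσ h', bp_old hσ h, hr, mem_shift]
  have k1 : s(u, v) = s(p', p' + d') ↔ s(u - r, v - r) = s(p, p + d) := by
    rw [← hedge, Sym2.eq_iff, Sym2.eq_iff, sub_left_inj, sub_left_inj, sub_left_inj, sub_left_inj]
  rw [k1]
  simp only [Prod.snd_sub]
  constructor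
  · rintro (⟨h1, h2, h4⟩ | h1)
    · exact Or.inl ⟨h1, by omega, by omega⟩
    · exact Or.inr h1
  · rintro (⟨h1, h2, h4⟩ | h1)
    · exact Or.inl ⟨h1, by omega, by omega⟩
    · exact Or.inr h1

/-! ### The cap -/

/-- The unit square at `p` with the directions `d` and `(0, 0, σ)`. -/
private def sq (σ : ℤ) (p d : P3) : ES :=
  {s(p, p + d), s(p + d, p + d + (0, 0, σ)), s(p + d + (0, 0, σ), p + (0, 0, σ)),
    s(p + (0, 0, σ), p)}

private theorem mem_sq (u v : P3) : s(u, v) ∈ sq σ p d ↔ s(u, v) = s(p, p + d) ∨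
    s(u, v) = s(p + d, p + d + (0, 0, σ)) ∨
    s(u, v) = s(p + d + (0, 0, σ), p + (0, 0, σ)) ∨ s(u, v) = s(p + (0, 0, σ), p) := by
  unfold sq
  simp only [Finset.mem_insert, Finset.mem_singleton]

private theorem sq_facts (hσ : σ = 1 ∨ σ = -1) (hd : IsUnit3 d) (h0 : d.2.2 = 0) :
    IsPolygon (sq σ p d) ∧ Unknotted (sq σ p d) := by
  have hF : Frame d (0, 0, σ) (-d.2.1, d.1, 0) := by
    rw [isUnit3_iff] at hd
    rcases hσ with rfl | rfl <;>
    rcases hd with rfl | rfl | rfl | rfl | rfl | rfl <;>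
    first
      | (exfalso; revert h0; decide)
      | exact ⟨by simp [dot3], by simp [dot3], by simp [dot3], by simp [dot3], by simp [dot3],
          by simp [dot3]⟩
  have hsq : sq σ p d = mapE (latIso p d (0, 0, σ) (-d.2.1, d.1, 0)) square := by
    unfold sq mapE square
    simp only [Finset.image_insert, Finset.image_singleton, Sym2.map_mk, latIso, zero_smul,
      one_smul, add_zero]
  rw [hsq]
  exact ⟨isPolygon_latIso hF p isPolygon_square, (unknotted_latIso hF p square).mpr
    unknotted_square⟩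

private theorem cross_sq (hσ : σ = 1 ∨ σ = -1) (h0 : d.2.2 = 0) :
    cross (sq σ p d) (pl σ p) = {(p.1, p.2.1), (p.1 + d.1, p.2.1 + d.2.1)} := by
  obtain ⟨p1, p2, p3⟩ := p
  obtain ⟨d1, d2, d3⟩ := d
  simp only at h0
  subst h0
  ext ⟨a, b⟩
  rw [mem_cross, mem_sq]
  simp only [Sym2.eq_iff, Prod.mk.injEq, Prod.mk_add_mk, mem_insert_iff, mem_singleton_iff,
    add_zero]
  rcases hσ with rfl | rfl
  · have hpl : pl 1 (p1, p2, p3) = p3 := by
      unfold pl
      simp only
      omega
    rw [hpl]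
    constructor
    · rintro (h1 | h1 | h1 | h1) <;> omega
    · rintro (h1 | h1)
      · right
        right
        right
        right
        omega
      · right
        left
        left
        omega
  · have hpl : pl (-1) (p1, p2, p3) = p3 - 1 := by
      unfold pl
      simp only
      omega
    rw [hpl]
    constructor
    · rintro (h1 | h1 | h1 | h1) <;> omega
    · rintro (h1 | h1)
      · right
        right
        right
        left
        omega
      · right
        left
        right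
        omega

private theorem bp_top (h : BP 1 E p d) :
    UppU (bump E p (p + d) (0, 0, 1)) p.2.2 := by
  have hpl : pl 1 p = p.2.2 := by
    unfold pl
    omega
  obtain ⟨q1, q2⟩ := sq_facts (p := p) (Or.inl rfl) h.2.1 h.2.2.1
  refine ⟨sq 1 p d, q1, ?_, ?_⟩
  · rw [← hpl, cross_sq (Or.inl rfl) h.2.2.1, bp_cross_new (Or.inl rfl) h]
  · have hs : splice (sq 1 p d) (bump E p (p + d) (0, 0, 1)) p.2.2 = sq 1 p d := by
      have h3 := h.2.2.1
      apply edge_ext
      intro u v
      rw [mem_splice]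
      constructor
      · rintro (⟨h1, -⟩ | ⟨h1, h2⟩)
        · exact h1
        · rw [bp_mem] at h1
          rw [mem_sq]
          rcases h1 with ⟨h1, -⟩ | h1 | h1 | h1
          · exfalso
            have a1 := h.2.2.2 _ (left_mem_verts h1)
            have a2 := h.2.2.2 _ (right_mem_verts h1)
            omega
          · right; right; right
            rw [h1, Sym2.eq_swap]
          · right; right; left
            rw [h1, Sym2.eq_swap]
          · right; left
            rw [h1, Sym2.eq_swap]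
      · intro h1
        by_cases h2 : u.2.2 ≤ p.2.2 ∨ v.2.2 ≤ p.2.2
        · exact Or.inl ⟨h1, h2⟩
        · right
          push Not at h2
          refine ⟨?_, Or.inl (by omega)⟩
          rw [bp_mem]
          rw [mem_sq] at h1
          rcases h1 with h1 | h1 | h1 | h1
          · exfalso
            rw [Sym2.eq_iff] at h1
            rcases h1 with ⟨rfl, -⟩ | ⟨-, rfl⟩
            · omega
            · omega
          · right; right; right
            rw [h1, Sym2.eq_swap]
          · right; right; left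
            rw [h1, Sym2.eq_swap]
          · right; left
            rw [h1, Sym2.eq_swap]
    rw [hs]
    exact q2

private theorem bp_bot (h : BP (-1) E p d) :
    LowU (bump E p (p + d) (0, 0, -1)) (p.2.2 - 1) := by
  have hpl : pl (-1) p = p.2.2 - 1 := by
    unfold pl
    omega
  obtain ⟨q1, q2⟩ := sq_facts (p := p) (Or.inr rfl) h.2.1 h.2.2.1
  refine ⟨sq (-1) p d, q1, ?_, ?_⟩
  · rw [← hpl, cross_sq (Or.inr rfl) h.2.2.1, bp_cross_new (Or.inr rfl) h]
  · have hs : splice (bump E p (p + d) (0, 0, -1)) (sq (-1) p d) (p.2.2 - 1) = sq (-1) p d := by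
      have h3 := h.2.2.1
      apply edge_ext
      intro u v
      rw [mem_splice]
      constructor
      · rintro (⟨h1, h2⟩ | ⟨h1, -⟩)
        · rw [bp_mem] at h1
          rw [mem_sq]
          rcases h1 with ⟨h1, -⟩ | h1 | h1 | h1
          · exfalso
            have a1 := h.2.2.2 _ (left_mem_verts h1)
            have a2 := h.2.2.2 _ (right_mem_verts h1)
            omega
          · right; right; right
            rw [h1, Sym2.eq_swap]
          · right; right; left
            rw [h1, Sym2.eq_swap]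
          · right; left
            rw [h1, Sym2.eq_swap]
        · exact h1
      · intro h1
        by_cases h2 : p.2.2 - 1 + 1 ≤ u.2.2 ∨ p.2.2 - 1 + 1 ≤ v.2.2
        · exact Or.inr ⟨h1, h2⟩
        · left
          push Not at h2
          refine ⟨?_, Or.inl (by omega)⟩
          rw [bp_mem]
          rw [mem_sq] at h1
          rcases h1 with h1 | h1 | h1 | h1
          · exfalso
            rw [Sym2.eq_iff] at h1
            rcases h1 with ⟨rfl, -⟩ | ⟨-, rfl⟩
            · omega
            · omega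
          · right; right; right
            rw [h1, Sym2.eq_swap]
          · right; right; left
            rw [h1, Sym2.eq_swap]
          · right; left
            rw [h1, Sym2.eq_swap]
    rw [hs]
    exact q2

/-- Changing the lowest level does not change the part above a higher plane. -/
private theorem bp_upp (h : BP (-1) E p d) {t : ℤ} (ht : p.2.2 ≤ t) (hU : UppU E t) :
    UppU (bump E p (p + d) (0, 0, -1)) t := by
  have h3 := h.2.2.1
  have hpl : pl (-1) p = p.2.2 - 1 := by
    unfold pl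
    omega
  obtain ⟨G, g1, g2, g3⟩ := hU
  refine ⟨G, g1, ?_, ?_⟩
  · rw [g2, bp_cross_ne (Or.inr rfl) h (by omega)]
  · have hs : splice G (bump E p (p + d) (0, 0, -1)) t = splice G E t := by
      apply edge_ext
      intro u v
      rw [mem_splice, mem_splice]
      have key : (s(u, v) ∈ bump E p (p + d) (0, 0, -1) ∧ (t + 1 ≤ u.2.2 ∨ t + 1 ≤ v.2.2)) ↔
          (s(u, v) ∈ E ∧ (t + 1 ≤ u.2.2 ∨ t + 1 ≤ v.2.2)) := by
        constructor
        · rintro ⟨h1, h2⟩
          refine ⟨?_, h2⟩
          rw [bp_mem] at h1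
          rcases h1 with ⟨h1, -⟩ | h1 | h1 | h1
          · exact h1
          · exfalso
            rw [Sym2.eq_iff] at h1
            rcases h1 with ⟨rfl, rfl⟩ | ⟨rfl, rfl⟩ <;>
              simp only [Prod.snd_add] at h2 <;> omega
          · exfalso
            rw [Sym2.eq_iff] at h1
            rcases h1 with ⟨rfl, rfl⟩ | ⟨rfl, rfl⟩ <;>
              simp only [Prod.snd_add, h3] at h2 <;> omega
          · exfalso
            rw [Sym2.eq_iff] at h1
            rcases h1 with ⟨rfl, rfl⟩ | ⟨rfl, rfl⟩ <;>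
              simp only [Prod.snd_add, h3] at h2 <;> omega
        · rintro ⟨h1, h2⟩
          refine ⟨?_, h2⟩
          rw [bp_mem]
          left
          refine ⟨h1, ?_⟩
          intro h4
          rw [Sym2.eq_iff] at h4
          rcases h4 with ⟨rfl, rfl⟩ | ⟨rfl, rfl⟩ <;>
            simp only [Prod.snd_add, h3] at h2 <;> omega
      rw [key]
    rw [hs]
    exact g3

end bump

/-! ### Both caps -/

/-- The result of the two bumps. -/
private theorem exists_caps (hE : IsPolygon E) : ∃ p d p' d' : P3, BP 1 E p d ∧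
    BP (-1) (bump E p (p + d) (0, 0, 1)) p' d' := by
  obtain ⟨p, d, h⟩ := bp_exists (Or.inl rfl) hE
  obtain ⟨p', d', h'⟩ := bp_exists (Or.inr rfl) (bp_facts (Or.inl rfl) hE h).1
  exact ⟨p, d, p', d', h, h'⟩

private theorem capped_caps {p d p' d' : P3} (h : BP 1 E p d)
    (h' : BP (-1) (bump E p (p + d) (0, 0, 1)) p' d') :
    Capped (bump (bump E p (p + d) (0, 0, 1)) p' (p' + d') (0, 0, -1)) := by
  have hpl : pl 1 p = p.2.2 := by
    unfold pl
    omega
  have hpl' : pl (-1) p' = p'.2.2 - 1 := by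
    unfold pl
    omega
  have hlev : p'.2.2 ≤ p.2.2 := by
    have h1 : s(p, p + (0, 0, 1)) ∈ bump E p (p + d) (0, 0, 1) :=
      (bp_mem _ _).mpr (Or.inr (Or.inl rfl))
    have := h'.2.2.2 _ (left_mem_verts h1)
    omega
  refine ⟨p'.2.2 - 1, p.2.2, ?_, ?_, ?_, bp_bot h', bp_upp h' hlev (bp_top h)⟩
  · intro k hk
    by_cases hk' : k = pl (-1) p'
    · rw [hpl'] at hk'
      omega
    · rw [bp_cross_ne (Or.inr rfl) h' hk'] at hk
      obtain ⟨⟨a, b⟩, hc⟩ := hk
      rw [mem_cross] at hc
      have a1 := h'.2.2.2 _ (left_mem_verts hc)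
      have a2 := bp_verts (Or.inl rfl) h (right_mem_verts hc)
      simp only at a1 a2
      omega
  · rw [← hpl']
    exact bp_two (Or.inr rfl) h'
  · have h2 : IsTwo (bump E p (p + d) (0, 0, 1)) p.2.2 := by
      rw [← hpl]
      exact bp_two (Or.inl rfl) h
    unfold IsTwo at h2 ⊢
    rw [bp_cross_ne (Or.inr rfl) h' (by omega)]
    exact h2

private theorem capped_shift (r : P3) (h : Capped E) : Capped (shift r E) := by
  obtain ⟨s, t, h1, h2, h3, h4, h5⟩ := h
  refine ⟨s + r.2.2, t + r.2.2, ?_, (isTwo_shift r E s).mpr h2, (isTwo_shift r E t).mpr h3,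
    (lowU_shift r E s).mpr h4, (uppU_shift r E t).mpr h5⟩
  intro k hk
  have hk' : (cross E (k - r.2.2)).Nonempty := by
    have e := cross_shift r E (k - r.2.2)
    rw [sub_add_cancel] at e
    rw [e] at hk
    exact hk.of_image
  have := h1 _ hk'
  omega

/-! ### Comparison of partition functions -/

private theorem zt_inj {C C' : ES → Prop} (hy : 0 ≤ y) {n m j : ℕ} (g : ES → ES)
    (hg : ∀ E ∈ NSet C n, IsPolygon (g E) ∧ (∀ r, C' (shift r (g E))) ∧ (g E).card = m ∧
      span (g E) = span E + j)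
    (hinj : ∀ E ∈ NSet C n, ∀ E' ∈ NSet C n, ∀ r : P3, g E' = shift r (g E) →
      ∃ r' : P3, E' = shift r' E) : y ^ j * Zt y C n ≤ Zt y C' m := by
  classical
  have hex : ∀ E : ES, ∃ t : P3, E ∈ NSet C n → Normed (shift t (g E)) := by
    intro E
    by_cases hE : E ∈ NSet C n
    · obtain ⟨t, ht⟩ := exists_normed (hg E hE).1.verts_nonempty
      exact ⟨t, fun _ => ht⟩
    · exact ⟨0, fun h => absurd h hE⟩
  choose t ht using hex
  have hΦ : ∀ E ∈ NSet C n, shift (t E) (g E) ∈ NSet C' m := by
    intro E hE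
    obtain ⟨h1, h2, h3, h4⟩ := hg E hE
    refine ⟨?_, h2 _, ht E hE, by rw [card_shift]; exact h3⟩
    exact h1.mapE (fun u _ v _ huv => add_right_cancel huv) (fun u v huv =>
      adj_add_right.mpr (h1.adj u v huv))
  have hΦinj : Set.InjOn (fun E => shift (t E) (g E)) (NSet C n) := by
    intro E hE E' hE' heq
    have h1 : g E' = shift (-t E' + t E) (g E) := by
      have := congrArg (shift (-t E')) heq
      simp only [shift_shift] at this
      rw [neg_add_cancel, shift_zero] at this
      exact this.symm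
    obtain ⟨r', hr'⟩ := hinj E hE E' hE' _ h1
    have h2 : r' = 0 := Normed.eq_zero hE.2.2.1 (by rw [← hr']; exact hE'.2.2.1)
    rw [h2, shift_zero] at hr'
    exact hr'.symm
  have hfin := nset_finite C n
  have hfin' := nset_finite C' m
  unfold Zt
  rw [mul_finsum_mem' (fun E => y ^ span E) (y ^ j) hfin]
  have e1 : ∑ᶠ E ∈ NSet C n, y ^ j * y ^ span E =
      ∑ᶠ E ∈ NSet C n, y ^ span (shift (t E) (g E)) := by
    apply finsum_mem_congr rfl
    intro E hE
    rw [span_shift, (hg E hE).2.2.2, pow_add, mul_comm]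
  rw [e1, ← finsum_mem_image (f := fun F => y ^ span F) hΦinj]
  rw [finsum_mem_eq_finite_toFinset_sum _ (hfin.image _),
    finsum_mem_eq_finite_toFinset_sum _ hfin']
  apply Finset.sum_le_sum_of_subset_of_nonneg
  · intro F hF
    rw [Set.Finite.mem_toFinset] at hF ⊢
    obtain ⟨E, hE, rfl⟩ := hF
    exact hΦ E hE
  · intro F _ _
    positivity

private theorem hinv_shift (hC : HInv C) (r : P3) (h : C E) : C (shift r E) :=
  hC _ _ (moveFacts.trans r E) h

/-- Adding one unit square at the top. -/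
theorem zt_bump_top (hC : HInv C) (hy : 0 ≤ y) (n : ℕ) : y * Zt y C n ≤ Zt y C (n + 2) := by
  classical
  have hex : ∀ E : ES, ∃ q : P3 × P3, E ∈ NSet C n → BP 1 E q.1 q.2 := by
    intro E
    by_cases hE : E ∈ NSet C n
    · obtain ⟨p, d, h⟩ := bp_exists (Or.inl rfl) hE.1
      exact ⟨(p, d), fun _ => h⟩
    · exact ⟨(0, 0), fun h => absurd h hE⟩
  choose q hq using hex
  have key := zt_inj (C := C) (C' := C) hy (n := n) (m := n + 2) (j := 1)
    (fun E => bump E (q E).1 ((q E).1 + (q E).2) (0, 0, 1)) ?_ ?_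
  · rw [pow_one] at key
    exact key
  · intro E hE
    obtain ⟨h1, h2, h3⟩ := bp_facts (Or.inl rfl) hE.1 (hq E hE)
    refine ⟨h1, fun r => hinv_shift hC r (hC _ _ h2 hE.2.1), ?_, bp_span (Or.inl rfl) (hq E hE)⟩
    rw [h3, hE.2.2.2]
  · intro E hE E' hE' r hr
    exact ⟨r, bp_inj (Or.inl rfl) (hq E hE) (hq E' hE') hr⟩

/-- Adding one unit square at the top and one at the bottom. -/
theorem zt_capped (hC : HInv C) (hy : 0 ≤ y) (n : ℕ) :
    y ^ 2 * Zt y C n ≤ Zt y (fun E => C E ∧ Capped E) (n + 4) := by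
  classical
  have hex : ∀ E : ES, ∃ q : (P3 × P3) × (P3 × P3), E ∈ NSet C n → BP 1 E q.1.1 q.1.2 ∧
      BP (-1) (bump E q.1.1 (q.1.1 + q.1.2) (0, 0, 1)) q.2.1 q.2.2 := by
    intro E
    by_cases hE : E ∈ NSet C n
    · obtain ⟨p, d, p', d', h⟩ := exists_caps hE.1
      exact ⟨((p, d), (p', d')), fun _ => h⟩
    · exact ⟨((0, 0), (0, 0)), fun h => absurd h hE⟩
  choose q hq using hex
  refine zt_inj (C := C) (C' := fun E => C E ∧ Capped E) hy (n := n) (m := n + 4) (j := 2)
    (fun E => bump (bump E (q E).1.1 ((q E).1.1 + (q E).1.2) (0, 0, 1)) (q E).2.1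
      ((q E).2.1 + (q E).2.2) (0, 0, -1)) ?_ ?_
  · intro E hE
    obtain ⟨b1, b2⟩ := hq E hE
    obtain ⟨h1, h2, h3⟩ := bp_facts (Or.inl rfl) hE.1 b1
    obtain ⟨h1', h2', h3'⟩ := bp_facts (Or.inr rfl) h1 b2
    refine ⟨h1', fun r => ⟨hinv_shift hC r (hC _ _ (h2.trans h2') hE.2.1),
      capped_shift r (capped_caps b1 b2)⟩, ?_, ?_⟩
    · rw [h3', h3, hE.2.2.2]
    · rw [bp_span (Or.inr rfl) b2, bp_span (Or.inl rfl) b1]
  · intro E hE E' hE' r hr
    obtain ⟨b1, b2⟩ := hq E hE
    obtain ⟨b1', b2'⟩ := hq E' hE'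
    exact ⟨r, bp_inj (Or.inl rfl) b1 b1' (bp_inj (Or.inr rfl) b2 b2' hr)⟩

end Pool.Agent.KTen
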