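import Pool.Agent.KTen.SplicePoly
import Pool.Agent.KTen.SpliceShift
import Pool.Agent.KTube.Stretch

/-! Stretching and removing straight levels. -/

set_option autoImplicit false

open Set

namespace Pool.Agent.KTen

open Pool.Agent.LK Pool.Agent.KTube

variable {E F : ES} {k : ℤ}

/-! ### Stretching at a section with two edges -/

private theorem cl_col {a b a' b' : ℤ} {i j : ℕ}
    (h : s(((a, b, k + i) : P3), (a, b, k + i + 1)) = s((a', b', k + j), (a', b', k + j + 1))) :
    a = a' ∧ b = b' ∧ i = j := by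
  rw [Sym2.eq_iff] at h
  simp only [Prod.mk.injEq] at h
  rcases h with ⟨⟨rfl, rfl, h4⟩, -⟩ | ⟨⟨rfl, rfl, h4⟩, -, -, h5⟩
  · exact ⟨rfl, rfl, by omega⟩
  · omega

theorem card_stretch (hE : IsPolygon E) (h2 : IsTwo E k) (h : ℕ) :
    (stretch E k h).card = E.card + 2 * h := by
  classical
  set B := E.filter fun e => ∀ u ∈ e, u.2.2 ≤ k with hB
  set A := E.filter fun e => ∀ u ∈ e, k + 1 ≤ u.2.2 with hA
  set X := E.filter fun e => ∃ a b : ℤ, e = s((a, b, k), (a, b, k + 1)) with hX
  have hXc : X.card = 2 := by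
    rw [← (show (cross E k).ncard = 2 from h2), ← Set.ncard_coe_finset X]
    refine (Set.ncard_congr (fun c _ => s(((c.1, c.2, k) : P3), (c.1, c.2, k + 1))) ?_ ?_ ?_).symm
    · rintro ⟨a, b⟩ hc
      rw [Finset.mem_coe, hX, Finset.mem_filter]
      exact ⟨hc, a, b, rfl⟩
    · rintro ⟨a, b⟩ ⟨a', b'⟩ - - h
      simp only [Sym2.eq_iff, Prod.mk.injEq] at h
      rcases h with ⟨⟨rfl, rfl, -⟩, -⟩ | ⟨⟨rfl, rfl, h6⟩, -, -, h7⟩
      · rfl
      · omega
    · intro e he
      rw [Finset.mem_coe, hX, Finset.mem_filter] at he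
      obtain ⟨he, a, b, rfl⟩ := he
      exact ⟨(a, b), he, rfl⟩
  have d1 : Disjoint B A := by
    rw [Finset.disjoint_left]
    intro e h1 h2
    rw [hB, Finset.mem_filter] at h1
    rw [hA, Finset.mem_filter] at h2
    induction e using Sym2.ind with
    | _ x y =>
      have a1 := h1.2 x (by simp)
      have a2 := h2.2 x (by simp)
      omega
  have d2 : Disjoint (B ∪ A) X := by
    rw [Finset.disjoint_left]
    intro e h1 h2
    rw [hX, Finset.mem_filter] at h2
    obtain ⟨-, a, b, rfl⟩ := h2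
    rw [Finset.mem_union, hB, hA, Finset.mem_filter, Finset.mem_filter] at h1
    rcases h1 with ⟨-, h1⟩ | ⟨-, h1⟩
    · have := h1 (a, b, k + 1) (by simp)
      simp only at this; omega
    · have := h1 (a, b, k) (by simp)
      simp only at this; omega
  have hEc : E.card = B.card + A.card + X.card := by
    rw [← Finset.card_union_of_disjoint d1, ← Finset.card_union_of_disjoint d2]
    congr 1
    ext e
    rw [Finset.mem_union, Finset.mem_union, hB, hA, hX, Finset.mem_filter, Finset.mem_filter,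
      Finset.mem_filter]
    constructor
    · intro he
      induction e using Sym2.ind with
      | _ u v =>
        rcases adj_cases k (hE.adj u v he) with ⟨a1, a2⟩ | ⟨a1, a2⟩ | ⟨a, b, a1⟩
        · refine Or.inl (Or.inl ⟨he, fun w hw => ?_⟩)
          rcases Sym2.mem_iff.1 hw with rfl | rfl
          · exact a1
          · exact a2
        · refine Or.inl (Or.inr ⟨he, fun w hw => ?_⟩)
          rcases Sym2.mem_iff.1 hw with rfl | rfl
          · exact a1
          · exact a2
        · exact Or.inr ⟨he, a, b, a1⟩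
    · tauto
  set A' := A.image (Sym2.map fun u : P3 => u + (0, 0, (h : ℤ))) with hA'
  set X' := X.biUnion fun e => (Finset.range (h + 1)).image fun i : ℕ =>
        Sym2.map (fun u : P3 => (u.1, u.2.1, u.2.2 + (i : ℤ))) e with hX'
  have hA'c : A'.card = A.card :=
    Finset.card_image_of_injective _ (Sym2.map.injective (add_left_injective _))
  have himg : ∀ (a b : ℤ) (i : ℕ), Sym2.map (fun u : P3 => (u.1, u.2.1, u.2.2 + (i : ℤ)))
      s((a, b, k), (a, b, k + 1)) = s((a, b, k + i), (a, b, k + i + 1)) := by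
    intro a b i
    rw [Sym2.map_mk]
    congr 1
    simp only [Prod.mk.injEq, true_and]
    ring
  have hX'c : X'.card = X.card * (h + 1) := by
    rw [hX', Finset.card_biUnion]
    · rw [Finset.sum_congr rfl (g := fun _ => h + 1), Finset.sum_const, smul_eq_mul]
      intro e he
      rw [hX, Finset.mem_filter] at he
      obtain ⟨-, a, b, rfl⟩ := he
      rw [Finset.card_image_of_injOn, Finset.card_range]
      intro i _ j _ hij
      simp only [himg] at hij
      exact (cl_col hij).2.2
    · intro e he e' he' hne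
      rw [Finset.mem_coe, hX, Finset.mem_filter] at he he'
      obtain ⟨-, a, b, rfl⟩ := he
      obtain ⟨-, a', b', rfl⟩ := he'
      change Disjoint _ _
      rw [Finset.disjoint_left]
      intro f h1 h2
      rw [Finset.mem_image] at h1 h2
      obtain ⟨i, -, rfl⟩ := h1
      obtain ⟨j, -, h3⟩ := h2
      rw [himg, himg] at h3
      obtain ⟨rfl, rfl, -⟩ := cl_col h3
      exact hne rfl
  have d3 : Disjoint B A' := by
    rw [Finset.disjoint_left]
    intro e h1 h2
    rw [hB, Finset.mem_filter] at h1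
    rw [hA', Finset.mem_image] at h2
    obtain ⟨f, hf, rfl⟩ := h2
    rw [hA, Finset.mem_filter] at hf
    induction f using Sym2.ind with
    | _ x y =>
      have a1 := hf.2 x (by simp)
      have a2 := h1.2 (x + (0, 0, (h : ℤ))) (by simp)
      simp only [Prod.snd_add] at a2
      omega
  have d4 : Disjoint (B ∪ A') X' := by
    rw [Finset.disjoint_left]
    intro e h1 h2
    rw [hX', Finset.mem_biUnion] at h2
    obtain ⟨f, hf, h3⟩ := h2
    rw [hX, Finset.mem_filter] at hf
    obtain ⟨-, a, b, rfl⟩ := hf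
    rw [Finset.mem_image] at h3
    obtain ⟨i, hi, rfl⟩ := h3
    rw [himg] at h1
    rw [Finset.mem_range] at hi
    rw [Finset.mem_union] at h1
    rcases h1 with h1 | h1
    · rw [hB, Finset.mem_filter] at h1
      have := h1.2 (a, b, k + i + 1) (by simp)
      simp only at this
      omega
    · rw [hA', Finset.mem_image] at h1
      obtain ⟨f, hf, h4⟩ := h1
      rw [hA, Finset.mem_filter] at hf
      induction f using Sym2.ind with
      | _ x y =>
        have a1 := hf.2 x (by simp)
        have a2 := hf.2 y (by simp)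
        rw [Sym2.map_mk, Sym2.eq_iff] at h4
        rcases h4 with ⟨h5, -⟩ | ⟨-, h5⟩
        · have := congrArg (fun p : P3 => p.2.2) h5
          simp only [Prod.snd_add] at this; omega
        · have := congrArg (fun p : P3 => p.2.2) h5
          simp only [Prod.snd_add] at this; omega
  have hS : stretch E k h = B ∪ A' ∪ X' := rfl
  rw [hS, Finset.card_union_of_disjoint d4, Finset.card_union_of_disjoint d3, hA'c, hX'c, hEc, hXc]
  ring

/-- the planes that meet a finite set of edges -/
private theorem cl_finite (hE : ∀ u v, s(u, v) ∈ E → Adj u v) :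
    {j : ℤ | (cross E j).Nonempty}.Finite := by
  refine ((verts_finite E).image fun u => u.2.2).subset ?_
  rintro j ⟨c, hc⟩
  exact ⟨(c.1, c.2, j), left_mem_verts hc, rfl⟩

private theorem cl_nonempty (h2 : IsTwo E k) : (cross E k).Nonempty := by
  rw [Set.nonempty_iff_ne_empty]
  intro h
  have h3 : (cross E k).ncard = 2 := h2
  rw [h, Set.ncard_empty] at h3
  omega

theorem span_stretch (hE : IsPolygon E) (h2 : IsTwo E k) (h : ℕ) :
    span (stretch E k h) = span E + h := by
  have hk : (cross E k).Nonempty := cl_nonempty h2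
  have hfin := cl_finite hE.adj
  set S : Set ℤ := {j : ℤ | (cross E j).Nonempty} with hS
  have hkS : k ∈ S := hk
  have h1 : {j : ℤ | (cross (stretch E k h) j).Nonempty} =
      (S ∩ Iic k) ∪ (Icc (k + 1) (k + h) ∪ (fun j => j + (h : ℤ)) '' (S ∩ Ioi k)) := by
    ext j
    simp only [mem_ofPred_eq, mem_union, mem_inter_iff, mem_Iic, mem_Icc, mem_image, mem_Ioi]
    rcases le_or_gt j k with hj | hj
    · rw [cross_stretch_low hj]
      constructor
      · intro hh
        exact Or.inl ⟨hh, hj⟩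
      · rintro (⟨hh, -⟩ | ⟨hh, -⟩ | ⟨i, ⟨-, hi⟩, rfl⟩)
        · exact hh
        · omega
        · omega
    · rcases le_or_gt j (k + h) with hj' | hj'
      · rw [cross_stretch_mid hj.le hj']
        exact ⟨fun _ => Or.inr (Or.inl ⟨by omega, hj'⟩), fun _ => hk⟩
      · rw [cross_stretch_high hj'.le]
        constructor
        · intro hh
          exact Or.inr (Or.inr ⟨j - h, ⟨hh, by omega⟩, by omega⟩)
        · rintro (⟨-, hh⟩ | ⟨-, hh⟩ | ⟨i, ⟨hi, -⟩, rfl⟩)
          · omega
          · omega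
          · rw [add_sub_cancel_right]
            exact hi
  have f1 : (S ∩ Iic k).Finite := hfin.inter_of_left _
  have f2 : (S ∩ Ioi k).Finite := hfin.inter_of_left _
  have f3 : (Icc (k + 1) (k + (h : ℤ))).Finite := Set.finite_Icc _ _
  have f4 : ((fun j => j + (h : ℤ)) '' (S ∩ Ioi k)).Finite := f2.image _
  have e1 : (Icc (k + 1) (k + (h : ℤ))).ncard = h := by
    rw [← Finset.coe_Icc, Set.ncard_coe_finset, Int.card_Icc]
    omega
  have e2 : ((fun j => j + (h : ℤ)) '' (S ∩ Ioi k)).ncard = (S ∩ Ioi k).ncard :=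
    Set.ncard_image_of_injective _ (add_left_injective _)
  have e3 : S.ncard = (S ∩ Iic k).ncard + (S ∩ Ioi k).ncard := by
    rw [← Set.ncard_union_eq _ f1 f2]
    · congr 1
      ext j
      simp only [mem_union, mem_inter_iff, mem_Iic, mem_Ioi]
      rcases le_or_gt j k with hj | hj
      · exact ⟨fun hh => Or.inl ⟨hh, hj⟩, fun hh => hh.elim (·.1) (·.1)⟩
      · exact ⟨fun hh => Or.inr ⟨hh, hj⟩, fun hh => hh.elim (·.1) (·.1)⟩
    · rw [Set.disjoint_left]
      rintro j ⟨-, hj⟩ ⟨-, hj'⟩
      simp only [mem_Iic, mem_Ioi] at hj hj'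
      omega
  unfold span
  rw [h1, Set.ncard_union_eq _ f1 (f3.union f4), Set.ncard_union_eq _ f3 f4, e1, e2, ← hS, e3]
  · ring
  · rw [Set.disjoint_left]
    rintro j hj ⟨i, ⟨-, hi⟩, rfl⟩
    simp only [mem_Icc, mem_Ioi] at hj hi
    omega
  · rw [Set.disjoint_left]
    rintro j ⟨-, hj⟩ (hj' | ⟨i, ⟨-, hi⟩, rfl⟩)
    · simp only [mem_Icc, mem_Iic] at hj hj'
      omega
    · simp only [mem_Iic, mem_Ioi] at hj hi
      omega

private theorem cl_verts (hE : ∀ u v, s(u, v) ∈ E → Adj u v) {h : ℕ} {u : P3}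
    (hu : u ∈ verts E) : (u.2.2 ≤ k ∧ u ∈ verts (stretch E k h)) ∨
      (k + 1 ≤ u.2.2 ∧ u + (0, 0, (h : ℤ)) ∈ verts (stretch E k h)) := by
  obtain ⟨v, huv⟩ := hu
  rcases adj_cases k (hE u v huv) with ⟨a1, a2⟩ | ⟨a1, a2⟩ | ⟨a, b, a1⟩
  · exact Or.inl ⟨a1, v, mem_stretch.2 (Or.inl ⟨huv, a1, a2⟩)⟩
  · refine Or.inr ⟨a1, v + (0, 0, (h : ℤ)), mem_stretch.2 (Or.inr (Or.inl ⟨?_, ?_, ?_⟩))⟩
    · rwa [add_sub_cancel_right, add_sub_cancel_right]
    · simp only [Prod.snd_add]; omega
    · simp only [Prod.snd_add]; omega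
  · rw [a1] at huv
    rw [Sym2.eq_iff] at a1
    rcases a1 with ⟨rfl, rfl⟩ | ⟨rfl, rfl⟩
    · refine Or.inl ⟨le_rfl, (a, b, k + 1), mem_stretch.2 (Or.inr (Or.inr
        ⟨a, b, 0, by omega, huv, by simp⟩))⟩
    · refine Or.inr ⟨le_rfl, (a, b, k + h), mem_stretch.2 (Or.inr (Or.inr
        ⟨a, b, h, le_rfl, huv, ?_⟩))⟩
      rw [Sym2.eq_swap]
      congr 1
      simp only [Prod.mk_add_mk, add_zero, Prod.mk.injEq, true_and]
      omega

theorem normed_stretch (hE : IsPolygon E) (h2 : IsTwo E k) (h : ℕ) :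
    Normed (stretch E k h) ↔ Normed E := by
  obtain ⟨c, hc⟩ := cl_nonempty h2
  have hcE : (c.1, c.2, k) ∈ verts E := left_mem_verts hc
  have hcS : (c.1, c.2, k) ∈ verts (stretch E k h) := by
    rcases cl_verts (k := k) hE.adj (h := h) hcE with ⟨-, h1⟩ | ⟨h1, -⟩
    · exact h1
    · simp only at h1
      omega
  constructor
  · rintro ⟨h1, ⟨x, hx, hx0⟩, ⟨y, hy, hy0⟩, ⟨w, hw, hw0⟩⟩
    have hk0 : 0 ≤ k := (h1 _ hcS).2.2
    have hback : ∀ u ∈ verts (stretch E k h), ∃ u' ∈ verts E, u'.1 = u.1 ∧ u'.2.1 = u.2.1 := by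
      intro u hu
      rcases verts_stretch hu with ⟨h3, -⟩ | ⟨h3, -⟩ | ⟨h3, -, -⟩
      · exact ⟨u, h3, rfl, rfl⟩
      · exact ⟨_, h3, by simp, by simp⟩
      · exact ⟨(u.1, u.2.1, k), left_mem_verts h3, rfl, rfl⟩
    refine ⟨fun u hu => ?_, ?_, ?_, ?_⟩
    · rcases cl_verts (k := k) hE.adj (h := h) hu with ⟨-, h3⟩ | ⟨h4, h3⟩
      · exact h1 u h3
      · have h5 := h1 _ h3
        simp only [Prod.fst_add, Prod.snd_add] at h5
        omega
    · obtain ⟨u, hu, h3, -⟩ := hback x hx
      exact ⟨u, hu, h3.trans hx0⟩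
    · obtain ⟨u, hu, -, h3⟩ := hback y hy
      exact ⟨u, hu, h3.trans hy0⟩
    · rcases verts_stretch hw with ⟨h3, -⟩ | ⟨-, h3⟩ | ⟨h3, h4, -⟩
      · exact ⟨w, h3, hw0⟩
      · omega
      · exact ⟨(w.1, w.2.1, k), left_mem_verts h3, by simp only; omega⟩
  · rintro ⟨h1, ⟨x, hx, hx0⟩, ⟨y, hy, hy0⟩, ⟨w, hw, hw0⟩⟩
    have hk0 : 0 ≤ k := (h1 _ hcE).2.2
    have hforw : ∀ u ∈ verts E, ∃ u' ∈ verts (stretch E k h), u'.1 = u.1 ∧ u'.2.1 = u.2.1 := by
      intro u hu
      rcases cl_verts (k := k) hE.adj (h := h) hu with ⟨-, h3⟩ | ⟨-, h3⟩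
      · exact ⟨u, h3, rfl, rfl⟩
      · exact ⟨_, h3, by simp, by simp⟩
    refine ⟨fun u hu => ?_, ?_, ?_, ?_⟩
    · rcases verts_stretch hu with ⟨h3, -⟩ | ⟨h3, h4⟩ | ⟨h3, h4, -⟩
      · exact h1 u h3
      · have h5 := h1 _ h3
        simp only [Prod.fst_sub, Prod.snd_sub] at h5
        omega
      · have h5 := h1 _ (left_mem_verts (mem_cross.1 h3))
        simp only at h5
        omega
    · obtain ⟨u, hu, h3, -⟩ := hforw x hx
      exact ⟨u, hu, h3.trans hx0⟩
    · obtain ⟨u, hu, -, h3⟩ := hforw y hy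
      exact ⟨u, hu, h3.trans hy0⟩
    · rcases cl_verts (k := k) hE.adj (h := h) hw with ⟨-, h3⟩ | ⟨h3, -⟩
      · exact ⟨w, h3, hw0⟩
      · omega

private theorem cl_poly_shift (hE : IsPolygon E) (t : P3) : IsPolygon (shift t E) := by
  refine ⟨?_, ?_, ?_, ?_⟩
  · obtain ⟨e, he⟩ := hE.nonempty
    exact ⟨_, Finset.mem_image_of_mem _ he⟩
  · intro u v huv
    have h1 := hE.adj _ _ (mem_shift.1 huv)
    unfold Adj at h1 ⊢
    simpa using h1
  · intro u hu
    rw [← hE.deg _ (mem_verts_shift.1 hu)]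
    refine (Set.ncard_congr (fun w _ => w + t) ?_ ?_ ?_).symm
    · intro w hw
      change s(u, w + t) ∈ shift t E
      rw [mem_shift, add_sub_cancel_right]
      exact hw
    · intro w w' _ _ hww
      exact add_right_cancel hww
    · intro w hw
      exact ⟨w - t, mem_shift.1 hw, sub_add_cancel _ _⟩
  · intro u hu v hv
    have h1 := hE.conn _ (mem_verts_shift.1 hu) _ (mem_verts_shift.1 hv)
    have h2 : Relation.ReflTransGen (fun a b => s(a, b) ∈ shift t E) ((u - t) + t) ((v - t) + t) :=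
      h1.lift (p := fun a b => s(a, b) ∈ shift t E) (fun w => w + t) (fun a b hab => by
        change s(a + t, b + t) ∈ shift t E
        rw [mem_shift, add_sub_cancel_right, add_sub_cancel_right]
        exact hab)
    rwa [sub_add_cancel, sub_add_cancel] at h2

/-- **Removing a straight level.** -/
theorem exists_collapse (hE : IsPolygon E) (h : IsStr E k) :
    ∃ E', IsPolygon E' ∧ IsTwo E' k ∧ stretch E' k 1 = E := by
  obtain ⟨h2, h3, hno⟩ := h
  have hcr : cross E k = cross E (k + 1) := by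
    refine Set.eq_of_subset_of_ncard_le ?_ ?_ (cross_finite E (k + 1))
    · rintro ⟨a, b⟩ hab
      rw [mem_cross] at hab
      simp only at hab
      have hv : ((a, b, k + 1) : P3) ∈ verts E := right_mem_verts hab
      have h4 := hE.deg _ hv
      obtain ⟨w, hw, hwne⟩ := Set.exists_ne_of_one_lt_ncard (by rw [h4]; omega) ((a, b, k) : P3)
      have hw' : s(((a, b, k + 1) : P3), w) ∈ E := hw
      have hadj := hE.adj _ _ hw'
      have hlev := hno _ _ hw' rfl
      rcases adj_cases (k + 1) hadj with ⟨-, a2⟩ | ⟨a1, -⟩ | ⟨a', b', a1⟩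
      · rcases adj_cases k hadj with ⟨a3, -⟩ | ⟨-, a3⟩ | ⟨a', b', a3⟩
        · simp only at a3
          omega
        · omega
        · exfalso
          rw [Sym2.eq_iff] at a3
          simp only [Prod.mk.injEq] at a3
          rcases a3 with ⟨⟨-, -, a4⟩, -⟩ | ⟨⟨rfl, rfl, -⟩, a5⟩
          · omega
          · exact hwne a5
      · simp only at a1
        omega
      · rw [mem_cross]
        simp only
        rw [Sym2.eq_iff] at a1
        simp only [Prod.mk.injEq] at a1
        rcases a1 with ⟨⟨rfl, rfl, -⟩, rfl⟩ | ⟨⟨-, -, a4⟩, -⟩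
        · exact hw'
        · omega
    · exact le_of_eq ((show (cross E (k + 1)).ncard = 2 from h3).trans
        (show (cross E k).ncard = 2 from h2).symm)
  have hF : ∀ u v, s(u, v) ∈ shift (0, 0, -1) E ↔ s(u + (0, 0, 1), v + (0, 0, 1)) ∈ E := by
    intro u v
    rw [mem_shift]
    have e : ∀ u : P3, u - (0, 0, -1) = u + (0, 0, 1) := by
      intro u
      ext <;> simp
    rw [e, e]
  have hcF : cross (shift (0, 0, -1) E) k = cross E k := by
    rw [hcr]
    ext ⟨a, b⟩
    rw [mem_cross, mem_cross, hF]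
    simp
  have hFp : IsPolygon (shift (0, 0, -1) E) := cl_poly_shift hE _
  have hpoly := isPolygon_splice hE hFp h2 hcF
  have hc' : cross (splice E (shift (0, 0, -1) E) k) k = cross E k :=
    cross_splice_low hFp.adj hcF le_rfl
  refine ⟨splice E (shift (0, 0, -1) E) k, hpoly, ?_, ?_⟩
  · change (cross (splice E (shift (0, 0, -1) E) k) k).ncard = 2
    rw [hc']
    exact h2
  · apply edge_ext
    intro u v
    rw [mem_stretch]
    constructor
    · rintro (⟨h4, h5, h6⟩ | ⟨h4, h5, h6⟩ | ⟨a, b, i, hi, h4, h5⟩)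
      · rw [mem_splice] at h4
        rcases h4 with ⟨h4, -⟩ | ⟨-, h4⟩
        · exact h4
        · omega
      · rw [mem_splice] at h4
        have e1 : ∀ u : P3, (u - (0, 0, ((1 : ℕ) : ℤ))).2.2 = u.2.2 - 1 := fun u => rfl
        rw [e1, e1] at h4
        push_cast at h5 h6
        rcases h4 with ⟨-, h4⟩ | ⟨h4, -⟩
        · omega
        · rw [hF] at h4
          push_cast at h4
          rwa [sub_add_cancel, sub_add_cancel] at h4
      · have h6 : (a, b) ∈ cross E k := by
          rw [← hc']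
          exact h4
        rw [h5]
        rcases (by omega : i = 0 ∨ i = 1) with rfl | rfl
        · rw [Nat.cast_zero, add_zero]
          exact h6
        · rw [hcr] at h6
          exact h6
    · intro huv
      have hadj := hE.adj u v huv
      rcases adj_cases k hadj with ⟨a1, a2⟩ | ⟨a1, a2⟩ | ⟨a, b, a1⟩
      · exact Or.inl ⟨mem_splice.2 (Or.inl ⟨huv, Or.inl a1⟩), a1, a2⟩
      · rcases adj_cases (k + 1) hadj with ⟨b1, b2⟩ | ⟨b1, b2⟩ | ⟨a, b, b1⟩
        · exact absurd (le_antisymm b2 a2) (hno u v huv (le_antisymm b1 a1))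
        · refine Or.inr (Or.inl ⟨?_, by push_cast; omega, by push_cast; omega⟩)
          rw [mem_splice]
          refine Or.inr ⟨?_, Or.inl ?_⟩
          · rw [hF]
            push_cast
            rwa [sub_add_cancel, sub_add_cancel]
          · change k + 1 ≤ u.2.2 - 1
            omega
        · refine Or.inr (Or.inr ⟨a, b, 1, le_rfl, ?_, ?_⟩)
          · rw [b1] at huv
            have h6 : (a, b) ∈ cross E (k + 1) := huv
            rw [← hcr, ← hc'] at h6
            exact h6
          · rw [b1]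
            push_cast
            rfl
      · refine Or.inr (Or.inr ⟨a, b, 0, by omega, ?_, ?_⟩)
        · rw [a1] at huv
          have h6 : (a, b) ∈ cross E k := huv
          rw [← hc'] at h6
          exact h6
        · rw [a1, Nat.cast_zero, add_zero]

theorem isStr_stretch (hE : IsPolygon E) (h2 : IsTwo E k) : IsStr (stretch E k 1) k := by
  refine ⟨?_, ?_, ?_⟩
  · change (cross (stretch E k 1) k).ncard = 2
    rw [cross_stretch_low le_rfl]
    exact h2
  · change (cross (stretch E k 1) (k + 1)).ncard = 2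
    rw [cross_stretch_mid (by omega) (by push_cast; omega)]
    exact h2
  · intro u v huv hu hv
    rw [mem_stretch] at huv
    rcases huv with ⟨-, h3, -⟩ | ⟨-, h3, -⟩ | ⟨a, b, i, -, -, h3⟩
    · omega
    · push_cast at h3
      omega
    · rw [Sym2.eq_iff] at h3
      rcases h3 with ⟨rfl, rfl⟩ | ⟨rfl, rfl⟩
      · simp only at hu hv
        omega
      · simp only at hu hv
        omega

end Pool.Agent.KTen
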