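import Pool.Agent.KTen.RatioA
import Pool.Agent.KTen.Collapse
import Pool.Agent.KTen.Capped

/-! Ratios of the partition functions of unknotted polygons, `y = x ^ 2`. -/

set_option autoImplicit false

open Set Filter Topology

namespace Pool.Agent.KTen

open Pool.Agent.LK Pool.Agent.KTube

variable {x : ℝ}

/-! ### The class of unknotted polygons -/

private theorem hinv_unknotted : HInv Unknotted := by
  rintro E F ⟨φ, hφ⟩ ⟨ψ, hψ⟩
  refine ⟨φ.symm.trans ψ, ?_⟩
  rw [← hψ, ← hφ, ← Set.image_comp]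
  congr 1
  funext u
  simp

private theorem nset_congr {C C' : ES → Prop} {n : ℕ}
    (h : ∀ E, IsPolygon E → E.card = n → (C E ↔ C' E)) : NSet C n = NSet C' n := by
  ext E
  simp only [NSet, Set.mem_ofPred_eq]
  constructor
  · rintro ⟨h1, h2, h3, h4⟩
    exact ⟨h1, (h E h1 h4).1 h2, h3, h4⟩
  · rintro ⟨h1, h2, h3, h4⟩
    exact ⟨h1, (h E h1 h4).2 h2, h3, h4⟩

private theorem zt_congr {C C' : ES → Prop} {n : ℕ} (y : ℝ)
    (h : ∀ E, IsPolygon E → E.card = n → (C E ↔ C' E)) : Zt y C n = Zt y C' n := by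
  unfold Zt
  rw [nset_congr h]

private theorem zt_unk (y : ℝ) (n : ℕ) : Zt y UClass n = Zt y Unknotted n :=
  zt_congr y fun _ hE _ => ⟨fun h => h.2, fun h => ⟨hE, h⟩⟩

private theorem zt_mono_card {y : ℝ} (hy : 0 ≤ y) {C C' : ES → Prop} {n : ℕ}
    (h : ∀ E, IsPolygon E → E.card = n → C E → C' E) : Zt y C n ≤ Zt y C' n := by
  rw [zt_congr (C := C) (C' := fun E => C E ∧ E.card = n) y
    fun E _ h4 => ⟨fun h => ⟨h, h4⟩, fun h => h.1⟩]
  exact zt_mono hy (fun E hE h2 => h E hE h2.2 h2.1) n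

open Classical in
/-- The planes with two edges, for the translate in normal position. -/
private noncomputable def twoSet (F : ES) : Finset ℤ :=
  if h : ∃ r : P3, Normed (shift r F) then (isTwo_finite (shift h.choose F)).toFinset else ∅

private theorem twoSet_shift {G : ES} (hG : Normed G) (r : P3) {k : ℤ} :
    k ∈ twoSet (shift r G) ↔ IsTwo G k := by
  have h : ∃ r' : P3, Normed (shift r' (shift r G)) := by
    refine ⟨-r, ?_⟩
    rwa [shift_shift, neg_add_cancel, shift_zero]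
  have h1 := h.choose_spec
  rw [shift_shift] at h1
  have h2 : shift h.choose (shift r G) = G := by
    rw [shift_shift, hG.eq_zero h1, shift_zero]
  unfold twoSet
  rw [dif_pos h, Set.Finite.mem_toFinset, h2]
  exact Iff.rfl

private theorem card_twoSet {F : ES} (hF : IsPolygon F) : 2 * (twoSet F).card ≤ F.card := by
  have h := exists_normed hF.verts_nonempty
  have h1 : (twoSet F).card = numTwo (shift h.choose F) := by
    unfold twoSet numTwo
    rw [dif_pos h, Set.ncard_eq_toFinset_card _ (isTwo_finite _)]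
  have hF' : IsPolygon (shift h.choose F) := isPolygon_shift hF _
  have h2 := numTwo_le hF'
  have h3 := two_span_le hF'
  have h4 := card_eq hF'
  rw [card_shift] at h4
  rw [h1]
  omega

/-- Removing one of the many straight levels. -/
theorem collapse_le (hx : 1 ≤ x) {n M : ℕ} :
    (M : ℝ) * Zt (x ^ 2) (fun E => UClass E ∧ M ≤ numStr E) (n + 2) ≤
      x ^ 2 * ((n : ℝ) / 2 * Zt (x ^ 2) UClass n) := by
  classical
  have hy : (0 : ℝ) ≤ x ^ 2 := by positivity
  set X : Set ES := NSet (fun E => UClass E ∧ M ≤ numStr E) (n + 2) with hXdef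
  have hXfin : X.Finite := nset_finite _ _
  -- the straight levels and the collapsed polygons
  have hex : ∀ E : ES, ∃ (f : Fin M → ℤ) (G : Fin M → ES), E ∈ X →
      Function.Injective f ∧ ∀ i, IsPolygon (G i) ∧ IsTwo (G i) (f i) ∧
        stretch (G i) (f i) 1 = E := by
    intro E
    by_cases hE : E ∈ X
    · obtain ⟨hP, ⟨hU, hM⟩, hN, hc⟩ := hE
      have h1 : M ≤ (isStr_finite E).toFinset.card := by
        rw [← Set.ncard_eq_toFinset_card _ (isStr_finite E)]
        exact hM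
      obtain ⟨T, hT, hTc⟩ := Finset.exists_subset_card_eq h1
      have h2 : ∀ i : Fin M, IsStr E ((T.equivFinOfCardEq hTc).symm i : ℤ) := by
        intro i
        have h3 := hT ((T.equivFinOfCardEq hTc).symm i).2
        rw [Set.Finite.mem_toFinset] at h3
        exact h3
      choose G hG using fun i => exists_collapse hP (h2 i)
      refine ⟨fun i => ((T.equivFinOfCardEq hTc).symm i : ℤ), G, fun _ => ⟨?_, hG⟩⟩
      intro i j hij
      exact (T.equivFinOfCardEq hTc).symm.injective (Subtype.ext hij)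
    · exact ⟨fun _ => 0, fun _ => ∅, fun h => absurd h hE⟩
  choose f g hfg using hex
  have hP : ∀ E ∈ X, ∀ i, IsPolygon (g E i) := fun E hE i => ((hfg E hE).2 i).1
  have hT : ∀ E ∈ X, ∀ i, IsTwo (g E i) (f E i) := fun E hE i => ((hfg E hE).2 i).2.1
  have hS : ∀ E ∈ X, ∀ i, stretch (g E i) (f E i) 1 = E := fun E hE i => ((hfg E hE).2 i).2.2
  have hN : ∀ E ∈ X, ∀ i, Normed (g E i) := by
    intro E hE i
    have h1 := normed_stretch (hP E hE i) (hT E hE i) 1
    rw [hS E hE i] at h1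
    exact h1.1 hE.2.2.1
  have hspan : ∀ E ∈ X, ∀ i, span E = span (g E i) + 1 := by
    intro E hE i
    have h1 := span_stretch (hP E hE i) (hT E hE i) 1
    rwa [hS E hE i] at h1
  have hcard : ∀ E ∈ X, ∀ i, (g E i).card = n := by
    intro E hE i
    have h1 := card_stretch (hP E hE i) (hT E hE i) 1
    rw [hS E hE i, hE.2.2.2] at h1
    omega
  have hunk : ∀ E ∈ X, ∀ i, Unknotted (g E i) := by
    intro E hE i
    have h1 := (stretchStatement (g E i) (f E i) 1 (hP E hE i)).2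
    rw [hS E hE i] at h1
    obtain ⟨φ, hφ⟩ := h1
    refine hinv_unknotted E (g E i) ⟨φ.symm, ?_⟩ hE.2.1.1.2
    rw [← hφ, ← Set.image_comp]
    simp
  have key := compare (C' := Unknotted) (m := n) (M := n / 2) (n := n + 2) hinv_unknotted hy
    (X := X) (fun E hE => ⟨hE.1, hE.2.2.1, hE.2.2.2⟩) g f
    (fun E hE i => ⟨hP E hE i, hunk E hE i, hcard E hE i⟩)
    (by
      intro E hE i E' hE' i' r h1 h2
      have h3 := hN E' hE' i'
      rw [h1] at h3
      have h4 := (hN E hE i).eq_zero h3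
      rw [h4, shift_zero] at h1
      have h5 : E' = E := by
        rw [← hS E' hE' i', ← hS E hE i, h1, h2]
      refine ⟨⟨0, by rw [shift_zero]; exact h5⟩, ?_⟩
      subst h5
      exact (hfg E' hE').1 h2)
    twoSet
    (fun E hE i r => (twoSet_shift (hN E hE i) r).2 (hT E hE i))
    (by
      intro F hF hc
      have := card_twoSet hF
      omega)
  rw [zt_unk]
  have h1 : (M : ℝ) * Zt (x ^ 2) (fun E => UClass E ∧ M ≤ numStr E) (n + 2) =
      x ^ 2 * ∑ᶠ E ∈ X, ∑ i : Fin M, (x ^ 2) ^ span (g E i) := by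
    unfold Zt
    rw [← hXdef, finsum_mem_eq_finite_toFinset_sum _ hXfin,
      finsum_mem_eq_finite_toFinset_sum _ hXfin, Finset.mul_sum, Finset.mul_sum]
    refine Finset.sum_congr rfl fun E hE => ?_
    rw [Set.Finite.mem_toFinset] at hE
    rw [Finset.mul_sum, Finset.sum_congr rfl (g := fun _ => (x ^ 2) ^ span E) (by
      intro i _
      rw [hspan E hE i, pow_succ' (x ^ 2) (span (g E i))]), Finset.sum_const, Finset.card_univ, Fintype.card_fin,
      nsmul_eq_mul]
  rw [h1]
  refine mul_le_mul_of_nonneg_left (key.trans ?_) hy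
  refine mul_le_mul_of_nonneg_right ?_ (zt_nonneg hy _ _)
  exact_mod_cast (Nat.cast_div_le : (((n / 2 : ℕ) : ℝ)) ≤ (n : ℝ) / ((2 : ℕ) : ℝ))

/-- Large `n` for the ratio bound. -/
private theorem exists_large (hx : 10 ^ 4 ≤ x) : ∃ n0 : ℕ, ∀ n ≥ n0,
    4 ≤ n ∧ x ≤ 5 * n ∧ x ^ 2 * Real.exp (-(5 / x) * ((n + 2 : ℕ) : ℝ)) ≤ 98 / x ∧
      (1 : ℝ) ≤ 98 / x * (n : ℝ) := by
  have hx0 : 0 < x := by linarith
  have h5 : 0 < 5 / x := by positivity
  have h1 : Tendsto (fun n : ℕ => x ^ 2 * Real.exp (-(5 / x) * ((n + 2 : ℕ) : ℝ))) atTop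
      (𝓝 (x ^ 2 * 0)) := by
    refine Tendsto.const_mul _ ?_
    refine Real.tendsto_exp_atBot.comp ?_
    refine Tendsto.const_mul_atTop_of_neg (by linarith) ?_
    exact tendsto_natCast_atTop_atTop.comp (tendsto_add_atTop_nat 2)
  rw [mul_zero] at h1
  have h2 := h1.eventually_le_const (show (0 : ℝ) < 98 / x by positivity)
  have h3 : ∀ᶠ n : ℕ in atTop, x ≤ 5 * (n : ℝ) := by
    filter_upwards [tendsto_natCast_atTop_atTop.eventually_ge_atTop (x / 5)] with n hn
    linarith
  have h4 : ∀ᶠ n : ℕ in atTop, (1 : ℝ) ≤ 98 / x * (n : ℝ) := by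
    filter_upwards [tendsto_natCast_atTop_atTop.eventually_ge_atTop (x / 98)] with n hn
    have h6 : 98 / x * (x / 98) = 1 := by field_simp
    rw [← h6]
    exact mul_le_mul_of_nonneg_left hn (by positivity)
  obtain ⟨n0, hn0⟩ := eventually_atTop.1 (((eventually_ge_atTop 4).and h3).and (h2.and h4))
  exact ⟨n0, fun n hn => ⟨(hn0 n hn).1.1, (hn0 n hn).1.2, (hn0 n hn).2.1, (hn0 n hn).2.2⟩⟩

/-- **The ratio bound.** -/
theorem ratio_le (hx : 10 ^ 4 ≤ x) : ∃ n0 : ℕ, ∀ n ≥ n0,
    Zt (x ^ 2) UClass (n + 2) ≤ x ^ 2 * (1 + 200 / x) * Zt (x ^ 2) UClass n := by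
  obtain ⟨n0, hn0⟩ := exists_large hx
  have hx0 : 0 < x := by linarith
  have hx1 : 1 ≤ x := by linarith
  have hy : (0 : ℝ) ≤ x ^ 2 := by positivity
  refine ⟨n0, fun n hn => ?_⟩
  obtain ⟨h4, h5n, hbad, -⟩ := hn0 n hn
  have hU0 : 0 ≤ Zt (x ^ 2) UClass n := zt_nonneg hy _ _
  by_cases hev : Even n
  swap
  · rw [u_odd (n := n + 2) (by
      intro h
      apply hev
      have := (Nat.even_add (m := n) (n := 2)).1 h
      exact this.2 (by decide))]
    positivity
  set U := Zt (x ^ 2) UClass n with hU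
  set m : ℕ := n + 2 with hm
  have hmR : (m : ℝ) = n + 2 := by rw [hm]; push_cast; ring
  have hnR : (4 : ℝ) ≤ n := by exact_mod_cast h4
  -- the number of straight levels
  set v : ℝ := (m : ℝ) / 2 - 45 / x * m - 1 with hv
  set M : ℕ := ⌈v⌉₊ with hM
  have hvM : v ≤ M := Nat.le_ceil v
  -- `v` is large
  have hx' : 1 / x ≤ 1 / 10 ^ 4 := one_div_le_one_div_of_le (by norm_num) hx
  have hxinv : 0 < 1 / x := by positivity
  have hv1 : (n : ℝ) / 2 * (1 - 100 / x) ≤ v := by
    have e1 : v = (n : ℝ) / 2 * (1 - 90 / x) - 90 / x := by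
      rw [hv, hmR]; ring
    have e2 : (n : ℝ) * (5 / x) ≥ 1 := by
      rw [ge_iff_le, mul_div_assoc', le_div_iff₀ hx0]
      linarith
    have e3 : 90 / x ≤ 1 := by
      rw [div_le_one hx0]
      linarith
    rw [e1]
    have e4 : (n : ℝ) / 2 * (1 - 90 / x) - (n : ℝ) / 2 * (1 - 100 / x) = n * (5 / x) := by ring
    linarith
  have hs : 100 / x ≤ 1 / 100 := by
    rw [div_le_div_iff₀ hx0 (by norm_num)]
    linarith
  have hvpos : 0 < v := by
    refine lt_of_lt_of_le ?_ hv1
    have : (0 : ℝ) < 1 - 100 / x := by linarith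
    positivity
  have hMpos : (0 : ℝ) < M := lt_of_lt_of_le hvpos hvM
  -- splitting
  have hsplit := zt_le_add hy UClass (fun E => UClass E ∧ M ≤ numStr E) m
  have hb1 : Zt (x ^ 2) (fun F => UClass F ∧ ¬ (UClass F ∧ M ≤ numStr F)) m ≤
      x ^ m * Real.exp (-(5 / x) * m) := by
    refine le_trans (zt_mono_card hy ?_) (bad_le (by linarith) m)
    rintro E hE hc ⟨hEU, hnot⟩
    have h1 : numStr E < M := by
      by_contra h
      exact hnot ⟨hEU, not_lt.1 h⟩
    by_contra hcon
    rw [not_le] at hcon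
    have h2 := numStr_ge hE
    have h3 := two_span_le hE
    have h4 := card_eq hE
    have h5 : ((E.card - 2 * span E : ℕ) : ℝ) = (m : ℝ) - 2 * span E := by
      rw [Nat.cast_sub (by omega), hc]
      push_cast
      ring
    rw [h5] at hcon
    have h6 : (3 : ℝ) * span E ≤ numStr E + 1 + m := by
      have : 3 * span E ≤ numStr E + 1 + m := by omega
      exact_mod_cast this
    have h7 : (v : ℝ) ≤ numStr E := by
      rw [hv]
      have e1 : 45 / x * (m : ℝ) = 3 / 2 * (30 / x * m) := by ring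
      rw [e1]
      linarith
    have h8 : M ≤ numStr E := Nat.ceil_le.2 h7
    omega
  have hb2 : x ^ m * Real.exp (-(5 / x) * m) ≤ x ^ 2 * (98 / x) * U := by
    have h1 := u_ge hx1 hev h4
    have h2 : x ^ m = x ^ 4 * x ^ (n - 2) := by
      rw [← pow_add]
      congr 1
      omega
    rw [h2]
    calc x ^ 4 * x ^ (n - 2) * Real.exp (-(5 / x) * m)
        = x ^ 2 * (x ^ 2 * Real.exp (-(5 / x) * m)) * x ^ (n - 2) := by ring
      _ ≤ x ^ 2 * (98 / x) * U := by
        refine mul_le_mul (mul_le_mul_of_nonneg_left hbad hy) h1 (by positivity) (by positivity)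
  have hg : Zt (x ^ 2) (fun E => UClass E ∧ M ≤ numStr E) m ≤ x ^ 2 * (1 + 102 / x) * U := by
    have h1 := collapse_le hx1 (n := n) (M := M)
    rw [← hU] at h1
    have h2 : (n : ℝ) / 2 ≤ M * (1 + 102 / x) := by
      have e1 : (n : ℝ) / 2 * (1 - 100 / x) * (1 + 102 / x) ≤ M * (1 + 102 / x) :=
        mul_le_mul_of_nonneg_right (hv1.trans hvM) (by positivity)
      have e2 : (1 : ℝ) ≤ (1 - 100 / x) * (1 + 102 / x) := by
        have e3 : (1 - 100 / x) * (1 + 102 / x) = 1 + (2 - 10200 * (1 / x)) * (1 / x) := by ring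
        rw [e3]
        have e4 : 0 ≤ (2 - 10200 * (1 / x)) * (1 / x) := by
          refine mul_nonneg ?_ hxinv.le
          norm_num at hx' ⊢
          linarith
        linarith
      have e5 : (n : ℝ) / 2 * 1 ≤ (n : ℝ) / 2 * ((1 - 100 / x) * (1 + 102 / x)) :=
        mul_le_mul_of_nonneg_left e2 (by positivity)
      linarith
    have h3 : (M : ℝ) * Zt (x ^ 2) (fun E => UClass E ∧ M ≤ numStr E) m ≤
        M * (x ^ 2 * (1 + 102 / x) * U) := by
      refine h1.trans ?_
      calc x ^ 2 * ((n : ℝ) / 2 * U) ≤ x ^ 2 * ((M * (1 + 102 / x)) * U) :=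
            mul_le_mul_of_nonneg_left (mul_le_mul_of_nonneg_right h2 hU0) hy
        _ = M * (x ^ 2 * (1 + 102 / x) * U) := by ring
    exact le_of_mul_le_mul_left h3 hMpos
  have hfin : x ^ 2 * (1 + 102 / x) * U + x ^ 2 * (98 / x) * U = x ^ 2 * (1 + 200 / x) * U := by
    ring
  linarith

/-- All ratios from below. -/
theorem ratio_down (hx : 1 ≤ x) (n j : ℕ) :
    (x ^ 2) ^ j * Zt (x ^ 2) UClass n ≤ Zt (x ^ 2) UClass (n + 2 * j) := by
  have hy : (0 : ℝ) ≤ x ^ 2 := by positivity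
  induction j with
  | zero => simp
  | succ j ih =>
    have h1 := zt_bump_top hinv_unknotted hy (n + 2 * j)
    rw [← zt_unk, ← zt_unk] at h1
    have h2 : n + 2 * (j + 1) = n + 2 * j + 2 := by ring
    rw [h2]
    refine le_trans ?_ h1
    rw [pow_succ' (x ^ 2) j, mul_assoc]
    exact mul_le_mul_of_nonneg_left ih hy

/-- All ratios from above. -/
theorem ratio_up (hx : 10 ^ 4 ≤ x) : ∃ A : ℝ, 1 ≤ A ∧ ∀ n, Even n → 4 ≤ n → ∀ j : ℕ,
    Zt (x ^ 2) UClass (n + 2 * j) ≤ A * (x ^ 2 * (1 + 200 / x)) ^ j * Zt (x ^ 2) UClass n := by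
  obtain ⟨n0, hn0⟩ := ratio_le hx
  have hx0 : 0 < x := by linarith
  have hx1 : 1 ≤ x := by linarith
  have hy : (0 : ℝ) ≤ x ^ 2 := by positivity
  set q : ℝ := x ^ 2 * (1 + 200 / x) with hq
  have hq0 : 0 < q := by positivity
  have hiter : ∀ n ≥ n0, ∀ j : ℕ, Zt (x ^ 2) UClass (n + 2 * j) ≤ q ^ j * Zt (x ^ 2) UClass n := by
    intro n hn j
    induction j with
    | zero => simp
    | succ j ih =>
      have h1 := hn0 (n + 2 * j) (by omega)
      have h2 : n + 2 * (j + 1) = n + 2 * j + 2 := by ring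
      rw [h2]
      refine h1.trans ?_
      rw [pow_succ' q j, mul_assoc q (q ^ j)]
      exact mul_le_mul_of_nonneg_left ih hq0.le
  set t : ℕ → ℕ → ℝ := fun n j => Zt (x ^ 2) UClass (n + 2 * j) / (q ^ j * Zt (x ^ 2) UClass n)
    with ht
  have ht0 : ∀ n j, 0 ≤ t n j := fun n j =>
    div_nonneg (zt_nonneg hy _ _) (mul_nonneg (by positivity) (zt_nonneg hy _ _))
  set A : ℝ := 1 + ∑ n ∈ Finset.range n0, ∑ j ∈ Finset.range (n0 + 1), t n j with hA
  have hA1 : 1 ≤ A := by
    have : 0 ≤ ∑ n ∈ Finset.range n0, ∑ j ∈ Finset.range (n0 + 1), t n j :=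
      Finset.sum_nonneg fun n _ => Finset.sum_nonneg fun j _ => ht0 n j
    linarith
  refine ⟨A, hA1, fun n hev h4 j => ?_⟩
  have hU : 0 < Zt (x ^ 2) UClass n := u_pos hx1 hev h4
  -- small `j`
  have hsmall : ∀ j ≤ n0, Zt (x ^ 2) UClass (n + 2 * j) ≤ A * q ^ j * Zt (x ^ 2) UClass n := by
    intro j hj
    by_cases hn : n0 ≤ n
    · refine (hiter n hn j).trans ?_
      have h1 : 0 ≤ q ^ j * Zt (x ^ 2) UClass n := by positivity
      nlinarith
    · have h1 : t n j ≤ A := by
        have h2 : t n j ≤ ∑ j ∈ Finset.range (n0 + 1), t n j :=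
          Finset.single_le_sum (fun j _ => ht0 n j) (Finset.mem_range.2 (by omega))
        have h3 : (∑ j ∈ Finset.range (n0 + 1), t n j) ≤
            ∑ n ∈ Finset.range n0, ∑ j ∈ Finset.range (n0 + 1), t n j :=
          Finset.single_le_sum (f := fun n => ∑ j ∈ Finset.range (n0 + 1), t n j)
            (fun n _ => Finset.sum_nonneg fun j _ => ht0 n j) (Finset.mem_range.2 (by omega))
        linarith
      rw [ht] at h1
      simp only at h1
      rw [div_le_iff₀ (by positivity)] at h1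
      rw [mul_assoc]
      exact h1
  rcases le_total j n0 with hj | hj
  · exact hsmall j hj
  · obtain ⟨i, rfl⟩ := Nat.exists_eq_add_of_le hj
    have h1 := hiter (n + 2 * n0) (by omega) i
    have h2 : n + 2 * (n0 + i) = n + 2 * n0 + 2 * i := by ring
    rw [h2]
    refine h1.trans ?_
    have h3 := mul_le_mul_of_nonneg_left (hsmall n0 le_rfl) (show (0 : ℝ) ≤ q ^ i by positivity)
    refine h3.trans (le_of_eq ?_)
    rw [pow_add]
    ring

end Pool.Agent.KTen
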