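import Pool.Agent.KTen.LowFar
import Pool.Agent.KTen.Ratio
import Pool.Agent.KTen.SpliceShift
import Pool.Agent.MP_aea6d5_co.KMono

/-! The lower bound: a knot can be inserted at each of the many sections with two edges. -/

set_option autoImplicit false

open Set Filter Topology

namespace Pool.Agent.KTen

open Pool.Agent.LK Pool.Agent.KTube

variable {K0 E E' : ES} {h : ℕ} {z k k' : ℤ} {a b a' b' : ℤ × ℤ} {x : ℝ}

/-! ### The lowest level -/

/-- the lowest level -/
private noncomputable def lev (E : ES) : ℤ := sInf {m : ℤ | ∃ u ∈ verts E, u.2.2 = m}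

private theorem lev_isLeast (hE : (verts E).Nonempty) :
    IsLeast {m : ℤ | ∃ u ∈ verts E, u.2.2 = m} (lev E) := by
  obtain ⟨u, hu, hu'⟩ := Set.exists_min_image (verts E) (fun u => u.2.2) (verts_finite E) hE
  have h1 : IsLeast {m : ℤ | ∃ u ∈ verts E, u.2.2 = m} u.2.2 := by
    refine ⟨⟨u, hu, rfl⟩, ?_⟩
    rintro _ ⟨v, hv, rfl⟩
    exact hu' v hv
  have h2 : lev E = u.2.2 := h1.csInf_eq
  rw [h2]
  exact h1

private theorem lev_shift (hE : (verts E).Nonempty) (r : P3) : lev (shift r E) = lev E + r.2.2 := by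
  have h1 := lev_isLeast hE
  have h2 : IsLeast {m : ℤ | ∃ u ∈ verts (shift r E), u.2.2 = m} (lev E + r.2.2) := by
    obtain ⟨⟨u, hu, hu'⟩, h3⟩ := h1
    refine ⟨⟨u + r, mem_verts_shift.2 (by rwa [add_sub_cancel_right]), ?_⟩, ?_⟩
    · rw [← hu']; rfl
    · rintro _ ⟨v, hv, rfl⟩
      have h4 := h3 ⟨v - r, mem_verts_shift.1 hv, rfl⟩
      simp only [Prod.snd_sub] at h4
      linarith
  exact h2.csInf_eq

private theorem lev_le (hc : (cross E k).Nonempty) : lev E ≤ k := by
  obtain ⟨c, hc⟩ := hc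
  have h1 : ((c.1, c.2, k) : P3) ∈ verts E := left_mem_verts hc
  exact (lev_isLeast ⟨_, h1⟩).2 ⟨_, h1, rfl⟩

/-! ### Translations -/

private theorem stretch_shift (r : P3) (E : ES) (k : ℤ) (h : ℕ) :
    stretch (shift r E) (k + r.2.2) h = shift r (stretch E k h) := by
  apply edge_ext
  intro u v
  rw [mem_shift, mem_stretch, mem_stretch, mem_shift, mem_shift]
  refine or_congr ?_ (or_congr ?_ ?_)
  · refine and_congr Iff.rfl (and_congr ?_ ?_) <;> simp only [Prod.snd_sub] <;> constructor <;>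
      intro <;> linarith
  · have e1 : u - (0, 0, (h : ℤ)) - r = u - r - (0, 0, (h : ℤ)) := by abel
    have e2 : v - (0, 0, (h : ℤ)) - r = v - r - (0, 0, (h : ℤ)) := by abel
    rw [e1, e2]
    refine and_congr Iff.rfl (and_congr ?_ ?_) <;> simp only [Prod.snd_sub] <;> constructor <;>
      intro <;> linarith
  · constructor
    · rintro ⟨a, b, i, hi, h1, h2⟩
      refine ⟨a - r.1, b - r.2.1, i, hi, ?_, ?_⟩
      · rw [mem_shift] at h1
        have e1 : ((a, b, k + r.2.2) : P3) - r = (a - r.1, b - r.2.1, k) := by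
          ext <;> simp
        have e2 : ((a, b, k + r.2.2 + 1) : P3) - r = (a - r.1, b - r.2.1, k + 1) := by
          ext <;> simp
          ring
        rwa [e1, e2] at h1
      · have h3 := congrArg (Sym2.map (fun w : P3 => w - r)) h2
        rw [Sym2.map_mk, Sym2.map_mk] at h3
        rw [h3]
        congr 1 <;> (ext <;> simp <;> ring)
    · rintro ⟨a, b, i, hi, h1, h2⟩
      refine ⟨a + r.1, b + r.2.1, i, hi, ?_, ?_⟩
      · rw [mem_shift]
        have e1 : ((a + r.1, b + r.2.1, k + r.2.2) : P3) - r = (a, b, k) := by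
          ext <;> simp
        have e2 : ((a + r.1, b + r.2.1, k + r.2.2 + 1) : P3) - r = (a, b, k + 1) := by
          ext <;> simp
          ring
        rwa [e1, e2]
      · have h3 := congrArg (Sym2.map (fun w : P3 => w + r)) h2
        rw [Sym2.map_mk, Sym2.map_mk, sub_add_cancel, sub_add_cancel] at h3
        rw [h3]
        congr 1 <;> (ext <;> simp <;> ring)

private theorem insK_shift (r : P3) (K0 : ES) (h : ℕ) (z : ℤ) (a : ℤ × ℤ) (E : ES) (k : ℤ) :
    shift r (insK K0 h z a E k) =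
      insK K0 h z (a.1 + r.1, a.2 + r.2.1) (shift r E) (k + r.2.2) := by
  have hinj : Function.Injective (Sym2.map fun u : P3 => u + r) :=
    Sym2.map.injective (add_left_injective r)
  have e0 : ∀ A B : ES, shift r (A ∪ B) = shift r A ∪ shift r B := fun A B => by
    unfold shift mapE
    exact Finset.image_union _ _
  have e1 : ∀ A B : ES, shift r (A \ B) = shift r A \ shift r B := fun A B => by
    unfold shift mapE
    exact Finset.image_sdiff _ _ hinj
  have e2 : ∀ u v : P3, shift r {s(u, v)} = {s(u + r, v + r)} := fun u v => by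
    unfold shift mapE
    rw [Finset.image_singleton, Sym2.map_mk]
  have e3 : ∀ (e : Sym2 P3) (A : ES), shift r (insert e A) = insert (Sym2.map (fun u => u + r) e)
      (shift r A) := fun e A => by
    unfold shift mapE
    exact Finset.image_insert _ _ _
  unfold insK
  rw [e0, e0, e1, e1, e2, e2, e3, e2, Sym2.map_mk, stretch_shift, shift_shift]
  have f : ∀ p q w : ℤ, ((p, q, w) : P3) + r = (p + r.1, q + r.2.1, w + r.2.2) := fun p q w => by
    ext <;> simp
  have g : r + ((a.1, a.2, k) : P3) = (a.1 + r.1, a.2 + r.2.1, k + r.2.2) := by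
    ext <;> simp <;> ring
  have g1 : k + z + r.2.2 = k + r.2.2 + z := by ring
  have g2 : k + z + 1 + r.2.2 = k + r.2.2 + z + 1 := by ring
  have g3 : a.1 - 1 + r.1 = a.1 + r.1 - 1 := by ring
  simp only [f, g, g1, g2, g3]

private theorem lex_shift (h : Lex a b) (r : P3) :
    Lex (a.1 + r.1, a.2 + r.2.1) (b.1 + r.1, b.2 + r.2.1) := by
  rcases h with h | ⟨h1, h2⟩
  · left
    simpa using h
  · right
    simp only
    omega

private theorem cross_shift_pair (hc : cross E k = {a, b}) (r : P3) :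
    cross (shift r E) (k + r.2.2) = {(a.1 + r.1, a.2 + r.2.1), (b.1 + r.1, b.2 + r.2.1)} := by
  rw [cross_shift, hc, Set.image_pair]

private theorem exists_lex (hE : IsTwo E k) : ∃ a b, cross E k = {a, b} ∧ Lex a b := by
  obtain ⟨a, b, hab, hc⟩ := Set.ncard_eq_two.1 hE
  rcases lt_trichotomy a.1 b.1 with h | h | h
  · exact ⟨a, b, hc, Or.inl h⟩
  · rcases lt_trichotomy a.2 b.2 with h' | h' | h'
    · exact ⟨a, b, hc, Or.inr ⟨h, h'⟩⟩
    · exact absurd (Prod.ext h h') hab
    · exact ⟨b, a, by rw [hc, Set.pair_comm], Or.inr ⟨h.symm, h'⟩⟩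
  · exact ⟨b, a, by rw [hc, Set.pair_comm], Or.inl h⟩

/-! ### The marks -/

/-- the planes at which `K0` may have been inserted -/
private def TT (K0 : ES) (h : ℕ) (z : ℤ) (F : ES) : Set ℤ :=
  {k | ∃ E a b, IsPolygon E ∧ Unknotted E ∧ cross E k = {a, b} ∧ Lex a b ∧
    F = insK K0 h z a E k}

private theorem near_finite {T : Set ℤ} {h : ℕ} (hT : ∀ k ∈ T, ∀ k' ∈ T, k' < k + h) :
    T.Finite ∧ T.ncard ≤ h := by
  rcases T.eq_empty_or_nonempty with rfl | ⟨k0, hk0⟩
  · simp
  have hfin : T.Finite := by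
    refine (Set.finite_Icc (k0 - h) (k0 + h)).subset fun k hk => ?_
    have h1 := hT k hk k0 hk0
    have h2 := hT k0 hk0 k hk
    rw [Set.mem_Icc]
    omega
  refine ⟨hfin, ?_⟩
  obtain ⟨m, hm, hm'⟩ := Set.exists_min_image T id hfin ⟨k0, hk0⟩
  have hsub : T ⊆ ((Finset.Ico m (m + h) : Finset ℤ) : Set ℤ) := by
    intro k hk
    rw [Finset.mem_coe, Finset.mem_Ico]
    exact ⟨hm' k hk, hT m hm k hk⟩
  calc T.ncard ≤ ((Finset.Ico m (m + h) : Finset ℤ) : Set ℤ).ncard :=
        Set.ncard_le_ncard hsub (Finset.finite_toSet _)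
    _ = h := by rw [Set.ncard_coe_finset, Int.card_Ico]; simp

private theorem TT_near (hK : LeftOf K0 h z) (nK : ¬ Unknotted K0) (F : ES) :
    ∀ k ∈ TT K0 h z F, ∀ k' ∈ TT K0 h z F, k' < k + h := by
  rintro k ⟨E, a, b, hE, uE, hc, hab, hF⟩ k' ⟨E', a', b', hE', uE', hc', hab', hF'⟩
  by_contra hcon
  push Not at hcon
  exact insK_far hK nK hE hE' uE' hc hab hc' hab' hcon (hF.symm.trans hF')

open Classical in
private noncomputable def marks (K0 : ES) (h : ℕ) (z : ℤ) (F : ES) : Finset ℕ :=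
  if hf : (TT K0 h z F).Finite then hf.toFinset.image fun k => (k - lev F).toNat else ∅

private theorem marks_card (hK : LeftOf K0 h z) (nK : ¬ Unknotted K0) (F : ES) :
    (marks K0 h z F).card ≤ h := by
  classical
  obtain ⟨hf, hn⟩ := near_finite (TT_near hK nK F)
  unfold marks
  rw [dif_pos hf]
  refine Finset.card_image_le.trans ?_
  rwa [← Set.ncard_eq_toFinset_card _ hf]

private theorem mem_marks (hK : LeftOf K0 h z) (nK : ¬ Unknotted K0) {F : ES}
    (hk : k ∈ TT K0 h z F) : (k - lev F).toNat ∈ marks K0 h z F := by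
  classical
  obtain ⟨hf, hn⟩ := near_finite (TT_near hK nK F)
  unfold marks
  rw [dif_pos hf, Finset.mem_image]
  exact ⟨k, hf.mem_toFinset.2 hk, rfl⟩

/-- Insertion into the unknotted polygons with at least `M` sections with two edges. -/
theorem insert_le (hK : LeftOf K0 h z) (nK : ¬ Unknotted K0)
    (hx : 1 ≤ x) (n M : ℕ) :
    (M : ℝ) * x ^ (2 * h) * Zt (x ^ 2) (fun E => UClass E ∧ M ≤ numTwo E) n ≤
      h * Zt (x ^ 2) (KClass K0) (n + 2 * h + K0.card) := by
  classical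
  have hy : (0 : ℝ) ≤ x ^ 2 := by positivity
  set X : Set ES := NSet (fun E => UClass E ∧ M ≤ numTwo E) n with hX
  have key : ∀ E ∈ X, ∃ (f : Fin M → ℤ) (a b : Fin M → ℤ × ℤ), Function.Injective f ∧
      ∀ i, cross E (f i) = {a i, b i} ∧ Lex (a i) (b i) := by
    rintro E ⟨hE, ⟨-, hM⟩, -, -⟩
    have hcard : Fintype.card (Fin M) ≤ Fintype.card (isTwo_finite E).toFinset := by
      rw [Fintype.card_fin, Fintype.card_coe, ← Set.ncard_eq_toFinset_card _ (isTwo_finite E)]
      exact hM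
    obtain ⟨e⟩ := Function.Embedding.nonempty_of_card_le hcard
    have htwo : ∀ i, IsTwo E (e i : ℤ) := fun i => (isTwo_finite E).mem_toFinset.1 (e i).2
    choose a b hab using fun i => exists_lex (htwo i)
    exact ⟨fun i => (e i : ℤ), a, b, fun i j hij => e.injective (Subtype.ext hij), hab⟩
  choose! f a b hinj hf using key
  have hE0 : ∀ E ∈ X, IsPolygon E := fun E hE => hE.1
  have hEu : ∀ E ∈ X, Unknotted E := fun E hE => hE.2.1.1.2
  have hmain := compare (C' := SameType K0) (y := x ^ 2) (ι := Fin M) (μ := ℕ)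
    (fun E F h1 h2 => h2.trans h1) hy (X := X) (fun E hE => ⟨hE.1, hE.2.2.1, hE.2.2.2⟩)
    (fun E i => insK K0 h z (a E i) E (f E i))
    (fun E i => (f E i - lev (insK K0 h z (a E i) E (f E i))).toNat)
    (m := n + 2 * h + K0.card)
    (fun E hE i => ⟨insK_poly hK (hE0 E hE) (hf E hE i).1 (hf E hE i).2,
      insK_type hK (hE0 E hE) (hf E hE i).1 (hf E hE i).2 (hEu E hE), by
        rw [insK_card hK (hE0 E hE) (hf E hE i).1 (hf E hE i).2, hE.2.2.2]⟩)
    (by
      intro E hE i E' hE' i' r heq hmk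
      obtain ⟨hc, hl⟩ := hf E hE i
      obtain ⟨hc', hl'⟩ := hf E' hE' i'
      have hG := insK_poly hK (hE0 E hE) hc hl
      have h1 : (cross (insK K0 h z (a E i) E (f E i)) (f E i)).Nonempty := by
        rw [(insK_cross hK (hE0 E hE) hc hl).1 _ le_rfl, hc]
        exact ⟨_, Set.mem_insert _ _⟩
      have h2 : (cross (insK K0 h z (a E' i') E' (f E' i')) (f E' i')).Nonempty := by
        rw [(insK_cross hK (hE0 E' hE') hc' hl').1 _ le_rfl, hc']
        exact ⟨_, Set.mem_insert _ _⟩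
      have h3 := lev_le h1
      have h4 := lev_le h2
      have h5 : lev (insK K0 h z (a E' i') E' (f E' i')) =
          lev (insK K0 h z (a E i) E (f E i)) + r.2.2 := by
        rw [heq]
        exact lev_shift hG.verts_nonempty r
      have hk : f E' i' = f E i + r.2.2 := by
        omega
      have heq' : insK K0 h z (a E' i') E' (f E' i') =
          insK K0 h z ((a E i).1 + r.1, (a E i).2 + r.2.1) (shift r E) (f E' i') := by
        rw [hk, ← insK_shift, ← hk]
        exact heq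
      have hs : E' = shift r E := by
        refine insK_inj hK (hE0 E' hE') (isPolygon_shift (hE0 E hE) r) hc' hl'
          (b' := ((b E i).1 + r.1, (b E i).2 + r.2.1)) ?_ (lex_shift hl r) heq'
        rw [hk]
        exact cross_shift_pair hc r
      refine ⟨⟨r, hs⟩, ?_⟩
      have hr : r = 0 := by
        refine Normed.eq_zero hE.2.2.1 ?_
        rw [← hs]
        exact hE'.2.2.1
      have hEE : E' = E := by rw [hs, hr, shift_zero]
      rw [hEE, hr] at hk
      apply hinj E hE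
      rw [hk]
      simp)
    (marks K0 h z)
    (by
      intro E hE i r
      obtain ⟨hc, hl⟩ := hf E hE i
      have hG := insK_poly hK (hE0 E hE) hc hl
      have h1 : f E i + r.2.2 ∈ TT K0 h z (shift r (insK K0 h z (a E i) E (f E i))) :=
        ⟨shift r E, _, _, isPolygon_shift (hE0 E hE) r,
          (moveFacts.trans r E).symm.unknotted (hEu E hE), cross_shift_pair hc r, lex_shift hl r,
          insK_shift r K0 h z (a E i) E (f E i)⟩
      have h2 := mem_marks hK nK h1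
      rw [lev_shift hG.verts_nonempty r, add_sub_add_right_eq_sub] at h2
      exact h2)
    (M := h) (fun F _ _ => marks_card hK nK F)
  have hfinX : X.Finite := nset_finite _ _
  have hsum : ∑ᶠ E ∈ X, ∑ i : Fin M, (x ^ 2) ^ span (insK K0 h z (a E i) E (f E i)) =
      (M : ℝ) * x ^ (2 * h) * Zt (x ^ 2) (fun E => UClass E ∧ M ≤ numTwo E) n := by
    unfold Zt
    rw [mul_finsum_mem]
    refine finsum_mem_congr rfl fun E hE => ?_
    have h1 : ∀ i : Fin M, (x ^ 2) ^ span (insK K0 h z (a E i) E (f E i)) =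
        x ^ (2 * h) * (x ^ 2) ^ span E := by
      intro i
      rw [insK_span hK (hE0 E hE) (hf E hE i).1 (hf E hE i).2, pow_add, ← pow_mul x 2 h, mul_comm]
    rw [Finset.sum_congr rfl fun i _ => h1 i, Finset.sum_const, Finset.card_univ, Fintype.card_fin,
      nsmul_eq_mul, mul_assoc]
  rw [← hsum]
  refine hmain.trans (mul_le_mul_of_nonneg_left ?_ (Nat.cast_nonneg _))
  exact zt_mono hy (fun E hE h1 => ⟨hE, h1⟩) _

private theorem zt_card (y : ℝ) (C : ES → Prop) (n : ℕ) :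
    Zt y C n = Zt y (fun E => C E ∧ E.card = n) n := by
  have h : NSet C n = NSet (fun E => C E ∧ E.card = n) n := by
    ext E
    simp only [NSet, Set.mem_ofPred_eq]
    tauto
  unfold Zt
  rw [h]

private theorem exp_small {x : ℝ} (hx : 0 < x) : ∃ n1 : ℕ, ∀ n ≥ n1,
    x ^ 2 * Real.exp (-(5 / x) * n) ≤ 1 / 2 := by
  have h1 : Tendsto (fun n : ℕ => x ^ 2 * Real.exp (-(5 / x) * n)) atTop (𝓝 (x ^ 2 * 0)) := by
    refine Tendsto.const_mul _ ?_
    refine Real.tendsto_exp_atBot.comp ?_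
    refine Tendsto.const_mul_atTop_of_neg ?_ tendsto_natCast_atTop_atTop
    have : 0 < 5 / x := by positivity
    linarith
  rw [mul_zero] at h1
  obtain ⟨n1, hn1⟩ := (h1.eventually (ge_mem_nhds (by norm_num : (0 : ℝ) < 1 / 2))).exists_forall_of_atTop
  exact ⟨n1, fun n hn => hn1 n hn⟩

/-- Half of the unknotted polygons have many sections with two edges. -/
private theorem half_le (hx : 10 ^ 4 ≤ x) : ∃ n1 : ℕ, ∀ n ≥ n1, Even n →
    Zt (x ^ 2) UClass n ≤ 2 * Zt (x ^ 2) (fun E => UClass E ∧ n / 4 ≤ numTwo E) n := by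
  have hx0 : 0 < x := by linarith
  have hx1 : 1 ≤ x := by linarith
  have hy : (0 : ℝ) ≤ x ^ 2 := by positivity
  obtain ⟨n1, hn1⟩ := exp_small hx0
  refine ⟨n1 + 4, fun n hn hev => ?_⟩
  have h1 := zt_le_add (y := x ^ 2) hy UClass (fun E => UClass E ∧ n / 4 ≤ numTwo E) n
  have h2 : Zt (x ^ 2) (fun F => UClass F ∧ ¬ (UClass F ∧ n / 4 ≤ numTwo F)) n ≤
      Zt (x ^ 2) (fun E => 30 / x * n ≤ ((E.card - 2 * span E : ℕ) : ℝ)) n := by
    rw [zt_card]
    refine zt_mono hy ?_ n
    rintro E hE ⟨⟨hU, hnot⟩, hcard⟩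
    have h3 : numTwo E < n / 4 := by
      by_contra h4
      push Not at h4
      exact hnot ⟨hU, h4⟩
    have h4 := numTwo_ge hE
    have h5 := card_eq hE
    have h6 : n ≤ 4 * (E.card - 2 * span E) := by omega
    have h7 : (n : ℝ) ≤ 4 * ((E.card - 2 * span E : ℕ) : ℝ) := by exact_mod_cast h6
    have h8 : 30 / x ≤ 1 / 4 := by
      rw [div_le_div_iff₀ hx0 (by norm_num)]
      linarith
    have h9 : (0 : ℝ) ≤ n := Nat.cast_nonneg n
    nlinarith
  have h3 := bad_le (x := x) (by linarith) n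
  have h4 := u_ge hx1 hev (by omega : 4 ≤ n)
  have h5 := hn1 n (by omega)
  have h6 : x ^ n = x ^ 2 * x ^ (n - 2) := by
    rw [← pow_add]
    congr 1
    omega
  have h7 : 0 < x ^ (n - 2) := by positivity
  have h8 : x ^ n * Real.exp (-(5 / x) * n) ≤ 1 / 2 * x ^ (n - 2) := by
    rw [h6]
    calc x ^ 2 * x ^ (n - 2) * Real.exp (-(5 / x) * n) =
        (x ^ 2 * Real.exp (-(5 / x) * n)) * x ^ (n - 2) := by ring
      _ ≤ 1 / 2 * x ^ (n - 2) := mul_le_mul_of_nonneg_right h5 h7.le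
  linarith

/-- **The lower bound.** -/
theorem lower (hx : 10 ^ 4 ≤ x) {K : ES} (hK : IsPolygon K)
    (nK : ¬ Unknotted K) : ∃ δ : ℝ, 0 < δ ∧ ∃ n0 : ℕ, ∀ n ≥ n0,
      δ * n * Zt (x ^ 2) UClass n ≤ Zt (x ^ 2) (KClass K) n := by
  have hx0 : 0 < x := by linarith
  have hx1 : 1 ≤ x := by linarith
  have hy : (0 : ℝ) ≤ x ^ 2 := by positivity
  obtain ⟨K0, h, z, hT, hL⟩ := exists_leftOf hK
  have nK0 : ¬ Unknotted K0 := fun h0 => nK (hT.unknotted h0)
  have hh : 1 ≤ h := by
    have h1 := hL.lev _ (left_mem_verts hL.edge)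
    simp only at h1
    omega
  obtain ⟨A, hA, hup⟩ := ratio_up hx
  obtain ⟨n1, hn1⟩ := half_le hx
  obtain ⟨c0, hc0⟩ := even_card hL.poly
  have hc : 2 * h + K0.card = 2 * (h + c0) := by omega
  set B : ℝ := (x ^ 2 * (1 + 200 / x)) ^ (h + c0) with hB
  have hB0 : 0 < B := by positivity
  have hh0 : (0 : ℝ) < h := by exact_mod_cast hh
  refine ⟨1 / (32 * h * A * B), by positivity, n1 + 4 + 2 * (h + c0) + 2 * (h + c0) + 12, ?_⟩
  intro m hm
  by_cases hev : Even m
  swap
  · rw [u_odd hev, mul_zero]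
    exact zt_nonneg hy _ _
  obtain ⟨n, rfl⟩ : ∃ n, m = n + 2 * (h + c0) := ⟨m - 2 * (h + c0), by omega⟩
  have hevn : Even n := by
    rw [Nat.even_add] at hev
    exact hev.2 (even_two_mul _)
  have h1 := hn1 n (by omega) hevn
  have h2 := insert_le hL nK0 hx1 n (n / 4)
  have h3 := hup n hevn (by omega) (h + c0)
  have h4 : n + 2 * h + K0.card = n + 2 * (h + c0) := by omega
  rw [h4] at h2
  have h5 : Zt (x ^ 2) (KClass K0) (n + 2 * (h + c0)) ≤
      Zt (x ^ 2) (KClass K) (n + 2 * (h + c0)) :=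
    zt_mono hy (fun E _ h6 => ⟨h6.1, hT.trans h6.2⟩) _
  have h6 : ((n + 2 * (h + c0) : ℕ) : ℝ) ≤ 16 * ((n / 4 : ℕ) : ℝ) := by
    have : n + 2 * (h + c0) ≤ 16 * (n / 4) := by omega
    exact_mod_cast this
  set U := Zt (x ^ 2) UClass n
  set U' := Zt (x ^ 2) UClass (n + 2 * (h + c0))
  set V := Zt (x ^ 2) (fun E => UClass E ∧ n / 4 ≤ numTwo E) n
  set W := Zt (x ^ 2) (KClass K0) (n + 2 * (h + c0))
  have hV0 : 0 ≤ V := zt_nonneg hy _ _
  have hU0 : 0 ≤ U := zt_nonneg hy _ _
  have hU0' : 0 ≤ U' := zt_nonneg hy _ _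
  have hq : (0 : ℝ) ≤ ((n / 4 : ℕ) : ℝ) := Nat.cast_nonneg _
  have h7 : (1 : ℝ) ≤ x ^ (2 * h) := one_le_pow₀ hx1
  have h8 : ((n / 4 : ℕ) : ℝ) * V ≤ h * W := by
    refine le_trans ?_ h2
    have : 0 ≤ ((n / 4 : ℕ) : ℝ) * V := mul_nonneg hq hV0
    nlinarith
  have h9 : ((n / 4 : ℕ) : ℝ) * U' ≤ A * B * (2 * (h * W)) := by
    calc ((n / 4 : ℕ) : ℝ) * U' ≤ ((n / 4 : ℕ) : ℝ) * (A * B * U) :=
          mul_le_mul_of_nonneg_left h3 hq
      _ ≤ ((n / 4 : ℕ) : ℝ) * (A * B * (2 * V)) := by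
          refine mul_le_mul_of_nonneg_left (mul_le_mul_of_nonneg_left h1 (by positivity)) hq
      _ = A * B * (2 * (((n / 4 : ℕ) : ℝ) * V)) := by ring
      _ ≤ A * B * (2 * (h * W)) :=
          mul_le_mul_of_nonneg_left (mul_le_mul_of_nonneg_left h8 (by norm_num)) (by positivity)
  refine le_trans ?_ h5
  have h10 : 0 < 32 * (h : ℝ) * A * B := by positivity
  rw [one_div, mul_assoc, inv_mul_le_iff₀ h10]
  calc ((n + 2 * (h + c0) : ℕ) : ℝ) * U' ≤ 16 * ((n / 4 : ℕ) : ℝ) * U' :=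
        mul_le_mul_of_nonneg_right h6 hU0'
    _ = 16 * (((n / 4 : ℕ) : ℝ) * U') := by ring
    _ ≤ 16 * (A * B * (2 * (h * W))) := mul_le_mul_of_nonneg_left h9 (by norm_num)
    _ = 32 * h * A * B * W := by ring

end Pool.Agent.KTen
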