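import Pool.Agent.KTen.Capped

/-! Capped knotted polygons have a first knotted piece. -/

set_option autoImplicit false

open Set

namespace Pool.Agent.KTen

open Pool.Agent.LK Pool.Agent.KTube

variable {C : ES → Prop} {E : ES} {n : ℕ} {y : ℝ}

/-- A knotted capped polygon has a first knotted piece. -/
theorem exists_piece (hE : IsPolygon E) (hc : Capped E) (hU : ¬ Unknotted E) :
    ∃ s t, Piece E s t := by
  obtain ⟨s0, t0, hr, h1, h2, hL, hV⟩ := hc
  have hnL : ¬ LowU E t0 := fun h => hU ((unknotted_iff hE h2).2 ⟨h, hV⟩)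
  have hle : s0 ≤ t0 := by
    have hne : (cross E s0).Nonempty := by
      rw [Set.nonempty_iff_ne_empty]
      intro h0
      have h3 : (cross E s0).ncard = 2 := h1
      rw [h0, Set.ncard_empty] at h3
      omega
    exact (hr s0 hne).2
  obtain ⟨s, ⟨hs1, hs2, hs3, hs4⟩, hsmax⟩ := Int.exists_greatest_of_bdd
    (P := fun k => s0 ≤ k ∧ k ≤ t0 ∧ IsTwo E k ∧ LowU E k) ⟨t0, fun z hz => hz.2.1⟩
    ⟨s0, le_refl _, hle, h1, hL⟩
  have hst : s < t0 := by
    rcases hs2.lt_or_eq with h | h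
    · exact h
    · rw [h] at hs4
      exact absurd hs4 hnL
  obtain ⟨t, ⟨ht1, ht2, ht3⟩, htmin⟩ := Int.exists_least_of_bdd
    (P := fun k => s < k ∧ k ≤ t0 ∧ IsTwo E k) ⟨s, fun z hz => hz.1.le⟩ ⟨t0, hst, le_refl _, h2⟩
  refine ⟨s, t, ht1, hs3, ht3, ?_, hs4, ?_⟩
  · intro k hk1 hk2 hk3
    have h3 := htmin k ⟨hk1, by omega, hk3⟩
    omega
  · intro h3
    have h4 := hsmax t ⟨by omega, ht2, ht3, h3⟩
    omega

end Pool.Agent.KTen
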