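import Pool.Agent.KTen.UpPiece
import Pool.Agent.KTen.PieceEx

/-! The upper bound for polygons with at most `N` prime factors. -/

set_option autoImplicit false

open Set Filter Topology

namespace Pool.Agent.KTen

open Pool.Agent.LK Pool.Agent.KTube

variable {x : ℝ}

/-- **The upper bound.** -/
theorem upper (hx : 10 ^ 4 ≤ x) (N : ℕ) :
    ∃ D : ℝ, 0 ≤ D ∧ ∀ m, Zt (x ^ 2) (Few N) m ≤ D * (m : ℝ) ^ N * Zt (x ^ 2) UClass m := by
  have hx0 : (0 : ℝ) < x := lt_of_lt_of_le (by norm_num) hx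
  have hy : (0 : ℝ) ≤ x ^ 2 := by positivity
  have hy2 : (0 : ℝ) < (x ^ 2) ^ 2 := by positivity
  induction N with
  | zero =>
    refine ⟨1, zero_le_one, fun m => ?_⟩
    rw [pow_zero, one_mul, one_mul]
    exact zt_mono hy (fun E hE hC => ⟨hE, hC⟩) m
  | succ N ih =>
    obtain ⟨D, hD0, hD⟩ := ih
    obtain ⟨B, hB0, hB⟩ := piece_le hx hD
    obtain ⟨A, hA1, hA⟩ := ratio_up hx
    have hq : (0 : ℝ) ≤ (1 + 200 / x) ^ 2 := by positivity
    have hA0 : (0 : ℝ) ≤ A := zero_le_one.trans hA1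
    refine ⟨1 + B * 2 ^ (N + 1) * (A * (1 + 200 / x) ^ 2), by positivity, fun m => ?_⟩
    by_cases hm : Even m
    swap
    · rw [u_odd hm, u_odd hm, mul_zero]
    by_cases h4 : 4 ≤ m
    swap
    · rw [u_small (not_le.1 h4), u_small (not_le.1 h4), mul_zero]
    set U := Zt (x ^ 2) UClass m with hU
    have hU0 : 0 ≤ U := zt_nonneg hy _ _
    have hm1 : (1 : ℝ) ≤ m := by
      have : (4 : ℝ) ≤ m := by exact_mod_cast h4
      linarith
    have h1 := zt_le_add (n := m) hy (Few (N + 1)) Unknotted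
    have h2 : Zt (x ^ 2) Unknotted m ≤ U := zt_mono hy (fun E hE hC => ⟨hE, hC⟩) m
    have hinv : HInv fun F => Few (N + 1) F ∧ ¬ Unknotted F := by
      intro E F hEF hE
      refine ⟨hinv_few (N + 1) E F hEF hE.1, fun hF => hE.2 ?_⟩
      exact hinv_few 0 F E hEF.symm hF
    have h3 := zt_capped hinv hy m
    have h4' : Zt (x ^ 2) (fun E => (Few (N + 1) E ∧ ¬ Unknotted E) ∧ Capped E) (m + 4) ≤
        Zt (x ^ 2) (fun E => Few (N + 1) E ∧ ∃ s t, Piece E s t ∧ 0 ≤ (midE E s t).card)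
          (m + 4) := by
      refine zt_mono hy (fun E hE hC => ⟨hC.1.1, ?_⟩) (m + 4)
      obtain ⟨s, t, h⟩ := exists_piece hE hC.2 hC.1.2
      exact ⟨s, t, h, Nat.zero_le _⟩
    have hm4 : Even (m + 4) := hm.add (by decide)
    have h5 := hB (m + 4) hm4 (by omega) 0
    rw [pow_zero, mul_one] at h5
    have h6 := hA m hm h4 2
    have h7 : m + 2 * 2 = m + 4 := rfl
    rw [h7] at h6
    have h8 : (((m + 4 : ℕ) : ℝ)) ^ (N + 1) ≤ (2 * m) ^ (N + 1) := by
      apply pow_le_pow_left₀ (Nat.cast_nonneg _)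
      have : (4 : ℝ) ≤ m := by exact_mod_cast h4
      push_cast
      linarith
    have h9 : (x ^ 2) ^ 2 * Zt (x ^ 2) (fun F => Few (N + 1) F ∧ ¬ Unknotted F) m ≤
        (x ^ 2) ^ 2 * (B * 2 ^ (N + 1) * (A * (1 + 200 / x) ^ 2) * ((m : ℝ) ^ (N + 1) * U)) := by
      calc (x ^ 2) ^ 2 * Zt (x ^ 2) (fun F => Few (N + 1) F ∧ ¬ Unknotted F) m
          ≤ B * (((m + 4 : ℕ) : ℝ) ^ (N + 1) * Zt (x ^ 2) UClass (m + 4)) :=
            (h3.trans h4').trans h5
        _ ≤ B * ((2 * m) ^ (N + 1) * (A * (x ^ 2 * (1 + 200 / x)) ^ 2 * U)) := by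
            apply mul_le_mul_of_nonneg_left _ hB0
            exact mul_le_mul h8 h6 (zt_nonneg hy _ _) (by positivity)
        _ = _ := by
            rw [mul_pow, mul_pow]
            ring
    have h10 := le_of_mul_le_mul_left h9 hy2
    have h11 : U ≤ (m : ℝ) ^ (N + 1) * U := by
      calc U = 1 * U := (one_mul U).symm
        _ ≤ _ := mul_le_mul_of_nonneg_right (one_le_pow₀ hm1) hU0
    calc Zt (x ^ 2) (Few (N + 1)) m
        ≤ Zt (x ^ 2) Unknotted m + Zt (x ^ 2) (fun F => Few (N + 1) F ∧ ¬ Unknotted F) m := h1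
      _ ≤ (m : ℝ) ^ (N + 1) * U +
          B * 2 ^ (N + 1) * (A * (1 + 200 / x) ^ 2) * ((m : ℝ) ^ (N + 1) * U) :=
          add_le_add (h2.trans h11) h10
      _ = _ := by ring

end Pool.Agent.KTen
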