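import Pool.Agent.KTen.CapPub
import Pool.Agent.KTen.PieceEx
import Pool.Agent.KTen.Upper
import Pool.Agent.KTen.Lower

/-! Strong localisation of prime knots in stretched polygons. -/

set_option autoImplicit false

open Set Filter Topology

namespace Pool.Agent.KTen

open Pool.Agent.LK Pool.Agent.KTube Pool.Agent.KTen.Cap

/-- `E` is unknotted outside a slab which contains at most `j` of its edges: there are planes
`z = s + 1/2` and `z = t + 1/2` such that at most `j` edges have an end at one of the levels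
`s + 1, …, t` between them, the first one is below `E` or cuts `E` in two edges with an unknotted
lower part, the second one is above `E` or cuts `E` in two edges with an unknotted upper part. -/
def LocAt (E : ES) (j : ℕ) : Prop := ∃ s t : ℤ, s < t ∧ (midE E s t).card ≤ j ∧
  ((∀ u ∈ verts E, s < u.2.2) ∨ (IsTwo E s ∧ LowU E s)) ∧
  ((∀ u ∈ verts E, u.2.2 ≤ t) ∨ (IsTwo E t ∧ UppU E t))

variable {E : ES} {p d p' d' : P3} {s t : ℤ}

private theorem verts_caps (h : BP 1 E p d) {u : P3} (hu : u ∈ verts E) :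
    u ∈ verts (bump E p (p + d) (0, 0, 1)) := by
  obtain ⟨v, hv⟩ := hu
  by_cases he : s(u, v) = s(p, p + d)
  · rw [Sym2.eq_iff] at he
    rcases he with ⟨rfl, -⟩ | ⟨rfl, -⟩
    · exact ⟨_, (bp_mem _ _).2 (Or.inr (Or.inl rfl))⟩
    · exact ⟨_, (bp_mem _ _).2 (Or.inr (Or.inr (Or.inr Sym2.eq_swap)))⟩
  · exact ⟨v, (bp_mem _ _).2 (Or.inl ⟨hv, he⟩)⟩

/-- The lower part of the capped polygon. -/
private theorem low_of_cap (hE : IsPolygon E) (h : BP 1 E p d)
    (h' : BP (-1) (bump E p (p + d) (0, 0, 1)) p' d') (h1 : p'.2.2 ≤ s) (h2 : s < p.2.2)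
    (h3 : IsTwo E s)
    (hc : cross (bump (bump E p (p + d) (0, 0, 1)) p' (p' + d') (0, 0, -1)) s = cross E s)
    (hL : LowU (bump (bump E p (p + d) (0, 0, 1)) p' (p' + d') (0, 0, -1)) s) : LowU E s := by
  obtain ⟨F, hF, hFc, hU⟩ := hL
  have e3 := h.2.2.1
  have e3' := h'.2.2.1
  have hlow : ∀ u ∈ verts E, p'.2.2 ≤ u.2.2 := by
    intro u hu
    have := h'.2.2.2 u (verts_caps h hu)
    omega
  have he : s(p', p' + d') ∈ E := by
    have h4 := h'.1
    rw [bp_mem] at h4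
    rcases h4 with h4 | h4 | h4 | h4
    · exact h4.1
    all_goals
      exfalso
      rw [Sym2.eq_iff] at h4
      rcases h4 with ⟨h5, h6⟩ | ⟨h5, h6⟩
      · have g1 := congrArg (fun x : P3 => x.2.2) h5
        have g2 := congrArg (fun x : P3 => x.2.2) h6
        simp only [Prod.snd_add, e3, e3'] at g1 g2
        omega
      · have g1 := congrArg (fun x : P3 => x.2.2) h5
        have g2 := congrArg (fun x : P3 => x.2.2) h6
        simp only [Prod.snd_add, e3, e3'] at g1 g2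
        omega
  refine ⟨F, hF, hFc.trans hc, ?_⟩
  have hFc' : cross F s = cross E s := hFc.trans hc
  have hG : IsPolygon (splice E F s) := isPolygon_splice hE hF h3 hFc'
  have hmem : s(p', p' + d') ∈ splice E F s := by
    rw [mem_splice]
    exact Or.inl ⟨he, Or.inl h1⟩
  have hz : ∀ u ∈ verts (splice E F s), p'.2.2 ≤ u.2.2 := by
    rintro u ⟨v, hv⟩
    rw [mem_splice] at hv
    rcases hv with ⟨h4, -⟩ | ⟨h4, h5⟩
    · exact hlow u ⟨v, h4⟩
    · have h6 := hF.adj _ _ h4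
      unfold Adj at h6
      have e1 := abs_nonneg (u.1 - v.1)
      have e2 := abs_nonneg (u.2.1 - v.2.1)
      have e4 : |u.2.2 - v.2.2| ≤ 1 := by omega
      rw [abs_le] at e4
      omega
  have n1 : p' + (0, 0, -1) ∉ verts (splice E F s) := by
    intro hc
    have := hz _ hc
    simp only [Prod.snd_add] at this
    omega
  have n2 : p' + d' + (0, 0, -1) ∉ verts (splice E F s) := by
    intro hc
    have := hz _ hc
    simp only [Prod.snd_add, e3'] at this
    omega
  have hb := moveFacts.bump (splice E F s) p' (p' + d') (0, 0, -1) hG hmem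
    (bp_unit (Or.inr rfl)) n1 n2
  refine hb.unknotted ?_
  have heq : bump (splice E F s) p' (p' + d') (0, 0, -1) =
      splice (bump (bump E p (p + d) (0, 0, 1)) p' (p' + d') (0, 0, -1)) F s := by
    refine edge_ext fun u v => ?_
    rw [mem_splice, bp_mem, bp_mem, bp_mem, mem_splice]
    constructor
    · rintro (⟨⟨g1, g2⟩ | ⟨g1, g2⟩, g3⟩ | g1 | g1 | g1)
      · refine Or.inl ⟨Or.inl ⟨Or.inl ⟨g1, ?_⟩, g3⟩, g2⟩
        intro g4
        rw [Sym2.eq_iff] at g4
        rcases g4 with ⟨rfl, rfl⟩ | ⟨rfl, rfl⟩ <;> simp only [Prod.snd_add, e3] at g2 <;> omega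
      · exact Or.inr ⟨g1, g2⟩
      · refine Or.inl ⟨Or.inr (Or.inl g1), ?_⟩
        rw [Sym2.eq_iff] at g1
        rcases g1 with ⟨rfl, rfl⟩ | ⟨rfl, rfl⟩
        · exact Or.inl h1
        · exact Or.inr h1
      · refine Or.inl ⟨Or.inr (Or.inr (Or.inl g1)), ?_⟩
        rw [Sym2.eq_iff] at g1
        rcases g1 with ⟨rfl, rfl⟩ | ⟨rfl, rfl⟩
        · left
          simp only [Prod.snd_add]
          omega
        · right
          simp only [Prod.snd_add]
          omega
      · refine Or.inl ⟨Or.inr (Or.inr (Or.inr g1)), ?_⟩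
        rw [Sym2.eq_iff] at g1
        rcases g1 with ⟨rfl, rfl⟩ | ⟨rfl, rfl⟩
        · right
          simp only [Prod.snd_add, e3']
          omega
        · left
          simp only [Prod.snd_add, e3']
          omega
    · rintro (⟨⟨⟨g1, g4⟩ | g1 | g1 | g1, g3⟩ | g1 | g1 | g1, g2⟩ | ⟨g1, g2⟩)
      · exact Or.inl ⟨Or.inl ⟨g1, g2⟩, g3⟩
      · exfalso
        rw [Sym2.eq_iff] at g1
        rcases g1 with ⟨rfl, rfl⟩ | ⟨rfl, rfl⟩ <;> simp only [Prod.snd_add] at g2 <;> omega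
      · exfalso
        rw [Sym2.eq_iff] at g1
        rcases g1 with ⟨rfl, rfl⟩ | ⟨rfl, rfl⟩ <;> simp only [Prod.snd_add, e3] at g2 <;> omega
      · exfalso
        rw [Sym2.eq_iff] at g1
        rcases g1 with ⟨rfl, rfl⟩ | ⟨rfl, rfl⟩ <;> simp only [Prod.snd_add, e3] at g2 <;> omega
      · exact Or.inr (Or.inl g1)
      · exact Or.inr (Or.inr (Or.inl g1))
      · exact Or.inr (Or.inr (Or.inr g1))
      · refine Or.inl ⟨Or.inr ⟨g1, g2⟩, ?_⟩
        intro g4
        rw [Sym2.eq_iff] at g4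
        rcases g4 with ⟨rfl, rfl⟩ | ⟨rfl, rfl⟩ <;> simp only [Prod.snd_add, e3'] at g2 <;> omega
  rw [heq]
  exact hU

/-- The upper part of the capped polygon. -/
private theorem upp_of_cap (hE : IsPolygon E) (h : BP 1 E p d)
    (h' : BP (-1) (bump E p (p + d) (0, 0, 1)) p' d') (h1 : p'.2.2 ≤ t) (h2 : t < p.2.2)
    (h3 : IsTwo E t)
    (hc : cross (bump (bump E p (p + d) (0, 0, 1)) p' (p' + d') (0, 0, -1)) t = cross E t)
    (hU : UppU (bump (bump E p (p + d) (0, 0, 1)) p' (p' + d') (0, 0, -1)) t) : UppU E t := by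
  obtain ⟨F, hF, hFc, hU⟩ := hU
  have e3 := h.2.2.1
  have e3' := h'.2.2.1
  have hupp : ∀ u ∈ verts E, u.2.2 ≤ p.2.2 := by
    intro u hu
    have := h.2.2.2 u hu
    omega
  refine ⟨F, hF, hFc.trans hc, ?_⟩
  have hFc' : cross F t = cross E t := hFc.trans hc
  have hFt : IsTwo F t := by
    unfold IsTwo
    rw [hFc']
    exact h3
  have hG : IsPolygon (splice F E t) := isPolygon_splice hF hE hFt hFc'.symm
  have hmem : s(p, p + d) ∈ splice F E t := by
    rw [mem_splice]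
    exact Or.inr ⟨h.1, Or.inl (by omega)⟩
  have hz : ∀ u ∈ verts (splice F E t), u.2.2 ≤ p.2.2 := by
    rintro u ⟨v, hv⟩
    rw [mem_splice] at hv
    rcases hv with ⟨h4, h5⟩ | ⟨h4, -⟩
    · have h6 := hF.adj _ _ h4
      unfold Adj at h6
      have e1 := abs_nonneg (u.1 - v.1)
      have e2 := abs_nonneg (u.2.1 - v.2.1)
      have e4 : |u.2.2 - v.2.2| ≤ 1 := by omega
      rw [abs_le] at e4
      omega
    · exact hupp u ⟨v, h4⟩
  have n1 : p + (0, 0, 1) ∉ verts (splice F E t) := by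
    intro hc
    have := hz _ hc
    simp only [Prod.snd_add] at this
    omega
  have n2 : p + d + (0, 0, 1) ∉ verts (splice F E t) := by
    intro hc
    have := hz _ hc
    simp only [Prod.snd_add, e3] at this
    omega
  have hb := moveFacts.bump (splice F E t) p (p + d) (0, 0, 1) hG hmem
    (bp_unit (Or.inl rfl)) n1 n2
  refine hb.unknotted ?_
  have heq : bump (splice F E t) p (p + d) (0, 0, 1) =
      splice F (bump (bump E p (p + d) (0, 0, 1)) p' (p' + d') (0, 0, -1)) t := by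
    refine edge_ext fun u v => ?_
    rw [mem_splice, bp_mem, bp_mem, bp_mem, mem_splice]
    constructor
    · rintro (⟨⟨g1, g2⟩ | ⟨g1, g2⟩, g3⟩ | g1 | g1 | g1)
      · exact Or.inl ⟨g1, g2⟩
      · refine Or.inr ⟨Or.inl ⟨Or.inl ⟨g1, g3⟩, ?_⟩, g2⟩
        intro g4
        rw [Sym2.eq_iff] at g4
        rcases g4 with ⟨rfl, rfl⟩ | ⟨rfl, rfl⟩ <;> simp only [Prod.snd_add, e3'] at g2 <;> omega
      · refine Or.inr ⟨Or.inl ⟨Or.inr (Or.inl g1), ?_⟩, ?_⟩
        · intro g4
          rw [g1, Sym2.eq_iff] at g4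
          rcases g4 with ⟨g5, g6⟩ | ⟨g5, g6⟩
          · have k1 : p.2.2 = p'.2.2 := congrArg (fun x : P3 => x.2.2) g5
            omega
          · have k1 := congrArg (fun x : P3 => x.2.2) g5
            simp only [Prod.snd_add, e3'] at k1
            omega
        · rw [Sym2.eq_iff] at g1
          rcases g1 with ⟨rfl, rfl⟩ | ⟨rfl, rfl⟩
          · left; omega
          · right; omega
      · refine Or.inr ⟨Or.inl ⟨Or.inr (Or.inr (Or.inl g1)), ?_⟩, ?_⟩
        · intro g4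
          rw [g1, Sym2.eq_iff] at g4
          rcases g4 with ⟨g5, g6⟩ | ⟨g5, g6⟩
          · have k1 := congrArg (fun x : P3 => x.2.2) g5
            simp only [Prod.snd_add] at k1
            omega
          · have k1 := congrArg (fun x : P3 => x.2.2) g5
            simp only [Prod.snd_add, e3'] at k1
            omega
        · rw [Sym2.eq_iff] at g1
          rcases g1 with ⟨rfl, rfl⟩ | ⟨rfl, rfl⟩
          · left
            simp only [Prod.snd_add]
            omega
          · right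
            simp only [Prod.snd_add]
            omega
      · refine Or.inr ⟨Or.inl ⟨Or.inr (Or.inr (Or.inr g1)), ?_⟩, ?_⟩
        · intro g4
          rw [g1, Sym2.eq_iff] at g4
          rcases g4 with ⟨g5, g6⟩ | ⟨g5, g6⟩
          · have k1 := congrArg (fun x : P3 => x.2.2) g5
            simp only [Prod.snd_add, e3] at k1
            omega
          · have k1 := congrArg (fun x : P3 => x.2.2) g5
            simp only [Prod.snd_add, e3, e3'] at k1
            omega
        · rw [Sym2.eq_iff] at g1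
          rcases g1 with ⟨rfl, rfl⟩ | ⟨rfl, rfl⟩
          · right
            simp only [Prod.snd_add, e3]
            omega
          · left
            simp only [Prod.snd_add, e3]
            omega
    · rintro (⟨g1, g2⟩ | ⟨⟨⟨g1, g4⟩ | g1 | g1 | g1, g3⟩ | g1 | g1 | g1, g2⟩)
      · refine Or.inl ⟨Or.inl ⟨g1, g2⟩, ?_⟩
        intro g4
        rw [Sym2.eq_iff] at g4
        rcases g4 with ⟨rfl, rfl⟩ | ⟨rfl, rfl⟩ <;> simp only [Prod.snd_add, e3] at g2 <;> omega
      · exact Or.inl ⟨Or.inr ⟨g1, g2⟩, g4⟩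
      · exact Or.inr (Or.inl g1)
      · exact Or.inr (Or.inr (Or.inl g1))
      · exact Or.inr (Or.inr (Or.inr g1))
      · exfalso
        rw [Sym2.eq_iff] at g1
        rcases g1 with ⟨rfl, rfl⟩ | ⟨rfl, rfl⟩ <;> simp only [Prod.snd_add] at g2 <;> omega
      · exfalso
        rw [Sym2.eq_iff] at g1
        rcases g1 with ⟨rfl, rfl⟩ | ⟨rfl, rfl⟩ <;> simp only [Prod.snd_add, e3'] at g2 <;> omega
      · exfalso
        rw [Sym2.eq_iff] at g1
        rcases g1 with ⟨rfl, rfl⟩ | ⟨rfl, rfl⟩ <;> simp only [Prod.snd_add, e3'] at g2 <;> omega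
  rw [heq]
  exact hU

/-- The upper part beyond the first knotted piece of a polygon with at most one prime factor is
unknotted. -/
private theorem uppU_of_few (hE : IsPolygon E) (h2 : IsTwo E t) (hF : Few 1 E)
    (hL : ¬ LowU E t) : UppU E t := by
  obtain ⟨a, b, hab, hc⟩ := ncard_eq_two.1 h2
  obtain ⟨G, hG, uG, cG⟩ := exists_unknot_two hab t
  have hcG : cross G t = cross E t := by rw [cG, hc]
  exact ⟨G, hG, hcG, few_splice hE h2 hF hL hG hcG (lowU_of_unknotted hG uG)⟩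

/-- **A capped polygon with a short first knotted piece comes from a localised polygon.** -/
theorem loc_of_cap (hE : IsPolygon E) (hF : Few 1 E) (h : BP 1 E p d)
    (h' : BP (-1) (bump E p (p + d) (0, 0, 1)) p' d') {j : ℕ}
    (hP : Piece (bump (bump E p (p + d) (0, 0, 1)) p' (p' + d') (0, 0, -1)) s t)
    (hj : (midE (bump (bump E p (p + d) (0, 0, 1)) p' (p' + d') (0, 0, -1)) s t).card ≤ j) :
    LocAt E (j + 2) := by
  classical
  set E1 := bump E p (p + d) (0, 0, 1) with hE1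
  set E2 := bump E1 p' (p' + d') (0, 0, -1) with hE2
  obtain ⟨hst, hs, ht, -, hL, hnL⟩ := hP
  obtain ⟨f1, f2, f3⟩ := bp_facts (Or.inl rfl) hE h
  obtain ⟨f1', f2', f3'⟩ := bp_facts (Or.inr rfl) f1 h'
  have hlow : ∀ u ∈ verts E, p'.2.2 ≤ u.2.2 := by
    intro u hu
    have := h'.2.2.2 u (verts_caps h hu)
    omega
  have hupp : ∀ u ∈ verts E, u.2.2 ≤ p.2.2 := by
    intro u hu
    have := h.2.2.2 u hu
    omega
  have hpl : pl 1 p = p.2.2 := by
    unfold pl
    omega
  have hpl' : pl (-1) p' = p'.2.2 - 1 := by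
    unfold pl
    omega
  have hlev : ∀ k, IsTwo E2 k → p'.2.2 - 1 ≤ k ∧ k ≤ p.2.2 := by
    intro k hk
    obtain ⟨a, b, -, hc⟩ := ncard_eq_two.1 hk
    have h4 : (cross E2 k).Nonempty := by rw [hc]; exact insert_nonempty _ _
    by_cases hk' : k = pl (-1) p'
    · have := hlow p (left_mem_verts h.1)
      omega
    · rw [hE2, bp_cross_ne (Or.inr rfl) h' hk'] at h4
      obtain ⟨⟨a, b⟩, hc⟩ := h4
      rw [mem_cross] at hc
      have a1 := h'.2.2.2 _ (left_mem_verts hc)
      have a2 := bp_verts (Or.inl rfl) h (right_mem_verts hc)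
      simp only at a1 a2
      omega
  have hcr : ∀ k, p'.2.2 ≤ k → k < p.2.2 → cross E2 k = cross E k := by
    intro k h1 h2
    rw [hE2, bp_cross_ne (Or.inr rfl) h' (by omega), hE1, bp_cross_ne (Or.inl rfl) h (by omega)]
  have hs' := hlev s hs
  have ht' := hlev t ht
  refine ⟨s, t, hst, ?_, ?_, ?_⟩
  · have hsub : midE E s t ⊆ insert s(p, p + d) (insert s(p', p' + d') (midE E2 s t)) := by
      intro e he
      induction e using Sym2.ind with
      | _ u v =>
        rw [mem_midE] at he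
        rw [Finset.mem_insert, Finset.mem_insert, mem_midE]
        by_cases h1 : s(u, v) = s(p, p + d)
        · exact Or.inl h1
        · by_cases h2 : s(u, v) = s(p', p' + d')
          · exact Or.inr (Or.inl h2)
          · refine Or.inr (Or.inr ⟨?_, he.2⟩)
            rw [hE2, bp_mem, hE1, bp_mem]
            exact Or.inl ⟨Or.inl ⟨he.1, h1⟩, h2⟩
    have h1 := Finset.card_le_card hsub
    have h2 := Finset.card_insert_le s(p, p + d) (insert s(p', p' + d') (midE E2 s t))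
    have h3 := Finset.card_insert_le s(p', p' + d') (midE E2 s t)
    omega
  · by_cases h1 : s < p'.2.2
    · left
      intro u hu
      have := hlow u hu
      omega
    · right
      have h2 : IsTwo E s := by
        unfold IsTwo
        rw [← hcr s (by omega) (by omega)]
        exact hs
      exact ⟨h2, low_of_cap hE h h' (by omega) (by omega) h2 (hcr s (by omega) (by omega)) hL⟩
  · by_cases h1 : t < p.2.2
    · right
      have h2 : IsTwo E t := by
        unfold IsTwo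
        rw [← hcr t (by omega) (by omega)]
        exact ht
      refine ⟨h2, upp_of_cap hE h h' (by omega) (by omega) h2 (hcr t (by omega) (by omega)) ?_⟩
      exact uppU_of_few f1' ht (hinv_few 1 _ _ (f2.trans f2') hF) hnL
    · left
      intro u hu
      have := hupp u hu
      omega

private theorem piece_shift {E : ES} {s t : ℤ} (r : P3) (h : Piece E s t) :
    Piece (shift r E) (s + r.2.2) (t + r.2.2) := by
  obtain ⟨h1, h2, h3, h4, h5, h6⟩ := h
  refine ⟨by omega, (isTwo_shift r E s).2 h2, (isTwo_shift r E t).2 h3, ?_,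
    (lowU_shift r E s).2 h5, fun h => h6 ((lowU_shift r E t).1 h)⟩
  intro k hk1 hk2 hk3
  have h7 := isTwo_shift r E (k - r.2.2)
  rw [sub_add_cancel] at h7
  exact h4 (k - r.2.2) (by omega) (by omega) (h7.1 hk3)

/-- Knotted polygons with at most one prime factor that are not localised, and capped polygons
with a long first knotted piece. -/
theorem zt_notLoc {y : ℝ} (hy : 0 ≤ y) (n j : ℕ) :
    y ^ 2 * Zt y (fun E => Few 1 E ∧ ¬ Unknotted E ∧ ¬ LocAt E j) n ≤
      Zt y (fun E => Few 1 E ∧ ∃ s t, Piece E s t ∧ j - 1 ≤ (midE E s t).card) (n + 4) := by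
  classical
  set C : ES → Prop := fun E => Few 1 E ∧ ¬ Unknotted E ∧ ¬ LocAt E j with hC
  have hex : ∀ E : ES, ∃ q : (P3 × P3) × (P3 × P3), E ∈ NSet C n → BP 1 E q.1.1 q.1.2 ∧
      BP (-1) (bump E q.1.1 (q.1.1 + q.1.2) (0, 0, 1)) q.2.1 q.2.2 := by
    intro E
    by_cases hE : E ∈ NSet C n
    · obtain ⟨p, d, p', d', h⟩ := exists_caps hE.1
      exact ⟨((p, d), (p', d')), fun _ => h⟩
    · exact ⟨((0, 0), (0, 0)), fun h => absurd h hE⟩
  choose q hq using hex
  refine zt_inj (C := C) hy (n := n) (m := n + 4) (j := 2)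
    (fun E => bump (bump E (q E).1.1 ((q E).1.1 + (q E).1.2) (0, 0, 1)) (q E).2.1
      ((q E).2.1 + (q E).2.2) (0, 0, -1)) ?_ ?_
  · intro E hE
    obtain ⟨b1, b2⟩ := hq E hE
    obtain ⟨h1, h2, h3⟩ := bp_facts (Or.inl rfl) hE.1 b1
    obtain ⟨h1', h2', h3'⟩ := bp_facts (Or.inr rfl) h1 b2
    obtain ⟨c1, c2, c3⟩ := hE.2.1
    have hf := hinv_few 1 _ _ (h2.trans h2') c1
    obtain ⟨s, t, hP⟩ := exists_piece h1' (capped_caps b1 b2)
      (fun hU => c2 ((h2.trans h2').unknotted hU))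
    have hcard : j - 1 ≤ (midE (bump (bump E (q E).1.1 ((q E).1.1 + (q E).1.2) (0, 0, 1))
        (q E).2.1 ((q E).2.1 + (q E).2.2) (0, 0, -1)) s t).card := by
      by_contra hlt
      apply c3
      obtain ⟨s', t', g1, g2, g3⟩ := loc_of_cap hE.1 c1 b1 b2 (j := j - 2) hP (by omega)
      exact ⟨s', t', g1, by omega, g3⟩
    refine ⟨h1', fun r => ⟨hinv_shift (hinv_few 1) r hf, s + r.2.2, t + r.2.2, piece_shift r hP,
      ?_⟩, ?_, ?_⟩
    · rw [midE_shift, card_shift]
      exact hcard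
    · rw [h3', h3, hE.2.2.2]
    · rw [bp_span (Or.inr rfl) b2, bp_span (Or.inl rfl) b1]
  · intro E hE E' hE' r hr
    obtain ⟨b1, b2⟩ := hq E hE
    obtain ⟨b1', b2'⟩ := hq E' hE'
    exact ⟨r, bp_inj (Or.inl rfl) b1 b1' (bp_inj (Or.inr rfl) b2 b2' hr)⟩

/-- **The weight of the prime polygons that are not localised.** -/
theorem notLoc_le {x : ℝ} (hx : 10 ^ 4 ≤ x) : ∃ B : ℝ, 0 ≤ B ∧ ∀ n, Even n → 4 ≤ n → ∀ j : ℕ,
    Zt (x ^ 2) (fun E => Few 1 E ∧ ¬ Unknotted E ∧ ¬ LocAt E j) n ≤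
      B * (1 / 2) ^ j * ((n : ℝ) * Zt (x ^ 2) UClass n) := by
  have hx0 : (0 : ℝ) < x := by linarith [show (0 : ℝ) < 10 ^ 4 by norm_num]
  have hx4 : (10000 : ℝ) ≤ x := by norm_num at hx ⊢; exact hx
  obtain ⟨D, -, hD⟩ := upper hx 0
  obtain ⟨B, hB, hP⟩ := piece_le hx hD
  obtain ⟨A, hA, hR⟩ := ratio_up hx
  refine ⟨16 * A * B, by positivity, fun n hn h4 j => ?_⟩
  have h1 := zt_notLoc (y := x ^ 2) (by positivity) n j
  have h2 := hP (n + 4) (hn.add (by decide)) (by omega) (j - 1)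
  have h3 := hR n hn h4 2
  have hU := zt_nonneg (y := x ^ 2) (by positivity) UClass n
  have hpow : ((1 : ℝ) / 2) ^ (j - 1) ≤ 2 * (1 / 2) ^ j := by
    rcases Nat.eq_zero_or_pos j with rfl | hj
    · norm_num
    · obtain ⟨i, rfl⟩ : ∃ i, j = i + 1 := ⟨j - 1, by omega⟩
      rw [Nat.add_sub_cancel, pow_succ]
      linarith
  have hn4 : ((n + 4 : ℕ) : ℝ) ≤ 2 * n := by
    push_cast
    have : (4 : ℝ) ≤ n := by exact_mod_cast h4
    linarith
  have hfac : (x ^ 2 * (1 + 200 / x)) ^ 2 ≤ 4 * x ^ 4 := by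
    have h5 : 1 + 200 / x ≤ 2 := by
      have : 200 / x ≤ 1 := by
        rw [div_le_one hx0]
        linarith
      linarith
    have h6 : 0 ≤ 1 + 200 / x := by positivity
    calc (x ^ 2 * (1 + 200 / x)) ^ 2 = x ^ 4 * (1 + 200 / x) ^ 2 := by ring
      _ ≤ x ^ 4 * 2 ^ 2 := by gcongr
      _ = 4 * x ^ 4 := by ring
  have h7 : Zt (x ^ 2) UClass (n + 4) ≤ 4 * A * x ^ 4 * Zt (x ^ 2) UClass n := by
    refine h3.trans ?_
    calc A * (x ^ 2 * (1 + 200 / x)) ^ 2 * Zt (x ^ 2) UClass n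
        ≤ A * (4 * x ^ 4) * Zt (x ^ 2) UClass n := by gcongr
      _ = 4 * A * x ^ 4 * Zt (x ^ 2) UClass n := by ring
  have h8 : x ^ 4 * Zt (x ^ 2) (fun E => Few 1 E ∧ ¬ Unknotted E ∧ ¬ LocAt E j) n ≤
      x ^ 4 * (16 * A * B * (1 / 2) ^ j * ((n : ℝ) * Zt (x ^ 2) UClass n)) := by
    have hU4 := zt_nonneg (y := x ^ 2) (by positivity) UClass (n + 4)
    have hU5 : 0 ≤ ((n + 4 : ℕ) : ℝ) * Zt (x ^ 2) UClass (n + 4) :=
      mul_nonneg (Nat.cast_nonneg _) hU4
    calc x ^ 4 * Zt (x ^ 2) (fun E => Few 1 E ∧ ¬ Unknotted E ∧ ¬ LocAt E j) n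
        = (x ^ 2) ^ 2 * Zt (x ^ 2) (fun E => Few 1 E ∧ ¬ Unknotted E ∧ ¬ LocAt E j) n := by ring
      _ ≤ _ := h1
      _ ≤ B * (1 / 2) ^ (j - 1) * (((n + 4 : ℕ) : ℝ) ^ (0 + 1) * Zt (x ^ 2) UClass (n + 4)) := h2
      _ ≤ B * (2 * (1 / 2) ^ j) * ((2 * n) * (4 * A * x ^ 4 * Zt (x ^ 2) UClass n)) := by
          rw [zero_add, pow_one]
          refine mul_le_mul (mul_le_mul_of_nonneg_left hpow hB)
            (mul_le_mul hn4 h7 hU4 (by positivity)) hU5 (by positivity)
      _ = x ^ 4 * (16 * A * B * (1 / 2) ^ j * ((n : ℝ) * Zt (x ^ 2) UClass n)) := by ring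
  exact le_of_mul_le_mul_left h8 (by positivity)

/-- **Strong localisation of prime knots.** -/
theorem localisation {x : ℝ} (hx : 10 ^ 4 ≤ x) {K : ES} (hK : PrimeKnot K) :
    ∃ B : ℝ, 0 ≤ B ∧ ∃ n0 : ℕ, ∀ n ≥ n0, ∀ j : ℕ,
      Zt (x ^ 2) (fun E => KClass K E ∧ ¬ LocAt E j) n ≤
        B * (1 / 2) ^ j * Zt (x ^ 2) (KClass K) n := by
  obtain ⟨hp, hU, hF⟩ := primeKnot_iff.1 hK
  obtain ⟨B, hB, h1⟩ := notLoc_le hx
  obtain ⟨δ, hδ, n0, h2⟩ := lower hx hp hU
  refine ⟨B / δ, by positivity, max n0 4, fun n hn j => ?_⟩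
  have hy : (0 : ℝ) ≤ x ^ 2 := by positivity
  by_cases he : Even n
  · have h3 := h1 n he (by omega) j
    have h4 := h2 n (by omega)
    have h5 : Zt (x ^ 2) (fun E => KClass K E ∧ ¬ LocAt E j) n ≤
        Zt (x ^ 2) (fun E => Few 1 E ∧ ¬ Unknotted E ∧ ¬ LocAt E j) n := by
      refine zt_mono hy (fun E _ hE => ?_) n
      obtain ⟨⟨-, k1⟩, k2⟩ := hE
      exact ⟨hinv_few 1 _ _ k1 hF, fun h => hU (k1.unknotted h), k2⟩
    calc Zt (x ^ 2) (fun E => KClass K E ∧ ¬ LocAt E j) n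
        ≤ B * (1 / 2) ^ j * ((n : ℝ) * Zt (x ^ 2) UClass n) := h5.trans h3
      _ = B / δ * (1 / 2) ^ j * (δ * n * Zt (x ^ 2) UClass n) := by
          field_simp
      _ ≤ B / δ * (1 / 2) ^ j * Zt (x ^ 2) (KClass K) n := by gcongr
  · rw [u_odd he, u_odd he, mul_zero]

end Pool.Agent.KTen
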