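import Pool.Agent.KTen.Detours
import Pool.Agent.KTen.Conn

/-! Types and splicing. -/

set_option autoImplicit false

open Set

namespace Pool.Agent.KTen

open Pool.Agent.LK Pool.Agent.KTube

variable {E F G : ES} {k s t : ℤ}

/-- The members of a family with the closed parts. -/
private theorem st_unk {lo up : ES → ES} {j : ℤ} {A B : ES} (hA : IsLow (lo A) j)
    (hB : IsUpp (up B) j) (h : SameType (splice A B k) (glue (lo A) (up B) j)) :
    Unknotted (splice A B k) ↔ Unknotted (lo A) ∧ Unknotted (up B) := by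
  rw [← (typeStatement stretchStatement _ _ _ hA hB).1]
  exact ⟨fun hU => h.symm.unknotted hU, fun hU => h.unknotted hU⟩

/-- **Splicing unknotted polygons.** -/
theorem unknotted_splice (hE : IsPolygon E) (hF : IsPolygon F) (h2 : IsTwo E k)
    (hc : cross F k = cross E k) (uE : Unknotted E) (uF : Unknotted F) :
    Unknotted (splice E F k) := by
  obtain ⟨lo, up, j, hj, hs⟩ := exists_detour (k := k) {E, F} (s0 := cross E k) h2 (by
    intro A hA
    simp only [Finset.mem_insert, Finset.mem_singleton] at hA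
    rcases hA with rfl | rfl
    · exact ⟨hE, rfl⟩
    · exact ⟨hF, hc⟩)
  have mE : E ∈ ({E, F} : Finset ES) := by simp
  have mF : F ∈ ({E, F} : Finset ES) := by simp
  rw [st_unk (hj E mE).1 (hj F mF).2 (hs E mE F mF)]
  have h3 := (st_unk (hj E mE).1 (hj E mE).2 (hs E mE E mE)).1 (by rwa [splice_self])
  have h4 := (st_unk (hj F mF).1 (hj F mF).2 (hs F mF F mF)).1 (by rwa [splice_self])
  exact ⟨h3.1, h4.2⟩

theorem lowU_of_unknotted (hE : IsPolygon E) (uE : Unknotted E) : LowU E k :=
  ⟨E, hE, rfl, by rwa [splice_self]⟩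

theorem uppU_of_unknotted (hE : IsPolygon E) (uE : Unknotted E) : UppU E k :=
  ⟨E, hE, rfl, by rwa [splice_self]⟩

/-- `LowU` depends only on the lower part. -/
theorem lowU_splice (hE : IsPolygon E) (hF : IsPolygon F) (h2 : IsTwo E k)
    (hc : cross F k = cross E k) : LowU (splice E F k) k ↔ LowU E k := by
  have hcr : cross (splice E F k) k = cross E k := cross_splice_low hF.adj hc le_rfl
  have key : ∀ G, IsPolygon G → cross G k = cross E k →
      splice (splice E F k) G k = splice E G k := by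
    intro G hG hGc
    have h1 := splice_splice (E := E) (F := F) (G := G) (H := G) (k := k) hc.symm rfl hGc.symm
      hE.adj hF.adj hG.adj hG.adj
    rwa [splice_self G] at h1
  constructor
  · rintro ⟨G, hG, hGc, hU⟩
    rw [hcr] at hGc
    exact ⟨G, hG, hGc, by rwa [← key G hG hGc]⟩
  · rintro ⟨G, hG, hGc, hU⟩
    exact ⟨G, hG, by rw [hcr, hGc], by rwa [key G hG hGc]⟩

theorem uppU_splice (hE : IsPolygon E) (hF : IsPolygon F) (h2 : IsTwo E k)
    (hc : cross F k = cross E k) : UppU (splice E F k) k ↔ UppU F k := by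
  have hcr : cross (splice E F k) k = cross F k := cross_splice_high hc le_rfl
  have key : ∀ G, IsPolygon G → cross G k = cross F k →
      splice G (splice E F k) k = splice G F k := by
    intro G hG hGc
    have h1 := splice_splice (E := G) (F := G) (G := E) (H := F) (k := k) rfl hc.symm hGc
      hG.adj hG.adj hE.adj hF.adj
    rwa [splice_self G] at h1
  constructor
  · rintro ⟨G, hG, hGc, hU⟩
    rw [hcr] at hGc
    exact ⟨G, hG, hGc, by rwa [← key G hG hGc]⟩
  · rintro ⟨G, hG, hGc, hU⟩
    exact ⟨G, hG, by rw [hcr, hGc], by rwa [key G hG hGc]⟩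

/-- Two unknotted parts give an unknotted polygon. -/
theorem unknotted_of_parts (hE : IsPolygon E) (hF : IsPolygon F) (h2 : IsTwo E k)
    (hc : cross F k = cross E k) (lE : LowU E k) (uF : UppU F k) : Unknotted (splice E F k) := by
  obtain ⟨G, hG, hGc, hGU⟩ := lE
  obtain ⟨H, hH, hHc, hHU⟩ := uF
  obtain ⟨lo, up, j, hj, hs⟩ := exists_detour (k := k) {E, F, G, H} (s0 := cross E k) h2 (by
    intro A hA
    simp only [Finset.mem_insert, Finset.mem_singleton] at hA
    rcases hA with rfl | rfl | rfl | rfl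
    · exact ⟨hE, rfl⟩
    · exact ⟨hF, hc⟩
    · exact ⟨hG, hGc⟩
    · exact ⟨hH, hHc.trans hc⟩)
  have mE : E ∈ ({E, F, G, H} : Finset ES) := by simp
  have mF : F ∈ ({E, F, G, H} : Finset ES) := by simp
  have mG : G ∈ ({E, F, G, H} : Finset ES) := by simp
  have mH : H ∈ ({E, F, G, H} : Finset ES) := by simp
  rw [st_unk (hj E mE).1 (hj F mF).2 (hs E mE F mF)]
  have h3 := (st_unk (hj E mE).1 (hj G mG).2 (hs E mE G mG)).1 hGU
  have h4 := (st_unk (hj H mH).1 (hj F mF).2 (hs H mH F mF)).1 hHU
  exact ⟨h3.1, h4.2⟩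

theorem unknotted_iff (hE : IsPolygon E) (h2 : IsTwo E k) :
    Unknotted E ↔ LowU E k ∧ UppU E k := by
  constructor
  · intro h
    exact ⟨lowU_of_unknotted hE h, uppU_of_unknotted hE h⟩
  · rintro ⟨h1, h3⟩
    have := unknotted_of_parts hE hE h2 rfl h1 h3
    rwa [splice_self] at this

/-- Splicing of two pieces: if the part of `E` below `s` is unknotted and `F` is unknotted then
the part of `splice E F s` below `t` is unknotted. -/
theorem lowU_trans (hE : IsPolygon E) (hF : IsPolygon F) (hs : IsTwo E s) (ht : IsTwo F t)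
    (hst : s ≤ t) (hc : cross F s = cross E s) (lE : LowU E s) (uF : Unknotted F) :
    LowU (splice E F s) t := by
  refine ⟨F, hF, (cross_splice_high hc hst).symm, ?_⟩
  rw [← splice_assoc hst, splice_self]
  exact unknotted_of_parts hE hF hs hc lE (uppU_of_unknotted hF uF)

/-- Replacing an unknotted lower part by an unknotted lower part. -/
theorem sameType_splice (hE : IsPolygon E) (hF : IsPolygon F) (h2 : IsTwo E k)
    (hc : cross F k = cross E k) (lE : LowU E k) (lF : LowU F k) :
    SameType F (splice E F k) := by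
  obtain ⟨G, hG, hGc, hGU⟩ := lE
  obtain ⟨H, hH, hHc, hHU⟩ := lF
  obtain ⟨lo, up, j, hj, hs⟩ := exists_detour (k := k) {E, F, G, H} (s0 := cross E k) h2 (by
    intro A hA
    simp only [Finset.mem_insert, Finset.mem_singleton] at hA
    rcases hA with rfl | rfl | rfl | rfl
    · exact ⟨hE, rfl⟩
    · exact ⟨hF, hc⟩
    · exact ⟨hG, hGc⟩
    · exact ⟨hH, hHc.trans hc⟩)
  have mE : E ∈ ({E, F, G, H} : Finset ES) := by simp
  have mF : F ∈ ({E, F, G, H} : Finset ES) := by simp
  have mG : G ∈ ({E, F, G, H} : Finset ES) := by simp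
  have mH : H ∈ ({E, F, G, H} : Finset ES) := by simp
  have h3 := (st_unk (hj E mE).1 (hj G mG).2 (hs E mE G mG)).1 hGU
  have h4 := (st_unk (hj F mF).1 (hj H mH).2 (hs F mF H mH)).1 hHU
  have e1 := hs F mF F mF
  rw [splice_self] at e1
  have e2 := (typeStatement stretchStatement _ _ _ (hj F mF).1 (hj F mF).2).2.1 h4.1
  have e3 := (typeStatement stretchStatement _ _ _ (hj E mE).1 (hj F mF).2).2.1 h3.1
  exact ((e1.trans e2.symm).trans e3).trans (hs E mE F mF).symm

theorem hinv_few (N : ℕ) : HInv (Few N) := by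
  intro E F h hE
  cases N with
  | zero => exact SameType.unknotted h.symm hE
  | succ N =>
    intro A B x y z hA hB hAB h1 h3 h4
    exact hE A B x y z hA hB hAB h1 h3 (h.trans h4)

/-- **Cutting off a knotted lower part leaves fewer prime factors.** -/
theorem few_splice {N : ℕ} (hE : IsPolygon E) (h2 : IsTwo E k) (fE : Few (N + 1) E)
    (lE : ¬ LowU E k) (hF : IsPolygon F) (hc : cross F k = cross E k) (lF : LowU F k) :
    Few N (splice F E k) := by
  obtain ⟨a, b, hab, hcr⟩ := Set.ncard_eq_two.1 h2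
  obtain ⟨H, hH, hHU, hHc⟩ := exists_unknot_two hab k
  rw [← hcr] at hHc
  obtain ⟨G, hG, hGc, hGU⟩ := lF
  obtain ⟨lo, up, j, hj, hs⟩ := exists_detour (k := k) {E, F, G, H} (s0 := cross E k) h2 (by
    intro A hA
    simp only [Finset.mem_insert, Finset.mem_singleton] at hA
    rcases hA with rfl | rfl | rfl | rfl
    · exact ⟨hE, rfl⟩
    · exact ⟨hF, hc⟩
    · exact ⟨hG, hGc.trans hc⟩
    · exact ⟨hH, hHc⟩)
  have mE : E ∈ ({E, F, G, H} : Finset ES) := by simp
  have mF : F ∈ ({E, F, G, H} : Finset ES) := by simp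
  have mG : G ∈ ({E, F, G, H} : Finset ES) := by simp
  have mH : H ∈ ({E, F, G, H} : Finset ES) := by simp
  have h3 := (st_unk (hj F mF).1 (hj G mG).2 (hs F mF G mG)).1 hGU
  have h4 := (st_unk (hj H mH).1 (hj H mH).2 (hs H mH H mH)).1 (by rwa [splice_self])
  have hlo : ¬ Unknotted (lo E) := by
    intro h5
    exact lE ⟨H, hH, hHc, (st_unk (hj E mE).1 (hj H mH).2 (hs E mE H mH)).2 ⟨h5, h4.2⟩⟩
  have e1 := hs E mE E mE
  rw [splice_self] at e1
  obtain ⟨hBel, he, hf⟩ := join_data (hj E mE).1 (hj E mE).2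
  have hP : IsPolygon (shift (0, 0, 2) (up E)) := isPolygon_shift (hj E mE).2.1 _
  have h5 := (fE _ _ 0 0 (j + 1) (hj E mE).1.1 hP hBel he hf
    (e1.trans (sameType_glue_join stretchStatement (hj E mE).1 (hj E mE).2))).resolve_left hlo
  have e2 : SameType (up E) (shift (0, 0, 2) (up E)) := moveFacts.trans _ _
  have e3 := (typeStatement stretchStatement _ _ _ (hj F mF).1 (hj E mE).2).2.1 h3.1
  exact hinv_few N _ _ ((e2.symm.trans e3).trans (hs F mF E mE).symm) h5

theorem few_succ {N : ℕ} (hE : IsPolygon E) (h : Few N E) : Few (N + 1) E := by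
  induction N generalizing E with
  | zero =>
    intro A B x y z hA hB hAB h1 h3 h4
    left
    exact nc_lower hA hB hAB h1 h3 (h4.symm.unknotted h)
  | succ N ih =>
    intro A B x y z hA hB hAB h1 h3 h4
    rcases h A B x y z hA hB hAB h1 h3 h4 with h5 | h5
    · exact Or.inl h5
    · exact Or.inr (ih hB h5)

theorem primeKnot_iff : PrimeKnot E ↔ IsPolygon E ∧ ¬ Unknotted E ∧ Few 1 E := Iff.rfl

end Pool.Agent.KTen
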