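import Pool.Agent.KTen.Count
import Pool.Agent.KTen.SpliceShift
import Pool.Agent.KTube.GType

/-! Knot types with respect to a group of homeomorphisms: reduction by a reflection. -/

set_option autoImplicit false

open Set

namespace Pool.Agent.KTen

open Pool.Agent.LK Pool.Agent.KTube

theorem flip_add (u t : P3) : flipY 0 (u + t) = flipY 0 u + flipY 0 t := by
  refine Prod.ext rfl (Prod.ext ?_ rfl)
  simp only [flipY, Prod.snd_add, Prod.fst_add]
  push_cast
  ring

theorem flip_sub (u t : P3) : flipY 0 (u - t) = flipY 0 u - flipY 0 t := by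
  refine Prod.ext rfl (Prod.ext ?_ rfl)
  simp only [flipY, Prod.snd_sub, Prod.fst_sub]
  push_cast
  ring

theorem mapE_flip_shift (t : P3) (E : ES) :
    mapE (flipY 0) (shift t E) = shift (flipY 0 t) (mapE (flipY 0) E) := by
  refine edge_ext fun u v => ?_
  rw [mem_flipY, mem_shift, mem_shift, mem_flipY, flip_sub, flip_sub, flipY_flipY]

open Classical in
/-- The normal position of a set of edges. -/
noncomputable def nrm (E : ES) : ES :=
  if h : ∃ t : P3, Normed (shift t E) then shift h.choose E else E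

theorem nrm_spec {E : ES} (hE : IsPolygon E) : ∃ t : P3, nrm E = shift t E ∧ Normed (nrm E) := by
  have h : ∃ t : P3, Normed (shift t E) := exists_normed hE.verts_nonempty
  unfold nrm
  rw [dif_pos h]
  exact ⟨_, rfl, h.choose_spec⟩

theorem normed_unique {E : ES} {t : P3} (h1 : Normed E) (h2 : Normed (shift t E)) :
    shift t E = E := by
  rw [h1.eq_zero h2, shift_zero]

theorem zt_flip {C : ES → Prop} (hC : ∀ (t : P3) E, C E → C (shift t E)) (y : ℝ) (n : ℕ) :
    Zt y (fun F => C (mapE (flipY 0) F)) n = Zt y C n := by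
  unfold Zt
  have inv : ∀ F : ES, mapE (flipY 0) (mapE (flipY 0) F) = F := fun F => mapE_flipY_flipY 0 F
  refine finsum_mem_eq_of_bijOn (fun E => nrm (mapE (flipY 0) E)) ⟨?_, ?_, ?_⟩ ?_
  · rintro E ⟨h1, h2, h3, h4⟩
    have h5 := isPolygon_flipY 0 h1
    obtain ⟨t, h6, h7⟩ := nrm_spec h5
    change nrm (mapE (flipY 0) E) ∈ NSet C n
    refine ⟨?_, ?_, h7, ?_⟩
    · rw [h6]; exact isPolygon_shift h5 t
    · rw [h6]; exact hC t _ h2
    · rw [h6, card_shift, ← h4]
      exact Finset.card_image_of_injective _ (Sym2.map.injective (flipY_inj 0))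
  · rintro E ⟨h1, -, h3, -⟩ E' ⟨h1', -, h3', -⟩ heq
    obtain ⟨t, h6, -⟩ := nrm_spec (isPolygon_flipY 0 h1)
    obtain ⟨t', h6', -⟩ := nrm_spec (isPolygon_flipY 0 h1')
    change nrm _ = nrm _ at heq
    rw [h6, h6'] at heq
    have h7 : E' = shift (flipY 0 (t - t')) E := by
      have h8 : shift (-t') (shift t (mapE (flipY 0) E)) = mapE (flipY 0) E' := by
        rw [heq, shift_shift, neg_add_cancel, shift_zero]
      rw [shift_shift] at h8
      rw [← inv E', ← h8, mapE_flip_shift, inv]
      congr 2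
      abel
    rw [h7] at h3' ⊢
    exact (normed_unique h3 h3').symm
  · rintro F ⟨h1, h2, h3, h4⟩
    have h5 := isPolygon_flipY 0 h1
    obtain ⟨t, h6, h7⟩ := nrm_spec h5
    have h8 : mapE (flipY 0) (nrm (mapE (flipY 0) F)) = shift (flipY 0 t) F := by
      rw [h6, mapE_flip_shift, inv]
    refine ⟨nrm (mapE (flipY 0) F), ⟨?_, ?_, h7, ?_⟩, ?_⟩
    · rw [h6]; exact isPolygon_shift h5 t
    · change C (mapE (flipY 0) (nrm (mapE (flipY 0) F)))
      rw [h8]
      exact hC _ _ h2
    · rw [h6, card_shift, ← h4]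
      exact Finset.card_image_of_injective _ (Sym2.map.injective (flipY_inj 0))
    · change nrm (mapE (flipY 0) (nrm (mapE (flipY 0) F))) = F
      rw [h8]
      obtain ⟨r, h9, h10⟩ := nrm_spec (isPolygon_shift h1 (flipY 0 t))
      rw [h9, shift_shift] at h10 ⊢
      exact normed_unique h3 h10
  · rintro E ⟨h1, -, -, -⟩
    obtain ⟨t, h6, -⟩ := nrm_spec (isPolygon_flipY 0 h1)
    rw [h6, span_shift, span_flipY]

/-- The partition function of the `G`-type of `K` is the one of the type of `K` up to mirror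
images, or one half of it. -/
theorem zt_gclass {G : Subgroup (R3 ≃ₜ R3)} (hT : ∀ t : R3, Homeomorph.addRight t ∈ G)
    (hG : ∀ φ : R3 ≃ₜ R3, φ ∈ G ∨ φ * negY ∈ G) (K : ES) :
    (∀ y n, Zt y (GClass G K) n = Zt y (KClass K) n) ∨
    ∀ y n, 2 * Zt y (GClass G K) n = Zt y (KClass K) n := by
  rcases class_dichotomy hT hG K with h | h
  · left
    intro y n
    have : KClass K = GClass G K := funext fun E => propext (h E)
    rw [this]
  · right
    intro y n
    obtain ⟨h1, h2⟩ := h 0
    have e1 : NSet (KClass K) n = NSet (GClass G K) n ∪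
        NSet (fun F => GClass G K (mapE (flipY 0) F)) n := by
      ext E
      constructor
      · rintro ⟨p1, p2, p3⟩
        rcases (h1 E).1 p2 with p4 | p4
        · exact Or.inl ⟨p1, p4, p3⟩
        · exact Or.inr ⟨p1, p4, p3⟩
      · rintro (⟨p1, p2, p3⟩ | ⟨p1, p2, p3⟩)
        · exact ⟨p1, (h1 E).2 (Or.inl p2), p3⟩
        · exact ⟨p1, (h1 E).2 (Or.inr p2), p3⟩
    have e2 : Disjoint (NSet (GClass G K) n)
        (NSet (fun F => GClass G K (mapE (flipY 0) F)) n) := by
      rw [Set.disjoint_left]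
      rintro E ⟨-, p2, -⟩ ⟨-, q2, -⟩
      exact h2 E ⟨p2, q2⟩
    have e3 := zt_flip (C := GClass G K) (fun t E hE => by
      obtain ⟨p1, φ, p2, p3⟩ := hE
      refine ⟨isPolygon_shift p1 t, Homeomorph.addRight (toR t) * φ, G.mul_mem (hT _) p2, ?_⟩
      rw [image_mul, p3, body_shift]) y n
    unfold Zt at e3 ⊢
    rw [e1, finsum_mem_union e2 (nset_finite _ _) (nset_finite _ _), e3]
    ring

end Pool.Agent.KTen
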