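import Pool.Agent.KRing.Main
import Pool.Agent.KTen.Group

/-! The theorem on stretched polygons, for types with respect to a group of homeomorphisms. -/

set_option autoImplicit false

open Set Filter Topology

namespace Pool.Agent.KTen

open Pool.Agent.LK Pool.Agent.KTube

variable {G : Subgroup (R3 ≃ₜ R3)} {y : ℝ}

theorem zt_g_le (hT : ∀ t : R3, Homeomorph.addRight t ∈ G)
    (hG : ∀ φ : R3 ≃ₜ R3, φ ∈ G ∨ φ * negY ∈ G) (hy : 0 ≤ y) (K : ES) (n : ℕ) :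
    Zt y (KClass K) n ≤ 2 * Zt y (GClass G K) n := by
  rcases zt_gclass hT hG K with h | h
  · rw [← h y n]
    linarith [zt_nonneg hy (GClass G K) n]
  · exact (h y n).ge

theorem g_le_zt (hy : 0 ≤ y) (K : ES) (n : ℕ) : Zt y (GClass G K) n ≤ Zt y (KClass K) n :=
  zt_mono hy (fun _ _ h => ⟨h.1, by obtain ⟨φ, -, h2⟩ := h.2; exact ⟨φ, h2⟩⟩) n

theorem zt_unk_eq {K : ES} (uK : Unknotted K) (y : ℝ) (n : ℕ) :
    Zt y (KClass K) n = Zt y UClass n := by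
  have hset : NSet (KClass K) n = NSet UClass n := by
    ext E
    constructor
    · rintro ⟨h1, h2, h3, h4⟩
      exact ⟨h1, ⟨h1, hinv_few 0 K E h2.2 uK⟩, h3, h4⟩
    · rintro ⟨h1, h2, h3, h4⟩
      refine ⟨h1, ⟨h1, ?_⟩, h3, h4⟩
      obtain ⟨φ, hφ⟩ := uK
      obtain ⟨ψ, hψ⟩ := h2.2
      refine ⟨φ.trans ψ.symm, ?_⟩
      have e1 : (φ.trans ψ.symm) '' body K = ψ.symm '' (φ '' body K) := by
        rw [← Set.image_comp]
        rfl
      rw [e1, hφ, ← hψ, ← Set.image_comp]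
      have e2 : (⇑ψ.symm ∘ ⇑ψ) = id := by
        funext p
        exact ψ.symm_apply_apply p
      rw [e2, Set.image_id]
  unfold Zt
  rw [hset]

/-- **Stretched polygons**, for knot types with respect to the group `G`. -/
theorem main_group (hT : ∀ t : R3, Homeomorph.addRight t ∈ G)
    (hG : ∀ φ : R3 ≃ₜ R3, φ ∈ G ∨ φ * negY ∈ G) (hy : 4096 ≤ y) :
    (∃ μ : ℝ, 0 < μ ∧
      Tendsto (fun k : ℕ => Zt y UClass (2 * k) ^ (((2 * k : ℕ) : ℝ)⁻¹)) atTop (𝓝 μ) ∧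
      ∀ (K : ES) (N : ℕ), IsPolygon K → Few N K →
        Tendsto (fun k : ℕ => Zt y (GClass G K) (2 * k) ^ (((2 * k : ℕ) : ℝ)⁻¹)) atTop (𝓝 μ)) ∧
    (∀ k ≥ 2, 0 < Zt y UClass (2 * k)) ∧
    (∀ N : ℕ, ∃ D : ℝ, ∀ n, Zt y (Few N) n ≤ D * (n : ℝ) ^ N * Zt y UClass n) ∧
    (∀ K : ES, IsPolygon K → ¬ Unknotted K → ∃ δ : ℝ, 0 < δ ∧ ∃ n0 : ℕ, ∀ n ≥ n0,
      δ * n * Zt y UClass n ≤ Zt y (GClass G K) n) := by
  have hy0 : (0 : ℝ) ≤ y := le_trans (by norm_num) hy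
  have hy1 : (1 : ℝ) ≤ y := le_trans (by norm_num) hy
  obtain ⟨⟨μ, hμ, hlim, -⟩, hup, hlo⟩ := KRing.main hy
  have hlo' : ∀ K : ES, IsPolygon K → ¬ Unknotted K → ∃ δ : ℝ, 0 < δ ∧ ∃ n0 : ℕ, ∀ n ≥ n0,
      δ * n * Zt y UClass n ≤ Zt y (GClass G K) n := by
    intro K hK nK
    obtain ⟨δ, hδ, n0, h⟩ := hlo K hK nK
    refine ⟨δ / 2, by positivity, n0, fun n hn => ?_⟩
    have h1 := h n hn
    have h2 := zt_g_le hT hG hy0 K n
    linarith
  have hpos : ∀ k ≥ 2, 0 < Zt y UClass (2 * k) := fun k hk => by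
    have h := u_pos (x := Real.sqrt y) (by rwa [Real.one_le_sqrt]) (even_two_mul k) (by omega)
    rwa [Real.sq_sqrt hy0] at h
  refine ⟨⟨μ, hμ, hlim, fun K N hK hN => ?_⟩, hpos, hup, hlo'⟩
  obtain ⟨D, hD⟩ := hup N
  have hupp : ∀ᶠ k in atTop, Zt y (GClass G K) (2 * k) ≤
      D * ((2 * k : ℕ) : ℝ) ^ N * Zt y UClass (2 * k) :=
    Eventually.of_forall fun k => (g_le_zt hy0 K _).trans
      ((zt_mono hy0 (fun E _ hE => hinv_few N K E hE.2 hN) _).trans (hD (2 * k)))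
  by_cases uK : Unknotted K
  · refine rate_of_bounds (D := D) (δ := 1 / 2) (N := N) hμ (by norm_num) hlim hpos hupp
      (Eventually.of_forall fun k => ?_)
    have h2 := zt_g_le hT hG hy0 K (2 * k)
    rw [zt_unk_eq uK] at h2
    linarith
  · obtain ⟨δ, hδ, n0, hn0⟩ := hlo' K hK uK
    refine rate_of_bounds (D := D) (δ := δ) (N := N) hμ hδ hlim hpos hupp ?_
    filter_upwards [eventually_ge_atTop (max n0 1)] with k hk
    have hk1 : n0 ≤ k := le_trans (le_max_left _ _) hk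
    have hk2 : 1 ≤ k := le_trans (le_max_right _ _) hk
    refine le_trans ?_ (hn0 (2 * k) (by omega))
    have hU := zt_nonneg hy0 UClass (2 * k)
    have h1 : (1 : ℝ) ≤ ((2 * k : ℕ) : ℝ) := by exact_mod_cast (by omega : 1 ≤ 2 * k)
    calc δ * Zt y UClass (2 * k) = δ * 1 * Zt y UClass (2 * k) := by
          rw [mul_one]
      _ ≤ δ * ((2 * k : ℕ) : ℝ) * Zt y UClass (2 * k) :=
          mul_le_mul_of_nonneg_right (mul_le_mul_of_nonneg_left h1 hδ.le) hU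

end Pool.Agent.KTen
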