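import Pool.Agent.KTen.Splice
import Pool.Agent.KTube.Stretch
import Pool.Agent.KTube.Types
import Pool.Agent.MP_aea6d5_co.KPair

/-! Joining a small polygon sideways to a vertical strand. -/

set_option autoImplicit false

open Set

namespace Pool.Agent.KTen

open Pool.Agent.LK Pool.Agent.KTube

/-- `K0` lies to the left of the column `0`, at the levels `1, …, h`, and contains the edge from
`(-1, 0, z)` to `(-1, 0, z + 1)`. -/
structure LeftOf (K0 : ES) (h : ℕ) (z : ℤ) : Prop where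
  poly : IsPolygon K0
  left : ∀ u ∈ verts K0, u.1 ≤ -1
  lev : ∀ u ∈ verts K0, 1 ≤ u.2.2 ∧ u.2.2 ≤ h
  edge : s((-1, 0, z), (-1, 0, z + 1)) ∈ K0

/-! ### The symmetry exchanging the first and the third coordinate -/

private def rev (u : P3) : P3 := (u.2.2, u.2.1, u.1)

private theorem rev_rev (u : P3) : rev (rev u) = u := rfl

private theorem rev_inj : Function.Injective rev := fun u v h => by
  rw [← rev_rev u, h, rev_rev]

private theorem frame_rev : Frame (0, 0, 1) (0, 1, 0) (1, 0, 0) :=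
  ⟨by simp [dot3], by simp [dot3], by simp [dot3], by simp [dot3], by simp [dot3], by simp [dot3]⟩

private theorem rev_eq : rev = latIso 0 (0, 0, 1) (0, 1, 0) (1, 0, 0) := by
  funext u
  obtain ⟨x, y, w⟩ := u
  simp [rev, latIso]

private theorem mem_revE {X : ES} {u v : P3} : s(u, v) ∈ mapE rev X ↔ s(rev u, rev v) ∈ X := by
  have := mem_mapE rev_inj (E := X) (u := rev u) (v := rev v)
  rwa [rev_rev, rev_rev] at this

private theorem mem_verts_rev {X : ES} {u : P3} : u ∈ verts (mapE rev X) ↔ rev u ∈ verts X := by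
  constructor
  · rintro ⟨v, hv⟩
    exact ⟨rev v, mem_revE.1 hv⟩
  · rintro ⟨v, hv⟩
    refine ⟨rev v, mem_revE.2 ?_⟩
    rwa [rev_rev]

private theorem rev_edge {u v p q : P3} : s(rev u, rev v) = s(p, q) ↔ s(u, v) = s(rev p, rev q) := by
  rw [Sym2.eq_iff, Sym2.eq_iff]
  have h : ∀ a b : P3, rev a = b ↔ a = rev b := by
    intro a b
    constructor
    · rintro rfl
      rfl
    · rintro rfl
      rfl
  rw [h, h, h, h]

private theorem isPolygon_rev {X : ES} (h : IsPolygon X) : IsPolygon (mapE rev X) := by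
  rw [rev_eq]
  exact isPolygon_latIso frame_rev 0 h

private theorem sameType_latIso {a b c : P3} (h : Frame a b c) (X : ES) :
    SameType X (mapE (latIso 0 a b c) X) := by
  obtain ⟨G, -, hG, hseg⟩ := exists_latHomeo h 0
  exact ⟨G, (body_mapE G _ hG hseg X).symm⟩

private theorem sameType_rev (X : ES) : SameType X (mapE rev X) := by
  rw [rev_eq]
  exact sameType_latIso frame_rev X

private theorem rev_revE (X : ES) : mapE rev (mapE rev X) = X := by
  refine edge_ext fun u v => ?_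
  rw [mem_revE, mem_revE, rev_rev, rev_rev]

private theorem yz_eq : (fun u : P3 => (u.1, u.2.2, u.2.1)) = latIso 0 (1, 0, 0) (0, 0, 1) (0, 1, 0) := by
  funext u
  obtain ⟨x, y, w⟩ := u
  simp [latIso]

private theorem exists_bounds (X : ES) (f : P3 → ℤ) : ∃ m M : ℤ, ∀ u ∈ verts X, m ≤ f u ∧ f u ≤ M := by
  obtain ⟨m, hm⟩ := ((verts_finite X).image f).bddBelow
  obtain ⟨M, hM⟩ := ((verts_finite X).image f).bddAbove
  exact ⟨m, M, fun u hu => ⟨hm ⟨u, hu, rfl⟩, hM ⟨u, hu, rfl⟩⟩⟩

private theorem exists_vert {K : ES} (hK : IsPolygon K) : ∃ (K1 : ES) (X y z : ℤ), SameType K K1 ∧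
    IsPolygon K1 ∧ (∀ u ∈ verts K1, u.1 ≤ X) ∧ s((X, y, z), (X, y, z + 1)) ∈ K1 := by
  obtain ⟨u, hu, hmax⟩ := Set.exists_max_image (verts K) (fun u => u.1) (verts_finite K)
    hK.verts_nonempty
  have key : ∃ d : P3, IsUnit3 d ∧ d.1 = 0 ∧ s(u, u + d) ∈ K := by
    obtain ⟨d, d', h1, h2, h3, h4, h5, -⟩ := hK.two hu
    have b1 : d.1 ≤ 0 := by
      have := hmax _ (right_mem_verts h4)
      simpa using this
    have b2 : d'.1 ≤ 0 := by
      have := hmax _ (right_mem_verts h5)
      simpa using this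
    by_cases h6 : d.1 = 0
    · exact ⟨d, h1, h6, h4⟩
    · by_cases h7 : d'.1 = 0
      · exact ⟨d', h2, h7, h5⟩
      · exfalso
        have c1 : ∀ e : P3, IsUnit3 e → e.1 ≤ 0 → e.1 ≠ 0 → e = (-1, 0, 0) := by
          intro e he h8 h9
          rcases isUnit3_iff.1 he with rfl | rfl | rfl | rfl | rfl | rfl <;> simp at h8 h9 ⊢
        exact h3 ((c1 d h1 b1 h6).trans (c1 d' h2 b2 h7).symm)
  obtain ⟨d, h1, h2, h3⟩ := key
  obtain ⟨x, y, w⟩ := u
  rcases isUnit3_iff.1 h1 with rfl | rfl | rfl | rfl | rfl | rfl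
  · simp at h2
  · simp at h2
  · refine ⟨mapE (fun u : P3 => (u.1, u.2.2, u.2.1)) K, x, w, y, ?_, ?_, ?_, ?_⟩
    · rw [yz_eq]; exact sameType_latIso frame_swapYZ K
    · rw [yz_eq]; exact isPolygon_latIso frame_swapYZ 0 hK
    · rintro v ⟨v', hv⟩
      obtain ⟨p, q, hpq, rfl, rfl⟩ := mem_mapE_iff.1 hv
      have := hmax p ⟨q, hpq⟩
      exact this
    · refine mem_mapE_iff.2 ⟨_, _, h3, ?_, ?_⟩ <;> simp
  · refine ⟨mapE (fun u : P3 => (u.1, u.2.2, u.2.1)) K, x, w, y - 1, ?_, ?_, ?_, ?_⟩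
    · rw [yz_eq]; exact sameType_latIso frame_swapYZ K
    · rw [yz_eq]; exact isPolygon_latIso frame_swapYZ 0 hK
    · rintro v ⟨v', hv⟩
      obtain ⟨p, q, hpq, rfl, rfl⟩ := mem_mapE_iff.1 hv
      have := hmax p ⟨q, hpq⟩
      exact this
    · rw [Sym2.eq_swap]
      refine mem_mapE_iff.2 ⟨_, _, h3, ?_, ?_⟩
      · simp
      · simp only [Prod.mk_add_mk, add_zero, Prod.mk.injEq, true_and]
        ring
  · refine ⟨K, x, y, w, SameType.refl K, hK, fun v hv => hmax v hv, ?_⟩
    simpa using h3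
  · refine ⟨K, x, y, w - 1, SameType.refl K, hK, fun v hv => hmax v hv, ?_⟩
    rw [Sym2.eq_swap]
    have e : (w - 1 + 1 : ℤ) = w := by ring
    rw [e]
    simpa [sub_eq_add_neg] using h3

/-- Every type has such a representative. -/
theorem exists_leftOf {K : ES} (hK : IsPolygon K) :
    ∃ (K0 : ES) (h : ℕ) (z : ℤ), SameType K K0 ∧ LeftOf K0 h z := by
  obtain ⟨K1, X, y, z, h1, h2, h3, h4⟩ := exists_vert hK
  obtain ⟨m, M, hm⟩ := exists_bounds K1 (fun u => u.2.2)
  have hmM : m ≤ M := (hm _ ⟨_, h4⟩).1.trans (hm _ ⟨_, h4⟩).2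
  refine ⟨shift (-1 - X, -y, 1 - m) K1, (M + 1 - m).toNat, z + 1 - m,
    h1.trans (moveFacts.trans _ K1), isPolygon_shift h2 _, ?_, ?_, ?_⟩
  · intro u hu
    have := h3 _ (mem_verts_shift.1 hu)
    simp only [Prod.fst_sub] at this
    omega
  · intro u hu
    have := hm _ (mem_verts_shift.1 hu)
    simp only [Prod.snd_sub] at this
    omega
  · rw [mem_shift]
    have e1 : (((-1, 0, z + 1 - m) : P3) - (-1 - X, -y, 1 - m)) = (X, y, z) := by
      simp only [Prod.mk_sub_mk, Prod.mk.injEq]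
      refine ⟨by ring, by ring, by ring⟩
    have e2 : (((-1, 0, z + 1 - m + 1) : P3) - (-1 - X, -y, 1 - m)) = (X, y, z + 1) := by
      simp only [Prod.mk_sub_mk, Prod.mk.injEq]
      refine ⟨by ring, by ring, by ring⟩
    rw [e1, e2]
    exact h4

/-- The column `a` is lexicographically smaller than the column `b`. -/
def Lex (a b : ℤ × ℤ) : Prop := a.1 < b.1 ∨ (a.1 = b.1 ∧ a.2 < b.2)

/-- `K0` (moved to the column `a` and the plane `z = k + 1/2`) is joined to the strand of
`stretch E k h` over `a`. -/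
noncomputable def insK (K0 : ES) (h : ℕ) (z : ℤ) (a : ℤ × ℤ) (E : ES) (k : ℤ) : ES :=
  (stretch E k h \ {s((a.1, a.2, k + z), (a.1, a.2, k + z + 1))}) ∪
    (shift (a.1, a.2, k) K0 \ {s((a.1 - 1, a.2, k + z), (a.1 - 1, a.2, k + z + 1))}) ∪
    {s((a.1 - 1, a.2, k + z), (a.1, a.2, k + z)),
      s((a.1 - 1, a.2, k + z + 1), (a.1, a.2, k + z + 1))}

variable {K0 E F : ES} {h : ℕ} {z k : ℤ} {a b : ℤ × ℤ}

/-- The part of `insK K0 h z a E k` between the planes `k` and `k + h`: it depends only on the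
two columns. -/
noncomputable def patK (K0 : ES) (h : ℕ) (z : ℤ) (a b : ℤ × ℤ) (k : ℤ) : ES :=
  (((Finset.range (h + 1)).image fun i : ℕ => s((a.1, a.2, k + i), (a.1, a.2, k + i + 1))) \
      {s((a.1, a.2, k + z), (a.1, a.2, k + z + 1))}) ∪
    ((Finset.range (h + 1)).image fun i : ℕ => s((b.1, b.2, k + i), (b.1, b.2, k + i + 1))) ∪
    (shift (a.1, a.2, k) K0 \ {s((a.1 - 1, a.2, k + z), (a.1 - 1, a.2, k + z + 1))}) ∪
    {s((a.1 - 1, a.2, k + z), (a.1, a.2, k + z)),
      s((a.1 - 1, a.2, k + z + 1), (a.1, a.2, k + z + 1))}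

private theorem insK_eq : insK K0 h z a E k = mapE rev (joinZ (mapE rev (shift (a.1, a.2, k) K0))
    (mapE rev (stretch E k h)) (k + z) a.2 (a.1 - 1)) := by
  refine edge_ext fun u v => ?_
  rw [mem_revE, mem_joinZ'', mem_revE, mem_revE, rev_rev, rev_rev]
  unfold insK
  simp only [Finset.mem_union, Finset.mem_sdiff, Finset.mem_singleton, Finset.mem_insert, ne_eq,
    rev_edge, sub_add_cancel]
  simp only [rev]
  tauto

private theorem join_below (hK : LeftOf K0 h z) (hc : cross E k = {a, b}) (hab : Lex a b) :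
    Below (mapE rev (shift (a.1, a.2, k) K0)) (mapE rev (stretch E k h)) := by
  intro u hu v hv h1 h2
  rw [mem_verts_rev] at hu hv
  have l1 := hK.left _ (mem_verts_shift.1 hu)
  have l2 := hK.lev _ (mem_verts_shift.1 hu)
  simp only [rev, Prod.fst_sub, Prod.snd_sub] at l1 l2
  rcases verts_stretch hv with ⟨-, h3⟩ | ⟨-, h3⟩ | ⟨h3, -, -⟩
  · simp only [rev] at h3
    omega
  · simp only [rev] at h3
    omega
  · rw [hc] at h3
    simp only [rev, mem_insert_iff, mem_singleton_iff] at h3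
    unfold Lex at hab
    rcases h3 with h3 | h3
    · have := congrArg Prod.fst h3
      simp only at this
      omega
    · have := congrArg Prod.fst h3
      simp only at this
      omega

private theorem join_edge1 (hK : LeftOf K0 h z) :
    s(((k + z, a.2, a.1 - 1) : P3), (k + z + 1, a.2, a.1 - 1)) ∈
      mapE rev (shift (a.1, a.2, k) K0) := by
  rw [mem_revE, mem_shift]
  have e1 : rev (k + z, a.2, a.1 - 1) - (a.1, a.2, k) = (-1, 0, z) := by
    simp only [rev, Prod.mk_sub_mk, Prod.mk.injEq]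
    refine ⟨by ring, by ring, by ring⟩
  have e2 : rev (k + z + 1, a.2, a.1 - 1) - (a.1, a.2, k) = (-1, 0, z + 1) := by
    simp only [rev, Prod.mk_sub_mk, Prod.mk.injEq]
    refine ⟨by ring, by ring, by ring⟩
  rw [e1, e2]
  exact hK.edge

private theorem join_edge2 (hK : LeftOf K0 h z) (hc : cross E k = {a, b}) :
    s(((k + z, a.2, a.1 - 1 + 1) : P3), (k + z + 1, a.2, a.1 - 1 + 1)) ∈
      mapE rev (stretch E k h) := by
  rw [mem_revE, sub_add_cancel]
  have l1 := hK.lev _ (left_mem_verts hK.edge)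
  simp only at l1
  refine mem_stretch.2 (Or.inr (Or.inr ⟨a.1, a.2, z.toNat, by omega, ?_, ?_⟩))
  · have : a ∈ cross E k := by rw [hc]; simp
    exact this
  · have e : ((z.toNat : ℕ) : ℤ) = z := by omega
    rw [e]
    rfl

/-- **The side join.** -/
theorem insK_poly (hK : LeftOf K0 h z) (hE : IsPolygon E) (hc : cross E k = {a, b})
    (hab : Lex a b) : IsPolygon (insK K0 h z a E k) := by
  rw [insK_eq]
  exact isPolygon_rev (polyJoinZStatement _ _ _ _ _ (isPolygon_rev (isPolygon_shift hK.poly _))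
    (isPolygon_rev (stretchStatement E k h hE).1) (join_below hK hc hab) (join_edge1 hK)
    (join_edge2 hK hc))

theorem insK_type (hK : LeftOf K0 h z) (hE : IsPolygon E) (hc : cross E k = {a, b})
    (hab : Lex a b) (uE : Unknotted E) : SameType K0 (insK K0 h z a E k) := by
  rw [insK_eq]
  have h1 := stretchStatement E k h hE
  have h2 : Unknotted (mapE rev (stretch E k h)) :=
    (h1.2.trans (sameType_rev _)).symm.unknotted uE
  exact ((moveFacts.trans _ K0).trans (sameType_rev (shift (a.1, a.2, k) K0))).trans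
    ((b1_upper (isPolygon_rev (isPolygon_shift hK.poly _)) (isPolygon_rev h1.1) h2
      (join_below hK hc hab) (join_edge1 hK) (join_edge2 hK hc)).trans (sameType_rev _))

end Pool.Agent.KTen
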