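import Pool.Agent.KTen.PlaceA
import Pool.Agent.KTen.SideJoin

/-! A piece that is joined sideways to a vertical strand is a pattern in a small box. -/

set_option autoImplicit false

open Set

namespace Pool.Agent.KTen

open Pool.Agent.LK Pool.Agent.KTube

variable {K0 E F : ES} {h : ℕ} {z k : ℤ} {a b : ℤ × ℤ}

/-- The column `a` is not to the right of the column `b`. -/
def WLex (a b : ℤ × ℤ) : Prop := a.1 ≤ b.1 ∧ a ≠ b

theorem Lex.weak (h : Lex a b) : WLex a b := by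
  rcases h with h | ⟨h, h'⟩
  · exact ⟨h.le, fun e => by rw [e] at h; exact lt_irrefl _ h⟩
  · exact ⟨h.le, fun e => by rw [e] at h'; exact lt_irrefl _ h'⟩

/-- The place in the column `a` between the levels `k` and `k + 1`, directed upwards. -/
noncomputable def upl (a : ℤ × ℤ) (k : ℤ) : R3 → R3 := cht (a.1, a.2, k) (0, 0, 1) (1, 0, 0)

theorem upl_apply (a : ℤ × ℤ) (k : ℤ) (p : R3) :
    upl a k p = (a.1 + p.2.1 / 32, a.2 + p.2.2 / 32, k + (1 / 2 + p.1 / 32)) := by
  simp [upl, cht, crs]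

theorem mem_upl_box {a : ℤ × ℤ} {k : ℤ} {p : R3} : p ∈ upl a k '' Bx ↔
    |p.1 - a.1| ≤ 1 / 32 ∧ |p.2.1 - a.2| ≤ 1 / 32 ∧ |p.2.2 - (k + 1 / 2)| ≤ 1 / 32 := by
  constructor
  · rintro ⟨q, ⟨k1, k2, k3⟩, rfl⟩
    rw [upl_apply]
    rw [abs_le] at k1 k2 k3
    simp only
    refine ⟨?_, ?_, ?_⟩ <;> · rw [abs_le]; constructor <;> linarith
  · rintro ⟨k1, k2, k3⟩
    rw [abs_le] at k1 k2 k3
    refine ⟨(32 * (p.2.2 - (k + 1 / 2)), 32 * (p.1 - a.1), 32 * (p.2.1 - a.2)),
      ⟨?_, ?_, ?_⟩, ?_⟩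
    · simp only
      rw [abs_le]
      constructor <;> linarith
    · simp only
      rw [abs_le]
      constructor <;> linarith
    · simp only
      rw [abs_le]
      constructor <;> linarith
    · rw [upl_apply]
      refine Prod.ext ?_ (Prod.ext ?_ ?_) <;>
      · simp only
        ring

/-! ### Functions of the levels -/

/-- The clamp. -/
noncomputable def cl (L w : ℝ) : ℝ := max 0 (min L w)

theorem cl_low {L w : ℝ} (hw : w ≤ 0) : cl L w = 0 := by
  unfold cl
  rw [max_eq_left ((min_le_right _ _).trans hw)]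

theorem cl_high {L w : ℝ} (hL : 0 ≤ L) (hw : L ≤ w) : cl L w = L := by
  unfold cl
  rw [min_eq_left hw, max_eq_right hL]

theorem cl_mid {L w : ℝ} (h0 : 0 ≤ w) (hw : w ≤ L) : cl L w = w := by
  unfold cl
  rw [min_eq_right hw, max_eq_right h0]

theorem cl_nonneg (L w : ℝ) : 0 ≤ cl L w := le_max_left _ _

theorem cl_le {L : ℝ} (hL : 0 ≤ L) (w : ℝ) : cl L w ≤ L := max_le hL (min_le_left _ _)

theorem cl_mono {L v w : ℝ} (hvw : v ≤ w) : cl L v ≤ cl L w :=
  max_le_max le_rfl (min_le_min le_rfl hvw)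

theorem cl_lip {L v w : ℝ} (hvw : v ≤ w) : cl L w - cl L v ≤ w - v := by
  unfold cl
  rcases max_cases 0 (min L v) with ⟨h1, h1'⟩ | ⟨h1, h1'⟩ <;>
    rcases max_cases 0 (min L w) with ⟨h2, h2'⟩ | ⟨h2, h2'⟩ <;>
    rcases min_cases L v with ⟨h3, h3'⟩ | ⟨h3, h3'⟩ <;>
    rcases min_cases L w with ⟨h4, h4'⟩ | ⟨h4, h4'⟩ <;> rw [h1, h2] <;>
    linarith

theorem cl_add {M L w : ℝ} (hM : 0 ≤ M) (hL : 0 ≤ L) : cl M w + cl L (w - M) = cl (M + L) w := by
  rcases le_total w 0 with h1 | h1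
  · rw [cl_low h1, cl_low h1, cl_low (by linarith)]
    ring
  · rcases le_total w M with h2 | h2
    · rw [cl_mid h1 h2, cl_mid h1 (by linarith), cl_low (by linarith)]
      ring
    · rcases le_total w (M + L) with h3 | h3
      · rw [cl_high hM h2, cl_mid h1 h3, cl_mid (by linarith) (by linarith)]
        ring
      · rw [cl_high hM h2, cl_high (by linarith) h3, cl_high hL (by linarith)]

/-- The slope is `1 - sS`. -/
noncomputable def slp (h : ℕ) : ℝ := 1 - (1 / 16) / (h - 1 / 4)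

/-- Squeezing the levels `1, ..., h + 3/4`. -/
noncomputable def zS (h : ℕ) (w : ℝ) : ℝ :=
  w - 17 / 32 * cl 1 w - slp h * cl (h - 1 / 4) (w - 1) + 7 / 8 * cl (1 / 4) (w - (h + 3 / 4))

theorem slp_mul (hh : 1 ≤ h) : slp h * ((h : ℝ) - 1 / 4) = h - 1 / 4 - 1 / 16 := by
  have h1 : (1 : ℝ) ≤ h := by exact_mod_cast hh
  have h2 : (h : ℝ) - 1 / 4 ≠ 0 := by linarith
  unfold slp
  rw [sub_mul, one_mul, div_mul_cancel₀ _ h2]

theorem slp_lt (hh : 1 ≤ h) : slp h < 1 := by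
  have h1 : (1 : ℝ) ≤ h := by exact_mod_cast hh
  have h2 : 0 < (1 / 16) / ((h : ℝ) - 1 / 4) := div_pos (by norm_num) (by linarith)
  unfold slp
  linarith

theorem zS_low {w : ℝ} (hw : w ≤ 0) : zS h w = w := by
  have h1 : (0 : ℝ) ≤ h := Nat.cast_nonneg h
  unfold zS
  rw [cl_low hw, cl_low (by linarith), cl_low (by linarith)]
  ring

theorem zS_high (hh : 1 ≤ h) {w : ℝ} (hw : (h : ℝ) + 1 ≤ w) : zS h w = w - h := by
  have h1 : (1 : ℝ) ≤ h := by exact_mod_cast hh
  unfold zS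
  rw [cl_high (by norm_num) (by linarith), cl_high (by linarith) (by linarith),
    cl_high (by norm_num) (by linarith), slp_mul hh]
  ring

theorem zS_one (hh : 1 ≤ h) : zS h 1 = 15 / 32 := by
  have h1 : (1 : ℝ) ≤ h := by exact_mod_cast hh
  unfold zS
  rw [cl_high (by norm_num) (by linarith), cl_low (by linarith), cl_low (by linarith)]
  norm_num

theorem zS_top (hh : 1 ≤ h) : zS h (h + 3 / 4) = 17 / 32 := by
  have h1 : (1 : ℝ) ≤ h := by exact_mod_cast hh
  unfold zS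
  rw [cl_high (by norm_num) (by linarith), cl_high (by linarith) (by linarith),
    cl_low (by linarith), slp_mul hh]
  ring

theorem strictMono_zS (hh : 1 ≤ h) : StrictMono (zS h) := by
  intro v w hvw
  have h1 : (1 : ℝ) ≤ h := by exact_mod_cast hh
  have d1 : 0 ≤ cl 1 w - cl 1 v := by linarith [cl_mono (L := 1) hvw.le]
  have d2 : 0 ≤ cl (h - 1 / 4) (w - 1) - cl (h - 1 / 4) (v - 1) := by
    linarith [cl_mono (L := h - 1 / 4) (by linarith : v - 1 ≤ w - 1)]
  have d3 : 0 ≤ cl (1 / 4) (w - (h + 3 / 4)) - cl (1 / 4) (v - (h + 3 / 4)) := by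
    linarith [cl_mono (L := 1 / 4) (by linarith : v - (h + 3 / 4) ≤ w - (h + 3 / 4))]
  have d12 : (cl 1 w - cl 1 v) + (cl (h - 1 / 4) (w - 1) - cl (h - 1 / 4) (v - 1)) ≤ w - v := by
    have e1 := cl_add (w := w) (zero_le_one (α := ℝ)) (by linarith : 0 ≤ (h : ℝ) - 1 / 4)
    have e2 := cl_add (w := v) (zero_le_one (α := ℝ)) (by linarith : 0 ≤ (h : ℝ) - 1 / 4)
    have e3 := cl_lip (L := 1 + (h - 1 / 4)) hvw.le
    linarith
  have hs := slp_lt hh
  unfold zS
  have hpos : 0 < w - v := by linarith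
  nlinarith [mul_nonneg (by linarith : 0 ≤ 1 - slp h) d2]

theorem continuous_zS : Continuous (zS h) := by
  unfold zS cl
  fun_prop

theorem surjective_zS (hh : 1 ≤ h) : Function.Surjective (zS h) := by
  intro y
  rcases le_or_gt y 0 with h1 | h1
  · exact ⟨y, zS_low h1⟩
  · rcases le_or_gt 1 y with h2 | h2
    · exact ⟨y + h, by rw [zS_high hh (by linarith)]; ring⟩
    · have h3 : (0 : ℝ) ≤ h + 1 := by positivity
      have h4 := intermediate_value_Icc h3 (continuous_zS (h := h)).continuousOn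
      rw [zS_low le_rfl, zS_high hh le_rfl] at h4
      obtain ⟨w, -, hw⟩ := h4 ⟨h1.le, by linarith⟩
      exact ⟨w, hw⟩

/-- The cutoff of the levels. -/
noncomputable def bS (h : ℕ) (w : ℝ) : ℝ := cl 1 (min w (h + 1 - w))

/-- The factor for the first coordinate. -/
noncomputable def dS (ε : ℝ) (h : ℕ) (w : ℝ) : ℝ := 1 - (1 - ε) * bS h w

/-- The factor for the second coordinate. -/
noncomputable def cS (ε : ℝ) (h : ℕ) (x w : ℝ) : ℝ := 1 - (1 - ε) * (cl 1 (-x) * bS h w)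

section

variable {ε : ℝ}

theorem bS_nonneg (h : ℕ) (w : ℝ) : 0 ≤ bS h w := cl_nonneg _ _

theorem bS_le (h : ℕ) (w : ℝ) : bS h w ≤ 1 := cl_le zero_le_one _

theorem bS_out {w : ℝ} (hw : w ≤ 0 ∨ (h : ℝ) + 1 ≤ w) : bS h w = 0 := by
  refine cl_low ?_
  rcases hw with hw | hw
  · exact (min_le_left _ _).trans hw
  · exact (min_le_right _ _).trans (by linarith)

theorem bS_in {w : ℝ} (h1 : 1 ≤ w) (h2 : w ≤ h) : bS h w = 1 :=
  cl_high zero_le_one (le_min h1 (by linarith))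

theorem dS_pos (h0 : 0 < ε) (h1 : ε ≤ 1) (h : ℕ) (w : ℝ) : 0 < dS ε h w := by
  have k1 := bS_nonneg h w
  have k2 := bS_le h w
  unfold dS
  nlinarith

theorem dS_le (h1 : ε ≤ 1) (h : ℕ) (w : ℝ) : dS ε h w ≤ 1 := by
  have k1 := bS_nonneg h w
  unfold dS
  nlinarith

theorem cS_pos (h0 : 0 < ε) (h1 : ε ≤ 1) (h : ℕ) (x w : ℝ) : 0 < cS ε h x w := by
  have k1 := bS_nonneg h w
  have k2 := bS_le h w
  have k3 := cl_nonneg 1 (-x)
  have k4 := cl_le zero_le_one (-x)
  have k5 : 0 ≤ cl 1 (-x) * bS h w := mul_nonneg k3 k1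
  have k6 : cl 1 (-x) * bS h w ≤ 1 := mul_le_one₀ k4 k1 k2
  unfold cS
  nlinarith

theorem cS_le (h1 : ε ≤ 1) (h : ℕ) (x w : ℝ) : cS ε h x w ≤ 1 := by
  have k1 := bS_nonneg h w
  have k3 := cl_nonneg 1 (-x)
  have k5 : 0 ≤ cl 1 (-x) * bS h w := mul_nonneg k3 k1
  unfold cS
  nlinarith

theorem continuous_dS (ε : ℝ) (h : ℕ) : Continuous fun p : R3 => dS ε h p.2.2 := by
  unfold dS bS cl
  fun_prop

theorem continuous_cS (ε : ℝ) (h : ℕ) : Continuous fun p : R3 => cS ε h p.1 p.2.2 := by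
  unfold cS bS cl
  fun_prop

/-- Squeezing the first coordinate. -/
noncomputable def sqX (h0 : 0 < ε) (h1 : ε ≤ 1) (h : ℕ) : R3 ≃ₜ R3 where
  toFun p := (max p.1 0 + dS ε h p.2.2 * min p.1 0, p.2.1, p.2.2)
  invFun p := (max p.1 0 + (dS ε h p.2.2)⁻¹ * min p.1 0, p.2.1, p.2.2)
  left_inv p := by
    have hd := dS_pos h0 h1 h p.2.2
    refine Prod.ext ?_ rfl
    rcases le_total p.1 0 with hx | hx
    · simp only [max_eq_right hx, min_eq_left hx, zero_add]
      have h2 : dS ε h p.2.2 * p.1 ≤ 0 := mul_nonpos_of_nonneg_of_nonpos hd.le hx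
      rw [max_eq_right h2, min_eq_left h2, zero_add, inv_mul_cancel_left₀ hd.ne']
    · simp [max_eq_left hx, min_eq_right hx]
  right_inv p := by
    have hd := dS_pos h0 h1 h p.2.2
    refine Prod.ext ?_ rfl
    rcases le_total p.1 0 with hx | hx
    · simp only [max_eq_right hx, min_eq_left hx, zero_add]
      have h2 : (dS ε h p.2.2)⁻¹ * p.1 ≤ 0 :=
        mul_nonpos_of_nonneg_of_nonpos (inv_nonneg.2 hd.le) hx
      rw [max_eq_right h2, min_eq_left h2, zero_add, mul_inv_cancel_left₀ hd.ne']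
    · simp [max_eq_left hx, min_eq_right hx]
  continuous_toFun := by
    have hc := continuous_dS ε h
    fun_prop
  continuous_invFun := by
    have hc : Continuous fun p : R3 => (dS ε h p.2.2)⁻¹ :=
      (continuous_dS ε h).inv₀ fun p => (dS_pos h0 h1 h p.2.2).ne'
    fun_prop

/-- Squeezing the second coordinate. -/
noncomputable def sqY (h0 : 0 < ε) (h1 : ε ≤ 1) (h : ℕ) : R3 ≃ₜ R3 where
  toFun p := (p.1, cS ε h p.1 p.2.2 * p.2.1, p.2.2)
  invFun p := (p.1, (cS ε h p.1 p.2.2)⁻¹ * p.2.1, p.2.2)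
  left_inv p := by
    refine Prod.ext rfl (Prod.ext ?_ rfl)
    exact inv_mul_cancel_left₀ (cS_pos h0 h1 h p.1 p.2.2).ne' _
  right_inv p := by
    refine Prod.ext rfl (Prod.ext ?_ rfl)
    exact mul_inv_cancel_left₀ (cS_pos h0 h1 h p.1 p.2.2).ne' _
  continuous_toFun := by
    have hc := continuous_cS ε h
    fun_prop
  continuous_invFun := by
    have hc : Continuous fun p : R3 => (cS ε h p.1 p.2.2)⁻¹ :=
      (continuous_cS ε h).inv₀ fun p => (cS_pos h0 h1 h p.1 p.2.2).ne'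
    fun_prop

/-- Squeezing the third coordinate. -/
noncomputable def sqZ (hh : 1 ≤ h) : R3 ≃ₜ R3 :=
  (Homeomorph.refl ℝ).prodCongr ((Homeomorph.refl ℝ).prodCongr
    (homeoOf (zS h) (strictMono_zS hh) (surjective_zS hh)))

/-- The homeomorphism. -/
theorem exists_sq (h0 : 0 < ε) (h1 : ε ≤ 1) (hh : 1 ≤ h) : ∃ φ : R3 ≃ₜ R3, ∀ p : R3, φ p =
    (max p.1 0 + dS ε h p.2.2 * min p.1 0, cS ε h p.1 p.2.2 * p.2.1, zS h p.2.2) :=
  ⟨((sqY h0 h1 h).trans (sqX h0 h1 h)).trans (sqZ hh), fun _ => rfl⟩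

end

/-! ### Stretched columns -/

theorem column_mem (hE : ∀ u v, s(u, v) ∈ E → Adj u v) {b : ℤ × ℤ}
    (hc : cross E 0 = {(0, 0), b}) {P : R3} (hP : P ∈ body (stretch E 0 h)) (h0 : 0 < P.2.2)
    (h1 : P.2.2 < h + 1) : (P.1 = 0 ∧ P.2.1 = 0) ∨ (P.1 = b.1 ∧ P.2.1 = b.2) := by
  rw [← body_stretch hE] at hP
  obtain ⟨q, ⟨u, v, huv, hx⟩, rfl⟩ := hP
  rw [strH_apply] at h0 h1 ⊢
  simp only at h0 h1 ⊢
  have hq0 : 0 < q.2.2 := by
    by_contra hcon
    push Not at hcon
    rw [psi_low (by simpa using hcon)] at h0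
    linarith
  have hq1 : q.2.2 < 1 := by
    by_contra hcon
    push Not at hcon
    rw [psi_high (by simpa using hcon)] at h1
    linarith
  rcases adj_cases 0 (hE u v huv) with ⟨h2, h3⟩ | ⟨h2, h3⟩ | ⟨x, y, h2⟩
  · have : q.2.2 ≤ 0 := seg_bounds hx (by exact_mod_cast h2) (by exact_mod_cast h3)
    linarith
  · have : (1 : ℝ) ≤ q.2.2 := seg_bounds' hx (by exact_mod_cast h2) (by exact_mod_cast h3)
    linarith
  · have hx' := mem_vseg.1 (seg_of_eq h2 hx)
    have h4 : ((x, y) : ℤ × ℤ) ∈ cross E 0 := by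
      rw [mem_cross]
      exact h2 ▸ huv
    rw [hc] at h4
    rcases h4 with h4 | h4
    · left
      have e1 : x = 0 := congrArg Prod.fst h4
      have e2 : y = 0 := congrArg Prod.snd h4
      rw [hx'.1, hx'.2.1, e1, e2]
      simp
    · right
      have h4' : (x, y) = b := h4
      rw [hx'.1, hx'.2.1, ← h4']
      exact ⟨rfl, rfl⟩

theorem axis_mem (hc : s((0, 0, 0), (0, 0, 1)) ∈ E) (hE : ∀ u v, s(u, v) ∈ E → Adj u v)
    {w : ℝ} (h0 : 0 ≤ w) (h1 : w ≤ h + 1) : ((0, 0, w) : R3) ∈ body (stretch E 0 h) := by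
  rw [← body_stretch hE]
  have hpos : (0 : ℝ) < h + 1 := by positivity
  refine ⟨(0, 0, w / (h + 1)), ⟨_, _, hc, ?_⟩, ?_⟩
  · have := (mem_vseg (a := 0) (b := 0) (c := 0) (x := ((0, 0, w / (h + 1)) : R3))).2
      ⟨by simp, by simp, by simp only [Int.cast_zero]; positivity,
        by simp only [Int.cast_zero, zero_add]; rw [div_le_one hpos]; exact h1⟩
    simpa using this
  · rw [strH_apply]
    refine Prod.ext rfl (Prod.ext rfl ?_)
    simp only
    rw [psi_mid (by simp only [Int.cast_zero]; positivity)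
      (by simp only [Int.cast_zero, zero_add]; rw [div_le_one hpos]; exact h1)]
    simp only [Int.cast_zero]
    field_simp
    ring

theorem zS_body (hE : ∀ u v, s(u, v) ∈ E → Adj u v) (hh : 1 ≤ h) :
    (∀ P ∈ body (stretch E 0 h), ((P.1, P.2.1, zS h P.2.2) : R3) ∈ body E) ∧
    ∀ R ∈ body E, ∃ P ∈ body (stretch E 0 h), ((P.1, P.2.1, zS h P.2.2) : R3) = R := by
  have hm : StrictMono fun w => zS h (psi 0 h w) := (strictMono_zS hh).comp (strictMono_psi 0 h)
  have hs : Function.Surjective fun w => zS h (psi 0 h w) :=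
    (surjective_zS hh).comp (surjective_psi 0 h)
  have h1 : ∀ w : ℝ, w ≤ ((0 : ℤ) : ℝ) → zS h (psi 0 h w) = w := by
    intro w hw
    rw [psi_low hw, zS_low (by simpa using hw)]
  have h2 : ∀ w : ℝ, ((0 : ℤ) : ℝ) + 1 ≤ w → zS h (psi 0 h w) = w := by
    intro w hw
    rw [psi_high hw, zS_high hh (by
      simp only [Int.cast_zero, zero_add] at hw
      linarith)]
    ring
  rw [← body_stretch hE]
  constructor
  · rintro _ ⟨q, hq, rfl⟩
    obtain ⟨q', hq', e⟩ := layer_swap (k := 0) hE hm strictMono_id Function.surjective_id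
      (fun w hw => h1 w hw) (fun w hw => h2 w hw) hq
    rw [strH_apply]
    simp only [id] at e
    change ((q.1, q.2.1, zS h (psi 0 h q.2.2)) : R3) ∈ body E
    rw [← e]
    exact hq'
  · intro R hR
    obtain ⟨q, hq, e⟩ := layer_swap (k := 0) hE strictMono_id hm hs
      (fun w hw => (h1 w hw).symm) (fun w hw => (h2 w hw).symm) hR
    exact ⟨_, ⟨q, hq, rfl⟩, e⟩

/-! ### The decomposition in standard position -/

/-- The part of the side join near the piece, with the pattern `J` above it. -/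
def VV (K0 : ES) (h : ℕ) (z : ℤ) (J : Set R3) : Set R3 :=
  body (K0 \ {s((-1, 0, z), (-1, 0, z + 1))}) ∪
    segment ℝ (toR (-1, 0, z)) (toR (0, 0, z)) ∪
    segment ℝ (toR (-1, 0, z + 1)) (toR (0, 0, z + 1)) ∪
    {P | P.1 = 0 ∧ P.2.1 = 0 ∧ 1 ≤ P.2.2 ∧ P.2.2 ≤ h + 3 / 4 ∧ (P.2.2 ≤ z ∨ (z : ℝ) + 1 ≤ P.2.2) ∧
      P ∉ upl (0, 0) h '' Bx} ∪
    upl (0, 0) h '' J

theorem std_mem {u v : P3} : s(u, v) ∈ insK K0 h z (0, 0) E 0 ↔
    (s(u, v) ∈ stretch E 0 h ∧ s(u, v) ≠ s((0, 0, z), (0, 0, z + 1))) ∨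
    (s(u, v) ∈ K0 ∧ s(u, v) ≠ s((-1, 0, z), (-1, 0, z + 1))) ∨
    s(u, v) = s((-1, 0, z), (0, 0, z)) ∨ s(u, v) = s((-1, 0, z + 1), (0, 0, z + 1)) := by
  have h0 : shift (0, 0, 0) K0 = K0 := shift_zero K0
  unfold insK
  rw [Finset.mem_union, Finset.mem_union, Finset.mem_sdiff, Finset.mem_sdiff,
    Finset.mem_insert, Finset.mem_singleton, Finset.mem_singleton, Finset.mem_singleton, or_assoc,
    h0]
  simp only [zero_add, zero_sub, ne_eq]

theorem seg_left {u v : P3} {x : R3} (hx : x ∈ segment ℝ (toR u) (toR v)) {c : ℝ}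
    (hu : (u.1 : ℝ) ≤ c) (hv : (v.1 : ℝ) ≤ c) : x.1 ≤ c := by
  rw [segment_eq_image'] at hx
  obtain ⟨t, ⟨h0, h1⟩, rfl⟩ := hx
  change (u.1 : ℝ) + t * ((v.1 : ℝ) - u.1) ≤ c
  nlinarith

theorem leftOf_z (hK : LeftOf K0 h z) : 1 ≤ z ∧ z + 1 ≤ h :=
  ⟨(hK.lev _ (left_mem_verts hK.edge)).1, (hK.lev _ (right_mem_verts hK.edge)).2⟩

theorem body_K0 (hK : LeftOf K0 h z) {P : R3}
    (hP : P ∈ body (K0 \ {s((-1, 0, z), (-1, 0, z + 1))})) :
    P ∈ body K0 ∧ P.1 ≤ -1 ∧ 1 ≤ P.2.2 ∧ P.2.2 ≤ h := by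
  obtain ⟨u, v, huv, hx⟩ := hP
  rw [Finset.mem_sdiff] at huv
  have hu := left_mem_verts huv.1
  have hv := right_mem_verts huv.1
  refine ⟨⟨u, v, huv.1, hx⟩, seg_left hx ?_ ?_, seg_bounds' hx ?_ ?_, seg_bounds hx ?_ ?_⟩
  · exact_mod_cast hK.left u hu
  · exact_mod_cast hK.left v hv
  · exact_mod_cast (hK.lev u hu).1
  · exact_mod_cast (hK.lev v hv).1
  · exact_mod_cast (hK.lev u hu).2
  · exact_mod_cast (hK.lev v hv).2

theorem mem_hseg {P : R3} (hP : P ∈ segment ℝ (toR (-1, 0, z)) (toR (0, 0, z))) :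
    -1 ≤ P.1 ∧ P.1 ≤ 0 ∧ P.2.1 = 0 ∧ P.2.2 = z := by
  rw [segment_eq_image'] at hP
  obtain ⟨t, ⟨h0, h1⟩, rfl⟩ := hP
  refine ⟨?_, ?_, ?_, ?_⟩
  · change (-1 : ℝ) ≤ ((-1 : ℤ) : ℝ) + t * (((0 : ℤ) : ℝ) - ((-1 : ℤ) : ℝ))
    push_cast
    linarith
  · change ((-1 : ℤ) : ℝ) + t * (((0 : ℤ) : ℝ) - ((-1 : ℤ) : ℝ)) ≤ 0
    push_cast
    linarith
  · change ((0 : ℤ) : ℝ) + t * (((0 : ℤ) : ℝ) - ((0 : ℤ) : ℝ)) = 0
    simp
  · change (z : ℝ) + t * ((z : ℝ) - z) = z
    ring

theorem insr_std (hK : LeftOf K0 h z) (hE : ∀ u v, s(u, v) ∈ E → Adj u v) {b : ℤ × ℤ}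
    (hE' : ∀ u v, s(u, v) ∈ stretch E 0 h → Adj u v)
    (hc : cross E 0 = {(0, 0), b}) (hb : WLex (0, 0) b) {J : Set R3} :
    insr (body (insK K0 h z (0, 0) E 0)) (upl (0, 0) h) J =
      {P | P ∈ body (stretch E 0 h) ∧
        (P.2.2 < 1 ∨ (h : ℝ) + 3 / 4 < P.2.2 ∨ ¬ (P.1 = 0 ∧ P.2.1 = 0))} ∪ VV K0 h z J := by
  obtain ⟨z1, z2⟩ := leftOf_z hK
  have hz1 : (1 : ℝ) ≤ z := by exact_mod_cast z1
  have hz2 : (z : ℝ) + 1 ≤ h := by exact_mod_cast z2
  have hlow : ∀ P : R3, P.2.2 ≤ h → P ∉ upl (0, 0) h '' Bx := by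
    intro P hP hb
    have := (abs_le.1 (mem_upl_box.1 hb).2.2).1
    simp only [Int.cast_natCast] at this
    linarith
  ext P
  constructor
  · rintro (⟨⟨u, v, huv, hx⟩, hbx⟩ | hJ)
    · rcases std_mem.1 huv with ⟨h1, h2⟩ | ⟨h1, h2⟩ | h1 | h1
      · by_cases hcond : P.2.2 < 1 ∨ (h : ℝ) + 3 / 4 < P.2.2 ∨ ¬ (P.1 = 0 ∧ P.2.1 = 0)
        · exact Or.inl ⟨⟨u, v, h1, hx⟩, hcond⟩
        · rw [not_or, not_or, not_lt, not_lt, not_not] at hcond
          obtain ⟨c1, c2, c3, c4⟩ := hcond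
          have key : P.2.2 ≤ z ∨ (z : ℝ) + 1 ≤ P.2.2 := by
            by_contra hcon
            push Not at hcon
            rcases adj_cases z (hE' u v h1) with ⟨h3, h4⟩ | ⟨h3, h4⟩ | ⟨x, y, hxy⟩
            · have := seg_bounds hx (c := z) (by exact_mod_cast h3) (by exact_mod_cast h4)
              linarith
            · have := seg_bounds' hx (c := (z : ℝ) + 1) (by exact_mod_cast h3)
                (by exact_mod_cast h4)
              linarith
            · have h3 := mem_vseg.1 (seg_of_eq hxy hx)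
              rw [c3, c4] at h3
              have e1 : x = 0 := by exact_mod_cast h3.1.symm
              have e2 : y = 0 := by exact_mod_cast h3.2.1.symm
              rw [e1, e2] at hxy
              exact h2 hxy
          exact Or.inr (Or.inl (Or.inr ⟨c3, c4, c1, c2, key, hbx⟩))
      · right
        refine Or.inl (Or.inl (Or.inl (Or.inl ⟨u, v, ?_, hx⟩)))
        rw [Finset.mem_sdiff, Finset.mem_singleton]
        exact ⟨h1, h2⟩
      · exact Or.inr (Or.inl (Or.inl (Or.inl (Or.inr (seg_of_eq h1 hx)))))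
      · exact Or.inr (Or.inl (Or.inl (Or.inr (seg_of_eq h1 hx))))
    · exact Or.inr (Or.inr hJ)
  · rintro (⟨hP, hcond⟩ | ((((hV | hV) | hV) | hV) | hV))
    · left
      refine ⟨?_, fun hbx => ?_⟩
      · obtain ⟨u, v, huv, hx⟩ := hP
        refine ⟨u, v, std_mem.2 (Or.inl ⟨huv, fun he => ?_⟩), hx⟩
        have h3 := mem_vseg.1 (seg_of_eq he hx)
        obtain ⟨h4, h5, h6, h7⟩ := h3
        rcases hcond with h8 | h8 | h8
        · linarith
        · linarith
        · exact h8 ⟨by simpa using h4, by simpa using h5⟩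
      · rw [mem_upl_box] at hbx
        obtain ⟨h1, h2, h3⟩ := hbx
        rw [abs_le] at h1 h2 h3
        simp only [Int.cast_natCast, Int.cast_zero, sub_zero] at h1 h2 h3
        rcases column_mem hE hc hP (by linarith) (by linarith) with h4 | h4
        · rcases hcond with h8 | h8 | h8
          · linarith
          · linarith
          · exact h8 h4
        · rw [h4.1] at h1
          rw [h4.2] at h2
          have e1 : (-1 : ℝ) < b.1 ∧ (b.1 : ℝ) < 1 := ⟨by linarith, by linarith⟩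
          have e2 : (-1 : ℝ) < b.2 ∧ (b.2 : ℝ) < 1 := ⟨by linarith, by linarith⟩
          have e3 : -1 < b.1 ∧ b.1 < 1 := by exact_mod_cast e1
          have e4 : -1 < b.2 ∧ b.2 < 1 := by exact_mod_cast e2
          refine hb.2 (Prod.ext ?_ ?_)
          · simp only
            omega
          · simp only
            omega
    · left
      have h1 := body_K0 hK hV
      refine ⟨?_, hlow P h1.2.2.2⟩
      obtain ⟨u, v, huv, hx⟩ := hV
      rw [Finset.mem_sdiff, Finset.mem_singleton] at huv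
      exact ⟨u, v, std_mem.2 (Or.inr (Or.inl huv)), hx⟩
    · left
      refine ⟨⟨_, _, std_mem.2 (Or.inr (Or.inr (Or.inl rfl))), hV⟩, hlow P ?_⟩
      have := (mem_hseg hV).2.2.2
      linarith
    · left
      refine ⟨⟨_, _, std_mem.2 (Or.inr (Or.inr (Or.inr rfl))), hV⟩, hlow P ?_⟩
      have := (mem_hseg hV).2.2.2
      push_cast at this
      linarith
    · left
      obtain ⟨h1, h2, h3, h4, h5, h6⟩ := hV
      refine ⟨?_, h6⟩
      have hax : s((0, 0, 0), (0, 0, 1)) ∈ E := by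
        have : ((0, 0) : ℤ × ℤ) ∈ cross E 0 := by rw [hc]; exact Or.inl rfl
        rw [mem_cross] at this
        simpa using this
      have hP := axis_mem (h := h) hax hE (w := P.2.2) (by linarith) (by linarith)
      have eP : ((0, 0, P.2.2) : R3) = P := by
        refine Prod.ext h1.symm (Prod.ext h2.symm rfl)
      rw [eP] at hP
      obtain ⟨u, v, huv, hx⟩ := hP
      by_cases he : s(u, v) = s((0, 0, z), (0, 0, z + 1))
      · obtain ⟨-, -, h7, h8⟩ := mem_vseg.1 (seg_of_eq he hx)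
        rcases h5 with h5 | h5
        · refine ⟨_, _, std_mem.2 (Or.inr (Or.inr (Or.inl rfl))), ?_⟩
          have e : P = toR (0, 0, z) := by
            rw [← eP]
            have : P.2.2 = z := le_antisymm h5 h7
            rw [this]
            simp [toR]
          rw [e]
          exact right_mem_segment ℝ _ _
        · refine ⟨_, _, std_mem.2 (Or.inr (Or.inr (Or.inr rfl))), ?_⟩
          have e : P = toR (0, 0, z + 1) := by
            rw [← eP]
            have : P.2.2 = z + 1 := le_antisymm h8 h5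
            rw [this]
            simp [toR]
          rw [e]
          exact right_mem_segment ℝ _ _
      · exact ⟨u, v, std_mem.2 (Or.inl ⟨huv, he⟩), hx⟩
    · exact Or.inr hV

/-! ### The image -/

section

variable {ε : ℝ} {φ : R3 ≃ₜ R3}

theorem sq_fix (hφ : ∀ p : R3, φ p =
      (max p.1 0 + dS ε h p.2.2 * min p.1 0, cS ε h p.1 p.2.2 * p.2.1, zS h p.2.2))
    (hE : ∀ u v, s(u, v) ∈ E → Adj u v) {b : ℤ × ℤ} (hc : cross E 0 = {(0, 0), b})
    (hb : WLex (0, 0) b) {P : R3} (hP : P ∈ body (stretch E 0 h)) :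
    φ P = (P.1, P.2.1, zS h P.2.2) := by
  rw [hφ]
  have key : (bS h P.2.2 = 0) ∨ 0 ≤ P.1 := by
    rcases le_or_gt P.2.2 0 with h1 | h1
    · exact Or.inl (bS_out (Or.inl h1))
    · rcases le_or_gt ((h : ℝ) + 1) P.2.2 with h2 | h2
      · exact Or.inl (bS_out (Or.inr h2))
      · right
        rcases column_mem hE hc hP h1 h2 with h3 | h3
        · rw [h3.1]
        · rw [h3.1]
          exact_mod_cast hb.1
  rcases key with h1 | h1
  · have e1 : dS ε h P.2.2 = 1 := by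
      unfold dS
      rw [h1]
      ring
    have e2 : cS ε h P.1 P.2.2 = 1 := by
      unfold cS
      rw [h1]
      ring
    rw [e1, e2, one_mul, one_mul, max_add_min, add_zero]
  · have e2 : cS ε h P.1 P.2.2 = 1 := by
      unfold cS
      rw [cl_low (by linarith)]
      ring
    rw [e2, one_mul, max_eq_left h1, min_eq_right h1, mul_zero, add_zero]

theorem sq_U (hh : 1 ≤ h) (hφ : ∀ p : R3, φ p =
      (max p.1 0 + dS ε h p.2.2 * min p.1 0, cS ε h p.1 p.2.2 * p.2.1, zS h p.2.2))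
    (hE : ∀ u v, s(u, v) ∈ E → Adj u v) {b : ℤ × ℤ} (hc : cross E 0 = {(0, 0), b})
    (hb : WLex (0, 0) b) :
    φ '' {P | P ∈ body (stretch E 0 h) ∧
        (P.2.2 < 1 ∨ (h : ℝ) + 3 / 4 < P.2.2 ∨ ¬ (P.1 = 0 ∧ P.2.1 = 0))} =
      body E \ upl (0, 0) 0 '' Bx := by
  have h1R : (1 : ℝ) ≤ h := by exact_mod_cast hh
  have hmono := strictMono_zS hh
  have e15 := zS_one hh
  have e17 := zS_top hh
  obtain ⟨hz1, hz2⟩ := zS_body hE hh
  ext R
  constructor
  · rintro ⟨P, ⟨hP, hcond⟩, rfl⟩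
    rw [sq_fix hφ hE hc hb hP]
    refine ⟨hz1 P hP, fun hbx => ?_⟩
    rw [mem_upl_box] at hbx
    obtain ⟨h1, h2, h3⟩ := hbx
    rw [abs_le] at h1 h2 h3
    simp only [Int.cast_zero, sub_zero, zero_add] at h1 h2 h3
    by_cases h4 : P.2.2 < 1
    · have := hmono h4
      linarith
    by_cases h5 : (h : ℝ) + 3 / 4 < P.2.2
    · have := hmono h5
      linarith
    push Not at h4 h5
    have h6 : ¬ (P.1 = 0 ∧ P.2.1 = 0) := by
      rcases hcond with h7 | h7 | h7
      · linarith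
      · linarith
      · exact h7
    rcases column_mem hE hc hP (by linarith) (by linarith) with h7 | h7
    · exact h6 h7
    · rw [h7.1] at h1
      rw [h7.2] at h2
      have k1 : (-1 : ℝ) < b.1 ∧ (b.1 : ℝ) < 1 := ⟨by linarith, by linarith⟩
      have k2 : (-1 : ℝ) < b.2 ∧ (b.2 : ℝ) < 1 := ⟨by linarith, by linarith⟩
      have k3 : -1 < b.1 ∧ b.1 < 1 := by exact_mod_cast k1
      have k4 : -1 < b.2 ∧ b.2 < 1 := by exact_mod_cast k2
      refine hb.2 (Prod.ext ?_ ?_)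
      · simp only
        omega
      · simp only
        omega
  · rintro ⟨hR, hbx⟩
    obtain ⟨P, hP, rfl⟩ := hz2 R hR
    refine ⟨P, ⟨hP, ?_⟩, sq_fix hφ hE hc hb hP⟩
    by_contra hcon
    rw [not_or, not_or, not_lt, not_lt, not_not] at hcon
    obtain ⟨c1, c2, c3, c4⟩ := hcon
    refine hbx (mem_upl_box.2 ?_)
    have k1 := hmono.monotone c1
    have k2 := hmono.monotone c2
    simp only [c3, c4, Int.cast_zero, sub_zero, abs_zero, zero_add]
    refine ⟨by norm_num, by norm_num, ?_⟩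
    rw [abs_le]
    constructor <;> linarith

theorem sq_V (hK : LeftOf K0 h z) {N : ℝ} (hN : 1 ≤ N) (hNK : ∀ p ∈ body K0, ‖p‖ ≤ N)
    (hφ : ∀ p : R3, φ p = (max p.1 0 + dS (1 / (32 * N)) h p.2.2 * min p.1 0,
      cS (1 / (32 * N)) h p.1 p.2.2 * p.2.1, zS h p.2.2)) {J : Set R3} (hJ : J ⊆ Bx) :
    φ '' VV K0 h z J ⊆ upl (0, 0) 0 '' Bx := by
  obtain ⟨z1, z2⟩ := leftOf_z hK
  have hz1 : (1 : ℝ) ≤ z := by exact_mod_cast z1
  have hz2 : (z : ℝ) + 1 ≤ h := by exact_mod_cast z2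
  have hh : 1 ≤ h := by omega
  have hmono := strictMono_zS hh
  have e15 := zS_one hh
  have e17 := zS_top hh
  set ε : ℝ := 1 / (32 * N) with hε
  have hNpos : 0 < N := by linarith
  have h0 : 0 < ε := by positivity
  have hεN : ε * N = 1 / 32 := by
    rw [hε]
    field_simp
  have hε32 : ε ≤ 1 / 32 := by nlinarith
  have h1 : ε ≤ 1 := by linarith
  have hlev : ∀ w : ℝ, 1 ≤ w → w ≤ h + 3 / 4 → |zS h w - 1 / 2| ≤ 1 / 32 := by
    intro w hw1 hw2
    have k1 := hmono.monotone hw1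
    have k2 := hmono.monotone hw2
    rw [abs_le]
    constructor <;> linarith
  rintro _ ⟨P, hP, rfl⟩
  rw [mem_upl_box, hφ]
  simp only [Int.cast_zero, sub_zero, zero_add]
  rcases hP with (((hV | hV) | hV) | hV) | hV
  · obtain ⟨k1, k2, k3, k4⟩ := body_K0 hK hV
    have k5 := hNK P k1
    have k6 : |P.1| ≤ N := by
      have := (norm_fst_le P).trans k5
      rwa [Real.norm_eq_abs] at this
    have k7 : |P.2.1| ≤ N := by
      have := ((norm_fst_le P.2).trans (norm_snd_le P)).trans k5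
      rwa [Real.norm_eq_abs] at this
    have d1 : dS ε h P.2.2 = ε := by
      unfold dS
      rw [bS_in k3 k4]
      ring
    have c1 : cS ε h P.1 P.2.2 = ε := by
      unfold cS
      rw [bS_in k3 k4, cl_high zero_le_one (by linarith)]
      ring
    rw [d1, c1, max_eq_right (by linarith), min_eq_left (by linarith), zero_add]
    refine ⟨?_, ?_, hlev _ k3 (by linarith)⟩
    · rw [abs_mul, abs_of_pos h0, ← hεN]
      exact mul_le_mul_of_nonneg_left k6 h0.le
    · rw [abs_mul, abs_of_pos h0, ← hεN]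
      exact mul_le_mul_of_nonneg_left k7 h0.le
  · obtain ⟨k1, k2, k3, k4⟩ := mem_hseg hV
    have d1 : dS ε h P.2.2 = ε := by
      unfold dS
      rw [bS_in (by linarith) (by linarith)]
      ring
    rw [d1, max_eq_right k2, min_eq_left k2, zero_add, k3, mul_zero, abs_zero]
    refine ⟨?_, by norm_num, hlev _ (by linarith) (by linarith)⟩
    rw [abs_mul, abs_of_pos h0]
    have k5 : |P.1| ≤ 1 := abs_le.2 ⟨k1, by linarith⟩
    nlinarith [abs_nonneg P.1]
  · obtain ⟨k1, k2, k3, k4⟩ := mem_hseg hV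
    push_cast at k4
    have d1 : dS ε h P.2.2 = ε := by
      unfold dS
      rw [bS_in (by linarith) (by linarith)]
      ring
    rw [d1, max_eq_right k2, min_eq_left k2, zero_add, k3, mul_zero, abs_zero]
    refine ⟨?_, by norm_num, hlev _ (by linarith) (by linarith)⟩
    rw [abs_mul, abs_of_pos h0]
    have k5 : |P.1| ≤ 1 := abs_le.2 ⟨k1, by linarith⟩
    nlinarith [abs_nonneg P.1]
  · obtain ⟨k1, k2, k3, k4, k5, k6⟩ := hV
    rw [k1, k2]
    simp only [max_self, min_self, mul_zero, add_zero, abs_zero]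
    exact ⟨by norm_num, by norm_num, hlev _ k3 k4⟩
  · have k0 := mem_upl_box.1 (image_mono hJ hV)
    obtain ⟨k1, k2, k3⟩ := k0
    simp only [Int.cast_zero, sub_zero, Int.cast_natCast] at k1 k2 k3
    have d1 := dS_pos h0 h1 h P.2.2
    have d2 := dS_le h1 h P.2.2
    have c1 := cS_pos h0 h1 h P.1 P.2.2
    have c2 := cS_le h1 h P.1 P.2.2
    refine ⟨?_, ?_, ?_⟩
    · rcases le_total P.1 0 with hx | hx
      · rw [max_eq_right hx, min_eq_left hx, zero_add, abs_mul, abs_of_pos d1]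
        exact (mul_le_of_le_one_left (abs_nonneg _) d2).trans k1
      · rw [max_eq_left hx, min_eq_right hx, mul_zero, add_zero]
        exact k1
    · rw [abs_mul, abs_of_pos c1]
      exact (mul_le_of_le_one_left (abs_nonneg _) c2).trans k2
    · rw [abs_le] at k3
      exact hlev _ (by linarith) (by linarith)

end

/-- The pattern in standard position. -/
theorem pat_std (hK : LeftOf K0 h z) : ∃ JJ : Set R3 → Set R3, (∀ J ⊆ Bx, JJ J ⊆ Bx) ∧
    ∀ (E : ES) (b : ℤ × ℤ), IsPolygon E → cross E 0 = {(0, 0), b} → WLex (0, 0) b →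
      ∀ J ⊆ Bx, EqvS (insr (body (insK K0 h z (0, 0) E 0)) (upl (0, 0) h) J)
        (insr (body E) (upl (0, 0) 0) (JJ J)) := by
  obtain ⟨z1, z2⟩ := leftOf_z hK
  have hh : 1 ≤ h := by omega
  obtain ⟨N₀, hN₀⟩ := (isCompact_body K0).isBounded.exists_norm_le
  set N : ℝ := max N₀ 1 with hNdef
  have hN : 1 ≤ N := le_max_right _ _
  have hNK : ∀ p ∈ body K0, ‖p‖ ≤ N := fun p hp => (hN₀ p hp).trans (le_max_left _ _)
  have hNpos : 0 < N := by linarith
  have h0 : 0 < 1 / (32 * N) := by positivity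
  have h1 : 1 / (32 * N) ≤ 1 := by
    rw [div_le_one (by positivity)]
    linarith
  obtain ⟨φ, hφ⟩ := exists_sq h0 h1 hh
  refine ⟨fun J => {p | p ∈ Bx ∧ upl (0, 0) 0 p ∈ φ '' VV K0 h z J}, fun J _ p hp => hp.1, ?_⟩
  intro E b hE hc hb J hJ
  refine Eqv.toS ⟨φ, ?_⟩
  rw [insr_std hK hE.adj (isPolygon_stretch hE).adj hc hb, image_union,
    sq_U hh hφ hE.adj hc hb]
  unfold insr
  congr 1
  ext R
  constructor
  · intro hR
    obtain ⟨p, hp, rfl⟩ := sq_V hK hN hNK hφ hJ hR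
    exact ⟨p, ⟨hp, hR⟩, rfl⟩
  · rintro ⟨p, ⟨-, hp⟩, rfl⟩
    exact hp

/-! ### General position -/

private theorem stretch_shift (r : P3) (E : ES) (k : ℤ) (h : ℕ) :
    stretch (shift r E) (k + r.2.2) h = shift r (stretch E k h) := by
  apply edge_ext
  intro u v
  rw [mem_shift, mem_stretch, mem_stretch, mem_shift, mem_shift]
  refine or_congr ?_ (or_congr ?_ ?_)
  · refine and_congr Iff.rfl (and_congr ?_ ?_) <;> simp only [Prod.snd_sub] <;> constructor <;>
      intro <;> linarith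
  · have e1 : u - (0, 0, (h : ℤ)) - r = u - r - (0, 0, (h : ℤ)) := by abel
    have e2 : v - (0, 0, (h : ℤ)) - r = v - r - (0, 0, (h : ℤ)) := by abel
    rw [e1, e2]
    refine and_congr Iff.rfl (and_congr ?_ ?_) <;> simp only [Prod.snd_sub] <;> constructor <;>
      intro <;> linarith
  · constructor
    · rintro ⟨a, b, i, hi, h1, h2⟩
      refine ⟨a - r.1, b - r.2.1, i, hi, ?_, ?_⟩
      · rw [mem_shift] at h1
        have e1 : ((a, b, k + r.2.2) : P3) - r = (a - r.1, b - r.2.1, k) := by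
          ext <;> simp
        have e2 : ((a, b, k + r.2.2 + 1) : P3) - r = (a - r.1, b - r.2.1, k + 1) := by
          ext <;> simp
          ring
        rwa [e1, e2] at h1
      · have h3 := congrArg (Sym2.map (fun w : P3 => w - r)) h2
        rw [Sym2.map_mk, Sym2.map_mk] at h3
        rw [h3]
        congr 1 <;> (ext <;> simp <;> ring)
    · rintro ⟨a, b, i, hi, h1, h2⟩
      refine ⟨a + r.1, b + r.2.1, i, hi, ?_, ?_⟩
      · rw [mem_shift]
        have e1 : ((a + r.1, b + r.2.1, k + r.2.2) : P3) - r = (a, b, k) := by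
          ext <;> simp
        have e2 : ((a + r.1, b + r.2.1, k + r.2.2 + 1) : P3) - r = (a, b, k + 1) := by
          ext <;> simp
          ring
        rwa [e1, e2]
      · have h3 := congrArg (Sym2.map (fun w : P3 => w + r)) h2
        rw [Sym2.map_mk, Sym2.map_mk, sub_add_cancel, sub_add_cancel] at h3
        rw [h3]
        congr 1 <;> (ext <;> simp <;> ring)

private theorem insK_shift (r : P3) (K0 : ES) (h : ℕ) (z : ℤ) (a : ℤ × ℤ) (E : ES) (k : ℤ) :
    shift r (insK K0 h z a E k) =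
      insK K0 h z (a.1 + r.1, a.2 + r.2.1) (shift r E) (k + r.2.2) := by
  have hinj : Function.Injective (Sym2.map fun u : P3 => u + r) :=
    Sym2.map.injective (add_left_injective r)
  have e0 : ∀ A B : ES, shift r (A ∪ B) = shift r A ∪ shift r B := fun A B => by
    unfold shift mapE
    exact Finset.image_union _ _
  have e1 : ∀ A B : ES, shift r (A \ B) = shift r A \ shift r B := fun A B => by
    unfold shift mapE
    exact Finset.image_sdiff _ _ hinj
  have e2 : ∀ u v : P3, shift r {s(u, v)} = {s(u + r, v + r)} := fun u v => by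
    unfold shift mapE
    rw [Finset.image_singleton, Sym2.map_mk]
  have e3 : ∀ (e : Sym2 P3) (A : ES), shift r (insert e A) = insert (Sym2.map (fun u => u + r) e)
      (shift r A) := fun e A => by
    unfold shift mapE
    exact Finset.image_insert _ _ _
  unfold insK
  rw [e0, e0, e1, e1, e2, e2, e3, e2, Sym2.map_mk, stretch_shift, shift_shift]
  have f : ∀ p q w : ℤ, ((p, q, w) : P3) + r = (p + r.1, q + r.2.1, w + r.2.2) := fun p q w => by
    ext <;> simp
  have g : r + ((a.1, a.2, k) : P3) = (a.1 + r.1, a.2 + r.2.1, k + r.2.2) := by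
    ext <;> simp <;> ring
  have g1 : k + z + r.2.2 = k + r.2.2 + z := by ring
  have g2 : k + z + 1 + r.2.2 = k + r.2.2 + z + 1 := by ring
  have g3 : a.1 - 1 + r.1 = a.1 + r.1 - 1 := by ring
  simp only [f, g, g1, g2, g3]

/-- The piece with the place above it is a pattern. -/
theorem pat_above (hK : LeftOf K0 h z) : ∃ JJ : Set R3 → Set R3, (∀ J ⊆ Bx, JJ J ⊆ Bx) ∧
    ∀ (E : ES) (k : ℤ) (a b : ℤ × ℤ), IsPolygon E → cross E k = {a, b} → WLex a b → ∀ J ⊆ Bx,
      EqvS (insr (body (insK K0 h z a E k)) (upl a (k + h)) J)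
        (insr (body E) (upl a k) (JJ J)) := by
  obtain ⟨JJ, hJJ, hstd⟩ := pat_std hK
  refine ⟨JJ, hJJ, fun E k a b hE hc hab J hJ => ?_⟩
  set r : P3 := (-a.1, -a.2, -k) with hr
  have e0 : ((a.1 + r.1, a.2 + r.2.1) : ℤ × ℤ) = (0, 0) := by
    simp [hr]
  have e1 : k + r.2.2 = 0 := by simp [hr]
  have h1 := insK_shift r K0 h z a E k
  rw [e0, e1] at h1
  have hc' : cross (shift r E) 0 = {(0, 0), (b.1 - a.1, b.2 - a.2)} := by
    have key : ∀ c : ℤ × ℤ, c ∈ cross (shift r E) 0 ↔ (c.1 + a.1, c.2 + a.2) ∈ cross E k := by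
      intro c
      rw [mem_cross, mem_cross, mem_shift]
      have e2 : ((c.1, c.2, 0) : P3) - r = (c.1 + a.1, c.2 + a.2, k) := by
        simp [hr]
      have e3 : ((c.1, c.2, 0 + 1) : P3) - r = (c.1 + a.1, c.2 + a.2, k + 1) := by
        simp only [hr, Prod.mk_sub_mk, sub_neg_eq_add, zero_add, Prod.mk.injEq, true_and]
        ring
      rw [e2, e3]
    ext c
    rw [key, hc]
    obtain ⟨c1, c2⟩ := c
    obtain ⟨a1, a2⟩ := a
    obtain ⟨b1, b2⟩ := b
    simp only [mem_insert_iff, mem_singleton_iff, Prod.mk.injEq]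
    constructor
    · rintro (h | h)
      · left; omega
      · right; omega
    · rintro (h | h)
      · left; omega
      · right; omega
  have hab' : WLex (0, 0) (b.1 - a.1, b.2 - a.2) := by
    refine ⟨by simpa using hab.1, fun h => hab.2 ?_⟩
    simp only [Prod.mk.injEq] at h
    exact Prod.ext (by omega) (by omega)
  have h2 := hstd (shift r E) _ (isPolygon_shift hE r) hc' hab' J hJ
  have h3 := eqP_shift (insK K0 h z a E k) r (a.1, a.2, k + h) (0, 0, 1) (1, 0, 0) J hJ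
  have h4 := eqP_shift E r (a.1, a.2, k) (0, 0, 1) (1, 0, 0) (JJ J) (hJJ J hJ)
  have e2 : ((a.1, a.2, k + h) : P3) + r = (0, 0, (h : ℤ)) := by
    simp [hr]
  have e3 : ((a.1, a.2, k) : P3) + r = (0, 0, 0) := by
    simp [hr]
  rw [h1, e2] at h3
  rw [e3] at h4
  exact (h3.trans h2).trans h4.symm

end Pool.Agent.KTen
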