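import Pool.Agent.KTen.SideJoin
import Pool.Agent.KTen.Collapse

/-! Numbers of edges and sections of the side join. -/

set_option autoImplicit false

open Set

namespace Pool.Agent.KTen

open Pool.Agent.LK Pool.Agent.KTube

variable {K0 E F : ES} {h : ℕ} {z k : ℤ} {a b : ℤ × ℤ}

private theorem sj_mem {u v : P3} : s(u, v) ∈ insK K0 h z a E k ↔
    (s(u, v) ∈ stretch E k h ∧ s(u, v) ≠ s((a.1, a.2, k + z), (a.1, a.2, k + z + 1))) ∨
    (s(u, v) ∈ shift (a.1, a.2, k) K0 ∧
      s(u, v) ≠ s((a.1 - 1, a.2, k + z), (a.1 - 1, a.2, k + z + 1))) ∨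
    s(u, v) = s((a.1 - 1, a.2, k + z), (a.1, a.2, k + z)) ∨
      s(u, v) = s((a.1 - 1, a.2, k + z + 1), (a.1, a.2, k + z + 1)) := by
  unfold insK
  rw [Finset.mem_union, Finset.mem_union, Finset.mem_sdiff, Finset.mem_sdiff,
    Finset.mem_insert, Finset.mem_singleton, Finset.mem_singleton, Finset.mem_singleton, or_assoc]

/-- the levels of the special edge -/
private theorem sj_z (hK : LeftOf K0 h z) : 1 ≤ z ∧ z + 1 ≤ h := by
  have h1 := hK.lev _ (left_mem_verts hK.edge)
  have h2 := hK.lev _ (right_mem_verts hK.edge)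
  exact ⟨h1.1, h2.2⟩

/-- the vertices of the small polygon -/
private theorem sj_small (hK : LeftOf K0 h z) {u : P3} (hu : u ∈ verts (shift (a.1, a.2, k) K0)) :
    u.1 ≤ a.1 - 1 ∧ k + 1 ≤ u.2.2 ∧ u.2.2 ≤ k + h := by
  have h1 := mem_verts_shift.1 hu
  have h2 := hK.left _ h1
  have h3 := hK.lev _ h1
  simp only [Prod.fst_sub, Prod.snd_sub] at h2 h3
  omega

/-- the vertices of the stretched polygon -/
private theorem sj_big (hc : cross E k = {a, b}) (hab : Lex a b) {u : P3}
    (hu : u ∈ verts (stretch E k h)) (h1 : k + 1 ≤ u.2.2) (h2 : u.2.2 ≤ k + h) : a.1 ≤ u.1 := by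
  rcases verts_stretch hu with ⟨-, h3⟩ | ⟨-, h3⟩ | ⟨h3, -, -⟩
  · omega
  · omega
  · rw [hc] at h3
    rcases h3 with h3 | h3
    · have := congrArg Prod.fst h3
      simp only at this
      omega
    · have := congrArg Prod.fst h3
      simp only at this
      rcases hab with h4 | ⟨h4, -⟩ <;> omega

private theorem sj_ne (hab : Lex a b) : ¬ (b.1 = a.1 ∧ b.2 = a.2) := by
  rintro ⟨h1, h2⟩
  rcases hab with h4 | ⟨-, h4⟩ <;> omega

private theorem sj_e1 (hK : LeftOf K0 h z) (hc : cross E k = {a, b}) :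
    s((a.1, a.2, k + z), (a.1, a.2, k + z + 1)) ∈ stretch E k h := by
  obtain ⟨h1, h2⟩ := sj_z hK
  have h3 : a ∈ cross E k := by rw [hc]; exact Or.inl rfl
  rw [mem_stretch]
  refine Or.inr (Or.inr ⟨a.1, a.2, z.toNat, by omega, h3, ?_⟩)
  rw [Int.toNat_of_nonneg (by omega)]

private theorem sj_e2 (hK : LeftOf K0 h z) :
    s((a.1 - 1, a.2, k + z), (a.1 - 1, a.2, k + z + 1)) ∈ shift (a.1, a.2, k) K0 := by
  rw [mem_shift]
  have e1 : (((a.1 - 1, a.2, k + z) : P3) - (a.1, a.2, k)) = (-1, 0, z) := by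
    ext <;> simp
  have e2 : (((a.1 - 1, a.2, k + z + 1) : P3) - (a.1, a.2, k)) = (-1, 0, z + 1) := by
    ext
    · simp
    · simp
    · simp only [Prod.snd_sub]
      ring
  rw [e1, e2]
  exact hK.edge

/-- the two horizontal edges are new -/
private theorem sj_hor (hK : LeftOf K0 h z) (hc : cross E k = {a, b}) (hab : Lex a b) {w : ℤ}
    (hw : w = k + z ∨ w = k + z + 1) :
    s((a.1 - 1, a.2, w), (a.1, a.2, w)) ∉ stretch E k h ∧
      s((a.1 - 1, a.2, w), (a.1, a.2, w)) ∉ shift (a.1, a.2, k) K0 := by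
  obtain ⟨h1, h2⟩ := sj_z hK
  constructor
  · intro h3
    have h4 := sj_big hc hab (left_mem_verts h3) (by simp only; omega) (by simp only; omega)
    simp only at h4
    omega
  · intro h3
    have h4 := (sj_small hK (right_mem_verts h3)).1
    simp only at h4
    omega

private theorem sj_disj (hK : LeftOf K0 h z) (hc : cross E k = {a, b}) (hab : Lex a b)
    {u v : P3} (h1 : s(u, v) ∈ stretch E k h) (h2 : s(u, v) ∈ shift (a.1, a.2, k) K0) : False := by
  obtain ⟨h3, h4, h5⟩ := sj_small hK (left_mem_verts h2)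
  have h6 := sj_big hc hab (left_mem_verts h1) h4 h5
  omega

theorem insK_card (hK : LeftOf K0 h z) (hE : IsPolygon E) (hc : cross E k = {a, b})
    (hab : Lex a b) : (insK K0 h z a E k).card = E.card + 2 * h + K0.card := by
  have hne : a ≠ b := fun h => sj_ne hab ⟨by rw [h], by rw [h]⟩
  have h2 : IsTwo E k := by
    change (cross E k).ncard = 2
    rw [hc, Set.ncard_pair hne]
  have c1 := card_stretch hE h2 h
  have c2 := card_shift (a.1, a.2, k) K0
  have m1 := sj_e1 hK hc
  have m2 := sj_e2 (a := a) (k := k) hK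
  have p2 : 0 < (shift (a.1, a.2, k) K0).card := Finset.card_pos.2 ⟨_, m2⟩
  have p1 : 0 < (stretch E k h).card := Finset.card_pos.2 ⟨_, m1⟩
  have n3 := sj_hor hK hc hab (w := k + z) (Or.inl rfl)
  have n4 := sj_hor hK hc hab (w := k + z + 1) (Or.inr rfl)
  have n34 : s(((a.1 - 1, a.2, k + z) : P3), (a.1, a.2, k + z)) ≠
      s((a.1 - 1, a.2, k + z + 1), (a.1, a.2, k + z + 1)) := by
    intro h
    rw [Sym2.eq_iff] at h
    simp only [Prod.mk.injEq] at h
    omega
  unfold insK
  rw [Finset.card_union_of_disjoint, Finset.card_union_of_disjoint,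
    Finset.card_sdiff_of_subset (Finset.singleton_subset_iff.2 m1),
    Finset.card_sdiff_of_subset (Finset.singleton_subset_iff.2 m2), Finset.card_pair n34,
    Finset.card_singleton, Finset.card_singleton]
  · omega
  · rw [Finset.disjoint_left]
    intro e he he'
    rw [Finset.mem_sdiff] at he he'
    induction e using Sym2.ind with
    | _ u v => exact sj_disj hK hc hab he.1 he'.1
  · rw [Finset.disjoint_left]
    intro e he he'
    rw [Finset.mem_insert, Finset.mem_singleton] at he'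
    rw [Finset.mem_union, Finset.mem_sdiff, Finset.mem_sdiff] at he
    rcases he' with rfl | rfl
    · rcases he with he | he
      · exact n3.1 he.1
      · exact n3.2 he.1
    · rcases he with he | he
      · exact n4.1 he.1
      · exact n4.2 he.1

/-- a vertical edge is not horizontal -/
private theorem sj_vert {c : ℤ × ℤ} {j w : ℤ} (h : s(((c.1, c.2, j) : P3), (c.1, c.2, j + 1)) =
    s((a.1 - 1, a.2, w), (a.1, a.2, w))) : False := by
  rw [Sym2.eq_iff] at h
  simp only [Prod.mk.injEq] at h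
  omega

theorem insK_span (hK : LeftOf K0 h z) (hE : IsPolygon E) (hc : cross E k = {a, b})
    (hab : Lex a b) : span (insK K0 h z a E k) = span E + h := by
  have hne : a ≠ b := fun h => sj_ne hab ⟨by rw [h], by rw [h]⟩
  have h2 : IsTwo E k := by
    change (cross E k).ncard = 2
    rw [hc, Set.ncard_pair hne]
  obtain ⟨z1, z2⟩ := sj_z hK
  rw [← span_stretch hE h2 h]
  unfold span
  congr 1
  ext j
  simp only [mem_ofPred_eq]
  constructor
  · rintro ⟨c, hcj⟩
    rw [mem_cross, sj_mem] at hcj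
    rcases hcj with ⟨h3, -⟩ | ⟨h3, -⟩ | h3 | h3
    · exact ⟨c, h3⟩
    · have h4 := sj_small hK (left_mem_verts h3)
      have h5 := sj_small hK (right_mem_verts h3)
      simp only at h4 h5
      rw [cross_stretch_mid (by omega) (by omega), hc]
      exact ⟨a, Or.inl rfl⟩
    · exact (sj_vert h3).elim
    · exact (sj_vert h3).elim
  · rintro ⟨c, hcj⟩
    by_cases h3 : s(((c.1, c.2, j) : P3), (c.1, c.2, j + 1)) =
        s((a.1, a.2, k + z), (a.1, a.2, k + z + 1))
    · have hj : j = k + z := by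
        rw [Sym2.eq_iff] at h3
        simp only [Prod.mk.injEq] at h3
        omega
      refine ⟨b, ?_⟩
      rw [mem_cross, sj_mem]
      refine Or.inl ⟨?_, ?_⟩
      · have h4 : b ∈ cross (stretch E k h) j := by
          rw [cross_stretch_mid (by omega) (by omega), hc]
          exact Or.inr rfl
        exact h4
      · intro h4
        rw [Sym2.eq_iff] at h4
        simp only [Prod.mk.injEq] at h4
        have := sj_ne hab
        omega
    · exact ⟨c, sj_mem.2 (Or.inl ⟨hcj, h3⟩)⟩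

theorem insK_parts (hK : LeftOf K0 h z) (hE : IsPolygon E) (hc : cross E k = {a, b})
    (hab : Lex a b) : botE (insK K0 h z a E k) k = botE E k ∧
      midE (insK K0 h z a E k) k (k + h) = patK K0 h z a b k ∧
      topE (insK K0 h z a E k) (k + h) = shift (0, 0, (h : ℤ)) (topE E k) := by
  obtain ⟨z1, z2⟩ := sj_z hK
  have hac : a ∈ cross E k := by rw [hc]; exact Or.inl rfl
  have hbc : b ∈ cross E k := by rw [hc]; exact Or.inr rfl
  refine ⟨?_, ?_, ?_⟩
  · apply edge_ext
    intro u v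
    rw [mem_botE, mem_botE, sj_mem]
    constructor
    · rintro ⟨h1, h2, h3⟩
      refine ⟨?_, h2, h3⟩
      rcases h1 with ⟨h1, -⟩ | ⟨h1, -⟩ | h1 | h1
      · rcases mem_stretch.1 h1 with ⟨h4, -⟩ | ⟨-, h4, -⟩ | ⟨a', b', i, hi, -, h4⟩
        · exact h4
        · omega
        · rw [Sym2.eq_iff] at h4
          rcases h4 with ⟨rfl, rfl⟩ | ⟨rfl, rfl⟩ <;> simp only at h2 h3 <;> omega
      · have := sj_small hK (left_mem_verts h1)
        omega
      · rw [Sym2.eq_iff] at h1
        rcases h1 with ⟨rfl, rfl⟩ | ⟨rfl, rfl⟩ <;> simp only at h2 h3 <;> omega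
      · rw [Sym2.eq_iff] at h1
        rcases h1 with ⟨rfl, rfl⟩ | ⟨rfl, rfl⟩ <;> simp only at h2 h3 <;> omega
    · rintro ⟨h1, h2, h3⟩
      refine ⟨Or.inl ⟨mem_stretch.2 (Or.inl ⟨h1, h2, h3⟩), ?_⟩, h2, h3⟩
      intro h4
      rw [Sym2.eq_iff] at h4
      rcases h4 with ⟨rfl, rfl⟩ | ⟨rfl, rfl⟩ <;> simp only at h2 h3 <;> omega
  · apply edge_ext
    intro u v
    rw [mem_midE, sj_mem]
    unfold patK
    rw [Finset.mem_union, Finset.mem_union, Finset.mem_union, Finset.mem_sdiff, Finset.mem_sdiff,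
      Finset.mem_insert, Finset.mem_singleton, Finset.mem_singleton, Finset.mem_singleton,
      Finset.mem_image, Finset.mem_image]
    constructor
    · rintro ⟨h1, h2⟩
      rcases h1 with ⟨h1, h3⟩ | ⟨h1, h3⟩ | h1 | h1
      · rcases mem_stretch.1 h1 with ⟨-, h4, h5⟩ | ⟨-, h4, h5⟩ | ⟨a', b', i, hi, h4, h5⟩
        · omega
        · omega
        · have h6 : (a', b') ∈ cross E k := h4
          rw [hc] at h6
          rcases h6 with h6 | h6
          · have e1 : a' = a.1 := congrArg Prod.fst h6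
            have e2 : b' = a.2 := congrArg Prod.snd h6
            subst e1
            subst e2
            exact Or.inl (Or.inl (Or.inl ⟨⟨i, Finset.mem_range.2 (by omega), h5.symm⟩, h3⟩))
          · have h6' : (a', b') = b := h6
            have e1 : a' = b.1 := congrArg Prod.fst h6'
            have e2 : b' = b.2 := congrArg Prod.snd h6'
            subst e1
            subst e2
            exact Or.inl (Or.inl (Or.inr ⟨i, Finset.mem_range.2 (by omega), h5.symm⟩))
      · exact Or.inl (Or.inr ⟨h1, h3⟩)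
      · exact Or.inr (Or.inl h1)
      · exact Or.inr (Or.inr h1)
    · have hlev : ∀ (c : ℤ × ℤ) (i : ℕ), i < h + 1 →
          s(((c.1, c.2, k + i) : P3), (c.1, c.2, k + i + 1)) = s(u, v) →
          (k + 1 ≤ u.2.2 ∧ u.2.2 ≤ k + h) ∨ (k + 1 ≤ v.2.2 ∧ v.2.2 ≤ k + h) := by
        intro c i hi h1
        rw [Sym2.eq_iff] at h1
        rcases h1 with ⟨rfl, rfl⟩ | ⟨rfl, rfl⟩ <;> simp only <;> omega
      rintro (((⟨⟨i, hi, h1⟩, h2⟩ | ⟨i, hi, h1⟩) | ⟨h1, h2⟩) | h1 | h1)
      · rw [Finset.mem_range] at hi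
        refine ⟨Or.inl ⟨?_, h2⟩, hlev a i hi h1⟩
        rw [← h1, mem_stretch]
        exact Or.inr (Or.inr ⟨a.1, a.2, i, by omega, hac, rfl⟩)
      · rw [Finset.mem_range] at hi
        refine ⟨Or.inl ⟨?_, ?_⟩, hlev b i hi h1⟩
        · rw [← h1, mem_stretch]
          exact Or.inr (Or.inr ⟨b.1, b.2, i, by omega, hbc, rfl⟩)
        · rw [← h1]
          intro h4
          rw [Sym2.eq_iff] at h4
          simp only [Prod.mk.injEq] at h4
          have := sj_ne hab
          omega
      · have h3 := sj_small hK (left_mem_verts h1)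
        exact ⟨Or.inr (Or.inl ⟨h1, h2⟩), Or.inl ⟨h3.2.1, h3.2.2⟩⟩
      · refine ⟨Or.inr (Or.inr (Or.inl h1)), ?_⟩
        rw [Sym2.eq_iff] at h1
        rcases h1 with ⟨rfl, rfl⟩ | ⟨rfl, rfl⟩ <;> simp only <;> omega
      · refine ⟨Or.inr (Or.inr (Or.inr h1)), ?_⟩
        rw [Sym2.eq_iff] at h1
        rcases h1 with ⟨rfl, rfl⟩ | ⟨rfl, rfl⟩ <;> simp only <;> omega
  · apply edge_ext
    intro u v
    rw [mem_topE, sj_mem, mem_shift (t := (0, 0, (h : ℤ))), mem_topE]
    have e1 : ∀ u : P3, (u - (0, 0, (h : ℤ))).2.2 = u.2.2 - h := fun u => rfl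
    rw [e1, e1]
    constructor
    · rintro ⟨h1, h2, h3⟩
      refine ⟨?_, by omega, by omega⟩
      rcases h1 with ⟨h1, -⟩ | ⟨h1, -⟩ | h1 | h1
      · rcases mem_stretch.1 h1 with ⟨-, h4, -⟩ | ⟨h4, -⟩ | ⟨a', b', i, hi, -, h4⟩
        · omega
        · exact h4
        · rw [Sym2.eq_iff] at h4
          rcases h4 with ⟨rfl, rfl⟩ | ⟨rfl, rfl⟩ <;> simp only at h2 h3 <;> omega
      · have := sj_small hK (left_mem_verts h1)
        omega
      · rw [Sym2.eq_iff] at h1
        rcases h1 with ⟨rfl, rfl⟩ | ⟨rfl, rfl⟩ <;> simp only at h2 h3 <;> omega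
      · rw [Sym2.eq_iff] at h1
        rcases h1 with ⟨rfl, rfl⟩ | ⟨rfl, rfl⟩ <;> simp only at h2 h3 <;> omega
    · rintro ⟨h1, h2, h3⟩
      refine ⟨Or.inl ⟨mem_stretch.2 (Or.inr (Or.inl ⟨h1, by omega, by omega⟩)), ?_⟩,
        by omega, by omega⟩
      intro h4
      rw [Sym2.eq_iff] at h4
      rcases h4 with ⟨rfl, rfl⟩ | ⟨rfl, rfl⟩ <;> simp only at h2 h3 <;> omega

theorem insK_cross (hK : LeftOf K0 h z) (hE : IsPolygon E) (hc : cross E k = {a, b})
    (hab : Lex a b) : (∀ j ≤ k, cross (insK K0 h z a E k) j = cross E j) ∧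
      ∀ j, k + h ≤ j → cross (insK K0 h z a E k) j = cross E (j - h) := by
  obtain ⟨z1, z2⟩ := sj_z hK
  have key : ∀ j, (j ≤ k ∨ k + h ≤ j) →
      cross (insK K0 h z a E k) j = cross (stretch E k h) j := by
    intro j hj
    ext c
    rw [mem_cross, mem_cross, sj_mem]
    constructor
    · rintro (⟨h3, -⟩ | ⟨h3, -⟩ | h3 | h3)
      · exact h3
      · have h4 := sj_small hK (left_mem_verts h3)
        have h5 := sj_small hK (right_mem_verts h3)
        simp only at h4 h5
        omega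
      · exact (sj_vert h3).elim
      · exact (sj_vert h3).elim
    · intro h3
      refine Or.inl ⟨h3, fun h4 => ?_⟩
      rw [Sym2.eq_iff] at h4
      simp only [Prod.mk.injEq] at h4
      omega
  refine ⟨fun j hj => ?_, fun j hj => ?_⟩
  · rw [key j (Or.inl hj), cross_stretch_low hj]
  · rw [key j (Or.inr hj), cross_stretch_high hj]

end Pool.Agent.KTen
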