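import Pool.Agent.KTube.GapMod
import Pool.Agent.MP_aea6d5_co.PolyBound

/-! The word bound for the polygons of `ℤ³` up to translation, with a weight for vertical edges. -/

set_option autoImplicit false

open Pool.Agent.LK

namespace Pool.Agent.KTen

open Pool.Agent.LatticeTube Pool.Agent.LatticeTube.G3

/-- All polygons of `ℤ³`, one for each translation class. -/
abbrev NPoly : Type := {E : Finset (Sym2 P3) // IsPolygon E ∧ Normed E}

/-- The unknotted ones. -/
abbrev NUPoly : Type := {E : Finset (Sym2 P3) // (IsPolygon E ∧ Unknotted E) ∧ Normed E}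

theorem words_Z3 {x z : ℝ} (hx : 1 ≤ x) (hz : 0 < z) (h : (x + 3) * z + 5 * x * z ^ 2 < 1) :
    Summable fun E : NPoly => z ^ E.1.card * x ^ vert E.1 := by
  classical
  obtain ⟨t, θ, K, ht, hθ0, hθ1, hK, h1, h2, h3, h4⟩ := exists_consts hx hz h
  -- the data of a polygon
  have hdata : ∀ E : NPoly, ∃ (m : ℕ) (st : ℕ → Step) (g : ℕ → P3),
      Cyc E.1 (m + 1) g ∧ (∀ i < m + 1, g (i + 1) = g i + vec (st i)) ∧
      ∀ j < m, st (j + 1) ≠ rev (st j) := by
    rintro ⟨E, hE, hN⟩
    obtain ⟨u, v, huv⟩ := exists_edge hE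
    obtain ⟨n, g, hc, hg0, -⟩ := exists_cyc hE huv
    have hn := hc.three
    have hex : ∀ i, ∃ s : Step, i < n → g (i + 1) = g i + vec s := by
      intro i
      by_cases hi : i < n
      · obtain ⟨s, hs⟩ := exists_step (hE.adj _ _ (hc.mem_edge hi))
        exact ⟨s, fun _ => hs⟩
      · exact ⟨(0, true), fun h => absurd h hi⟩
    choose st hst using hex
    refine ⟨n - 1, st, g, ?_, ?_, ?_⟩
    · rwa [Nat.sub_add_cancel (by omega)]
    · intro i hi
      exact hst i (by omega)
    · intro j hj hcon
      have e1 := hst j (by omega)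
      have e2 := hst (j + 1) (by omega)
      rw [hcon, vec_rev, e1, add_neg_cancel_right] at e2
      rcases Nat.lt_or_ge (j + 1 + 1) n with hlt | hge
      · have := hc.inj _ hlt _ (by omega) e2
        omega
      · have e3 : j + 1 + 1 = n := by omega
        rw [e3, hc.per] at e2
        have := hc.inj 0 (by omega) j (by omega) e2
        omega
  choose m st g hcyc hst hnr using hdata
  set code : NPoly → List Step := fun E => wd (st E) 0 (m E) with hcode
  have hinj : Function.Injective code := by
    intro E F hEF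
    obtain ⟨e2, e3⟩ := wd_inj _ _ _ _ _ _ hEF
    apply Subtype.ext
    refine normed_trans (hcyc E) (e2 ▸ hcyc F) E.2.2 F.2.2 ?_
    intro i hi
    rw [hst E i hi, hst F i (by omega)]
    have := e3 i (by omega)
    rw [zero_add] at this
    rw [this]
    abel
  have hweight : ∀ E : NPoly, z ^ E.1.card * x ^ vert E.1 = W x z (code E) := by
    intro E
    have e1 : vert E.1 =
        ((Finset.range (m E + 1)).filter fun i => (st E i).1 = 2).card := by
      have e2 : {e : Sym2 P3 | e ∈ E.1 ∧ ∃ x y k : ℤ, e = s((x, y, k), (x, y, k + 1))} =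
          ((((Finset.range (m E + 1)).filter fun i => (st E i).1 = 2).image
            fun i => s(g E i, g E (i + 1)) : Finset (Sym2 P3)) : Set (Sym2 P3)) := by
        ext e
        rw [Finset.coe_image, Set.mem_image, Set.mem_ofPred_eq]
        constructor
        · rintro ⟨he, x', y', k', he'⟩
          rw [(hcyc E).eq_image, Finset.mem_image] at he
          obtain ⟨i, hi, rfl⟩ := he
          refine ⟨i, ?_, rfl⟩
          rw [Finset.mem_coe, Finset.mem_filter]
          refine ⟨hi, ?_⟩
          rw [hst E i (Finset.mem_range.1 hi)] at he'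
          exact edge_vert.1 ⟨x', y', k', he'⟩
        · rintro ⟨i, hi, rfl⟩
          rw [Finset.mem_coe, Finset.mem_filter] at hi
          refine ⟨(hcyc E).mem_edge (Finset.mem_range.1 hi.1), ?_⟩
          rw [hst E i (Finset.mem_range.1 hi.1)]
          exact edge_vert.2 hi.2
      rw [LatticeTube.vert, e2, Set.ncard_coe_finset, Finset.card_image_of_injOn]
      intro i hi j hj hij
      rw [Finset.mem_coe, Finset.mem_filter] at hi hj
      exact (hcyc E).edge_inj (Finset.mem_range.1 hi.1) (Finset.mem_range.1 hj.1) hij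
    rw [e1, (hcyc E).card_eq, hcode]
    simp only
    rw [W_wd]
    simp only [zero_add, wt]
    rw [Finset.prod_mul_distrib, Finset.prod_const, Finset.card_range, Finset.prod_ite,
      Finset.prod_const, Finset.prod_const_one, mul_one]
  -- the bound
  set Φ : ℝ := ∑ a : Step, ph t a with hΦ
  have hph : ∀ a : Step, 0 ≤ ph t a := by
    intro a
    unfold ph
    split_ifs
    · norm_num
    · exact ht.le
  refine summable_of_sum_le (c := K * Φ * (1 - θ)⁻¹) ?_ ?_
  · intro E
    change 0 ≤ z ^ E.1.card * x ^ vert E.1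
    have : 0 ≤ x := by linarith
    positivity
  · intro s
    have hs : ∑ E ∈ s, z ^ E.1.card * x ^ vert E.1 = ∑ p ∈ s.image code, W x z p := by
      rw [Finset.sum_image (fun E _ F _ h => hinj h)]
      exact Finset.sum_congr rfl fun E _ => hweight E
    rw [hs]
    set N := s.sup m + 1 with hN
    set T : Finset (List Step) :=
      (Finset.range N).biUnion fun n => Finset.univ.biUnion fun a : Step => Wd n a with hT
    have hsub : s.image code ⊆ T := by
      intro p hp
      obtain ⟨E, hE, rfl⟩ := Finset.mem_image.1 hp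
      rw [hT, Finset.mem_biUnion]
      refine ⟨m E, Finset.mem_range.2 (Nat.lt_succ_of_le (Finset.le_sup hE)), ?_⟩
      rw [Finset.mem_biUnion]
      refine ⟨st E 0, Finset.mem_univ _, wd_mem _ _ 0 fun j hj => ?_⟩
      rw [zero_add]
      exact hnr E j hj
    refine (Finset.sum_le_sum_of_subset_of_nonneg hsub fun p _ _ => W_nonneg hx hz _).trans ?_
    calc ∑ w ∈ T, W x z w
        ≤ ∑ n ∈ Finset.range N, ∑ w ∈ Finset.univ.biUnion fun a : Step => Wd n a, W x z w :=
          sum_biUnion_le _ _ _ (W_nonneg hx hz)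
      _ ≤ ∑ n ∈ Finset.range N, K * Φ * θ ^ n := by
          refine Finset.sum_le_sum fun n _ => ?_
          refine (sum_biUnion_le _ _ _ (W_nonneg hx hz)).trans ?_
          refine (Finset.sum_le_sum fun a _ => sum_Wd hx hz hK hθ0 h1 h2 h3 h4 n a).trans ?_
          rw [← Finset.sum_mul, ← Finset.mul_sum]
      _ = K * Φ * ∑ n ∈ Finset.range N, θ ^ n := (Finset.mul_sum _ _ _).symm
      _ ≤ K * Φ * (1 - θ)⁻¹ := by
          have hΦ0 : 0 ≤ Φ := Finset.sum_nonneg fun a _ => hph a
          refine mul_le_mul_of_nonneg_left ?_ (by positivity)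
          rw [← tsum_geometric_of_lt_one hθ0 hθ1]
          exact Summable.sum_le_tsum _ (fun i _ => by positivity)
            (summable_geometric_of_lt_one hθ0 hθ1)

end Pool.Agent.KTen
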