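import Pool.Agent.KTen.PlaceA
import Pool.Agent.KTube.Elem

/-! Unknotted polygons are congruent. -/

set_option autoImplicit false

open Set

namespace Pool.Agent.KTen

open Pool.Agent.LK Pool.Agent.KTube

variable {E F : ES}

/-! ### The homeomorphism -/

/-- The height of the trapezoid. -/
noncomputable def gU (q : ℝ × ℝ) : ℝ := 2 * max 0 (min 1 (4 * (min q.1 (1 - q.1) - 4 * |q.2|)))

/-- The cutoff. -/
noncomputable def tU (z : ℝ) : ℝ := max 0 (min 1 (4 * z + 2))

/-- The factor of the levels. -/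
noncomputable def fU (z : ℝ) : ℝ := 4 / (4 - max 0 (min 1 z))

theorem gU_nonneg (q : ℝ × ℝ) : 0 ≤ gU q := mul_nonneg (by norm_num) (le_max_left _ _)

theorem gU_le (q : ℝ × ℝ) : gU q ≤ 2 := by
  have : max 0 (min 1 (4 * (min q.1 (1 - q.1) - 4 * |q.2|))) ≤ 1 :=
    max_le zero_le_one (min_le_left _ _)
  unfold gU
  linarith

theorem gU_zero {q : ℝ × ℝ} (h : ¬ (0 < q.1 ∧ q.1 < 1 ∧ |q.2| < 1)) : gU q = 0 := by
  have h1 : min q.1 (1 - q.1) - 4 * |q.2| ≤ 0 := by
    have h2 := abs_nonneg q.2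
    have h3 := min_le_left q.1 (1 - q.1)
    have h4 := min_le_right q.1 (1 - q.1)
    by_contra hcon
    push Not at hcon
    refine h ⟨by linarith, by linarith, by linarith⟩
  unfold gU
  rw [min_eq_right (by linarith), max_eq_left (by linarith), mul_zero]

theorem gU_axis {x : ℝ} (h0 : 0 ≤ x) (h1 : x ≤ 1) : gU (x, 0) = 2 * min 1 (4 * min x (1 - x)) := by
  have h2 : 0 ≤ min x (1 - x) := le_min h0 (by linarith)
  unfold gU
  simp only [abs_zero, mul_zero, sub_zero]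
  rw [max_eq_right]
  exact le_min (by norm_num) (by linarith)

theorem gU_two {q : ℝ × ℝ} (h1 : |q.1 - 1 / 2| ≤ 1 / 32) (h2 : |q.2| ≤ 1 / 32) : gU q = 2 := by
  rw [abs_le] at h1
  have h3 : 15 / 32 ≤ min q.1 (1 - q.1) := le_min (by linarith) (by linarith)
  unfold gU
  rw [min_eq_left (by linarith), max_eq_right (by norm_num), mul_one]

theorem tU_nonneg (z : ℝ) : 0 ≤ tU z := le_max_left _ _

theorem tU_le (z : ℝ) : tU z ≤ 1 := max_le zero_le_one (min_le_left _ _)

theorem tU_one {z : ℝ} (h : -(1 / 4) ≤ z) : tU z = 1 := by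
  unfold tU
  rw [min_eq_left (by linarith), max_eq_right (by norm_num)]

theorem tU_zero {z : ℝ} (h : z ≤ -(1 / 2)) : tU z = 0 := by
  unfold tU
  rw [min_eq_right (by linarith), max_eq_left (by linarith)]

theorem fU_pos (z : ℝ) : 0 < fU z := by
  have : max 0 (min 1 z) ≤ 1 := max_le zero_le_one (min_le_left _ _)
  unfold fU
  exact div_pos (by norm_num) (by linarith)

theorem fU_low {z : ℝ} (h : z ≤ 0) : fU z = 1 := by
  unfold fU
  rw [min_eq_right (by linarith), max_eq_left h]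
  norm_num

theorem fU_mid {z : ℝ} (h : 0 ≤ z) (h' : z ≤ 1) : fU z = 4 / (4 - z) := by
  unfold fU
  rw [min_eq_right h', max_eq_right h]

theorem exists_liftU : ∃ φ : R3 ≃ₜ R3, ∀ p, φ p =
    (p.1, p.2.1, p.2.2 + gU (p.1, p.2.1) * tU p.2.2) := by
  refine exists_elemZ gU (by unfold gU; fun_prop) tU (by unfold tU; fun_prop) ?_ 2 ?_
  · intro q x y hxy
    have h1 : tU x ≤ tU y := max_le_max le_rfl (min_le_min le_rfl (by linarith))
    have := mul_le_mul_of_nonneg_left h1 (gU_nonneg q)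
    simp only
    linarith
  · intro q x
    rw [abs_of_nonneg (mul_nonneg (gU_nonneg q) (tU_nonneg x))]
    have h1 := gU_nonneg q
    have h2 := gU_le q
    have h3 := tU_nonneg x
    have h4 := tU_le x
    nlinarith

/-- Stretching the levels. -/
noncomputable def levU : R3 ≃ₜ R3 where
  toFun p := (1 / 2 + fU p.2.2 * (p.1 - 1 / 2), p.2.1, p.2.2)
  invFun p := (1 / 2 + (fU p.2.2)⁻¹ * (p.1 - 1 / 2), p.2.1, p.2.2)
  left_inv p := by
    have := (fU_pos p.2.2).ne'
    refine Prod.ext ?_ rfl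
    simp only
    field_simp
    ring
  right_inv p := by
    have := (fU_pos p.2.2).ne'
    refine Prod.ext ?_ rfl
    simp only
    field_simp
    ring
  continuous_toFun := by
    have h : Continuous fun p : R3 => fU p.2.2 := by
      unfold fU
      refine Continuous.div (by fun_prop) (by fun_prop) fun p => ?_
      have : max 0 (min 1 p.2.2) ≤ 1 := max_le zero_le_one (min_le_left _ _)
      linarith
    fun_prop
  continuous_invFun := by
    have h0 : Continuous fun p : R3 => fU p.2.2 := by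
      unfold fU
      refine Continuous.div (by fun_prop) (by fun_prop) fun p => ?_
      have : max 0 (min 1 p.2.2) ≤ 1 := max_le zero_le_one (min_le_left _ _)
      linarith
    have h : Continuous fun p : R3 => (fU p.2.2)⁻¹ := h0.inv₀ (fun p => (fU_pos p.2.2).ne')
    fun_prop

/-- Lifting the middle of the edge. -/
noncomputable def psiU : R3 ≃ₜ R3 := (Classical.choose exists_liftU).trans levU

theorem psiU_apply (p : R3) : psiU p =
    (1 / 2 + fU (p.2.2 + gU (p.1, p.2.1) * tU p.2.2) * (p.1 - 1 / 2), p.2.1,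
      p.2.2 + gU (p.1, p.2.1) * tU p.2.2) := by
  change levU ((Classical.choose exists_liftU) p) = _
  rw [Classical.choose_spec exists_liftU p]
  rfl

/-! ### The standard position -/

theorem edge_near_mid {E₀ : ES} (hE : ∀ u v, s(u, v) ∈ E₀ → Adj u v) {P : R3} {u v : P3}
    (huv : s(u, v) ∈ E₀) (hx : P ∈ segment ℝ (toR u) (toR v)) (h0 : 0 < P.1) (h1 : P.1 < 1)
    (h2 : |P.2.1| < 1) (h3 : |P.2.2| < 1) :
    s(u, v) = s(((0, 0, 0) : P3), (1, 0, 0)) := by
  have hadj := hE u v huv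
  rw [segment_eq_image'] at hx
  obtain ⟨t, ⟨t0, t1⟩, rfl⟩ := hx
  have e1 : (toR u + t • (toR v - toR u)).1 = (u.1 : ℝ) + t * (v.1 - u.1) := rfl
  have c2 := coord_aux (a := u.2.1) (b := v.2.1) t0 t1 h2
  have c3 := coord_aux (a := u.2.2) (b := v.2.2) t0 t1 h3
  rw [e1] at h0 h1
  have hup : (u.1 ≤ 0 ∨ v.1 ≤ 0) ∧ (1 ≤ u.1 ∨ 1 ≤ v.1) := by
    constructor
    · by_contra hcon
      push Not at hcon
      have h4 : (1 : ℝ) ≤ u.1 := by exact_mod_cast hcon.1
      have h5 : (1 : ℝ) ≤ v.1 := by exact_mod_cast hcon.2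
      nlinarith
    · by_contra hcon
      push Not at hcon
      have h4 : (u.1 : ℝ) ≤ 0 := by exact_mod_cast (by omega : u.1 ≤ 0)
      have h5 : (v.1 : ℝ) ≤ 0 := by exact_mod_cast (by omega : v.1 ≤ 0)
      nlinarith
  have key : (u = (0, 0, 0) ∧ v = (1, 0, 0)) ∨ (u = (1, 0, 0) ∧ v = (0, 0, 0)) := by
    clear e1 h0 h1 h2 h3 huv
    obtain ⟨u1, u2, u3⟩ := u
    obtain ⟨v1, v2, v3⟩ := v
    simp only [Adj] at hadj
    simp only [Prod.mk.injEq]
    simp only at c2 c3 hup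
    rcases abs_cases (u1 - v1) with h4 | h4 <;> rcases abs_cases (u2 - v2) with h5 | h5 <;>
      rcases abs_cases (u3 - v3) with h6 | h6 <;> omega
  rw [Sym2.eq_iff]
  exact key

/-- The image of the middle of the edge, with the pattern. -/
noncomputable def BU (J : Set R3) : Set R3 :=
  psiU '' (({p | 1 / 8 ≤ p.1 ∧ p.1 ≤ 7 / 8 ∧ p.2 = 0} \ bx0 '' Bx) ∪ bx0 '' J)

theorem BU_high {J : Set R3} (hJ : J ⊆ Bx) : ∀ p ∈ BU J, (0 : ℝ) + 1 ≤ p.2.2 := by
  rintro _ ⟨p, hp, rfl⟩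
  rw [psiU_apply]
  simp only [zero_add]
  rcases hp with ⟨⟨h1, h2, h3⟩, -⟩ | ⟨q, hq, rfl⟩
  · have h4 : p.2.1 = 0 := by rw [h3]; rfl
    have h5 : p.2.2 = 0 := by rw [h3]; rfl
    rw [h4, h5, gU_axis (by linarith) (by linarith), tU_one (by norm_num)]
    have h6 : 1 / 8 ≤ min p.1 (1 - p.1) := le_min h1 (by linarith)
    have h7 : 1 / 2 ≤ min 1 (4 * min p.1 (1 - p.1)) := le_min (by norm_num) (by linarith)
    linarith
  · obtain ⟨k1, k2, k3⟩ := hJ hq
    rw [abs_le] at k1 k2 k3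
    have h1 : gU ((bx0 q).1, (bx0 q).2.1) = 2 := by
      refine gU_two ?_ ?_
      · simp only [bx0]
        rw [abs_le]
        constructor <;> linarith
      · simp only [bx0]
        rw [abs_le]
        constructor <;> linarith
    rw [h1, tU_one]
    · simp only [bx0]
      linarith
    · simp only [bx0]
      linarith

theorem eqvS_std {E₀ : ES} (hP : IsPolygon E₀) (h1 : s(((0, 0, 0) : P3), (1, 0, 0)) ∈ E₀)
    (htop : ∀ u ∈ verts E₀, u.2.2 ≤ 0) (hU : Unknotted E₀) {J : Set R3} (hJ : J ⊆ Bx) :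
    EqvS (insr (body E₀) bx0 J) (refl3 '' BU J ∪ tent 0 0 (-(0 + 1))) := by
  set e : Sym2 P3 := s(((0, 0, 0) : P3), (1, 0, 0)) with he
  set A : Set R3 := body (E₀ \ {e}) with hA
  have hAz : ∀ p ∈ A, p.2.2 ≤ 0 := by
    rintro p ⟨u, v, huv, hx⟩
    rw [Finset.mem_sdiff] at huv
    refine seg_bounds hx ?_ ?_
    · exact_mod_cast htop u ⟨v, huv.1⟩
    · exact_mod_cast htop v ⟨u, by rw [Sym2.eq_swap]; exact huv.1⟩
  have hAn : ∀ p ∈ A, ¬ (0 < p.1 ∧ p.1 < 1 ∧ |p.2.1| < 1 ∧ |p.2.2| < 1) := by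
    rintro p ⟨u, v, huv, hx⟩ ⟨k1, k2, k3, k4⟩
    rw [Finset.mem_sdiff, Finset.mem_singleton] at huv
    exact huv.2 (edge_near_mid hP.adj huv.1 hx k1 k2 k3 k4)
  have hAfix : ∀ p ∈ A, psiU p = p := by
    intro p hp
    have h2 : gU (p.1, p.2.1) * tU p.2.2 = 0 := by
      rcases le_or_gt p.2.2 (-(1 / 2)) with h3 | h3
      · rw [tU_zero h3, mul_zero]
      · rw [gU_zero, zero_mul]
        rintro ⟨k1, k2, k3⟩
        refine hAn p hp ⟨k1, k2, k3, ?_⟩
        have := hAz p hp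
        rw [abs_lt]
        constructor <;> linarith
    rw [psiU_apply, h2, add_zero, fU_low (hAz p hp)]
    refine Prod.ext ?_ rfl
    simp only
    ring
  have hAimg : psiU '' A = A := by
    ext p
    constructor
    · rintro ⟨q, hq, rfl⟩
      rw [hAfix q hq]
      exact hq
    · intro hp
      exact ⟨p, hp, hAfix p hp⟩
  have hbody : body E₀ = A ∪ {p | 0 ≤ p.1 ∧ p.1 ≤ 1 ∧ p.2 = 0} := by
    ext p
    have hseg : p ∈ segment ℝ (toR (0, 0, 0)) (toR (1, 0, 0)) ↔
        0 ≤ p.1 ∧ p.1 ≤ 1 ∧ p.2 = 0 := by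
      rw [mem_seg_zero]
      constructor
      · rintro ⟨s, s0, s1, rfl⟩
        simp [s0, s1]
      · rintro ⟨k1, k2, k3⟩
        refine ⟨p.1, k1, k2, ?_⟩
        refine Prod.ext ?_ ?_
        · simp
        · rw [k3]
          simp only [Int.cast_zero, mul_zero]
          rfl
    constructor
    · rintro ⟨u, v, huv, hx⟩
      by_cases h2 : s(u, v) = e
      · right
        exact hseg.1 (seg_of_eq h2 hx)
      · left
        refine ⟨u, v, ?_, hx⟩
        rw [Finset.mem_sdiff, Finset.mem_singleton]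
        exact ⟨huv, h2⟩
    · rintro (⟨u, v, huv, hx⟩ | hp)
      · rw [Finset.mem_sdiff] at huv
        exact ⟨u, v, huv.1, hx⟩
      · exact ⟨_, _, h1, hseg.2 hp⟩
  have hbox : ∀ p ∈ bx0 '' Bx, 15 / 32 ≤ p.1 ∧ p.1 ≤ 17 / 32 ∧ |p.2.1| < 1 ∧ |p.2.2| < 1 := by
    rintro _ ⟨q, ⟨k1, k2, k3⟩, rfl⟩
    rw [abs_le] at k1 k2 k3
    simp only [bx0]
    refine ⟨by linarith, by linarith, ?_, ?_⟩
    · rw [abs_lt]
      constructor <;> linarith
    · rw [abs_lt]
      constructor <;> linarith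
  have hsplit : insr (body E₀) bx0 J = A ∪ {p | p.2 = 0 ∧ (0 ≤ p.1 ∧ p.1 ≤ 1 / 8 ∨
      7 / 8 ≤ p.1 ∧ p.1 ≤ 1)} ∪ (({p | 1 / 8 ≤ p.1 ∧ p.1 ≤ 7 / 8 ∧ p.2 = 0} \ bx0 '' Bx) ∪
        bx0 '' J) := by
    unfold insr
    rw [← union_assoc]
    congr 1
    rw [hbody]
    ext p
    constructor
    · rintro ⟨hp | ⟨k1, k2, k3⟩, hb⟩
      · exact Or.inl (Or.inl hp)
      · rcases le_or_gt p.1 (1 / 8) with k4 | k4
        · exact Or.inl (Or.inr ⟨k3, Or.inl ⟨k1, k4⟩⟩)
        · rcases le_or_gt (7 / 8) p.1 with k5 | k5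
          · exact Or.inl (Or.inr ⟨k3, Or.inr ⟨k5, k2⟩⟩)
          · exact Or.inr ⟨⟨k4.le, k5.le, k3⟩, hb⟩
    · rintro ((hp | ⟨k1, k2⟩) | ⟨⟨k1, k2, k3⟩, hb⟩)
      · refine ⟨Or.inl hp, fun hb => ?_⟩
        obtain ⟨k1, k2, k3, k4⟩ := hbox p hb
        exact hAn p hp ⟨by linarith, by linarith, k3, k4⟩
      · refine ⟨Or.inr ⟨?_, ?_, k1⟩, fun hb => ?_⟩
        · rcases k2 with k2 | k2 <;> linarith
        · rcases k2 with k2 | k2 <;> linarith
        · obtain ⟨k3, k4, -, -⟩ := hbox p hb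
          rcases k2 with k2 | k2 <;> linarith
      · exact ⟨Or.inr ⟨by linarith, by linarith, k3⟩, hb⟩
  have hlegs : psiU '' {p | p.2 = 0 ∧ (0 ≤ p.1 ∧ p.1 ≤ 1 / 8 ∨ 7 / 8 ≤ p.1 ∧ p.1 ≤ 1)} =
      strands 0 0 0 := by
    ext p
    constructor
    · rintro ⟨q, ⟨k1, k2⟩, rfl⟩
      have h4 : q.2.1 = 0 := by rw [k1]; rfl
      have h5 : q.2.2 = 0 := by rw [k1]; rfl
      rw [psiU_apply, h4, h5, tU_one (by norm_num)]
      rcases k2 with ⟨k2, k3⟩ | ⟨k2, k3⟩
      · have e1 : (0 : ℝ) + gU (q.1, 0) * 1 = 8 * q.1 := by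
          rw [gU_axis k2 (by linarith), min_eq_left (by linarith : q.1 ≤ 1 - q.1),
            min_eq_right (by linarith)]
          ring
        rw [e1, fU_mid (by linarith) (by linarith)]
        refine ⟨rfl, ?_, ?_, ?_⟩
        · have h6 : (4 : ℝ) - 8 * q.1 ≠ 0 := by linarith
          have e2 : (1 : ℝ) / 2 + 4 / (4 - 8 * q.1) * (q.1 - 1 / 2) - 0 - 1 / 2 = -(1 / 2) := by
            field_simp
            ring
          rw [e2]
          norm_num
        · simp only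
          linarith
        · simp only
          linarith
      · have e1 : (0 : ℝ) + gU (q.1, 0) * 1 = 8 * (1 - q.1) := by
          rw [gU_axis (by linarith) k3, min_eq_right (by linarith : 1 - q.1 ≤ q.1),
            min_eq_right (by linarith)]
          ring
        rw [e1, fU_mid (by linarith) (by linarith)]
        refine ⟨rfl, ?_, ?_, ?_⟩
        · have h6 : (4 : ℝ) - 8 * (1 - q.1) ≠ 0 := by linarith
          have e2 : (1 : ℝ) / 2 + 4 / (4 - 8 * (1 - q.1)) * (q.1 - 1 / 2) - 0 - 1 / 2 = 1 / 2 := by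
            field_simp
            ring
          rw [e2]
          norm_num
        · simp only
          linarith
        · simp only
          linarith
    · rintro ⟨k1, k2, k3, k4⟩
      rw [zero_add] at k4
      rcases eq_or_eq_neg_of_abs_eq k2 with k5 | k5
      · refine ⟨(1 - p.2.2 / 8, 0, 0), ⟨rfl, Or.inr ⟨by simp only; linarith,
          by simp only; linarith⟩⟩, ?_⟩
        rw [psiU_apply]
        simp only
        have e1 : (0 : ℝ) + gU (1 - p.2.2 / 8, 0) * tU 0 = p.2.2 := by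
          rw [tU_one (by norm_num), gU_axis (by linarith) (by linarith),
            min_eq_right (by linarith : 1 - (1 - p.2.2 / 8) ≤ 1 - p.2.2 / 8),
            min_eq_right (by linarith)]
          ring
        rw [e1, fU_mid k3 k4]
        have h6 : (4 : ℝ) - p.2.2 ≠ 0 := by linarith
        refine Prod.ext ?_ (Prod.ext k1.symm rfl)
        simp only
        have e2 : p.1 = 1 := by linarith
        rw [e2]
        field_simp
        ring
      · refine ⟨(p.2.2 / 8, 0, 0), ⟨rfl, Or.inl ⟨by simp only; linarith,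
          by simp only; linarith⟩⟩, ?_⟩
        rw [psiU_apply]
        simp only
        have e1 : (0 : ℝ) + gU (p.2.2 / 8, 0) * tU 0 = p.2.2 := by
          rw [tU_one (by norm_num), gU_axis (by linarith) (by linarith),
            min_eq_left (by linarith : p.2.2 / 8 ≤ 1 - p.2.2 / 8),
            min_eq_right (by linarith)]
          ring
        rw [e1, fU_mid k3 k4]
        have h6 : (4 : ℝ) - p.2.2 ≠ 0 := by linarith
        refine Prod.ext ?_ (Prod.ext k1.symm rfl)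
        simp only
        have e2 : p.1 = 0 := by linarith
        rw [e2]
        field_simp
        ring
  have himg : psiU '' insr (body E₀) bx0 J = A ∪ BU J ∪ strands 0 0 0 := by
    rw [hsplit, image_union, image_union, hAimg, hlegs]
    unfold BU
    ext p
    simp only [mem_union]
    tauto
  have hunk : Unk (A ∪ tent 0 0 0) := by
    have htop1 : ∀ a : ℤ, ((a, 0, 0 + 1) : P3) ∉ verts E₀ := by
      intro a h
      have := htop _ h
      simp only at this
      omega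
    obtain ⟨φ, hφ⟩ := exists_tent_homeo E₀ 0 0 0 1 hP.adj (Or.inl rfl) h1
      (htop1 0) (htop1 (0 + 1))
    have t1 : toR (0, 0, 0) = (((0 : ℝ), (0 : ℝ), (0 : ℝ)) : R3) := by simp [toR]
    have t2 : toR (0 + 1, 0, 0) = (((0 : ℝ) + 1, (0 : ℝ), (0 : ℝ)) : R3) := by simp [toR]
    have t3 : ((((0 : ℤ) : ℝ) + 1 / 2, ((0 : ℤ) : ℝ), ((0 : ℤ) : ℝ) + ((1 : ℤ) : ℝ) / 2) : R3) =
        ((0 : ℝ) + 1 / 2, (0 : ℝ), (0 : ℝ) + 1 / 2) := by simp
    rw [t1, t2, t3, tent_eq] at hφ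
    have hA' : body (E₀ \ {s(((0, 0, 0) : P3), (0 + 1, 0, 0))}) = A := rfl
    rw [hA'] at hφ
    rw [← hφ, unk_homeo_iff]
    exact hU
  refine EqvS.trans (Eqv.toS ⟨psiU, himg⟩) (remove ?_ hAz (BU_high hJ) hunk)
  obtain ⟨N, hN⟩ := (isCompact_body (E₀ \ {e})).isBounded.exists_norm_le
  exact ⟨N, hN⟩

/-! ### General position -/

theorem exists_top_edge (hE : IsPolygon E) : ∃ u a : P3, s(u, u + a) ∈ E ∧ a.2.2 = 0 ∧
    ∀ w ∈ verts E, w.2.2 ≤ u.2.2 := by
  obtain ⟨x, y, hxy⟩ := exists_edge hE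
  obtain ⟨u, ⟨v, huv⟩, hmax⟩ := Set.exists_max_image (verts E) (fun u : P3 => u.2.2)
    (verts_finite E) ⟨x, y, hxy⟩
  have key : ∀ w, s(u, w) ∈ E → w.2.2 = u.2.2 ∨ w = (u.1, u.2.1, u.2.2 - 1) := by
    intro w hw
    have h1 := hmax w ⟨u, by rw [Sym2.eq_swap]; exact hw⟩
    have h2 := hE.adj _ _ hw
    obtain ⟨u1, u2, u3⟩ := u
    obtain ⟨w1, w2, w3⟩ := w
    simp only [Adj] at h2
    simp only [Prod.mk.injEq] at h1 ⊢
    rcases abs_cases (u1 - w1) with h4 | h4 <;> rcases abs_cases (u2 - w2) with h5 | h5 <;>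
      rcases abs_cases (u3 - w3) with h6 | h6 <;> omega
  obtain ⟨q, hq, hqv⟩ := exists_other hE huv
  rcases key v huv with h1 | h1
  · refine ⟨u, v - u, by rwa [add_sub_cancel], ?_, hmax⟩
    change v.2.2 - u.2.2 = 0
    omega
  · rcases key q hq with h2 | h2
    · refine ⟨u, q - u, by rwa [add_sub_cancel], ?_, hmax⟩
      change q.2.2 - u.2.2 = 0
      omega
    · exact absurd (h2.trans h1.symm) hqv

theorem exists_unk_place (hE : IsPolygon E) (hU : Unknotted E) : ∃ σ, Place E σ ∧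
    ∀ J ⊆ Bx, EqvS (insr (body E) σ J) (refl3 '' BU J ∪ tent 0 0 (-(0 + 1))) := by
  obtain ⟨u, a, hu, ha, hmax⟩ := exists_top_edge hE
  have hunit : IsUnit3 a := by
    have := isUnit3_of_adj (hE.adj _ _ hu)
    rwa [add_sub_cancel_left] at this
  have hb : ∃ b : P3, Frm a b (crs a b) ∧ b.2.2 = 0 ∧ crs a b = (0, 0, 1) := by
    rcases unit_cases hunit with rfl | rfl | rfl | rfl | rfl | rfl
    · exact ⟨(0, 1, 0), by decide⟩
    · exact ⟨(0, -1, 0), by decide⟩
    · exact ⟨(-1, 0, 0), by decide⟩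
    · exact ⟨(1, 0, 0), by decide⟩
    · exact absurd ha (by decide)
    · exact absurd ha (by decide)
  obtain ⟨b, hF, hb0, hc⟩ := hb
  refine ⟨cht u a b, ⟨u, a, b, hu, hF, rfl⟩, fun J hJ => ?_⟩
  obtain ⟨E₀, rfl⟩ := exists_mapE u hF E
  have hP := isPolygon_of_fmap hF hE
  have f0 : fmap u a b (crs a b) (0, 0, 0) = u := by simp [fmap]
  have f1 : fmap u a b (crs a b) (1, 0, 0) = u + a := by
    simp [fmap]
    rfl
  have h2 : s(((0, 0, 0) : P3), ((1, 0, 0) : P3)) ∈ E₀ := by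
    rw [← mem_mapE_fmap (x := u) hF, f0, f1]
    exact hu
  have htop : ∀ w ∈ verts E₀, w.2.2 ≤ 0 := by
    intro w hw
    have h3 := hmax _ ((mem_verts_fmap (x := u) hF).2 hw)
    have h4 : (fmap u a b (crs a b) w).2.2 = u.2.2 + w.2.2 := by
      simp only [fmap, ha, hb0, hc]
      ring
    rw [h4] at h3
    omega
  have hU0 : Unknotted E₀ := (unknotted_fmap hF E₀).1 hU
  refine EqvS.trans (EqvS.symm ?_) (eqvS_std hP h2 htop hU0 hJ)
  refine Eqv.toS ⟨fhomeo u hF, ?_⟩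
  unfold insr
  rw [body_fmap hF, cht_eq hF, image_comp, image_comp, image_union,
    image_sdiff (fhomeo u hF).injective]

theorem cong_unknotted (hE : IsPolygon E) (hF : IsPolygon F) (uE : Unknotted E)
    (uF : Unknotted F) : Cong E F := by
  obtain ⟨σ, hσ, h1⟩ := exists_unk_place hE uE
  obtain ⟨τ, hτ, h2⟩ := exists_unk_place hF uF
  exact ⟨σ, τ, hσ, hτ, fun J hJ => (h1 J hJ).trans (h2 J hJ).symm⟩

end Pool.Agent.KTen
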