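import Pool.Agent.KTen.LowerG
import Pool.Agent.KTen.PlaceU

/-! Iterated side joins and the number of the polygons of their types. -/

set_option autoImplicit false

open Set Filter Topology

namespace Pool.Agent.KTen

open Pool.Agent.LK Pool.Agent.KTube

variable {R E : ES} {N : ℕ} {x : ℝ}

/-- `R` is obtained from an unknotted polygon by `N` successive side joins with knotted
polygons. -/
inductive Tower : ℕ → ES → Prop
  | zero (R : ES) : IsPolygon R → Unknotted R → Tower 0 R
  | succ (N : ℕ) (R K0 : ES) (h : ℕ) (z k : ℤ) (a b : ℤ × ℤ) : Tower N R → LeftOf K0 h z →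
      ¬ Unknotted K0 → cross R k = {a, b} → Lex a b → Tower (N + 1) (insK K0 h z a R k)

theorem Tower.poly (hR : Tower N R) : IsPolygon R := by
  induction hR with
  | zero R h1 _ => exact h1
  | succ N R K0 h z k a b _ hK _ hc hab ih => exact insK_poly hK ih hc hab

/-- **The number of polygons which are congruent to a tower.** -/
theorem Tower.count (hR : Tower N R) (hx : 1 ≤ x) : ∃ (c : ℕ) (D : ℝ), Even c ∧ 0 < D ∧
    ∀ n L M : ℕ, (M : ℝ) ^ N * Zt (x ^ 2) (fun E => UClass E ∧ L + N * M ≤ numTwo E) n ≤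
      D * Zt (x ^ 2) (fun E => (IsPolygon E ∧ Cong R E) ∧ L ≤ numU E) (n + c) := by
  have hy : (0 : ℝ) ≤ x ^ 2 := by positivity
  induction hR with
  | zero R h1 h2 =>
    refine ⟨0, 1, Even.zero, one_pos, fun n L M => ?_⟩
    rw [pow_zero, one_mul, one_mul, add_zero]
    refine zt_mono hy ?_ n
    rintro E hE ⟨hU, hn⟩
    refine ⟨⟨hE, cong_unknotted h1 hE h2 hU.2⟩, ?_⟩
    rw [numU_unknotted hE hU.2]
    simpa using hn
  | succ N R K0 h z k a b hR hK nK hc hab ih =>
    obtain ⟨c, D, hc2, hD, hmain⟩ := ih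
    have hRp := hR.poly
    have hT := insK_poly hK hRp hc hab
    have hstep := insertG_le (x := x) hK nK (C := fun E => IsPolygon E ∧ Cong R E)
      (C' := fun E => IsPolygon E ∧ Cong (insK K0 h z a R k) E)
      (fun E r h1 => ⟨isPolygon_shift h1.1 r, h1.2.trans h1.1 (cong_shift h1.1 r)⟩)
      (fun E k' a' b' hE h1 hc' hab' => by
        rcases cong_insK hK hRp hE h1.2 hc hab.weak hc' hab'.weak with h2 | h2
        · exact Or.inl ⟨insK_poly hK hE hc' hab', h2⟩
        · exact Or.inr ⟨insK_poly (leftOf_rvK hK) hE hc' hab', h2⟩) hx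
    have hh : (0 : ℝ) < h := by exact_mod_cast hK.pos
    obtain ⟨c0, hc0⟩ := even_card hK.poly
    refine ⟨c + (2 * h + K0.card), D * (2 * h), ?_, by positivity, fun n L M => ?_⟩
    · refine hc2.add ?_
      rw [hc0]
      exact ⟨h + c0, by ring⟩
    have h1 := hmain n (L + M) M
    have h2 := hstep (n + c) L M
    have e1 : L + M + N * M = L + (N + 1) * M := by ring
    have e2 : n + c + 2 * h + K0.card = n + (c + (2 * h + K0.card)) := by ring
    rw [e1] at h1
    rw [e2] at h2
    have hx2 : (1 : ℝ) ≤ x ^ (2 * h) := one_le_pow₀ hx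
    set A := Zt (x ^ 2) (fun E => UClass E ∧ L + (N + 1) * M ≤ numTwo E) n
    set B := Zt (x ^ 2) (fun E => (IsPolygon E ∧ Cong R E) ∧ L + M ≤ numU E) (n + c)
    have hB : 0 ≤ B := zt_nonneg hy _ _
    have hM : (0 : ℝ) ≤ M := Nat.cast_nonneg _
    have h3 : (M : ℝ) * B ≤ M * x ^ (2 * h) * B := by
      calc (M : ℝ) * B = M * 1 * B := by ring
        _ ≤ _ := mul_le_mul_of_nonneg_right (mul_le_mul_of_nonneg_left hx2 hM) hB
    have h4 := h3.trans h2
    push_cast at h4
    calc (M : ℝ) ^ (N + 1) * A = M * ((M : ℝ) ^ N * A) := by ring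
      _ ≤ M * (D * B) := mul_le_mul_of_nonneg_left h1 hM
      _ = D * (M * B) := by ring
      _ ≤ D * (2 * h * _) := mul_le_mul_of_nonneg_left h4 hD.le
      _ = _ := by ring

end Pool.Agent.KTen
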