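import Pool.Agent.KTen.FinalG
import Pool.Agent.KRing.ManyLower

/-! Iterated side joins: the lower bound for types with respect to a group. -/

set_option autoImplicit false

open Set Filter Topology

namespace Pool.Agent.KTen

open Pool.Agent.LK Pool.Agent.KTube

variable {G : Subgroup (R3 ≃ₜ R3)} {y : ℝ}

theorem tower_group (hT : ∀ t : R3, Homeomorph.addRight t ∈ G)
    (hG : ∀ φ : R3 ≃ₜ R3, φ ∈ G ∨ φ * negY ∈ G) (hy : 4096 ≤ y) {K R : ES} {N : ℕ}
    (hR : Tower N R) (hKR : SameType K R) : ∃ δ : ℝ, 0 < δ ∧ ∃ n0 : ℕ, ∀ n ≥ n0,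
      δ * (n : ℝ) ^ N * Zt y UClass n ≤ Zt y (GClass G K) n := by
  have hy0 : (0 : ℝ) ≤ y := le_trans (by norm_num) hy
  obtain ⟨δ, hδ, n0, h⟩ := KRing.tower_lower hy hR hKR
  refine ⟨δ / 2, by positivity, n0, fun n hn => ?_⟩
  have h1 := h n hn
  have h2 := zt_g_le hT hG hy0 K n
  linarith

/-- A knotted polygon is a tower of height one. -/
theorem tower_one {K : ES} (hK : IsPolygon K) (nK : ¬ Unknotted K) :
    ∃ R, Tower 1 R ∧ SameType K R := by
  obtain ⟨K0, h, z, hT, hL⟩ := exists_leftOf hK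
  have nK0 : ¬ Unknotted K0 := fun h0 => nK (hT.unknotted h0)
  have hab : ((0, 0) : ℤ × ℤ) ≠ (1, 0) := by decide
  obtain ⟨E, hE, uE, hc⟩ := exists_unknot_two hab 0
  have hlex : Lex (0, 0) (1, 0) := Or.inl (by norm_num)
  exact ⟨insK K0 h z (0, 0) E 0, Tower.succ 0 E K0 h z 0 (0, 0) (1, 0) (Tower.zero E hE uE) hL nK0
    hc hlex, hT.trans (insK_type hL hE hc hlex uE)⟩

end Pool.Agent.KTen
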