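import Pool.Agent.KTen.Super
import Pool.Agent.KTen.Ratio

/-! The growth rate. -/

set_option autoImplicit false

open Set Filter Topology

namespace Pool.Agent.KTen

open Pool.Agent.LK Pool.Agent.KTube

variable {x : ℝ}

private theorem mu_fekete {U : ℕ → ℝ} {c B : ℝ} (hc : 0 < c) (hB : 1 ≤ B)
    (hpos : ∀ k, 2 ≤ k → 0 < U k) (hmono : ∀ k, 2 ≤ k → U k ≤ U (k + 1))
    (hsup : ∀ j k, 2 ≤ j → 2 ≤ k → c * (U j * U k) ≤ U (j + k))
    (hup : ∀ k, U k ≤ B ^ (2 * k)) :
    ∃ μ : ℝ, 0 < μ ∧ Tendsto (fun k : ℕ => U k ^ (((2 * k : ℕ) : ℝ)⁻¹)) atTop (𝓝 μ) := by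
  set a : ℕ → ℝ := fun k => Real.log c + Real.log (U k) with ha
  have h1 : ∀ j k, 2 ≤ j → 2 ≤ k → a j + a k ≤ a (j + k) := by
    intro j k hj hk
    have h := Real.log_le_log (mul_pos hc (mul_pos (hpos j hj) (hpos k hk))) (hsup j k hj hk)
    rw [Real.log_mul hc.ne' (mul_pos (hpos j hj) (hpos k hk)).ne',
      Real.log_mul (hpos j hj).ne' (hpos k hk).ne'] at h
    simp only [ha]
    linarith
  have h2 : ∀ k, 2 ≤ k → a k ≤ a (k + 1) := by
    intro k hk
    have h := Real.log_le_log (hpos k hk) (hmono k hk)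
    simp only [ha]
    linarith
  set w : ℕ → ℝ := fun k => if k = 0 then 0 else if k = 1 then |a 2| else -a k with hw
  have w0 : w 0 = 0 := if_pos rfl
  have w1 : w 1 = |a 2| := by simp [hw]
  have w2 : ∀ k, 2 ≤ k → w k = -a k := fun k hk => by
    simp only [hw]
    rw [if_neg (by omega), if_neg (by omega)]
  have hsub : Subadditive w := by
    intro m n
    rcases Nat.lt_or_ge m 2 with hm | hm
    · interval_cases m
      · rw [w0, zero_add, zero_add]
      · rcases Nat.lt_or_ge n 2 with hn | hn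
        · interval_cases n
          · rw [w0, add_zero]; simp
          · rw [w1, w2 2 le_rfl]
            have := neg_abs_le (a 2)
            have := abs_nonneg (a 2)
            linarith
        · rw [w1, w2 n hn, w2 (1 + n) (by omega), add_comm 1 n]
          have := h2 n hn
          have := abs_nonneg (a 2)
          linarith
    · rcases Nat.lt_or_ge n 2 with hn | hn
      · interval_cases n
        · rw [w0, add_zero, add_zero]
        · rw [w1, w2 m hm, w2 (m + 1) (by omega)]
          have := h2 m hm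
          have := abs_nonneg (a 2)
          linarith
      · rw [w2 m hm, w2 n hn, w2 (m + n) (by omega)]
        have := h1 m n hm hn
        linarith
  have hbdd : BddBelow (range fun n => w n / n) := by
    refine ⟨-(|Real.log c| + 2 * Real.log B), ?_⟩
    rintro _ ⟨n, rfl⟩
    have hlB : 0 ≤ Real.log B := Real.log_nonneg hB
    have hlc := abs_nonneg (Real.log c)
    rcases Nat.lt_or_ge n 2 with hn | hn
    · have : 0 ≤ w n / n := by
        interval_cases n
        · simp
        · rw [w1]; positivity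
      simp only
      linarith
    · have hn0 : (0 : ℝ) < n := by positivity
      simp only
      rw [le_div_iff₀ hn0, w2 n hn]
      have h := Real.log_le_log (hpos n hn) (hup n)
      rw [Real.log_pow] at h
      push_cast at h
      have h3 : (1 : ℝ) ≤ n := by exact_mod_cast (by omega : 1 ≤ n)
      have h4 := le_abs_self (Real.log c)
      simp only [ha]
      nlinarith
  have hlim := hsub.tendsto_lim hbdd
  refine ⟨Real.exp (-(hsub.lim / 2)), Real.exp_pos _, ?_⟩
  have h3 : Tendsto (fun k : ℕ => Real.exp (-(w k / k / 2) - Real.log c * (((2 * k : ℕ) : ℝ)⁻¹)))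
      atTop (𝓝 (Real.exp (-(hsub.lim / 2) - Real.log c * 0))) := by
    refine (Real.continuous_exp.tendsto _).comp ?_
    refine Tendsto.sub ((hlim.div_const 2).neg) (Tendsto.const_mul _ ?_)
    refine tendsto_inv_atTop_zero.comp (tendsto_natCast_atTop_atTop.comp ?_)
    exact tendsto_id.const_mul_atTop' (by norm_num)
  rw [mul_zero, sub_zero] at h3
  refine h3.congr' ?_
  filter_upwards [eventually_ge_atTop 2] with k hk
  have hk0 : (0 : ℝ) < k := by positivity
  rw [Real.rpow_def_of_pos (hpos k hk), w2 k hk]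
  congr 1
  simp only [ha]
  push_cast
  field_simp
  ring

/-- The growth rate exists. -/
theorem exists_mu (hx : 1 ≤ x) : ∃ μ : ℝ, 0 < μ ∧
    Tendsto (fun k : ℕ => Zt (x ^ 2) UClass (2 * k) ^ (((2 * k : ℕ) : ℝ)⁻¹)) atTop (𝓝 μ) := by
  refine mu_fekete (U := fun k => Zt (x ^ 2) UClass (2 * k)) (c := x ^ 2 / 4) (B := x + 8)
    (by positivity) (by linarith) (fun k hk => u_pos hx (even_two_mul k) (by omega)) ?_ ?_ ?_
  · intro k hk
    have h := ratio_down hx (2 * k) 1
    rw [pow_one] at h
    have h1 : (1 : ℝ) ≤ x ^ 2 := one_le_pow₀ hx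
    have h2 := (u_pos hx (even_two_mul k) (by omega)).le
    calc Zt (x ^ 2) UClass (2 * k) = 1 * Zt (x ^ 2) UClass (2 * k) := (one_mul _).symm
      _ ≤ x ^ 2 * Zt (x ^ 2) UClass (2 * k) := mul_le_mul_of_nonneg_right h1 h2
      _ ≤ Zt (x ^ 2) UClass (2 * k + 2 * 1) := h
      _ = Zt (x ^ 2) UClass (2 * (k + 1)) := by rw [mul_add]
  · intro j k hj hk
    have h := zt_super hx (2 * j) (2 * k)
    rw [← mul_add] at h
    linarith
  · intro k
    exact zt_le_pow hx UClass (2 * k)

end Pool.Agent.KTen
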