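import Pool.Agent.KTen.Upper
import Pool.Agent.KTen.Lower
import Pool.Agent.KTen.Mu

/-! The theorem on stretched polygons. -/

set_option autoImplicit false

set_option linter.unusedVariables false

open Set Filter Topology

namespace Pool.Agent.KTen

open Pool.Agent.LK Pool.Agent.KTube

/-- A sequence between two multiples of powers of `n` times `U` has the same growth rate. -/
theorem rate_of_bounds {U Z : ℕ → ℝ} {μ D δ : ℝ} {N : ℕ} (hμ : 0 < μ) (hδ : 0 < δ)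
    (hU : Tendsto (fun k : ℕ => U (2 * k) ^ (((2 * k : ℕ) : ℝ)⁻¹)) atTop (𝓝 μ))
    (hpos : ∀ k ≥ 2, 0 < U (2 * k))
    (hup : ∀ᶠ k in atTop, Z (2 * k) ≤ D * ((2 * k : ℕ) : ℝ) ^ N * U (2 * k))
    (hlo : ∀ᶠ k in atTop, δ * U (2 * k) ≤ Z (2 * k)) :
    Tendsto (fun k : ℕ => Z (2 * k) ^ (((2 * k : ℕ) : ℝ)⁻¹)) atTop (𝓝 μ) := by
  have ht : Tendsto (fun k : ℕ => ((2 * k : ℕ) : ℝ)) atTop atTop :=
    tendsto_natCast_atTop_atTop.comp (tendsto_id.const_mul_atTop' (by norm_num))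
  have hinv : Tendsto (fun k : ℕ => (((2 * k : ℕ) : ℝ)⁻¹)) atTop (𝓝 0) :=
    tendsto_inv_atTop_zero.comp ht
  have hconst : ∀ b : ℝ, 0 < b → Tendsto (fun k : ℕ => b ^ (((2 * k : ℕ) : ℝ)⁻¹)) atTop (𝓝 1) := by
    intro b hb
    have h := (Real.continuous_const_rpow hb.ne').tendsto 0
    rw [Real.rpow_zero] at h
    exact h.comp hinv
  have hroot : Tendsto (fun k : ℕ => (((2 * k : ℕ) : ℝ) ^ N) ^ (((2 * k : ℕ) : ℝ)⁻¹)) atTop
      (𝓝 1) := by
    have h := (tendsto_rpow_div.comp ht).pow N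
    rw [one_pow] at h
    refine h.congr fun k => ?_
    simp only [Function.comp]
    rw [← Real.rpow_natCast, ← Real.rpow_natCast, ← Real.rpow_mul (by positivity),
      ← Real.rpow_mul (by positivity), one_div, mul_comm (((2 * k : ℕ) : ℝ)⁻¹)]
  have hlow : Tendsto (fun k : ℕ => δ ^ (((2 * k : ℕ) : ℝ)⁻¹) * U (2 * k) ^ (((2 * k : ℕ) : ℝ)⁻¹))
      atTop (𝓝 μ) := by
    have := (hconst δ hδ).mul hU
    rwa [one_mul] at this
  have hupp : Tendsto (fun k : ℕ => max D 1 ^ (((2 * k : ℕ) : ℝ)⁻¹) *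
      (((2 * k : ℕ) : ℝ) ^ N) ^ (((2 * k : ℕ) : ℝ)⁻¹) * U (2 * k) ^ (((2 * k : ℕ) : ℝ)⁻¹))
      atTop (𝓝 μ) := by
    have := ((hconst (max D 1) (by positivity)).mul hroot).mul hU
    rwa [one_mul, one_mul] at this
  refine tendsto_of_tendsto_of_tendsto_of_le_of_le' hlow hupp ?_ ?_
  · filter_upwards [hlo, eventually_ge_atTop 2] with k hk hk2
    rw [← Real.mul_rpow hδ.le (hpos k hk2).le]
    exact Real.rpow_le_rpow (mul_pos hδ (hpos k hk2)).le hk (by positivity)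
  · filter_upwards [hup, hlo, eventually_ge_atTop 2] with k hk hk1 hk2
    have hU0 := hpos k hk2
    have hZ0 : 0 ≤ Z (2 * k) := (mul_pos hδ hU0).le.trans hk1
    rw [← Real.mul_rpow (by positivity) (by positivity),
      ← Real.mul_rpow (by positivity) hU0.le]
    refine Real.rpow_le_rpow hZ0 (hk.trans ?_) (by positivity)
    have : D * ((2 * k : ℕ) : ℝ) ^ N ≤ max D 1 * ((2 * k : ℕ) : ℝ) ^ N :=
      mul_le_mul_of_nonneg_right (le_max_left _ _) (by positivity)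
    exact mul_le_mul_of_nonneg_right this hU0.le

/-- **Stretched polygons.** -/
theorem main {y : ℝ} (hy : 10 ^ 8 ≤ y) :
    (∃ μ : ℝ, 0 < μ ∧
      Tendsto (fun k : ℕ => Zt y UClass (2 * k) ^ (((2 * k : ℕ) : ℝ)⁻¹)) atTop (𝓝 μ) ∧
      ∀ (K : ES) (N : ℕ), IsPolygon K → Few N K →
        Tendsto (fun k : ℕ => Zt y (KClass K) (2 * k) ^ (((2 * k : ℕ) : ℝ)⁻¹)) atTop (𝓝 μ)) ∧
    (∀ N : ℕ, ∃ D : ℝ, ∀ n, Zt y (Few N) n ≤ D * (n : ℝ) ^ N * Zt y UClass n) ∧
    (∀ K : ES, IsPolygon K → ¬ Unknotted K → ∃ δ : ℝ, 0 < δ ∧ ∃ n0 : ℕ, ∀ n ≥ n0,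
      δ * n * Zt y UClass n ≤ Zt y (KClass K) n) := by
  have hy0 : (0 : ℝ) ≤ y := le_trans (by norm_num) hy
  obtain ⟨x, hx, rfl⟩ : ∃ x : ℝ, 10 ^ 4 ≤ x ∧ y = x ^ 2 := by
    refine ⟨Real.sqrt y, ?_, (Real.sq_sqrt hy0).symm⟩
    apply Real.le_sqrt_of_sq_le
    calc ((10 : ℝ) ^ 4) ^ 2 = 10 ^ 8 := by norm_num
      _ ≤ y := hy
  have hx1 : (1 : ℝ) ≤ x := le_trans (by norm_num) hx
  refine ⟨?_, fun N => ?_, fun K hK nK => lower hx hK nK⟩
  · obtain ⟨μ, hμ, hlim⟩ := exists_mu hx1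
    refine ⟨μ, hμ, hlim, fun K N hK hN => ?_⟩
    by_cases uK : Unknotted K
    · have heq : ∀ n, Zt (x ^ 2) (KClass K) n = Zt (x ^ 2) UClass n := by
        intro n
        have hset : NSet (KClass K) n = NSet UClass n := by
          ext E
          constructor
          · rintro ⟨h1, h2, h3, h4⟩
            exact ⟨h1, ⟨h1, hinv_few 0 K E h2.2 uK⟩, h3, h4⟩
          · rintro ⟨h1, h2, h3, h4⟩
            obtain ⟨φ, hφ⟩ := uK
            obtain ⟨ψ, hψ⟩ := h2.2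
            refine ⟨h1, ⟨h1, φ.trans ψ.symm, ?_⟩, h3, h4⟩
            have e1 : (φ.trans ψ.symm) '' body K = ψ.symm '' (φ '' body K) := by
              rw [← Set.image_comp]
              rfl
            rw [e1, hφ, ← hψ, ← Set.image_comp]
            have e2 : (⇑ψ.symm ∘ ⇑ψ) = id := by
              funext p
              exact ψ.symm_apply_apply p
            rw [e2, Set.image_id]
        unfold Zt
        rw [hset]
      simp only [heq]
      exact hlim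
    · obtain ⟨D, hD0, hD⟩ := upper hx N
      obtain ⟨δ, hδ, n0, hn0⟩ := lower hx hK uK
      refine rate_of_bounds (D := D) (δ := δ) (N := N) hμ hδ hlim
        (fun k hk => u_pos hx1 (even_two_mul k) (by omega)) ?_ ?_
      · refine Eventually.of_forall fun k => ?_
        refine le_trans (zt_mono (sq_nonneg x) (fun E hE hC => ?_) (2 * k)) (hD (2 * k))
        exact hinv_few N K E hC.2 hN
      · filter_upwards [eventually_ge_atTop (max n0 1)] with k hk
        have hk1 : n0 ≤ k := le_trans (le_max_left _ _) hk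
        have hk2 : 1 ≤ k := le_trans (le_max_right _ _) hk
        refine le_trans ?_ (hn0 (2 * k) (by omega))
        have hU := zt_nonneg (sq_nonneg x) UClass (2 * k)
        have h1 : (1 : ℝ) ≤ ((2 * k : ℕ) : ℝ) := by exact_mod_cast (by omega : 1 ≤ 2 * k)
        calc δ * Zt (x ^ 2) UClass (2 * k) = δ * 1 * Zt (x ^ 2) UClass (2 * k) := by
              rw [mul_one]
          _ ≤ δ * ((2 * k : ℕ) : ℝ) * Zt (x ^ 2) UClass (2 * k) :=
              mul_le_mul_of_nonneg_right (mul_le_mul_of_nonneg_left h1 hδ.le) hU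
  · obtain ⟨D, _, hD⟩ := upper hx N
    exact ⟨D, hD⟩

end Pool.Agent.KTen
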