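import Pool.Agent.KTen.Defs

/-! Paths of columns that avoid the column `0`. -/

set_option autoImplicit false

namespace Pool.Agent.KTen

/-- a path of columns with `n` steps that avoids the column `0` -/
private def PathTo (n : ℕ) (v w : ℤ × ℤ) : Prop := ∃ c : ℕ → ℤ × ℤ, c 0 = v ∧ c n = w ∧
  (∀ i, c i ≠ 0) ∧ ∀ i < n, |(c (i + 1)).1 - (c i).1| + |(c (i + 1)).2 - (c i).2| = 1

private lemma pathTo_zero {v : ℤ × ℤ} (hv : v ≠ 0) : PathTo 0 v v :=
  ⟨fun _ => v, rfl, rfl, fun _ => hv, fun i hi => absurd hi (Nat.not_lt_zero i)⟩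

private lemma pathTo_one {v w : ℤ × ℤ} (hv : v ≠ 0) (hw : w ≠ 0)
    (h : |w.1 - v.1| + |w.2 - v.2| = 1) : PathTo 1 v w := by
  refine ⟨fun i => if i = 0 then v else w, by simp, by simp, ?_, ?_⟩
  · intro i
    show (if i = 0 then v else w) ≠ 0
    split_ifs
    · exact hv
    · exact hw
  · intro i hi
    have : i = 0 := by omega
    subst this
    simpa using h

private lemma PathTo.trans {n m : ℕ} {u v w : ℤ × ℤ} (h1 : PathTo n u v) (h2 : PathTo m v w) :
    PathTo (n + m) u w := by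
  obtain ⟨c, c0, cn, cz, cs⟩ := h1
  obtain ⟨d, d0, dm, dz, ds⟩ := h2
  refine ⟨fun i => if i ≤ n then c i else d (i - n), ?_, ?_, ?_, ?_⟩
  · simp [c0]
  · by_cases hm : m = 0
    · subst hm
      simp [cn, ← d0, dm]
    · have h : ¬ n + m ≤ n := by omega
      simp [h, dm]
  · intro i
    show (if i ≤ n then c i else d (i - n)) ≠ 0
    split_ifs
    · exact cz _
    · exact dz _
  · intro i hi
    show |(if i + 1 ≤ n then c (i + 1) else d (i + 1 - n)).1 -
        (if i ≤ n then c i else d (i - n)).1| +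
      |(if i + 1 ≤ n then c (i + 1) else d (i + 1 - n)).2 -
        (if i ≤ n then c i else d (i - n)).2| = 1
    by_cases h : i + 1 ≤ n
    · rw [if_pos h, if_pos (show i ≤ n by omega)]
      exact cs i (by omega)
    · by_cases h' : i ≤ n
      · have : i = n := by omega
        subst this
        rw [if_neg h, if_pos h', cn, ← d0, show i + 1 - i = 0 + 1 by omega]
        exact ds 0 (by omega)
      · rw [if_neg h, if_neg h', show i + 1 - n = (i - n) + 1 by omega]
        exact ds (i - n) (by omega)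

private lemma PathTo.swap {n : ℕ} {v w : ℤ × ℤ} (h : PathTo n v w) :
    PathTo n (v.2, v.1) (w.2, w.1) := by
  obtain ⟨c, c0, cn, cz, cs⟩ := h
  refine ⟨fun i => ((c i).2, (c i).1), ?_, ?_, ?_, ?_⟩
  · show ((c 0).2, (c 0).1) = _
    rw [c0]
  · show ((c n).2, (c n).1) = _
    rw [cn]
  · intro i h0
    apply cz i
    have h1 : (c i).2 = 0 := congrArg Prod.fst h0
    have h2 : (c i).1 = 0 := congrArg Prod.snd h0
    exact Prod.ext h2 h1
  · intro i hi
    show |(c (i + 1)).2 - (c i).2| + |(c (i + 1)).1 - (c i).1| = 1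
    rw [add_comm]
    exact cs i hi

private lemma ne_pair {a b : ℤ} (h : b ≠ 0 ∨ a ≠ 0) : ((a, b) : ℤ × ℤ) ≠ 0 := by
  intro h0
  have h1 : a = 0 := congrArg Prod.fst h0
  have h2 : b = 0 := congrArg Prod.snd h0
  rcases h with h | h
  · exact h h2
  · exact h h1

/-- horizontal lines -/
private lemma pathTo_line (n : ℕ) : ∀ a a' b : ℤ, (a' - a).natAbs = n →
    (b ≠ 0 ∨ (0 < a ∧ 0 < a') ∨ (a < 0 ∧ a' < 0)) → PathTo n (a, b) (a', b) := by
  induction n with
  | zero =>
    intro a a' b hn h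
    have : a' = a := by omega
    subst this
    exact pathTo_zero (ne_pair (by omega))
  | succ n ih =>
    intro a a' b hn h
    rcases lt_or_ge a a' with hlt | hge
    · have h1 := ih (a + 1) a' b (by omega) (by omega)
      have h2 := (pathTo_one (v := (a, b)) (w := (a + 1, b)) (ne_pair (by omega))
        (ne_pair (by omega)) (by simp)).trans h1
      rwa [add_comm] at h2
    · have h1 := ih (a - 1) a' b (by omega) (by omega)
      have h2 := (pathTo_one (v := (a, b)) (w := (a - 1, b)) (ne_pair (by omega))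
        (ne_pair (by omega)) (by simp)).trans h1
      rwa [add_comm] at h2

/-- vertical lines -/
private lemma pathTo_line' (n : ℕ) (a b b' : ℤ) (hn : (b' - b).natAbs = n)
    (h : a ≠ 0 ∨ (0 < b ∧ 0 < b') ∨ (b < 0 ∧ b' < 0)) : PathTo n (a, b) (a, b') :=
  (pathTo_line n b b' a hn h).swap

/-- **Paths of columns** that avoid the column `0` and have `|w - v| + 2` steps. -/
theorem exists_cols {v w : ℤ × ℤ} (hv : v ≠ 0) (hw : w ≠ 0) : ∃ c : ℕ → ℤ × ℤ, c 0 = v ∧
    c (nrm1 (w - v) + 2) = w ∧ (∀ i, c i ≠ 0) ∧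
    ∀ i < nrm1 (w - v) + 2, |(c (i + 1)).1 - (c i).1| + |(c (i + 1)).2 - (c i).2| = 1 := by
  obtain ⟨a, b⟩ := v
  obtain ⟨a', b'⟩ := w
  have hab : a ≠ 0 ∨ b ≠ 0 := by
    by_contra hcon
    push Not at hcon
    exact hv (Prod.ext hcon.1 hcon.2)
  have hab' : a' ≠ 0 ∨ b' ≠ 0 := by
    by_contra hcon
    push Not at hcon
    exact hw (Prod.ext hcon.1 hcon.2)
  have hnrm : nrm1 (((a', b') : ℤ × ℤ) - (a, b)) = (a' - a).natAbs + (b' - b).natAbs := rfl
  show PathTo (nrm1 (((a', b') : ℤ × ℤ) - (a, b)) + 2) (a, b) (a', b')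
  rw [hnrm]
  -- back and forth
  have h2 : PathTo 2 (a, b) (a, b) := by
    by_cases hb : b + 1 ≠ 0 ∨ a ≠ 0
    · exact (pathTo_one (v := (a, b)) (w := (a, b + 1)) hv (ne_pair hb) (by simp)).trans
        (pathTo_one (ne_pair hb) hv (by simp))
    · have hb' : b - 1 ≠ 0 ∨ a ≠ 0 := by omega
      exact (pathTo_one (v := (a, b)) (w := (a, b - 1)) hv (ne_pair hb') (by simp)).trans
        (pathTo_one (ne_pair hb') hv (by simp))
  by_cases c1 : (b ≠ 0 ∨ (0 < a ∧ 0 < a') ∨ (a < 0 ∧ a' < 0)) ∧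
      (a' ≠ 0 ∨ (0 < b ∧ 0 < b') ∨ (b < 0 ∧ b' < 0))
  · have h3 := h2.trans ((pathTo_line _ a a' b rfl c1.1).trans (pathTo_line' _ a' b b' rfl c1.2))
    rwa [add_comm] at h3
  by_cases c2 : (a ≠ 0 ∨ (0 < b ∧ 0 < b') ∨ (b < 0 ∧ b' < 0)) ∧
      (b' ≠ 0 ∨ (0 < a ∧ 0 < a') ∨ (a < 0 ∧ a' < 0))
  · have h3 := h2.trans ((pathTo_line' _ a b b' rfl c2.1).trans (pathTo_line _ a a' b' rfl c2.2))
    rw [add_comm] at h3
    rwa [add_comm (a' - a).natAbs]
  by_cases hb : b = 0
  · -- both columns on the first axis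
    have hb' : b' = 0 := by omega
    subst hb hb'
    have h3 := (pathTo_one (v := (a, 0)) (w := (a, 1)) hv (ne_pair (by omega)) (by simp)).trans
      ((pathTo_line _ a a' 1 rfl (by omega)).trans
        (pathTo_one (v := (a', 1)) (w := (a', 0)) (ne_pair (by omega)) hw (by simp)))
    have e : (a' - a).natAbs + ((0 : ℤ) - 0).natAbs + 2 = 1 + ((a' - a).natAbs + 1) := by omega
    rw [e]
    exact h3
  · have ha : a = 0 := by omega
    have ha' : a' = 0 := by omega
    subst ha ha'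
    have h3 := (pathTo_one (v := (0, b)) (w := (1, b)) hv (ne_pair (by omega)) (by simp)).trans
      ((pathTo_line' _ 1 b b' rfl (by omega)).trans
        (pathTo_one (v := (1, b')) (w := (0, b')) (ne_pair (by omega)) hw (by simp)))
    have e : ((0 : ℤ) - 0).natAbs + (b' - b).natAbs + 2 = 1 + ((b' - b).natAbs + 1) := by omega
    rw [e]
    exact h3

end Pool.Agent.KTen
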