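import Pool.Agent.KTen.Count
import Pool.Agent.KTen.SpliceShift

/-! Comparison of partition functions for classes invariant under translations. -/

set_option autoImplicit false

open Set

namespace Pool.Agent.KTen

open Pool.Agent.LK Pool.Agent.KTube

variable {C C' : ES → Prop} {n : ℕ} {y : ℝ}

private theorem cg_eq (y : ℝ) (C : ES → Prop) (n : ℕ) :
    Zt y C n = ∑ E ∈ (nset_finite C n).toFinset, y ^ span E :=
  finsum_mem_eq_finite_toFinset_sum _ (nset_finite C n)

/-- As `compare`, for a class that is invariant under translations. -/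
theorem compareG {ι μ : Type} [Fintype ι] (hC' : ∀ (E : ES) (r : P3), C' E → C' (shift r E))
    (hy : 0 ≤ y) {X : Set ES}
    (hX : ∀ E ∈ X, IsPolygon E ∧ Normed E ∧ E.card = n) (g : ES → ι → ES) (mk : ES → ι → μ)
    {m : ℕ} (hg : ∀ E ∈ X, ∀ i, IsPolygon (g E i) ∧ C' (g E i) ∧ (g E i).card = m)
    (hinj : ∀ E ∈ X, ∀ i, ∀ E' ∈ X, ∀ i', ∀ r : P3, g E' i' = shift r (g E i) →
      mk E i = mk E' i' → (∃ r' : P3, E' = shift r' E) ∧ i = i')
    (S : ES → Finset μ) (hS : ∀ E ∈ X, ∀ i, ∀ r : P3, mk E i ∈ S (shift r (g E i))) {M : ℕ}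
    (hM : ∀ F, IsPolygon F → F.card = m → (S F).card ≤ M) :
    ∑ᶠ E ∈ X, ∑ i : ι, y ^ span (g E i) ≤ M * Zt y C' m := by
  classical
  have hXf : X.Finite := (nset_finite (fun _ => True) n).subset fun E hE =>
    ⟨(hX E hE).1, trivial, (hX E hE).2⟩
  rw [finsum_mem_eq_finite_toFinset_sum _ hXf, cg_eq, ← Finset.sum_product']
  -- normal forms
  have hne : ∀ E : ES, IsPolygon E → (verts E).Nonempty := by
    intro E hE
    obtain ⟨e, he⟩ := hE.nonempty
    induction e using Sym2.ind with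
    | _ u v => exact ⟨u, mem_verts_left he⟩
  have hnf : ∀ E : ES, IsPolygon E → ∃ r : P3, Normed (shift r E) := fun E hE =>
    exists_normed (hne E hE)
  choose! r hr using hnf
  set Φ : ES × ι → (_ : ES) × μ := fun p => ⟨shift (r (g p.1 p.2)) (g p.1 p.2), mk p.1 p.2⟩ with hΦ
  have hinjΦ : Set.InjOn Φ (hXf.toFinset ×ˢ (Finset.univ : Finset ι) : Finset (ES × ι)) := by
    rintro ⟨E, i⟩ hE ⟨E', i'⟩ hE' heq
    rw [Finset.mem_coe, Finset.mem_product, Finite.mem_toFinset] at hE hE'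
    simp only [hΦ, Sigma.mk.injEq, heq_eq_eq] at heq
    obtain ⟨h1, h2⟩ := heq
    have h3 : g E' i' = shift (-(r (g E' i')) + r (g E i)) (g E i) := by
      have h4 := congrArg (shift (-(r (g E' i')))) h1
      rw [shift_shift, shift_shift, neg_add_cancel, shift_zero] at h4
      exact h4.symm
    obtain ⟨⟨r', hr'⟩, hi⟩ := hinj E hE.1 i E' hE'.1 i' _ h3 h2
    have h5 : r' = 0 := (hX E hE.1).2.1.eq_zero (hr' ▸ (hX E' hE'.1).2.1)
    rw [h5, shift_zero] at hr'
    rw [hr', hi]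
  have hpoly : ∀ p ∈ (hXf.toFinset ×ˢ (Finset.univ : Finset ι) : Finset (ES × ι)),
      Φ p ∈ (nset_finite C' m).toFinset.sigma S := by
    rintro ⟨E, i⟩ hE
    rw [Finset.mem_product, Finite.mem_toFinset] at hE
    obtain ⟨h1, h2, h3⟩ := hg E hE.1 i
    rw [Finset.mem_sigma, Finite.mem_toFinset]
    refine ⟨⟨isPolygon_shift h1 _, hC' _ _ h2, hr _ h1, ?_⟩, hS E hE.1 i _⟩
    show (shift (r (g E i)) (g E i)).card = m
    rw [card_shift, h3]
  calc ∑ p ∈ hXf.toFinset ×ˢ (Finset.univ : Finset ι), y ^ span (g p.1 p.2)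
      = ∑ p ∈ hXf.toFinset ×ˢ (Finset.univ : Finset ι), y ^ span (Φ p).1 :=
        Finset.sum_congr rfl fun p _ => by
          show _ = y ^ span (shift (r (g p.1 p.2)) (g p.1 p.2))
          rw [span_shift]
    _ = ∑ q ∈ (hXf.toFinset ×ˢ (Finset.univ : Finset ι)).image Φ, y ^ span q.1 :=
        (Finset.sum_image (f := fun q : (_ : ES) × μ => y ^ span q.1) hinjΦ).symm
    _ ≤ ∑ q ∈ (nset_finite C' m).toFinset.sigma S, y ^ span q.1 := by
        refine Finset.sum_le_sum_of_subset_of_nonneg ?_ fun q _ _ => pow_nonneg hy _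
        exact Finset.image_subset_iff.2 hpoly
    _ = ∑ F ∈ (nset_finite C' m).toFinset, ((S F).card : ℝ) * y ^ span F := by
        rw [Finset.sum_sigma]
        exact Finset.sum_congr rfl fun F _ => by simp only [Finset.sum_const, nsmul_eq_mul]
    _ ≤ ∑ F ∈ (nset_finite C' m).toFinset, (M : ℝ) * y ^ span F := by
        refine Finset.sum_le_sum fun F hF => ?_
        rw [Finite.mem_toFinset] at hF
        refine mul_le_mul_of_nonneg_right ?_ (pow_nonneg hy _)
        exact_mod_cast hM F hF.1 hF.2.2.2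
    _ = M * ∑ F ∈ (nset_finite C' m).toFinset, y ^ span F := by rw [Finset.mul_sum]

end Pool.Agent.KTen
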