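import Pool.Agent.KTube.StretchMem
import Pool.Agent.MP_aea6d5_co.Basic
import Pool.Agent.MP_aea6d5_co.KMoves

/-! Lattice polygons of the cubic lattice under tension: partition function, splicing, knotted
pieces. -/

set_option autoImplicit false

open Filter Topology

namespace Pool.Agent.KTen

open Pool.Agent.LK Pool.Agent.KTube

/-- Edge sets. -/
abbrev ES := Finset (Sym2 P3)

/-- The polygons of the class `C` with `n` edges in normal position: one representative for each
class of polygons modulo all translations. -/
def NSet (C : ES → Prop) (n : ℕ) : Set ES := {E | IsPolygon E ∧ C E ∧ Normed E ∧ E.card = n}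

/-- The partition function of the stretched polygons of the class `C` with `n` edges: the weight
of a polygon is `y ^ span`. -/
noncomputable def Zt (y : ℝ) (C : ES → Prop) (n : ℕ) : ℝ := ∑ᶠ E ∈ NSet C n, y ^ span E

/-- The class is invariant under homeomorphisms of space. -/
def HInv (C : ES → Prop) : Prop := ∀ E F : ES, SameType E F → C E → C F

/-! ### Parts of a polygon -/

open Classical in
/-- The edges with an end at a level `≤ k`. -/
noncomputable def lowE (E : ES) (k : ℤ) : ES := E.filter fun e => ∃ u ∈ e, u.2.2 ≤ k

open Classical in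
/-- The edges with an end at a level `≥ k + 1`. -/
noncomputable def uppE (E : ES) (k : ℤ) : ES := E.filter fun e => ∃ u ∈ e, k + 1 ≤ u.2.2

/-- The part of `E` below the plane `z = k + 1/2` and the part of `F` above it. -/
noncomputable def splice (E F : ES) (k : ℤ) : ES := lowE E k ∪ uppE F k

open Classical in
/-- The edges with both ends at levels `≤ s`. -/
noncomputable def botE (E : ES) (s : ℤ) : ES := E.filter fun e => ∀ u ∈ e, u.2.2 ≤ s

open Classical in
/-- The edges with both ends at levels `≥ t + 1`. -/
noncomputable def topE (E : ES) (t : ℤ) : ES := E.filter fun e => ∀ u ∈ e, t + 1 ≤ u.2.2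

open Classical in
/-- The edges with an end at one of the levels `s + 1, …, t`. -/
noncomputable def midE (E : ES) (s t : ℤ) : ES :=
  E.filter fun e => ∃ u ∈ e, s + 1 ≤ u.2.2 ∧ u.2.2 ≤ t

/-- The part of `E` below the plane `z = k + 1/2` is unknotted: with some other upper part it is
an unknotted polygon. -/
def LowU (E : ES) (k : ℤ) : Prop :=
  ∃ F, IsPolygon F ∧ cross F k = cross E k ∧ Unknotted (splice E F k)

/-- The part of `E` above the plane `z = k + 1/2` is unknotted. -/
def UppU (E : ES) (k : ℤ) : Prop :=
  ∃ F, IsPolygon F ∧ cross F k = cross E k ∧ Unknotted (splice F E k)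

/-- `K` has at most `N` prime factors. For `N = 0`: it is unknotted. For `N + 1`: whenever a
stacked join of two lattice polygons has the type of `K`, the lower one is unknotted or the upper
one has at most `N` prime factors. -/
def Few : ℕ → ES → Prop
  | 0, K => Unknotted K
  | N + 1, K => ∀ E F x y h, IsPolygon E → IsPolygon F → Below E F →
    s((x, y, h), (x + 1, y, h)) ∈ E → s((x, y, h + 1), (x + 1, y, h + 1)) ∈ F →
    SameType K (joinZ E F x y h) → Unknotted E ∨ Few N F

/-! ### Numbers -/

open Classical in
/-- The number of horizontal edges. -/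
noncomputable def hor (E : ES) : ℕ := (E.filter fun e => ∃ k : ℤ, ∀ u ∈ e, u.2.2 = k).card

open Classical in
/-- The number of vertical edges. -/
noncomputable def ver (E : ES) : ℕ :=
  (E.filter fun e => ∃ a b k : ℤ, e = s((a, b, k), (a, b, k + 1))).card

/-- The number of sections with exactly two edges. -/
noncomputable def numTwo (E : ES) : ℕ := {k : ℤ | IsTwo E k}.ncard

/-- The level `k + 1` is straight: the planes `z = k + 1/2` and `z = k + 3/2` meet `E` in exactly
two edges, and there is no edge of `E` at level `k + 1`. -/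
def IsStr (E : ES) (k : ℤ) : Prop :=
  IsTwo E k ∧ IsTwo E (k + 1) ∧ ∀ u v : P3, s(u, v) ∈ E → u.2.2 = k + 1 → v.2.2 ≠ k + 1

/-- The number of straight levels. -/
noncomputable def numStr (E : ES) : ℕ := {k : ℤ | IsStr E k}.ncard

/-! ### Words -/

/-- The edges of the walk that starts at `p` and has the steps `w`. -/
def pathE (p : P3) : List P3 → ES
  | [] => ∅
  | d :: w => insert s(p, p + d) (pathE (p + d) w)

/-- The number of vertical steps. -/
def nv (w : List P3) : ℕ := w.countP fun d => d.2.2 ≠ 0

/-- The number of horizontal steps. -/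
def nh (w : List P3) : ℕ := w.countP fun d => d.2.2 = 0

/-- The horizontal displacement of the second walk minus that of the first walk. -/
def disp (w1 w2 : List P3) : ℤ × ℤ :=
  ((w2.sum).1 - (w1.sum).1, (w2.sum).2.1 - (w1.sum).2.1)

/-- The `l¹` norm. -/
def nrm1 (v : ℤ × ℤ) : ℕ := v.1.natAbs + v.2.natAbs

/-- Between the planes `z = s + 1/2` and `z = t + 1/2` the polygon consists of the walk with steps
`w1` from the column `a` and the walk with the steps `w2` from the column `b`. -/
structure Mid (E : ES) (s t : ℤ) (a b : ℤ × ℤ) (w1 w2 : List P3) : Prop where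
  lt : s < t
  bot : cross E s = {a, b}
  ne : a ≠ b
  unit : ∀ d ∈ w1 ++ w2, IsUnit3 d
  edges : midE E s t = pathE (a.1, a.2, s) w1 ∪ pathE (b.1, b.2, s) w2
  card : (midE E s t).card = w1.length + w2.length
  lev1 : s + (w1.sum).2.2 = t + 1
  lev2 : s + (w2.sum).2.2 = t + 1
  top : cross E t = {(a.1 + (w1.sum).1, a.2 + (w1.sum).2.1), (b.1 + (w2.sum).1, b.2 + (w2.sum).2.1)}
  ne' : (a.1 + (w1.sum).1, a.2 + (w1.sum).2.1) ≠ (b.1 + (w2.sum).1, b.2 + (w2.sum).2.1)

/-- The first part of `E` that is knotted lies between the planes `z = s + 1/2` and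
`z = t + 1/2`, which are consecutive two-sections. -/
def Piece (E : ES) (s t : ℤ) : Prop :=
  s < t ∧ IsTwo E s ∧ IsTwo E t ∧ (∀ k, s < k → k < t → ¬ IsTwo E k) ∧ LowU E s ∧ ¬ LowU E t

end Pool.Agent.KTen
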