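import Pool.Agent.KTen.Splice
import Pool.Agent.MP_aea6d5_co.PolyCyc

/-! The splice of two polygons at a common section with two edges is a polygon. -/

set_option autoImplicit false

open Set

namespace Pool.Agent.KTen

open Pool.Agent.LK Pool.Agent.KTube

variable {E F G H : ES} {k l s t : ℤ}

/-- An edge that crosses the plane lies over one of the columns of the section. -/
private theorem crossing_of (hE : ∀ u v, s(u, v) ∈ E → Adj u v) {u v : P3}
    (huv : s(u, v) ∈ E) (hu : u.2.2 ≤ k) (hv : k + 1 ≤ v.2.2) :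
    ∃ c ∈ cross E k, u = (c.1, c.2, k) ∧ v = (c.1, c.2, k + 1) := by
  rcases adj_cases k (hE u v huv) with ⟨h1, h2⟩ | ⟨h1, h2⟩ | ⟨a, b, h1⟩
  · omega
  · omega
  · have h2 : s((a, b, k), (a, b, k + 1)) ∈ E := h1 ▸ huv
    rw [Sym2.eq_iff] at h1
    rcases h1 with ⟨rfl, rfl⟩ | ⟨rfl, rfl⟩
    · exact ⟨(a, b), h2, rfl, rfl⟩
    · simp only at hu
      omega

private theorem splice_low (aF : ∀ u v, s(u, v) ∈ F → Adj u v) (hc : cross F k = cross E k)
    {u v : P3} (hu : u.2.2 ≤ k) : s(u, v) ∈ splice E F k ↔ s(u, v) ∈ E := by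
  rw [mem_splice]
  constructor
  · rintro (⟨h1, -⟩ | ⟨h1, h2⟩)
    · exact h1
    · have h3 : k + 1 ≤ v.2.2 := by omega
      obtain ⟨c, hc1, rfl, rfl⟩ := crossing_of aF h1 hu h3
      rw [hc] at hc1
      exact hc1
  · exact fun h => Or.inl ⟨h, Or.inl hu⟩

private theorem splice_upp (aE : ∀ u v, s(u, v) ∈ E → Adj u v) (hc : cross F k = cross E k)
    {u v : P3} (hu : k + 1 ≤ u.2.2) : s(u, v) ∈ splice E F k ↔ s(u, v) ∈ F := by
  rw [mem_splice]
  constructor
  · rintro (⟨h1, h2⟩ | ⟨h1, -⟩)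
    · have h3 : v.2.2 ≤ k := by omega
      rw [Sym2.eq_swap] at h1
      obtain ⟨c, hc1, rfl, rfl⟩ := crossing_of aE h1 h3 hu
      rw [← hc] at hc1
      rw [Sym2.eq_swap]
      exact hc1
    · exact h1
  · exact fun h => Or.inr ⟨h, Or.inl hu⟩

private theorem conn_low (hE : IsPolygon E) {a b : ℤ × ℤ} (hab : cross E k = {a, b}) {u : P3}
    (hu : u ∈ verts E) (huk : u.2.2 ≤ k) :
    Relation.ReflTransGen (fun x y => s(x, y) ∈ E ∧ x.2.2 ≤ k ∧ y.2.2 ≤ k) u (a.1, a.2, k) := by
  have ha : s((a.1, a.2, k), (a.1, a.2, k + 1)) ∈ E := by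
    have : a ∈ cross E k := by rw [hab]; simp
    exact this
  have hconn := arcStatement E hE _ _ ha u hu _ (LK.mem_verts_left ha)
  have key : ∀ w, Relation.ReflTransGen (fun x y => s(x, y) ∈ E ∧
      s(x, y) ≠ s((a.1, a.2, k), (a.1, a.2, k + 1))) u w →
      (w.2.2 ≤ k → Relation.ReflTransGen (fun x y => s(x, y) ∈ E ∧ x.2.2 ≤ k ∧ y.2.2 ≤ k) u w) ∧
      (k + 1 ≤ w.2.2 → Relation.ReflTransGen
        (fun x y => s(x, y) ∈ E ∧ x.2.2 ≤ k ∧ y.2.2 ≤ k) u (b.1, b.2, k)) := by
    intro w hw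
    induction hw with
    | refl => exact ⟨fun _ => Relation.ReflTransGen.refl, fun h => by omega⟩
    | @tail w w' _ h5 ih =>
      obtain ⟨h5, h6⟩ := h5
      rcases le_or_gt w.2.2 k with h7 | h7
      · refine ⟨fun h8 => (ih.1 h7).tail ⟨h5, h7, h8⟩, fun h8 => ?_⟩
        obtain ⟨c, hc, rfl, rfl⟩ := crossing_of hE.adj h5 h7 h8
        rw [hab] at hc
        rcases hc with rfl | rfl
        · exact absurd rfl h6
        · exact ih.1 h7
      · refine ⟨fun h8 => ?_, fun _ => ih.2 (by omega)⟩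
        rw [Sym2.eq_swap] at h5
        obtain ⟨c, hc, rfl, rfl⟩ := crossing_of hE.adj h5 h8 (by omega)
        rw [hab] at hc
        rcases hc with rfl | rfl
        · exact absurd Sym2.eq_swap h6
        · exact ih.2 (by omega)
  exact (key _ hconn).1 le_rfl

private theorem conn_upp (hE : IsPolygon E) {a b : ℤ × ℤ} (hab : cross E k = {a, b}) {u : P3}
    (hu : u ∈ verts E) (huk : k + 1 ≤ u.2.2) :
    Relation.ReflTransGen (fun x y => s(x, y) ∈ E ∧ k + 1 ≤ x.2.2 ∧ k + 1 ≤ y.2.2) u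
      (a.1, a.2, k + 1) := by
  have ha : s((a.1, a.2, k), (a.1, a.2, k + 1)) ∈ E := by
    have : a ∈ cross E k := by rw [hab]; simp
    exact this
  have hconn := arcStatement E hE _ _ ha u hu _ (LK.mem_verts_right ha)
  have key : ∀ w, Relation.ReflTransGen (fun x y => s(x, y) ∈ E ∧
      s(x, y) ≠ s((a.1, a.2, k), (a.1, a.2, k + 1))) u w →
      (k + 1 ≤ w.2.2 → Relation.ReflTransGen
        (fun x y => s(x, y) ∈ E ∧ k + 1 ≤ x.2.2 ∧ k + 1 ≤ y.2.2) u w) ∧
      (w.2.2 ≤ k → Relation.ReflTransGen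
        (fun x y => s(x, y) ∈ E ∧ k + 1 ≤ x.2.2 ∧ k + 1 ≤ y.2.2) u (b.1, b.2, k + 1)) := by
    intro w hw
    induction hw with
    | refl => exact ⟨fun _ => Relation.ReflTransGen.refl, fun h => by omega⟩
    | @tail w w' _ h5 ih =>
      obtain ⟨h5, h6⟩ := h5
      rcases le_or_gt (k + 1) w.2.2 with h7 | h7
      · refine ⟨fun h8 => (ih.1 h7).tail ⟨h5, h7, h8⟩, fun h8 => ?_⟩
        rw [Sym2.eq_swap] at h5
        obtain ⟨c, hc, rfl, rfl⟩ := crossing_of hE.adj h5 h8 h7
        rw [hab] at hc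
        rcases hc with rfl | rfl
        · exact absurd Sym2.eq_swap h6
        · exact ih.1 h7
      · refine ⟨fun h8 => ?_, fun _ => ih.2 (by omega)⟩
        obtain ⟨c, hc, rfl, rfl⟩ := crossing_of hE.adj h5 (by omega) h8
        rw [hab] at hc
        rcases hc with rfl | rfl
        · exact absurd rfl h6
        · exact ih.2 (by omega)
  exact (key _ hconn).1 le_rfl

/-- **Splicing.** -/
theorem isPolygon_splice (hE : IsPolygon E) (hF : IsPolygon F) (h2 : IsTwo E k)
    (hc : cross F k = cross E k) : IsPolygon (splice E F k) := by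
  obtain ⟨a, b, hab, hE2⟩ := Set.ncard_eq_two.1 h2
  have hF2 : cross F k = {a, b} := by rw [hc, hE2]
  have ha : s((a.1, a.2, k), (a.1, a.2, k + 1)) ∈ E := by
    have : a ∈ cross E k := by rw [hE2]; simp
    exact this
  have ha' : s((a.1, a.2, k), (a.1, a.2, k + 1)) ∈ splice E F k :=
    (splice_low hF.adj hc le_rfl).2 ha
  -- every vertex is connected to the lower end of the edge over `a`
  have hreach : ∀ u ∈ verts (splice E F k),
      Relation.ReflTransGen (fun x y => s(x, y) ∈ splice E F k) u (a.1, a.2, k) := by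
    rintro u ⟨v, hv⟩
    rcases le_or_gt u.2.2 k with h3 | h3
    · have h4 := (splice_low hF.adj hc h3).1 hv
      refine Relation.ReflTransGen.mono ?_ _ _ (conn_low hE hE2 (LK.mem_verts_left h4) h3)
      rintro x y ⟨h5, h6, -⟩
      exact (splice_low hF.adj hc h6).2 h5
    · have h3' : k + 1 ≤ u.2.2 := by omega
      have h4 := (splice_upp hE.adj hc h3').1 hv
      refine Relation.ReflTransGen.tail (b := (a.1, a.2, k + 1)) ?_
        (by rw [Sym2.eq_swap]; exact ha')
      refine Relation.ReflTransGen.mono ?_ _ _ (conn_upp hF hF2 (LK.mem_verts_left h4) h3')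
      rintro x y ⟨h5, h6, -⟩
      exact (splice_upp hE.adj hc h6).2 h5
  refine ⟨⟨_, ha'⟩, ?_, ?_, ?_⟩
  · intro u v huv
    rcases mem_splice.1 huv with ⟨h, -⟩ | ⟨h, -⟩
    · exact hE.adj u v h
    · exact hF.adj u v h
  · rintro u ⟨v, hv⟩
    rcases le_or_gt u.2.2 k with h3 | h3
    · have h4 : {w | s(u, w) ∈ splice E F k} = {w | s(u, w) ∈ E} := by
        ext w
        exact splice_low hF.adj hc h3
      rw [h4]
      exact hE.deg u (LK.mem_verts_left ((splice_low hF.adj hc h3).1 hv))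
    · have h3' : k + 1 ≤ u.2.2 := by omega
      have h4 : {w | s(u, w) ∈ splice E F k} = {w | s(u, w) ∈ F} := by
        ext w
        exact splice_upp hE.adj hc h3'
      rw [h4]
      exact hF.deg u (LK.mem_verts_left ((splice_upp hE.adj hc h3').1 hv))
  · intro u hu v hv
    refine (hreach u hu).trans (reflTransGen_symm_of_symm ?_ (hreach v hv))
    intro x y hxy
    rw [Sym2.eq_swap]
    exact hxy

end Pool.Agent.KTen
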