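import Pool.Agent.KTen.SpliceIns
import Pool.Agent.KTen.SpliceShift
import Pool.Agent.KTen.SplicePoly
import Pool.Agent.KTube.Types
import Pool.Agent.KTube.CutV0

/-! Cutting polygons with a common section with two edges, by detours to the reference section. -/

set_option autoImplicit false

open Set

namespace Pool.Agent.KTen

open Pool.Agent.LK Pool.Agent.KTube

/-- The vertices of a splice are vertices of one of the two sets. -/
private theorem Detours_verts_splice {E F : ES} {k : ℤ} {u : P3} (hu : u ∈ verts (splice E F k)) :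
    u ∈ verts E ∨ u ∈ verts F := by
  obtain ⟨v, hv⟩ := hu
  rcases mem_splice.1 hv with ⟨h, -⟩ | ⟨h, -⟩
  · exact Or.inl ⟨v, h⟩
  · exact Or.inr ⟨v, h⟩

private theorem Detours_inTube_splice {E F : ES} {k : ℤ} {L M : ℕ} (tE : InTube L M E) (tF : InTube L M F) :
    InTube L M (splice E F k) := by
  intro u hu
  rcases Detours_verts_splice hu with h | h
  · exact tE u h
  · exact tF u h

/-- The section of an inserted detour at its middle plane is the reference section, also if the
detour starts at the reference section. -/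
private theorem Detours_ins_mid (hS : StretchStatement) {L M : ℕ} (hL : 1 ≤ L) {E : ES} {k : ℤ} (hE : IsPolygon E)
    (hT : InTube L M E) (h2 : IsTwo E k) : IsPolygon (ins L M E k) ∧ SameType E (ins L M E k) ∧
      IsV0 (ins L M E k) (k + hgt L M) := by
  obtain ⟨hd, hr⟩ := dst_spec (M := M) hL h2 (box_cross hT)
  set d := dst L M (cross E k) with hdef
  obtain ⟨e, he⟩ : ∃ e : ℕ, hgt L M - d = e := ⟨_, rfl⟩
  have hde : d + e = hgt L M := by omega
  have hins : ins L M E k = run L M d (stretch E k (2 * e)) (k + (e : ℕ)) := by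
    unfold ins
    rw [← hdef, he]
  have hcm : cross (stretch E k (2 * e)) (k + e) = cross E k :=
    cross_stretch_mid (by omega) (by push_cast; omega)
  have hR := run_facts (L := L) (M := M) hS d (stretch E k (2 * e)) (k + e)
    (hS E k (2 * e) hE).1 (inTube_stretch hT) (by rw [hcm]; exact h2) (by rw [hcm]; exact hr)
  rw [hins]
  have hH : (hgt L M : ℤ) = d + e := by rw [← hde]; push_cast; ring
  exact ⟨hR.poly, (hS E k (2 * e) hE).2.trans hR.type,
    (hR.mid (k + hgt L M) (by omega) (by omega)).2 (by rw [hH]; ring)⟩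

/-- The composition of the lower part of one set and the upper part of another one is the
splice. -/
private theorem Detours_glue_low_upp_eq_splice (E F : ES) (k : ℤ) : glue (low E k) (upp F k) k = splice E F k := by
  apply edge_ext
  intro u v
  unfold glue
  rw [Finset.mem_union, Finset.mem_sdiff, Finset.mem_sdiff, Finset.mem_singleton,
    Finset.mem_singleton, mem_low', mem_upp', mem_splice]
  constructor
  · rintro (⟨h1 | h1, h2⟩ | ⟨h1 | h1, h2⟩)
    · exact absurd h1 h2
    · exact Or.inl h1
    · exact absurd h1 h2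
    · exact Or.inr h1
  · rintro (⟨h1, h2⟩ | ⟨h1, h2⟩)
    · refine Or.inl ⟨Or.inr ⟨h1, h2⟩, ?_⟩
      intro h3
      obtain ⟨h4, h5⟩ := cap_mem_level h3
      omega
    · refine Or.inr ⟨Or.inr ⟨h1, h2⟩, ?_⟩
      intro h3
      obtain ⟨h4, h5⟩ := cap_mem_level h3
      omega

/-- Finitely many edge sets lie in a common tube after a horizontal translation. -/
private theorem Detours_exists_tube (S : Finset ES) : ∃ (r : P3) (L : ℕ), r.2.2 = 0 ∧ 1 ≤ L ∧
    ∀ E ∈ S, InTube L L (shift r E) := by
  have hfin : (⋃ E ∈ S, verts E).Finite :=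
    Set.Finite.biUnion S.finite_toSet fun E _ => verts_finite E
  obtain ⟨R, hR⟩ := (hfin.image fun u : P3 => u.1.natAbs + u.2.1.natAbs).bddAbove
  refine ⟨((R : ℤ), (R : ℤ), 0), 2 * R + 1, rfl, by omega, ?_⟩
  intro E hE u hu
  have h1 := mem_verts_shift.1 hu
  have h2 := hR ⟨_, Set.mem_biUnion (show E ∈ (S : Set ES) from hE) h1, rfl⟩
  simp only [Prod.fst_sub, Prod.snd_sub] at h2
  push_cast
  omega

/-- **Closed parts.** For finitely many polygons with the same section `s0` at the plane
`z = k + 1/2` there are closed lower and upper parts; the splice of any two of them has the type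
of the composition of the closed parts. -/
theorem exists_detour {k : ℤ} (S : Finset ES) {s0 : Set (ℤ × ℤ)} (h0 : s0.ncard = 2)
    (hS : ∀ E ∈ S, IsPolygon E ∧ cross E k = s0) : ∃ (lo up : ES → ES) (j : ℤ),
      (∀ E ∈ S, IsLow (lo E) j ∧ IsUpp (up E) j) ∧
      ∀ E ∈ S, ∀ F ∈ S, SameType (splice E F k) (glue (lo E) (up F) j) := by
  obtain ⟨r, L, hr, hL, hT⟩ := Detours_exists_tube S
  have hc : ∀ E ∈ S, cross (shift r E) k = (fun c : ℤ × ℤ => (c.1 + r.1, c.2 + r.2.1)) '' s0 := by
    intro E hE
    have h := cross_shift r E k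
    rw [hr, add_zero, (hS E hE).2] at h
    exact h
  have hpS : ∀ E ∈ S, IsPolygon (shift r E) := fun E hE => isPolygon_shift (hS E hE).1 r
  have h2S : ∀ E ∈ S, IsTwo (shift r E) k := by
    intro E hE
    have h := isTwo_shift r E k
    rw [hr, add_zero] at h
    rw [h]
    unfold IsTwo
    rw [(hS E hE).2]
    exact h0
  have hX : ∀ E ∈ S, IsPolygon (ins L L (shift r E) k) ∧
      SameType (shift r E) (ins L L (shift r E) k) ∧
      IsV0 (ins L L (shift r E) k) (k + hgt L L) := fun E hE =>
    Detours_ins_mid stretchStatement hL (hpS E hE) (hT E hE) (h2S E hE)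
  refine ⟨fun E => low (ins L L (shift r E) k) (k + hgt L L),
    fun E => upp (ins L L (shift r E) k) (k + hgt L L), k + hgt L L, ?_, ?_⟩
  · intro E hE
    obtain ⟨h1, h2, -⟩ := cutStatement _ (k + hgt L L) (hX E hE).1 (hX E hE).2.2
    exact ⟨h1, h2⟩
  · intro E hE F hF
    rw [Detours_glue_low_upp_eq_splice]
    have hcc : cross (shift r F) k = cross (shift r E) k := by rw [hc E hE, hc F hF]
    rw [← ins_splice stretchStatement hL (hpS E hE) (hpS F hF) (hT E hE) (hT F hF) (h2S E hE) hcc]
    have e1 : splice (shift r E) (shift r F) k = shift r (splice E F k) := by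
      have h := splice_shift r E F k
      rwa [hr, add_zero] at h
    have hp : IsPolygon (splice (shift r E) (shift r F) k) :=
      isPolygon_splice (hpS E hE) (hpS F hF) (h2S E hE) hcc
    have h2 : IsTwo (splice (shift r E) (shift r F) k) k := by
      unfold IsTwo
      rw [cross_splice_low (hpS F hF).adj hcc le_rfl]
      exact h2S E hE
    have h3 := (Detours_ins_mid stretchStatement hL hp (Detours_inTube_splice (hT E hE) (hT F hF)) h2).2.1
    refine SameType.trans ?_ h3
    rw [e1]
    exact moveFacts.trans r (splice E F k)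

end Pool.Agent.KTen
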