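import Pool.Agent.KTen.LowFar
import Pool.Agent.KTen.SpliceShift

/-! Side joins at sections with unknotted upper part. -/

set_option autoImplicit false

open Set Filter Topology

namespace Pool.Agent.KTen

open Pool.Agent.LK Pool.Agent.KTube

variable {K0 K1 K2 E E' : ES} {h : ℕ} {z z1 z2 k k' : ℤ} {a b a' b' : ℤ × ℤ} {x : ℝ}

/-- edges with an end at a level `≤ k` are determined by the lower part and the section -/
private lemma fg_sub {E F : ES} {k : ℤ} (aE : ∀ u v, s(u, v) ∈ E → Adj u v)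
    (hb : topE E k = topE F k) (hc : cross E k = cross F k) {u v : P3} (huv : s(u, v) ∈ E)
    (hle : k + 1 ≤ u.2.2 ∨ k + 1 ≤ v.2.2) : s(u, v) ∈ F := by
  rcases adj_cases k (aE u v huv) with h1 | h1 | ⟨p, q, h1⟩
  · omega
  · have h2 : s(u, v) ∈ topE E k := mem_topE.2 ⟨huv, h1.1, h1.2⟩
    rw [hb] at h2
    exact (mem_topE.1 h2).1
  · have h2 : ((p, q) : ℤ × ℤ) ∈ cross E k := by
      rw [mem_cross]
      rw [h1] at huv
      exact huv
    rw [hc, mem_cross] at h2
    rw [h1]
    exact h2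

private lemma fg_mid {E F : ES} {k s t : ℤ} (aE : ∀ u v, s(u, v) ∈ E → Adj u v)
    (aF : ∀ u v, s(u, v) ∈ F → Adj u v) (hb : topE E k = topE F k)
    (hc : cross E k = cross F k) (ht : k ≤ s) : midE E s t = midE F s t := by
  apply edge_ext
  intro u v
  rw [mem_midE, mem_midE]
  constructor
  · rintro ⟨h1, h2⟩
    exact ⟨fg_sub aE hb hc h1 (by omega), h2⟩
  · rintro ⟨h1, h2⟩
    exact ⟨fg_sub aF hb.symm hc.symm h1 (by omega), h2⟩

private lemma fg_bot_stretch (E : ES) (k : ℤ) (h : ℕ) :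
    botE (stretch E k h) k = botE E k := by
  apply edge_ext
  intro u v
  rw [mem_botE, mem_botE, mem_stretch]
  constructor
  · rintro ⟨h1 | h1 | ⟨p, q, i, -, -, h1⟩, h2, h3⟩
    · exact ⟨h1.1, h2, h3⟩
    · omega
    · exfalso
      rw [Sym2.eq_iff] at h1
      rcases h1 with ⟨rfl, rfl⟩ | ⟨rfl, rfl⟩
      · simp only at h3
        omega
      · simp only at h2
        omega
  · rintro ⟨h1, h2, h3⟩
    exact ⟨Or.inl ⟨h1, h2, h3⟩, h2, h3⟩

private lemma fg_top_stretch (E : ES) (k : ℤ) (h : ℕ) :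
    topE (stretch E k h) (k + h) = shift (0, 0, (h : ℤ)) (topE E k) := by
  apply edge_ext
  intro u v
  rw [mem_topE, mem_shift, mem_topE, mem_stretch]
  simp only [Prod.snd_sub]
  constructor
  · rintro ⟨h1 | h1 | ⟨p, q, i, hi, -, h1⟩, h2, h3⟩
    · omega
    · exact ⟨h1.1, by omega, by omega⟩
    · exfalso
      rw [Sym2.eq_iff] at h1
      rcases h1 with ⟨rfl, rfl⟩ | ⟨rfl, rfl⟩
      · simp only at h2
        omega
      · simp only at h3
        omega
  · rintro ⟨h1, h2, h3⟩
    exact ⟨Or.inr (Or.inl ⟨h1, by omega, by omega⟩), by omega, by omega⟩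

private lemma fg_ne {a b : ℤ × ℤ} (hab : Lex a b) : a ≠ b := by
  rintro rfl
  rcases hab with h | ⟨-, h⟩
  · exact lt_irrefl _ h
  · exact lt_irrefl _ h

private lemma fg_two {E : ES} {k : ℤ} {a b : ℤ × ℤ} (hc : cross E k = {a, b}) (hab : a ≠ b) :
    IsTwo E k := by
  unfold IsTwo
  rw [hc, Set.ncard_pair hab]

/-- the height of the piece is positive -/
theorem LeftOf.pos (hK : LeftOf K0 h z) : 1 ≤ h := by
  have h1 := hK.lev _ (left_mem_verts hK.edge)
  simp only at h1
  omega

/-- An unknotted polygon does not contain a knotted piece. -/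
theorem no_piece (hK : LeftOf K0 h z) (nK : ¬ Unknotted K0) (hE' : IsPolygon E')
    (uE' : Unknotted E') (hab : Lex a b) (e1 : cross E' k = {a, b})
    (e2 : cross E' (k + h) = {a, b}) (e3 : midE E' k (k + h) = patK K0 h z a b k) : False := by
  apply nK
  have hne := fg_ne hab
  have hh : k < k + h := by
    have := hK.pos
    omega
  -- an unknotted polygon with this section
  obtain ⟨C0, hC0, uC0, cC0⟩ := exists_unknot_two hne k
  obtain ⟨hC1, tC1⟩ := stretchStatement C0 k h hC0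
  set C1 := stretch C0 k h with hC1d
  have uC1 : Unknotted C1 := tC1.symm.unknotted uC0
  have f1 : cross C1 k = {a, b} := by
    rw [hC1d, cross_stretch_low le_rfl, cC0]
  have f2 : cross C1 (k + h) = {a, b} := by
    rw [hC1d, cross_stretch_high le_rfl, add_sub_cancel_right, cC0]
  have g1 : cross E' k = cross C1 k := by rw [e1, f1]
  have g2 : cross E' (k + h) = cross C1 (k + h) := by rw [e2, f2]
  have t1 : IsTwo C1 k := fg_two f1 hne
  have S1 : IsPolygon (splice C1 E' k) := isPolygon_splice hC1 hE' t1 g1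
  have uS1 : Unknotted (splice C1 E' k) := unknotted_splice hC1 hE' t1 g1 uC1 uE'
  have g3 : cross (splice C1 E' k) (k + h) = {a, b} := by
    rw [cross_splice_high g1 hh.le, e2]
  have t2 : IsTwo (splice C1 E' k) (k + h) := fg_two g3 hne
  have g4 : cross C1 (k + h) = cross (splice C1 E' k) (k + h) := by rw [f2, g3]
  have S2 : IsPolygon (splice (splice C1 E' k) C1 (k + h)) := isPolygon_splice S1 hC1 t2 g4
  have uS2 : Unknotted (splice (splice C1 E' k) C1 (k + h)) :=
    unknotted_splice S1 hC1 t2 g4 uS1 uC1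
  obtain ⟨r1, r2, r3⟩ := parts_splice hC1.adj hE'.adj hC1.adj hh g1 g2
  obtain ⟨w1, w2, w3⟩ := insK_parts hK hC0 cC0 hab
  have hins : splice (splice C1 E' k) C1 (k + h) = insK K0 h z a C0 k := by
    refine eq_of_parts S2.adj (insK_poly hK hC0 cC0 hab).adj hh ?_ ?_ ?_
    · rw [r1, w1, hC1d, fg_bot_stretch]
    · rw [r2, w2, e3]
    · rw [r3, w3, hC1d, fg_top_stretch]
  rw [hins] at uS2
  exact (insK_type hK hC0 cC0 hab uC0).unknotted uS2

private lemma fg_top_splice {G E : ES} : topE (splice G E k) k = topE E k := by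
  apply edge_ext
  intro u v
  rw [mem_topE, mem_topE, mem_splice]
  constructor
  · rintro ⟨h1 | h1, h2, h3⟩
    · omega
    · exact ⟨h1.1, h2, h3⟩
  · rintro ⟨h1, h2, h3⟩
    exact ⟨Or.inr ⟨h1, by omega⟩, h2, h3⟩

/-- **Insertions at far sections with unknotted upper part are different.** -/
theorem insK_farG (hK1 : LeftOf K1 h z1) (hK2 : LeftOf K2 h z2) (nK2 : ¬ Unknotted K2)
    (hE : IsPolygon E) (hE' : IsPolygon E') (uE : UppU E k) (hc : cross E k = {a, b})
    (hab : Lex a b) (hc' : cross E' k' = {a', b'}) (hab' : Lex a' b') (hkk : k + h ≤ k') :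
    insK K1 h z1 a E k ≠ insK K2 h z2 a' E' k' := by
  intro heq
  have hne := fg_ne hab
  obtain ⟨G, hG, cG, uG⟩ := uE
  obtain ⟨p1, p2, p3⟩ := insK_parts hK1 hE hc hab
  obtain ⟨q1, q2, q3⟩ := insK_parts hK2 hE' hc' hab'
  obtain ⟨c1, c2⟩ := insK_cross hK1 hE hc hab
  obtain ⟨d1, d2⟩ := insK_cross hK2 hE' hc' hab'
  have iE : IsPolygon (insK K1 h z1 a E k) := insK_poly hK1 hE hc hab
  have tG : IsTwo G k := fg_two (cG.trans hc) hne
  have hS : IsPolygon (splice G E k) := isPolygon_splice hG hE tG cG.symm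
  obtain ⟨hS1, tS1⟩ := stretchStatement (splice G E k) k h hS
  have uS1 := tS1.symm.unknotted uG
  have e1 : topE (stretch (splice G E k) k h) (k + h) = topE (insK K1 h z1 a E k) (k + h) := by
    rw [fg_top_stretch, p3, fg_top_splice]
  have e2 : ∀ j, k + h ≤ j → cross (stretch (splice G E k) k h) j =
      cross (insK K1 h z1 a E k) j := by
    intro j hj
    rw [cross_stretch_high hj, c2 j hj, cross_splice_high cG.symm (by omega)]
  have hh := hK1.pos
  refine no_piece hK2 nK2 hS1 uS1 hab' (k := k') ?_ ?_ ?_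
  · rw [e2 k' hkk, heq, d1 k' le_rfl, hc']
  · rw [e2 (k' + h) (by omega), heq, d2 (k' + h) le_rfl, add_sub_cancel_right, hc']
  · rw [fg_mid hS1.adj iE.adj e1 (e2 _ le_rfl) hkk, heq, q2]

end Pool.Agent.KTen
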