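import Pool.Agent.KTen.Words

/-! The gap property of `ℤ³` under tension. -/

set_option autoImplicit false

open Pool.Agent.LK

namespace Pool.Agent.KTen

open Pool.Agent.KTube

/-- GAP PROPERTY of `ℤ³` with tension `y`. -/
def Gap3 (y : ℝ) : Prop := ∃ z' z η : ℝ, 0 < z' ∧ z' < z ∧ 0 < η ∧
  Summable (fun E : NPoly => z ^ E.1.card * y ^ span E.1 * η ^ {k : ℤ | IsTwo E.1 k}.ncard) ∧
  ¬ Summable (fun E : NUPoly => z' ^ E.1.card * y ^ span E.1)

/-- The word bound for the polygons with few two-sections. -/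
theorem upper_Z3 {x z : ℝ} (hx1 : 1 ≤ x) (hz0 : 0 < z)
    (hw : (x + 3) * z + 5 * x * z ^ 2 < 1) :
    Summable (fun E : NPoly => z ^ E.1.card * (x ^ 4) ^ span E.1 *
      ((x ^ 2)⁻¹) ^ {k : ℤ | IsTwo E.1 k}.ncard) := by
  have hx0 : 0 < x := by linarith
  refine Summable.of_nonneg_of_le (fun E => by positivity) (fun E => ?_) (words_Z3 hx1 hz0 hw)
  rw [mul_assoc]
  refine mul_le_mul_of_nonneg_left ?_ (by positivity)
  have h5 : 4 * span E.1 ≤ LatticeTube.vert E.1 + 2 * {k : ℤ | IsTwo E.1 k}.ncard :=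
    LatticeTube.sectionStatement.1 E.1 E.2.1
  have h6 : x ^ (4 * span E.1) ≤ x ^ (LatticeTube.vert E.1 + 2 * {k : ℤ | IsTwo E.1 k}.ncard) :=
    pow_le_pow_right₀ hx1 h5
  rw [← pow_mul, inv_pow, ← pow_mul]
  rw [pow_add] at h6
  rw [← div_eq_mul_inv, div_le_iff₀ (by positivity)]
  exact h6

theorem span_shift (E : Finset (Sym2 P3)) (a b : ℤ) :
    span (mapE (fun u => u + (a, b, 0)) E) = span E := by
  have h : ∀ k : ℤ, (cross (mapE (fun u => u + (a, b, 0)) E) k).Nonempty ↔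
      (cross E k).Nonempty := by
    intro k
    constructor
    · rintro ⟨c, hc⟩
      have hc : s((c.1, c.2, k), (c.1, c.2, k + 1)) ∈ shift (a, b, 0) E := hc
      rw [mem_shift] at hc
      refine ⟨(c.1 - a, c.2 - b), ?_⟩
      show s((c.1 - a, c.2 - b, k), (c.1 - a, c.2 - b, k + 1)) ∈ E
      simpa using hc
    · rintro ⟨c, hc⟩
      have hc : s((c.1, c.2, k), (c.1, c.2, k + 1)) ∈ E := hc
      refine ⟨(c.1 + a, c.2 + b), ?_⟩
      show s((c.1 + a, c.2 + b, k), (c.1 + a, c.2 + b, k + 1)) ∈ shift (a, b, 0) E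
      rw [mem_shift]
      simpa using hc
  unfold span
  congr 1
  ext k
  exact h k

/-- Summability over the unknotted polygons of `ℤ³` up to translation gives summability over the
unknotted polygons of a tube up to vertical translation. -/
theorem summable_tube {y z' : ℝ} (hy : 0 < y) (hz' : 0 < z')
    (hs : Summable (fun E : NUPoly => z' ^ E.1.card * y ^ span E.1)) (B : Finset (ℤ × ℤ)) :
    Summable (fun E : LatticeTube.UPoly B => z' ^ E.1.card * y ^ LatticeTube.span E.1) := by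
  classical
  set A : Finset (ℤ × ℤ) := B.image Prod.fst ×ˢ B.image Prod.snd with hA
  have hex : ∀ E : LatticeTube.UPoly B, ∃ (c : A) (F : NUPoly),
      F.1 = mapE (fun u => u + (-(c : ℤ × ℤ).1, -(c : ℤ × ℤ).2, 0)) E.1 := by
    rintro ⟨E, hE, hU, hB, hZ⟩
    obtain ⟨e, he⟩ := hE.nonempty
    have hne : (verts E).Nonempty := by
      induction e with
      | _ u v => exact ⟨u, v, he⟩
    obtain ⟨u, hu, hu'⟩ := Set.exists_min_image (verts E) (fun u => u.1) (verts_finite E) hne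
    obtain ⟨v, hv, hv'⟩ := Set.exists_min_image (verts E) (fun u => u.2.1) (verts_finite E) hne
    refine ⟨⟨(u.1, v.2.1), ?_⟩, ⟨mapE (fun w => w + (-u.1, -v.2.1, 0)) E, ?_, ?_⟩, rfl⟩
    · rw [hA, Finset.mem_product]
      exact ⟨Finset.mem_image.2 ⟨_, hB u hu, rfl⟩, Finset.mem_image.2 ⟨_, hB v hv, rfl⟩⟩
    · exact unknotClosedZ.trans _ _ ⟨hE, hU⟩
    · have hm : ∀ w, w ∈ verts (mapE (fun w => w + (-u.1, -v.2.1, 0)) E) ↔
          w - (-u.1, -v.2.1, 0) ∈ verts E := fun w => mem_verts_shift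
      refine ⟨?_, ⟨u + (-u.1, -v.2.1, 0), ?_, ?_⟩, ⟨v + (-u.1, -v.2.1, 0), ?_, ?_⟩, ?_⟩
      · intro w hw
        rw [hm] at hw
        have h1 := hu' _ hw
        have h2 := hv' _ hw
        have h3 := hZ.1 _ hw
        simp only [Prod.fst_sub, Prod.snd_sub] at h1 h2 h3
        refine ⟨?_, ?_, ?_⟩ <;> omega
      · rw [hm, add_sub_cancel_right]; exact hu
      · simp
      · rw [hm, add_sub_cancel_right]; exact hv
      · simp
      · obtain ⟨w, hw, hw0⟩ := hZ.2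
        refine ⟨w + (-u.1, -v.2.1, 0), ?_, ?_⟩
        · rw [hm, add_sub_cancel_right]; exact hw
        · simpa using hw0
  choose c F hF using hex
  let code : LatticeTube.UPoly B → A × NUPoly := fun E => (c E, F E)
  have hinj : Function.Injective code := by
    intro E E' h
    have h1 : c E = c E' := congrArg Prod.fst h
    have h2 : F E = F E' := congrArg Prod.snd h
    have h3 : mapE (fun u => u + (-(c E' : ℤ × ℤ).1, -(c E' : ℤ × ℤ).2, 0)) E.1 =
        mapE (fun u => u + (-(c E' : ℤ × ℤ).1, -(c E' : ℤ × ℤ).2, 0)) E'.1 := by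
      rw [← hF E', ← h2, hF E, h1]
    apply Subtype.ext
    apply edge_ext
    intro u v
    have h4 : ∀ X : Finset (Sym2 P3), s(u, v) ∈ X ↔
        s(u + (-(c E' : ℤ × ℤ).1, -(c E' : ℤ × ℤ).2, 0),
          v + (-(c E' : ℤ × ℤ).1, -(c E' : ℤ × ℤ).2, 0)) ∈
          mapE (fun u => u + (-(c E' : ℤ × ℤ).1, -(c E' : ℤ × ℤ).2, 0)) X := by
      intro X
      have : s(u + (-(c E' : ℤ × ℤ).1, -(c E' : ℤ × ℤ).2, 0),
          v + (-(c E' : ℤ × ℤ).1, -(c E' : ℤ × ℤ).2, 0)) ∈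
          shift (-(c E' : ℤ × ℤ).1, -(c E' : ℤ × ℤ).2, 0) X ↔ _ := mem_shift
      rw [add_sub_cancel_right, add_sub_cancel_right] at this
      exact this.symm
    rw [h4 E.1, h4 E'.1, h3]
  have hone : Summable (fun _ : A => (1 : ℝ)) := (hasSum_fintype _).summable
  have hprod := hone.mul_of_nonneg hs (fun _ => zero_le_one) (fun E => by positivity)
  refine (hprod.comp_injective hinj).congr fun E => ?_
  show (1 : ℝ) * (z' ^ (F E).1.card * y ^ span (F E).1) =
    z' ^ E.1.card * y ^ LatticeTube.span E.1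
  have h1 : (F E).1.card = E.1.card := by
    rw [hF E]
    exact card_shift _ _
  have h2 : span (F E).1 = LatticeTube.span E.1 := by
    rw [hF E, span_shift]
    rfl
  rw [h1, h2, one_mul]

open LatticeTube LatticeTube.G6 in
/-- The pair of fugacities. -/
theorem exists_pair {y : ℝ} (hy : 23 ≤ y) : ∃ x z' z : ℝ, 1 ≤ x ∧ x ^ 4 = y ∧ 0 < z' ∧ z' < z ∧
    (x + 3) * z + 5 * x * z ^ 2 < 1 ∧ ¬ Summable (fun E : LatticeTube.UPoly (rectB 3 3) =>
      z' ^ E.1.card * y ^ LatticeTube.span E.1) := by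
  have hstep : ∀ {N' N1 D F Y X : ℕ} {V : ℕ → ℕ → ℕ}, StepW 3 3 (tb A33) N' N1 D F Y X V →
      (Y : ℝ) ≤ y → y ≤ ((X : ℝ) / 1000) ^ 4 → ∃ x z' z : ℝ, 1 ≤ x ∧ x ^ 4 = y ∧ 0 < z' ∧
      z' < z ∧ (x + 3) * z + 5 * x * z ^ 2 < 1 ∧ ¬ Summable
        (fun E : LatticeTube.UPoly (rectB 3 3) => z' ^ E.1.card * y ^ LatticeTube.span E.1) := by
    intro N' N1 D F Y X V h hy1 hy2
    have hD' : (0 : ℝ) < D := by exact_mod_cast h.dpos
    have hN' : (0 : ℝ) < N' := by exact_mod_cast h.pos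
    obtain ⟨x, hx1, rfl⟩ := root4 (show 1 ≤ y by linarith)
    have hx : x ≤ (X : ℝ) / 1000 := le_of_pow_le_pow_left₀ (by norm_num) (by positivity) hy2
    obtain ⟨v, hv, hv1, hv2⟩ := h.vec table33 (by decide) hy1
    refine ⟨x, (N' : ℝ) / D, (N1 : ℝ) / D, hx1, rfl, by positivity, ?_, h.words_lt hx, ?_⟩
    · rw [div_lt_div_iff_of_pos_right hD']
      exact_mod_cast h.lt
    · exact ud_lower (Finset.Subset.refl _) (fun a ha b hb => ⟨_, conn33 a ha b hb⟩)
        (by positivity) (by positivity) v hv hv1 hv2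
  rcases lt_or_ge y 25 with h0 | h0
  · exact hstep stepW33_0 (by norm_num; linarith) (by norm_num; linarith)
  rcases lt_or_ge y 33 with h1 | h1
  · exact hstep stepW33_1 (by norm_num; linarith) (by norm_num; linarith)
  rcases lt_or_ge y 58 with h2 | h2
  · exact hstep stepW33_2 (by norm_num; linarith) (by norm_num; linarith)
  -- large tension: rectangles
  obtain ⟨x, hx1, rfl⟩ := root4 (show 1 ≤ y by linarith)
  have hx : (2.7596 : ℝ) ≤ x := by
    by_contra hcon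
    push Not at hcon
    have h3 : x ^ 4 < 2.7596 ^ 4 := pow_lt_pow_left₀ hcon (by linarith) (by norm_num)
    norm_num at h3
    linarith
  have hx0 : 0 < x := by linarith
  have h3 : (x + 3) * (x ^ 2)⁻¹ + 5 * x * (x ^ 2)⁻¹ ^ 2 < 1 := by
    have h4 : (x + 3) * (x ^ 2)⁻¹ + 5 * x * (x ^ 2)⁻¹ ^ 2 = (x ^ 2 + 3 * x + 5) / x ^ 3 := by
      field_simp
    rw [h4, div_lt_one (by positivity)]
    have h5 : 0 ≤ x - 2.7596 := by linarith
    nlinarith [mul_nonneg h5 h5, mul_nonneg (mul_nonneg h5 h5) h5]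
  obtain ⟨z, hz1, hz2⟩ : ∃ z : ℝ, (x ^ 2)⁻¹ < z ∧ (x + 3) * z + 5 * x * z ^ 2 < 1 := by
    have hc : Continuous fun z : ℝ => (x + 3) * z + 5 * x * z ^ 2 := by fun_prop
    have h4 : ∀ᶠ z in nhds (x ^ 2)⁻¹, (x + 3) * z + 5 * x * z ^ 2 < 1 :=
      hc.continuousAt.eventually_lt continuousAt_const h3
    obtain ⟨ε, hε, h5⟩ := Metric.eventually_nhds_iff.1 h4
    refine ⟨(x ^ 2)⁻¹ + ε / 2, by linarith, h5 ?_⟩
    rw [Real.dist_eq, add_sub_cancel_left, abs_of_pos (by linarith)]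
    linarith
  refine ⟨x, (x ^ 2)⁻¹, z, hx1, rfl, by positivity, hz1, hz2, ?_⟩
  intro hs
  have hr : ∀ h : ℕ, IsPolygon (vrect 0 0 (h + 1)) ∧ Unknotted (vrect 0 0 (h + 1)) ∧
      LatticeTube.InTube (rectB 3 3) (vrect 0 0 (h + 1)) ∧ NormZ (vrect 0 0 (h + 1)) := by
    intro h
    obtain ⟨g1, g2, g3, -, -, g6⟩ := vrectStatement 0 0 (h + 1) (by omega)
    refine ⟨g1, g2, fun u hu => ?_, g3⟩
    rcases g6 u hu with g | g
    · rw [g]; decide
    · rw [g]; decide
  let f : ℕ → LatticeTube.UPoly (rectB 3 3) := fun h => ⟨vrect 0 0 (h + 1), hr h⟩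
  have hf : Function.Injective f := by
    intro h h' hh
    have g1 := (vrectStatement 0 0 (h + 1) (by omega)).2.2.2.1
    have g2 := (vrectStatement 0 0 (h' + 1) (by omega)).2.2.2.1
    have g3 : vrect 0 0 (h + 1) = vrect 0 0 (h' + 1) := congrArg Subtype.val hh
    rw [g3, g2] at g1
    omega
  have h5 := hs.comp_injective hf
  have h6 : ((fun E : LatticeTube.UPoly (rectB 3 3) =>
      (x ^ 2)⁻¹ ^ E.1.card * (x ^ 4) ^ LatticeTube.span E.1) ∘ f) = fun _ => (x ^ 4)⁻¹ := by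
    funext h
    have g1 := (vrectStatement 0 0 (h + 1) (by omega)).2.2.2.1
    have g2 := (vrectStatement 0 0 (h + 1) (by omega)).2.2.2.2.1
    show (x ^ 2)⁻¹ ^ (vrect 0 0 (h + 1)).card * (x ^ 4) ^ LatticeTube.span (vrect 0 0 (h + 1)) =
      (x ^ 4)⁻¹
    rw [g1, g2, inv_pow, ← pow_mul, ← pow_mul]
    have g3 : x ^ (2 * (2 * (h + 1) + 2)) = x ^ (4 * (h + 1)) * x ^ 4 := by
      rw [← pow_add]
      congr 1
      ring
    rw [g3]
    field_simp
  rw [h6] at h5
  have h7 := (summable_const_iff _).1 h5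
  have h8 : 0 < (x ^ 4)⁻¹ := by positivity
  linarith

/-- The gap property of `ℤ³` for every tension `y ≥ 23`. -/
theorem gap3 {y : ℝ} (hy : 23 ≤ y) : Gap3 y := by
  obtain ⟨x, z', z, hx, rfl, hz', hlt, hw, hns⟩ := exists_pair hy
  refine ⟨z', z, (x ^ 2)⁻¹, hz', hlt, by positivity, upper_Z3 hx (hz'.trans hlt) hw, fun hs => ?_⟩
  exact hns (summable_tube (by linarith) hz' hs _)

end Pool.Agent.KTen
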