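import Pool.Agent.KTen.FinalG
import Pool.Agent.KTen.Loc

/-! Strong localisation, for types with respect to a group of homeomorphisms. -/

set_option autoImplicit false

open Set Filter Topology

namespace Pool.Agent.KTen

open Pool.Agent.LK Pool.Agent.KTube

variable {G : Subgroup (R3 ≃ₜ R3)} {y : ℝ}

/-- **Strong localisation**, for knot types with respect to the group `G`. -/
theorem loc_group (hT : ∀ t : R3, Homeomorph.addRight t ∈ G)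
    (hG : ∀ φ : R3 ≃ₜ R3, φ ∈ G ∨ φ * negY ∈ G) (hy : 10 ^ 8 ≤ y) (K : ES) (hP : PrimeKnot K) :
    ∃ (B : ℝ) (n0 : ℕ), ∀ n ≥ n0, ∀ j : ℕ,
      Zt y (fun E => GClass G K E ∧ ¬ LocAt E j) n ≤ B * (1 / 2) ^ j * Zt y (GClass G K) n := by
  have hy0 : (0 : ℝ) ≤ y := le_trans (by norm_num) hy
  obtain ⟨x, hx, rfl⟩ : ∃ x : ℝ, 10 ^ 4 ≤ x ∧ y = x ^ 2 := by
    refine ⟨Real.sqrt y, ?_, (Real.sq_sqrt hy0).symm⟩
    apply Real.le_sqrt_of_sq_le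
    calc ((10 : ℝ) ^ 4) ^ 2 = 10 ^ 8 := by norm_num
      _ ≤ y := hy
  obtain ⟨B, hB, n0, h⟩ := localisation hx hP
  refine ⟨2 * B, n0, fun n hn j => ?_⟩
  have h1 := h n hn j
  have h2 : Zt (x ^ 2) (fun E => GClass G K E ∧ ¬ LocAt E j) n ≤
      Zt (x ^ 2) (fun E => KClass K E ∧ ¬ LocAt E j) n := by
    refine zt_mono hy0 (fun E _ hE => ⟨⟨hE.1.1, ?_⟩, hE.2⟩) n
    obtain ⟨φ, -, h3⟩ := hE.1.2
    exact ⟨φ, h3⟩
  have h3 := zt_g_le hT hG hy0 K n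
  calc Zt (x ^ 2) (fun E => GClass G K E ∧ ¬ LocAt E j) n ≤
      B * (1 / 2) ^ j * Zt (x ^ 2) (KClass K) n := h2.trans h1
    _ ≤ B * (1 / 2) ^ j * (2 * Zt (x ^ 2) (GClass G K) n) :=
        mul_le_mul_of_nonneg_left h3 (by positivity)
    _ = 2 * B * (1 / 2) ^ j * Zt (x ^ 2) (GClass G K) n := by ring

end Pool.Agent.KTen
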