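import Pool.Agent.KTen.SideJoinB
import Pool.Agent.KTen.SpliceType

/-! Different side joins give different polygons. -/

set_option autoImplicit false

open Set Filter Topology

namespace Pool.Agent.KTen

open Pool.Agent.LK Pool.Agent.KTube

variable {K0 E E' : ES} {h : ℕ} {z k k' : ℤ} {a b a' b' : ℤ × ℤ} {x : ℝ}

/-- edges with an end at a level `≤ k` are determined by the lower part and the section -/
private lemma lowFar_sub {E F : ES} {k : ℤ} (aE : ∀ u v, s(u, v) ∈ E → Adj u v)
    (hb : botE E k = botE F k) (hc : cross E k = cross F k) {u v : P3} (huv : s(u, v) ∈ E)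
    (hle : u.2.2 ≤ k ∨ v.2.2 ≤ k) : s(u, v) ∈ F := by
  rcases adj_cases k (aE u v huv) with h1 | h1 | ⟨p, q, h1⟩
  · have h2 : s(u, v) ∈ botE E k := mem_botE.2 ⟨huv, h1.1, h1.2⟩
    rw [hb] at h2
    exact (mem_botE.1 h2).1
  · omega
  · have h2 : ((p, q) : ℤ × ℤ) ∈ cross E k := by
      rw [mem_cross]
      rw [h1] at huv
      exact huv
    rw [hc, mem_cross] at h2
    rw [h1]
    exact h2

private lemma lowFar_mid {E F : ES} {k s t : ℤ} (aE : ∀ u v, s(u, v) ∈ E → Adj u v)
    (aF : ∀ u v, s(u, v) ∈ F → Adj u v) (hb : botE E k = botE F k)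
    (hc : cross E k = cross F k) (ht : t ≤ k) : midE E s t = midE F s t := by
  apply edge_ext
  intro u v
  rw [mem_midE, mem_midE]
  constructor
  · rintro ⟨h1, h2⟩
    exact ⟨lowFar_sub aE hb hc h1 (by omega), h2⟩
  · rintro ⟨h1, h2⟩
    exact ⟨lowFar_sub aF hb.symm hc.symm h1 (by omega), h2⟩

private lemma lowFar_bot_stretch (E : ES) (k : ℤ) (h : ℕ) :
    botE (stretch E k h) k = botE E k := by
  apply edge_ext
  intro u v
  rw [mem_botE, mem_botE, mem_stretch]
  constructor
  · rintro ⟨h1 | h1 | ⟨p, q, i, -, -, h1⟩, h2, h3⟩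
    · exact ⟨h1.1, h2, h3⟩
    · omega
    · exfalso
      rw [Sym2.eq_iff] at h1
      rcases h1 with ⟨rfl, rfl⟩ | ⟨rfl, rfl⟩
      · simp only at h3
        omega
      · simp only at h2
        omega
  · rintro ⟨h1, h2, h3⟩
    exact ⟨Or.inl ⟨h1, h2, h3⟩, h2, h3⟩

private lemma lowFar_top_stretch (E : ES) (k : ℤ) (h : ℕ) :
    topE (stretch E k h) (k + h) = shift (0, 0, (h : ℤ)) (topE E k) := by
  apply edge_ext
  intro u v
  rw [mem_topE, mem_shift, mem_topE, mem_stretch]
  simp only [Prod.snd_sub]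
  constructor
  · rintro ⟨h1 | h1 | ⟨p, q, i, hi, -, h1⟩, h2, h3⟩
    · omega
    · exact ⟨h1.1, by omega, by omega⟩
    · exfalso
      rw [Sym2.eq_iff] at h1
      rcases h1 with ⟨rfl, rfl⟩ | ⟨rfl, rfl⟩
      · simp only at h2
        omega
      · simp only at h3
        omega
  · rintro ⟨h1, h2, h3⟩
    exact ⟨Or.inr (Or.inl ⟨h1, by omega, by omega⟩), by omega, by omega⟩

private lemma lowFar_ne {a b : ℤ × ℤ} (hab : Lex a b) : a ≠ b := by
  rintro rfl
  rcases hab with h | ⟨-, h⟩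
  · exact lt_irrefl _ h
  · exact lt_irrefl _ h

private lemma lowFar_two {E : ES} {k : ℤ} {a b : ℤ × ℤ} (hc : cross E k = {a, b}) (hab : a ≠ b) :
    IsTwo E k := by
  unfold IsTwo
  rw [hc, Set.ncard_pair hab]

/-- **Insertions at far sections are different.** -/
theorem insK_far (hK : LeftOf K0 h z) (nK : ¬ Unknotted K0)
    (hE : IsPolygon E) (hE' : IsPolygon E') (uE' : Unknotted E') (hc : cross E k = {a, b})
    (hab : Lex a b) (hc' : cross E' k' = {a', b'}) (hab' : Lex a' b') (hkk : k + h ≤ k') :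
    insK K0 h z a E k ≠ insK K0 h z a' E' k' := by
  intro heq
  apply nK
  have hne := lowFar_ne hab
  -- the height is positive
  have hh : k < k + h := by
    have h1 : ((-1, 0, z) : P3) ∈ verts K0 := ⟨_, hK.edge⟩
    have h2 : ((-1, 0, z + 1) : P3) ∈ verts K0 := ⟨(-1, 0, z), by
      rw [Sym2.eq_swap]
      exact hK.edge⟩
    have h3 := (hK.lev _ h1).1
    have h4 := (hK.lev _ h2).2
    simp only at h3 h4
    omega
  obtain ⟨p1, p2, p3⟩ := insK_parts hK hE hc hab
  obtain ⟨q1, q2, q3⟩ := insK_parts hK hE' hc' hab'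
  obtain ⟨c1, c2⟩ := insK_cross hK hE hc hab
  obtain ⟨d1, d2⟩ := insK_cross hK hE' hc' hab'
  have iE : IsPolygon (insK K0 h z a E k) := insK_poly hK hE hc hab
  -- the sections of `E'`
  have e1 : cross E' k = {a, b} := by
    rw [← d1 k (by omega), ← heq, c1 k le_rfl, hc]
  have e2 : cross E' (k + h) = {a, b} := by
    rw [← d1 (k + h) (by omega), ← heq, c2 (k + h) le_rfl, add_sub_cancel_right, hc]
  -- the middle part of `E'`
  have e3 : midE E' k (k + h) = patK K0 h z a b k := by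
    rw [← p2]
    refine lowFar_mid (k := k') hE'.adj iE.adj ?_ ?_ hkk
    · rw [heq, q1]
    · rw [heq, d1 k' le_rfl]
  -- an unknotted polygon with this section
  obtain ⟨C0, hC0, uC0, cC0⟩ := exists_unknot_two hne k
  obtain ⟨hC1, tC1⟩ := stretchStatement C0 k h hC0
  set C1 := stretch C0 k h with hC1d
  have uC1 : Unknotted C1 := tC1.symm.unknotted uC0
  have f1 : cross C1 k = {a, b} := by
    rw [hC1d, cross_stretch_low le_rfl, cC0]
  have f2 : cross C1 (k + h) = {a, b} := by
    rw [hC1d, cross_stretch_high le_rfl, add_sub_cancel_right, cC0]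
  have g1 : cross E' k = cross C1 k := by rw [e1, f1]
  have g2 : cross E' (k + h) = cross C1 (k + h) := by rw [e2, f2]
  have t1 : IsTwo C1 k := lowFar_two f1 hne
  have S1 : IsPolygon (splice C1 E' k) := isPolygon_splice hC1 hE' t1 g1
  have uS1 : Unknotted (splice C1 E' k) := unknotted_splice hC1 hE' t1 g1 uC1 uE'
  have g3 : cross (splice C1 E' k) (k + h) = {a, b} := by
    rw [cross_splice_high g1 hh.le, e2]
  have t2 : IsTwo (splice C1 E' k) (k + h) := lowFar_two g3 hne
  have g4 : cross C1 (k + h) = cross (splice C1 E' k) (k + h) := by rw [f2, g3]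
  have S2 : IsPolygon (splice (splice C1 E' k) C1 (k + h)) := isPolygon_splice S1 hC1 t2 g4
  have uS2 : Unknotted (splice (splice C1 E' k) C1 (k + h)) :=
    unknotted_splice S1 hC1 t2 g4 uS1 uC1
  obtain ⟨r1, r2, r3⟩ := parts_splice hC1.adj hE'.adj hC1.adj hh g1 g2
  obtain ⟨w1, w2, w3⟩ := insK_parts hK hC0 cC0 hab
  have hins : splice (splice C1 E' k) C1 (k + h) = insK K0 h z a C0 k := by
    refine eq_of_parts S2.adj (insK_poly hK hC0 cC0 hab).adj hh ?_ ?_ ?_
    · rw [r1, w1, hC1d, lowFar_bot_stretch]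
    · rw [r2, w2, e3]
    · rw [r3, w3, hC1d, lowFar_top_stretch]
  rw [hins] at uS2
  exact (insK_type hK hC0 cC0 hab uC0).unknotted uS2

/-- At a given section the polygon is determined by the result. -/
theorem insK_inj (hK : LeftOf K0 h z) (hE : IsPolygon E) (hE' : IsPolygon E')
    (hc : cross E k = {a, b}) (hab : Lex a b) (hc' : cross E' k = {a', b'}) (hab' : Lex a' b')
    (heq : insK K0 h z a E k = insK K0 h z a' E' k) : E = E' := by
  obtain ⟨p1, -, p3⟩ := insK_parts hK hE hc hab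
  obtain ⟨q1, -, q3⟩ := insK_parts hK hE' hc' hab'
  obtain ⟨c1, -⟩ := insK_cross hK hE hc hab
  obtain ⟨d1, -⟩ := insK_cross hK hE' hc' hab'
  have h1 : botE E k = botE E' k := by rw [← p1, heq, q1]
  have h2 : cross E k = cross E' k := by rw [← c1 k le_rfl, heq, d1 k le_rfl]
  have h3 : topE E k = topE E' k := by
    have h4 : shift (0, 0, (h : ℤ)) (topE E k) = shift (0, 0, (h : ℤ)) (topE E' k) := by
      rw [← p3, heq, q3]
    apply edge_ext
    intro u v
    have h5 : s(u + (0, 0, (h : ℤ)), v + (0, 0, (h : ℤ))) ∈ shift (0, 0, (h : ℤ)) (topE E k) ↔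
        s(u + (0, 0, (h : ℤ)), v + (0, 0, (h : ℤ))) ∈ shift (0, 0, (h : ℤ)) (topE E' k) := by
      rw [h4]
    rw [mem_shift, mem_shift, add_sub_cancel_right, add_sub_cancel_right] at h5
    exact h5
  have key : ∀ {A B : ES}, (∀ u v, s(u, v) ∈ A → Adj u v) → botE A k = botE B k →
      cross A k = cross B k → topE A k = topE B k → ∀ u v, s(u, v) ∈ A → s(u, v) ∈ B := by
    intro A B aA g1 g2 g3 u v huv
    by_cases hle : u.2.2 ≤ k ∨ v.2.2 ≤ k
    · exact lowFar_sub aA g1 g2 huv hle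
    · have h6 : s(u, v) ∈ topE A k := mem_topE.2 ⟨huv, by omega, by omega⟩
      rw [g3] at h6
      exact (mem_topE.1 h6).1
  apply edge_ext
  intro u v
  exact ⟨key hE.adj h1 h2 h3 u v, key hE'.adj h1.symm h2.symm h3.symm u v⟩

end Pool.Agent.KTen
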