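import Pool.Agent.KTen.PatA
import Pool.Agent.KTen.SideJoinB

/-! The reversed piece; the side join and congruence. -/

set_option autoImplicit false

open Set

namespace Pool.Agent.KTen

open Pool.Agent.LK Pool.Agent.KTube

variable {K0 E F R : ES} {h : ℕ} {z k k0 t : ℤ} {a b a0 b0 : ℤ × ℤ}

/-! ### The rotation -/

/-- The rotation by `π` about the first axis, followed by a translation. -/
def rt (t : ℤ) : P3 → P3 := fmap (0, 0, t) (1, 0, 0) (0, -1, 0) (0, 0, -1)

theorem rt_apply (t : ℤ) (u : P3) : rt t u = (u.1, -u.2.1, t - u.2.2) := by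
  simp [rt, fmap, sub_eq_add_neg]

theorem frm_rt : Frm (1, 0, 0) (0, -1, 0) (0, 0, -1) := by decide

theorem rt_rt (t : ℤ) (u : P3) : rt t (rt t u) = u := by
  rw [rt_apply, rt_apply]
  simp

theorem mem_mapE_rt {u v : P3} : s(u, v) ∈ mapE (rt t) E ↔ s(rt t u, rt t v) ∈ E := by
  have h := mem_mapE_fmap (x := (0, 0, t)) frm_rt (E := E) (u := rt t u) (v := rt t v)
  change s(rt t (rt t u), rt t (rt t v)) ∈ mapE (rt t) E ↔ _ at h
  rwa [rt_rt, rt_rt] at h

theorem mapE_rt_rt (t : ℤ) (E : ES) : mapE (rt t) (mapE (rt t) E) = E := by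
  refine edge_ext fun u v => ?_
  rw [mem_mapE_rt, mem_mapE_rt, rt_rt, rt_rt]

theorem isPolygon_rt (hE : IsPolygon E) : IsPolygon (mapE (rt t) E) := by
  refine isPolygon_of_fmap (x := (0, 0, t)) frm_rt ?_
  change IsPolygon (mapE (rt t) (mapE (rt t) E))
  rw [mapE_rt_rt]
  exact hE

theorem mem_verts_rt {u : P3} : u ∈ verts (mapE (rt t) E) ↔ rt t u ∈ verts E := by
  constructor
  · rintro ⟨v, hv⟩
    exact ⟨rt t v, mem_mapE_rt.1 hv⟩
  · rintro ⟨v, hv⟩
    refine ⟨rt t v, mem_mapE_rt.2 ?_⟩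
    rwa [rt_rt]

theorem rt_edge {u v p q : P3} : s(rt t u, rt t v) = s(p, q) ↔ s(u, v) = s(rt t p, rt t q) := by
  rw [Sym2.eq_iff, Sym2.eq_iff]
  have h : ∀ a b : P3, rt t a = b ↔ a = rt t b := by
    intro a b
    constructor
    · rintro rfl
      rw [rt_rt]
    · rintro rfl
      rw [rt_rt]
  rw [h, h, h, h]

/-- The reversed piece. -/
def rvK (K0 : ES) (h : ℕ) : ES := mapE (rt (h + 1)) K0

theorem leftOf_rvK (hK : LeftOf K0 h z) : LeftOf (rvK K0 h) h (h - z) := by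
  refine ⟨isPolygon_rt hK.poly, ?_, ?_, ?_⟩
  · intro u hu
    have := hK.left _ (mem_verts_rt.1 hu)
    rw [rt_apply] at this
    exact this
  · intro u hu
    have := hK.lev _ (mem_verts_rt.1 hu)
    rw [rt_apply] at this
    simp only at this
    omega
  · refine mem_mapE_rt.2 ?_
    rw [rt_apply, rt_apply, Sym2.eq_swap]
    have := hK.edge
    have e1 : (h : ℤ) + 1 - (h - z + 1) = z := by ring
    have e2 : (h : ℤ) + 1 - (h - z) = z + 1 := by ring
    simp only [neg_zero, e1, e2]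
    exact this

theorem rvK_rvK (K0 : ES) (h : ℕ) : rvK (rvK K0 h) h = K0 := mapE_rt_rt _ _

private theorem pb_mem {u v : P3} : s(u, v) ∈ insK K0 h z a E k ↔
    (s(u, v) ∈ stretch E k h ∧ s(u, v) ≠ s((a.1, a.2, k + z), (a.1, a.2, k + z + 1))) ∨
    (s(u, v) ∈ shift (a.1, a.2, k) K0 ∧
      s(u, v) ≠ s((a.1 - 1, a.2, k + z), (a.1 - 1, a.2, k + z + 1))) ∨
    s(u, v) = s((a.1 - 1, a.2, k + z), (a.1, a.2, k + z)) ∨
      s(u, v) = s((a.1 - 1, a.2, k + z + 1), (a.1, a.2, k + z + 1)) := by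
  unfold insK
  rw [Finset.mem_union, Finset.mem_union, Finset.mem_sdiff, Finset.mem_sdiff,
    Finset.mem_insert, Finset.mem_singleton, Finset.mem_singleton, Finset.mem_singleton, or_assoc]

theorem stretch_rt : mapE (rt h) (stretch E k h) = stretch (mapE (rt 0) E) (-k - 1) h := by
  refine edge_ext fun u v => ?_
  rw [mem_mapE_rt, mem_stretch, mem_stretch, mem_mapE_rt, mem_mapE_rt, ← or_assoc, ← or_assoc]
  refine or_congr ?_ ?_
  · rw [or_comm]
    have e1 : ∀ w : P3, rt h w - (0, 0, (h : ℤ)) = rt 0 w := by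
      intro w
      rw [rt_apply, rt_apply]
      simp
    have e2 : ∀ w : P3, rt 0 (w - (0, 0, (h : ℤ))) = rt h w := by
      intro w
      obtain ⟨w1, w2, w3⟩ := w
      rw [rt_apply, rt_apply]
      simp only [Prod.mk_sub_mk, sub_zero, Prod.mk.injEq, true_and]
      ring
    rw [e1, e1, e2, e2]
    have e3 : ∀ w : P3, (rt h w).2.2 = h - w.2.2 := fun w => by rw [rt_apply]
    rw [e3, e3]
    refine or_congr ?_ ?_
    · refine and_congr Iff.rfl (and_congr ?_ ?_) <;> constructor <;> intro <;> omega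
    · refine and_congr Iff.rfl (and_congr ?_ ?_) <;> constructor <;> intro <;> omega
  · constructor
    · rintro ⟨p, q, i, hi, h1, h2⟩
      refine ⟨p, -q, h - i, by omega, ?_, ?_⟩
      · rw [mem_mapE_rt, rt_apply, rt_apply, Sym2.eq_swap]
        simp only [neg_neg]
        have e1 : (0 : ℤ) - (-k - 1 + 1) = k := by ring
        have e2 : (0 : ℤ) - (-k - 1) = k + 1 := by ring
        rw [e1, e2]
        exact h1
      · rw [rt_edge.1 h2, rt_apply, rt_apply, Sym2.eq_swap]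
        have e1 : (h : ℤ) - (k + i + 1) = -k - 1 + ((h - i : ℕ) : ℤ) := by
          rw [Nat.cast_sub hi]
          ring
        have e2 : (h : ℤ) - (k + i) = -k - 1 + ((h - i : ℕ) : ℤ) + 1 := by
          rw [Nat.cast_sub hi]
          ring
        simp only [e1, e2]
    · rintro ⟨p, q, i, hi, h1, h2⟩
      refine ⟨p, -q, h - i, by omega, ?_, ?_⟩
      · rw [mem_mapE_rt, rt_apply, rt_apply, Sym2.eq_swap] at h1
        simp only at h1
        have e1 : (0 : ℤ) - (-k - 1 + 1) = k := by ring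
        have e2 : (0 : ℤ) - (-k - 1) = k + 1 := by ring
        rw [e1, e2] at h1
        exact h1
      · rw [rt_edge, h2, rt_apply, rt_apply, Sym2.eq_swap]
        have e1 : (h : ℤ) - (k + ((h - i : ℕ) : ℤ) + 1) = -k - 1 + i := by
          rw [Nat.cast_sub hi]
          ring
        have e2 : (h : ℤ) - (k + ((h - i : ℕ) : ℤ)) = -k - 1 + i + 1 := by
          rw [Nat.cast_sub hi]
          ring
        simp only [e1, e2, neg_neg]

theorem insK_rt : mapE (rt h) (insK K0 h z a E k) =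
    insK (rvK K0 h) h (h - z) (a.1, -a.2) (mapE (rt 0) E) (-k - 1) := by
  refine edge_ext fun u v => ?_
  rw [mem_mapE_rt, pb_mem, pb_mem, ← stretch_rt, mem_mapE_rt]
  have e1 : ∀ (p : ℤ), s(rt h u, rt h v) = s((p, a.2, k + z), (p, a.2, k + z + 1)) ↔
      s(u, v) = s((p, -a.2, -k - 1 + (h - z)), (p, -a.2, -k - 1 + (h - z) + 1)) := by
    intro p
    rw [rt_edge, rt_apply, rt_apply, Sym2.eq_swap (a := (p, -a.2, (h : ℤ) - (k + z)))]
    have e2 : (h : ℤ) - (k + z + 1) = -k - 1 + (h - z) := by ring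
    have e3 : (h : ℤ) - (k + z) = -k - 1 + (h - z) + 1 := by ring
    simp only [e2, e3]
  have e2 : s(rt h u, rt h v) ∈ shift (a.1, a.2, k) K0 ↔
      s(u, v) ∈ shift (a.1, -a.2, -k - 1) (rvK K0 h) := by
    rw [mem_shift, mem_shift, rvK, mem_mapE_rt]
    have e3 : ∀ w : P3, rt h w - (a.1, a.2, k) = rt (h + 1) (w - (a.1, -a.2, -k - 1)) := by
      intro w
      obtain ⟨w1, w2, w3⟩ := w
      rw [rt_apply, rt_apply]
      simp only [Prod.mk_sub_mk, Prod.mk.injEq, true_and]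
      constructor <;> ring
    rw [e3, e3]
  have e3 : s(rt h u, rt h v) = s((a.1 - 1, a.2, k + z), (a.1, a.2, k + z)) ↔
      s(u, v) = s((a.1 - 1, -a.2, -k - 1 + (h - z) + 1), (a.1, -a.2, -k - 1 + (h - z) + 1)) := by
    rw [rt_edge, rt_apply, rt_apply]
    have e3 : (h : ℤ) - (k + z) = -k - 1 + (h - z) + 1 := by ring
    simp only [e3]
  have e4 : s(rt h u, rt h v) = s((a.1 - 1, a.2, k + z + 1), (a.1, a.2, k + z + 1)) ↔
      s(u, v) = s((a.1 - 1, -a.2, -k - 1 + (h - z)), (a.1, -a.2, -k - 1 + (h - z))) := by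
    rw [rt_edge, rt_apply, rt_apply]
    have e3 : (h : ℤ) - (k + z + 1) = -k - 1 + (h - z) := by ring
    simp only [e3]
  rw [ne_eq, ne_eq, e1, e1, e2, e3, e4]
  simp only [ne_eq]
  tauto

/-! ### The rotation of space -/

/-- The rotation of space. -/
noncomputable def rtH (t : ℤ) : R3 ≃ₜ R3 := fhomeo (0, 0, t) frm_rt

theorem rtH_apply (t : ℤ) (p : R3) : rtH t p = (p.1, -p.2.1, t - p.2.2) := by
  unfold rtH
  rw [fhomeo_apply]
  refine Prod.ext ?_ (Prod.ext ?_ ?_) <;>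
  · push_cast
    ring

theorem body_rt (t : ℤ) (E : ES) : body (mapE (rt t) E) = rtH t '' body E := body_fmap frm_rt E

theorem upl_rt {t k k' : ℤ} (h : k' = t - k - 1) (a : ℤ × ℤ) (p : R3) :
    rtH t (upl (a.1, -a.2) k p) = (upl a k' ∘ rho) p := by
  rw [rtH_apply, upl_apply, Function.comp_apply, upl_apply, rho, h]
  refine Prod.ext rfl (Prod.ext ?_ ?_) <;>
  · push_cast
    ring

theorem cross_rt (hc : cross E k = {a, b}) :
    cross (mapE (rt 0) E) (-k - 1) = {(a.1, -a.2), (b.1, -b.2)} := by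
  have key : ∀ c : ℤ × ℤ, c ∈ cross (mapE (rt 0) E) (-k - 1) ↔ (c.1, -c.2) ∈ cross E k := by
    intro c
    rw [mem_cross, mem_cross, mem_mapE_rt, rt_apply, rt_apply, Sym2.eq_swap]
    have e1 : (0 : ℤ) - (-k - 1 + 1) = k := by ring
    have e2 : (0 : ℤ) - (-k - 1) = k + 1 := by ring
    rw [e1, e2]
  ext c
  rw [key, hc]
  simp only [mem_insert_iff, mem_singleton_iff]
  obtain ⟨c1, c2⟩ := c
  obtain ⟨a1, a2⟩ := a
  obtain ⟨b1, b2⟩ := b
  simp only [Prod.mk.injEq]
  constructor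
  · rintro (h | h)
    · left; omega
    · right; omega
  · rintro (h | h)
    · left; omega
    · right; omega

theorem wlex_rt (hab : WLex a b) : WLex (a.1, -a.2) (b.1, -b.2) := by
  obtain ⟨a1, a2⟩ := a
  obtain ⟨b1, b2⟩ := b
  refine ⟨hab.1, fun h => hab.2 ?_⟩
  simp only [Prod.mk.injEq] at h ⊢
  omega

/-- The reversed piece with the place below it is the reversed pattern. -/
theorem pat_both (hK : LeftOf K0 h z) : ∃ JJ : Set R3 → Set R3, (∀ J ⊆ Bx, JJ J ⊆ Bx) ∧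
    ∀ (E : ES) (k : ℤ) (a b : ℤ × ℤ), IsPolygon E → cross E k = {a, b} → WLex a b → ∀ J ⊆ Bx,
      EqvS (insr (body (insK K0 h z a E k)) (upl a (k + h)) J)
        (insr (body E) (upl a k) (JJ J)) ∧
      EqvS (insr (body (insK (rvK K0 h) h (h - z) a E k)) (upl a k ∘ rho) J)
        (insr (body E) (upl a k ∘ rho) (JJ J)) := by
  obtain ⟨JJ, hJJ, hpat⟩ := pat_above hK
  refine ⟨JJ, hJJ, fun E k a b hE hc hab J hJ => ⟨hpat E k a b hE hc hab J hJ, ?_⟩⟩
  have h1 := hpat (mapE (rt 0) E) (-k - 1) (a.1, -a.2) (b.1, -b.2) (isPolygon_rt hE)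
    (cross_rt hc) (wlex_rt hab) J hJ
  have himg : ∀ (t : ℤ) (X : Set R3) (k1 : ℤ) (J : Set R3), k = t - k1 - 1 → J ⊆ Bx →
      EqvS (insr X (upl (a.1, -a.2) k1) J) (insr (rtH t '' X) (upl a k ∘ rho) J) := by
    intro t X k1 J hk hJ
    exact eqP_image (rtH t) (fun p _ => upl_rt hk a p) J hJ
  have h2 := himg h (body (insK K0 h z (a.1, -a.2) (mapE (rt 0) E) (-k - 1))) (-k - 1 + h) J
    (by ring) hJ
  have h3 := himg 0 (body (mapE (rt 0) E)) (-k - 1) (JJ J) (by ring) (hJJ J hJ)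
  rw [← body_rt, insK_rt, mapE_rt_rt] at h2
  rw [← body_rt, mapE_rt_rt] at h3
  have e1 : ((((a.1, -a.2) : ℤ × ℤ).1, -((a.1, -a.2) : ℤ × ℤ).2) : ℤ × ℤ) = a := by
    simp
  have e2 : -(-k - 1) - 1 = k := by ring
  rw [e1, e2] at h2
  exact (h2.symm.trans h1).trans h3

/-! ### Congruence -/

theorem wlex_edge (hc : cross E k = {a, b}) : s((a.1, a.2, k), (a.1, a.2, k + 1)) ∈ E := by
  have : a ∈ cross E k := by rw [hc]; exact Or.inl rfl
  exact this

theorem frm_up : Frm (0, 0, 1) (1, 0, 0) (crs (0, 0, 1) (1, 0, 0)) := by decide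

theorem place_upl (hc : s((a.1, a.2, k), (a.1, a.2, k + 1)) ∈ E) : Place E (upl a k) :=
  ⟨(a.1, a.2, k), (0, 0, 1), (1, 0, 0), by simpa using hc, frm_up, rfl⟩

/-- The place above the piece. -/
theorem place_above (hK : LeftOf K0 h z) (hc : cross E k = {a, b}) :
    Place (insK K0 h z a E k) (upl a (k + h)) := by
  refine place_upl (pb_mem.2 (Or.inl ⟨mem_stretch.2 (Or.inr (Or.inr
    ⟨a.1, a.2, h, le_rfl, wlex_edge hc, rfl⟩)), ?_⟩))
  have h1 := hK.lev _ (right_mem_verts hK.edge)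
  simp only at h1
  intro h2
  rw [Sym2.eq_iff] at h2
  simp only [Prod.mk.injEq] at h2
  omega

/-- The place below the piece. -/
theorem place_below (hK : LeftOf K0 h z) (hc : cross E k = {a, b}) :
    Place (insK K0 h z a E k) (upl a k) := by
  refine place_upl (pb_mem.2 (Or.inl ⟨mem_stretch.2 (Or.inr (Or.inr
    ⟨a.1, a.2, 0, by omega, wlex_edge hc, by simp⟩)), ?_⟩))
  have h1 := hK.lev _ (left_mem_verts hK.edge)
  simp only at h1
  intro h2
  rw [Sym2.eq_iff] at h2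
  simp only [Prod.mk.injEq] at h2
  omega

/-- **The side join with the piece or with the reversed piece.** -/
theorem cong_insK (hK : LeftOf K0 h z) (hR : IsPolygon R) (hE : IsPolygon E) (hRE : Cong R E)
    (hcR : cross R k0 = {a0, b0}) (hRab : WLex a0 b0) (hc : cross E k = {a, b})
    (hab : WLex a b) : Cong (insK K0 h z a0 R k0) (insK K0 h z a E k) ∨
      Cong (insK K0 h z a0 R k0) (insK (rvK K0 h) h (h - z) a E k) := by
  obtain ⟨JJ, hJJ, hpat⟩ := pat_both hK
  obtain ⟨x, y, hxy, heq⟩ := hRE.place hR hE (place_upl (wlex_edge hcR)) (wlex_edge hc)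
  rcases Sym2.eq_iff.1 hxy with ⟨rfl, rfl⟩ | ⟨rfl, rfl⟩
  · left
    have e : ((a.1, a.2, k + 1) : P3) - (a.1, a.2, k) = (0, 0, 1) := by simp
    have h1 := heq (1, 0, 0) (by rw [e]; exact frm_up)
    rw [e] at h1
    refine ⟨_, _, place_above hK hcR, place_above hK hc, fun J hJ => ?_⟩
    have h2 := (hpat R k0 a0 b0 hR hcR hRab J hJ).1
    have h3 := (hpat E k a b hE hc hab J hJ).1
    exact (h2.trans (h1 _ (hJJ J hJ))).trans h3.symm
  · right
    have e : ((a.1, a.2, k) : P3) - (a.1, a.2, k + 1) = -(0, 0, 1) := by simp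
    have e2 : ((a.1, a.2, k + 1) : P3) = (a.1, a.2, k) + (0, 0, 1) := by simp
    have h1 := heq (1, 0, 0) (by rw [e]; exact frm_neg frm_up)
    rw [e, e2, ← cht_rho] at h1
    refine ⟨_, _, place_above hK hcR, (place_below (leftOf_rvK hK) hc).rho, fun J hJ => ?_⟩
    have h2 := (hpat R k0 a0 b0 hR hcR hRab J hJ).1
    have h3 := (hpat E k a b hE hc hab J hJ).2
    exact (h2.trans (h1 _ (hJJ J hJ))).trans h3.symm

end Pool.Agent.KTen
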