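import Pool.Agent.KTen.Lower
import Pool.Agent.KTen.PatB
import Pool.Agent.KTen.CountG
import Pool.Agent.KTen.FarG

/-! Insertion of a knot at the sections with unknotted upper part, for general classes. -/

set_option autoImplicit false

open Set Filter Topology

namespace Pool.Agent.KTen

open Pool.Agent.LK Pool.Agent.KTube

variable {K0 K1 E E' : ES} {h : ℕ} {z z1 k k' : ℤ} {a b a' b' : ℤ × ℤ} {x : ℝ}

/-! ### The lowest level -/

/-- the lowest level -/
private noncomputable def lev (E : ES) : ℤ := sInf {m : ℤ | ∃ u ∈ verts E, u.2.2 = m}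

private theorem lev_isLeast (hE : (verts E).Nonempty) :
    IsLeast {m : ℤ | ∃ u ∈ verts E, u.2.2 = m} (lev E) := by
  obtain ⟨u, hu, hu'⟩ := Set.exists_min_image (verts E) (fun u => u.2.2) (verts_finite E) hE
  have h1 : IsLeast {m : ℤ | ∃ u ∈ verts E, u.2.2 = m} u.2.2 := by
    refine ⟨⟨u, hu, rfl⟩, ?_⟩
    rintro _ ⟨v, hv, rfl⟩
    exact hu' v hv
  have h2 : lev E = u.2.2 := h1.csInf_eq
  rw [h2]
  exact h1

private theorem lev_shift (hE : (verts E).Nonempty) (r : P3) : lev (shift r E) = lev E + r.2.2 := by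
  have h1 := lev_isLeast hE
  have h2 : IsLeast {m : ℤ | ∃ u ∈ verts (shift r E), u.2.2 = m} (lev E + r.2.2) := by
    obtain ⟨⟨u, hu, hu'⟩, h3⟩ := h1
    refine ⟨⟨u + r, mem_verts_shift.2 (by rwa [add_sub_cancel_right]), ?_⟩, ?_⟩
    · rw [← hu']; rfl
    · rintro _ ⟨v, hv, rfl⟩
      have h4 := h3 ⟨v - r, mem_verts_shift.1 hv, rfl⟩
      simp only [Prod.snd_sub] at h4
      linarith
  exact h2.csInf_eq

private theorem lev_le (hc : (cross E k).Nonempty) : lev E ≤ k := by
  obtain ⟨c, hc⟩ := hc
  have h1 : ((c.1, c.2, k) : P3) ∈ verts E := left_mem_verts hc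
  exact (lev_isLeast ⟨_, h1⟩).2 ⟨_, h1, rfl⟩

/-! ### Translations -/

private theorem stretch_shift (r : P3) (E : ES) (k : ℤ) (h : ℕ) :
    stretch (shift r E) (k + r.2.2) h = shift r (stretch E k h) := by
  apply edge_ext
  intro u v
  rw [mem_shift, mem_stretch, mem_stretch, mem_shift, mem_shift]
  refine or_congr ?_ (or_congr ?_ ?_)
  · refine and_congr Iff.rfl (and_congr ?_ ?_) <;> simp only [Prod.snd_sub] <;> constructor <;>
      intro <;> linarith
  · have e1 : u - (0, 0, (h : ℤ)) - r = u - r - (0, 0, (h : ℤ)) := by abel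
    have e2 : v - (0, 0, (h : ℤ)) - r = v - r - (0, 0, (h : ℤ)) := by abel
    rw [e1, e2]
    refine and_congr Iff.rfl (and_congr ?_ ?_) <;> simp only [Prod.snd_sub] <;> constructor <;>
      intro <;> linarith
  · constructor
    · rintro ⟨a, b, i, hi, h1, h2⟩
      refine ⟨a - r.1, b - r.2.1, i, hi, ?_, ?_⟩
      · rw [mem_shift] at h1
        have e1 : ((a, b, k + r.2.2) : P3) - r = (a - r.1, b - r.2.1, k) := by
          ext <;> simp
        have e2 : ((a, b, k + r.2.2 + 1) : P3) - r = (a - r.1, b - r.2.1, k + 1) := by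
          ext <;> simp
          ring
        rwa [e1, e2] at h1
      · have h3 := congrArg (Sym2.map (fun w : P3 => w - r)) h2
        rw [Sym2.map_mk, Sym2.map_mk] at h3
        rw [h3]
        congr 1 <;> (ext <;> simp <;> ring)
    · rintro ⟨a, b, i, hi, h1, h2⟩
      refine ⟨a + r.1, b + r.2.1, i, hi, ?_, ?_⟩
      · rw [mem_shift]
        have e1 : ((a + r.1, b + r.2.1, k + r.2.2) : P3) - r = (a, b, k) := by
          ext <;> simp
        have e2 : ((a + r.1, b + r.2.1, k + r.2.2 + 1) : P3) - r = (a, b, k + 1) := by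
          ext <;> simp
          ring
        rwa [e1, e2]
      · have h3 := congrArg (Sym2.map (fun w : P3 => w + r)) h2
        rw [Sym2.map_mk, Sym2.map_mk, sub_add_cancel, sub_add_cancel] at h3
        rw [h3]
        congr 1 <;> (ext <;> simp <;> ring)

private theorem insK_shift (r : P3) (K0 : ES) (h : ℕ) (z : ℤ) (a : ℤ × ℤ) (E : ES) (k : ℤ) :
    shift r (insK K0 h z a E k) =
      insK K0 h z (a.1 + r.1, a.2 + r.2.1) (shift r E) (k + r.2.2) := by
  have hinj : Function.Injective (Sym2.map fun u : P3 => u + r) :=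
    Sym2.map.injective (add_left_injective r)
  have e0 : ∀ A B : ES, shift r (A ∪ B) = shift r A ∪ shift r B := fun A B => by
    unfold shift mapE
    exact Finset.image_union _ _
  have e1 : ∀ A B : ES, shift r (A \ B) = shift r A \ shift r B := fun A B => by
    unfold shift mapE
    exact Finset.image_sdiff _ _ hinj
  have e2 : ∀ u v : P3, shift r {s(u, v)} = {s(u + r, v + r)} := fun u v => by
    unfold shift mapE
    rw [Finset.image_singleton, Sym2.map_mk]
  have e3 : ∀ (e : Sym2 P3) (A : ES), shift r (insert e A) = insert (Sym2.map (fun u => u + r) e)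
      (shift r A) := fun e A => by
    unfold shift mapE
    exact Finset.image_insert _ _ _
  unfold insK
  rw [e0, e0, e1, e1, e2, e2, e3, e2, Sym2.map_mk, stretch_shift, shift_shift]
  have f : ∀ p q w : ℤ, ((p, q, w) : P3) + r = (p + r.1, q + r.2.1, w + r.2.2) := fun p q w => by
    ext <;> simp
  have g : r + ((a.1, a.2, k) : P3) = (a.1 + r.1, a.2 + r.2.1, k + r.2.2) := by
    ext <;> simp <;> ring
  have g1 : k + z + r.2.2 = k + r.2.2 + z := by ring
  have g2 : k + z + 1 + r.2.2 = k + r.2.2 + z + 1 := by ring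
  have g3 : a.1 - 1 + r.1 = a.1 + r.1 - 1 := by ring
  simp only [f, g, g1, g2, g3]

private theorem lex_shift (h : Lex a b) (r : P3) :
    Lex (a.1 + r.1, a.2 + r.2.1) (b.1 + r.1, b.2 + r.2.1) := by
  rcases h with h | ⟨h1, h2⟩
  · left
    simpa using h
  · right
    simp only
    omega

private theorem cross_shift_pair (hc : cross E k = {a, b}) (r : P3) :
    cross (shift r E) (k + r.2.2) = {(a.1 + r.1, a.2 + r.2.1), (b.1 + r.1, b.2 + r.2.1)} := by
  rw [cross_shift, hc, Set.image_pair]

private theorem exists_lex (hE : IsTwo E k) : ∃ a b, cross E k = {a, b} ∧ Lex a b := by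
  obtain ⟨a, b, hab, hc⟩ := Set.ncard_eq_two.1 hE
  rcases lt_trichotomy a.1 b.1 with h | h | h
  · exact ⟨a, b, hc, Or.inl h⟩
  · rcases lt_trichotomy a.2 b.2 with h' | h' | h'
    · exact ⟨a, b, hc, Or.inr ⟨h, h'⟩⟩
    · exact absurd (Prod.ext h h') hab
    · exact ⟨b, a, by rw [hc, Set.pair_comm], Or.inr ⟨h.symm, h'⟩⟩
  · exact ⟨b, a, by rw [hc, Set.pair_comm], Or.inl h⟩

/-! ### Sections with unknotted upper part -/

/-- The sections with two edges and unknotted upper part. -/
def upU (E : ES) : Set ℤ := {k | IsTwo E k ∧ UppU E k}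

/-- Their number. -/
noncomputable def numU (E : ES) : ℕ := (upU E).ncard

theorem upU_finite (E : ES) : (upU E).Finite := (isTwo_finite E).subset fun _ h => h.1

theorem numU_unknotted (hE : IsPolygon E) (uE : Unknotted E) : numU E = numTwo E := by
  unfold numU numTwo
  congr 1
  ext k
  simp only [upU, Set.mem_ofPred_eq]
  exact ⟨fun h => h.1, fun h => ⟨h, uppU_of_unknotted hE uE⟩⟩

theorem numU_shift (r : P3) (E : ES) : numU (shift r E) = numU E := by
  have h : upU (shift r E) = (fun k => k + r.2.2) '' upU E := by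
    ext k
    simp only [upU, Set.mem_ofPred_eq, Set.mem_image]
    constructor
    · rintro ⟨h1, h2⟩
      refine ⟨k - r.2.2, ⟨?_, ?_⟩, by ring⟩
      · rw [← isTwo_shift r, sub_add_cancel]
        exact h1
      · rw [← uppU_shift r, sub_add_cancel]
        exact h2
    · rintro ⟨j, ⟨h1, h2⟩, rfl⟩
      exact ⟨(isTwo_shift r E j).2 h1, (uppU_shift r E j).2 h2⟩
  unfold numU
  rw [h, Set.ncard_image_of_injective _ (add_left_injective r.2.2)]

/-- The upper parts are preserved. -/
theorem uppU_insK (hK : LeftOf K0 h z) (hE : IsPolygon E) (hc : cross E k = {a, b})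
    (hab : Lex a b) {j : ℤ} (hj : k ≤ j) (hu : UppU E j) :
    UppU (insK K0 h z a E k) (j + h) := by
  obtain ⟨G, hG, cG, uG⟩ := hu
  obtain ⟨-, -, p3⟩ := insK_parts hK hE hc hab
  obtain ⟨-, c2⟩ := insK_cross hK hE hc hab
  have iE : IsPolygon (insK K0 h z a E k) := insK_poly hK hE hc hab
  have hcr : cross (insK K0 h z a E k) (j + h) = cross E j := by
    rw [c2 (j + h) (by omega), add_sub_cancel_right]
  have hr : ((0, 0, (h : ℤ)) : P3).2.2 = h := rfl
  have hup : uppE (insK K0 h z a E k) (j + h) = shift (0, 0, (h : ℤ)) (uppE E j) := by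
    apply edge_ext
    intro u v
    rw [mem_uppE, mem_shift, mem_uppE]
    simp only [Prod.snd_sub]
    have e1 : ∀ w : ℤ, (j + 1 ≤ w - h ↔ j + h + 1 ≤ w) := fun w => by omega
    rw [e1, e1]
    refine and_congr_left fun h1 => ?_
    -- the edge
    by_cases hb : k + h + 1 ≤ u.2.2 ∧ k + h + 1 ≤ v.2.2
    · have h2 : s(u, v) ∈ topE (insK K0 h z a E k) (k + h) ↔
          s(u, v) ∈ shift (0, 0, (h : ℤ)) (topE E k) := by rw [p3]
      rw [mem_topE, mem_shift, mem_topE] at h2
      simp only [Prod.snd_sub] at h2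
      have e2 : ∀ w : ℤ, (k + 1 ≤ w - h ↔ k + h + 1 ≤ w) := fun w => by omega
      rw [e2, e2] at h2
      constructor
      · intro h3
        exact (h2.1 ⟨h3, hb.1, hb.2⟩).1
      · intro h3
        exact (h2.2 ⟨h3, hb.1, hb.2⟩).1
    · -- a vertical edge at the section `k + h`
      have hcc : cross (insK K0 h z a E k) (k + h) = cross E k := by
        rw [c2 (k + h) le_rfl, add_sub_cancel_right]
      constructor
      · intro h3
        rcases adj_cases (k + h) (iE.adj u v h3) with h4 | h4 | ⟨p, q, h4⟩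
        · omega
        · omega
        · have h5 : ((p, q) : ℤ × ℤ) ∈ cross (insK K0 h z a E k) (k + h) := by
            rw [mem_cross]
            rw [h4] at h3
            exact h3
          rw [hcc, mem_cross] at h5
          have h6 : s(u - (0, 0, (h : ℤ)), v - (0, 0, (h : ℤ))) = s((p, q, k), (p, q, k + 1)) := by
            have h7 := congrArg (Sym2.map (fun w : P3 => w - (0, 0, (h : ℤ)))) h4
            rw [Sym2.map_mk, Sym2.map_mk] at h7
            rw [h7]
            congr 1 <;> (ext <;> simp <;> ring)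
          rw [h6]
          exact h5
      · intro h3
        rcases adj_cases k (hE.adj _ _ h3) with h4 | h4 | ⟨p, q, h4⟩
        · simp only [Prod.snd_sub] at h4
          omega
        · simp only [Prod.snd_sub] at h4
          omega
        · have h5 : ((p, q) : ℤ × ℤ) ∈ cross E k := by
            rw [mem_cross]
            rw [h4] at h3
            exact h3
          rw [← hcc, mem_cross] at h5
          have h6 : s(u, v) = s((p, q, k + h), (p, q, k + h + 1)) := by
            have h7 := congrArg (Sym2.map (fun w : P3 => w + (0, 0, (h : ℤ)))) h4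
            rw [Sym2.map_mk, Sym2.map_mk, sub_add_cancel, sub_add_cancel] at h7
            rw [h7]
            congr 1 <;> (ext <;> simp <;> ring)
          rw [h6]
          exact h5
  refine ⟨shift (0, 0, (h : ℤ)) G, isPolygon_shift hG _, ?_, ?_⟩
  · have h1 := cross_shift (0, 0, (h : ℤ)) G j
    simp only at h1
    rw [h1, hcr, ← cG]
    simp
  · have h1 : splice (shift (0, 0, (h : ℤ)) G) (insK K0 h z a E k) (j + h) =
        shift (0, 0, (h : ℤ)) (splice G E j) := by
      have h2 := lowE_shift (0, 0, (h : ℤ)) G j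
      simp only at h2
      unfold splice
      rw [hup, h2]
      unfold shift mapE
      exact (Finset.image_union _ _).symm
    rw [h1]
    exact (moveFacts.trans _ _).symm.unknotted uG

/-- The number of the sections above the insertion is preserved. -/
theorem numU_insK (hK : LeftOf K0 h z) (hE : IsPolygon E) (hc : cross E k = {a, b})
    (hab : Lex a b) {L : ℕ} (hL : L ≤ {j | j ∈ upU E ∧ k < j}.ncard) :
    L ≤ numU (insK K0 h z a E k) := by
  refine hL.trans ?_
  obtain ⟨-, c2⟩ := insK_cross hK hE hc hab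
  have hinj : Function.Injective fun j : ℤ => j + h := add_left_injective _
  rw [← Set.ncard_image_of_injective _ hinj]
  refine Set.ncard_le_ncard ?_ (upU_finite _)
  rintro _ ⟨j, ⟨⟨h1, h2⟩, h3⟩, rfl⟩
  refine ⟨?_, uppU_insK hK hE hc hab h3.le h2⟩
  unfold IsTwo at h1 ⊢
  rw [c2 (j + h) (by omega), add_sub_cancel_right]
  exact h1

/-- There are many sections with many sections above them. -/
theorem exists_sections {L M : ℕ} (hE : L + M ≤ numU E) : ∃ f : Fin M → ℤ,
    Function.Injective f ∧ (∀ i, f i ∈ upU E) ∧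
      ∀ i, L ≤ {j | j ∈ upU E ∧ f i < j}.ncard := by
  classical
  set s := (upU_finite E).toFinset with hs
  have hcard : s.card = numU E := by
    unfold numU
    rw [Set.ncard_eq_toFinset_card _ (upU_finite E)]
  have hM : ∀ i : Fin M, (i : ℕ) < s.card := fun i => by omega
  set e := s.orderEmbOfFin rfl with he
  have hmem : ∀ i, e i ∈ upU E := fun i =>
    (upU_finite E).mem_toFinset.1 (s.orderEmbOfFin_mem rfl i)
  refine ⟨fun i => e ⟨i, hM i⟩, ?_, fun i => hmem _, ?_⟩
  · intro i j hij
    have h1 := e.injective hij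
    rw [Fin.mk.injEq] at h1
    exact Fin.ext h1
  · intro i
    have hsub : (fun t : Fin L => e ⟨M + t, by omega⟩) '' Set.univ ⊆
        {j | j ∈ upU E ∧ e ⟨i, hM i⟩ < j} := by
      rintro _ ⟨t, -, rfl⟩
      refine ⟨hmem _, e.strictMono ?_⟩
      rw [Fin.mk_lt_mk]
      have := i.2
      omega
    have hinj : Function.Injective fun t : Fin L => e ⟨M + t, by omega⟩ := by
      intro t t' htt
      have h1 := e.injective htt
      rw [Fin.mk.injEq] at h1
      exact Fin.ext (by omega)
    calc L = ((fun t : Fin L => e ⟨M + t, by omega⟩) '' Set.univ).ncard := by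
          rw [Set.ncard_image_of_injective _ hinj, Set.ncard_univ, Nat.card_eq_fintype_card,
            Fintype.card_fin]
      _ ≤ _ := Set.ncard_le_ncard hsub ((upU_finite E).subset fun j hj => hj.1)

/-! ### The marks -/

/-- the planes at which `K0` may have been inserted -/
private def TT (K0 : ES) (h : ℕ) (z : ℤ) (F : ES) : Set ℤ :=
  {k | ∃ E a b, IsPolygon E ∧ UppU E k ∧ cross E k = {a, b} ∧ Lex a b ∧
    F = insK K0 h z a E k}

private theorem near_finite {T : Set ℤ} {h : ℕ} (hT : ∀ k ∈ T, ∀ k' ∈ T, k' < k + h) :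
    T.Finite ∧ T.ncard ≤ h := by
  rcases T.eq_empty_or_nonempty with rfl | ⟨k0, hk0⟩
  · simp
  have hfin : T.Finite := by
    refine (Set.finite_Icc (k0 - h) (k0 + h)).subset fun k hk => ?_
    have h1 := hT k hk k0 hk0
    have h2 := hT k0 hk0 k hk
    rw [Set.mem_Icc]
    omega
  refine ⟨hfin, ?_⟩
  obtain ⟨m, hm, hm'⟩ := Set.exists_min_image T id hfin ⟨k0, hk0⟩
  have hsub : T ⊆ ((Finset.Ico m (m + h) : Finset ℤ) : Set ℤ) := by
    intro k hk
    rw [Finset.mem_coe, Finset.mem_Ico]
    exact ⟨hm' k hk, hT m hm k hk⟩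
  calc T.ncard ≤ ((Finset.Ico m (m + h) : Finset ℤ) : Set ℤ).ncard :=
        Set.ncard_le_ncard hsub (Finset.finite_toSet _)
    _ = h := by rw [Set.ncard_coe_finset, Int.card_Ico]; simp

private theorem TT_near (hK : LeftOf K0 h z) (nK : ¬ Unknotted K0) (F : ES) :
    ∀ k ∈ TT K0 h z F, ∀ k' ∈ TT K0 h z F, k' < k + h := by
  rintro k ⟨E, a, b, hE, uE, hc, hab, hF⟩ k' ⟨E', a', b', hE', uE', hc', hab', hF'⟩
  by_contra hcon
  push Not at hcon
  exact insK_farG hK hK nK hE hE' uE hc hab hc' hab' hcon (hF.symm.trans hF')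

open Classical in
private noncomputable def marks (K0 : ES) (h : ℕ) (z : ℤ) (F : ES) : Finset ℕ :=
  if hf : (TT K0 h z F).Finite then hf.toFinset.image fun k => (k - lev F).toNat else ∅

private theorem marks_card (hK : LeftOf K0 h z) (nK : ¬ Unknotted K0) (F : ES) :
    (marks K0 h z F).card ≤ h := by
  classical
  obtain ⟨hf, hn⟩ := near_finite (TT_near hK nK F)
  unfold marks
  rw [dif_pos hf]
  refine Finset.card_image_le.trans ?_
  rwa [← Set.ncard_eq_toFinset_card _ hf]

private theorem mem_marks (hK : LeftOf K0 h z) (nK : ¬ Unknotted K0) {F : ES}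
    (hk : k ∈ TT K0 h z F) : (k - lev F).toNat ∈ marks K0 h z F := by
  classical
  obtain ⟨hf, hn⟩ := near_finite (TT_near hK nK F)
  unfold marks
  rw [dif_pos hf, Finset.mem_image]
  exact ⟨k, hf.mem_toFinset.2 hk, rfl⟩

/-- the piece or the reversed piece -/
private noncomputable def pc (K0 : ES) (h : ℕ) (t : Bool) : ES := if t then K0 else rvK K0 h

private noncomputable def pz (h : ℕ) (z : ℤ) (t : Bool) : ℤ := if t then z else h - z

private theorem pc_left (hK : LeftOf K0 h z) (t : Bool) : LeftOf (pc K0 h t) h (pz h z t) := by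
  cases t
  · exact leftOf_rvK hK
  · exact hK

private theorem rvK_type (K0 : ES) (h : ℕ) : SameType K0 (rvK K0 h) :=
  ⟨rtH (h + 1), (body_rt (h + 1) K0).symm⟩

private theorem pc_knot (nK : ¬ Unknotted K0) (t : Bool) : ¬ Unknotted (pc K0 h t) := by
  cases t
  · exact fun h1 => nK ((rvK_type K0 h).unknotted h1)
  · exact nK

private theorem pc_card (K0 : ES) (h : ℕ) (t : Bool) : (pc K0 h t).card = K0.card := by
  cases t
  · show (rvK K0 h).card = K0.card
    unfold rvK mapE
    refine Finset.card_image_of_injective _ (Sym2.map.injective ?_)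
    intro u v huv
    rw [← rt_rt (h + 1) u, huv, rt_rt]
  · rfl

/-- **Insertion of a piece at the sections with unknotted upper part.** If for every polygon of the
class `C` and each of its sections with two edges the side join with `K0` or with the reversed
piece belongs to the class `C'`, the partition functions compare. -/
theorem insertG_le (hK : LeftOf K0 h z) (nK : ¬ Unknotted K0) {C C' : ES → Prop}
    (hC' : ∀ (E : ES) (r : P3), C' E → C' (shift r E))
    (hins : ∀ (E : ES) (k : ℤ) (a b : ℤ × ℤ), IsPolygon E → C E → cross E k = {a, b} → Lex a b →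
      C' (insK K0 h z a E k) ∨ C' (insK (rvK K0 h) h (h - z) a E k))
    (hx : 1 ≤ x) (n L M : ℕ) :
    (M : ℝ) * x ^ (2 * h) * Zt (x ^ 2) (fun E => C E ∧ L + M ≤ numU E) n ≤
      (2 * h : ℕ) * Zt (x ^ 2) (fun E => C' E ∧ L ≤ numU E) (n + 2 * h + K0.card) := by
  classical
  have hy : (0 : ℝ) ≤ x ^ 2 := by positivity
  set X : Set ES := NSet (fun E => C E ∧ L + M ≤ numU E) n with hX
  have key : ∀ E ∈ X, ∃ (f : Fin M → ℤ) (a b : Fin M → ℤ × ℤ) (t : Fin M → Bool),
      Function.Injective f ∧
      (∀ i, cross E (f i) = {a i, b i} ∧ Lex (a i) (b i)) ∧ (∀ i, UppU E (f i)) ∧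
      (∀ i, L ≤ {j | j ∈ upU E ∧ f i < j}.ncard) ∧
      ∀ i, C' (insK (pc K0 h (t i)) h (pz h z (t i)) (a i) E (f i)) := by
    rintro E ⟨hE, ⟨hCE, hM⟩, -, -⟩
    obtain ⟨f, hf1, hf2, hf3⟩ := exists_sections hM
    choose a b hab using fun i => exists_lex (hf2 i).1
    have ht : ∀ i, ∃ t : Bool, C' (insK (pc K0 h t) h (pz h z t) (a i) E (f i)) := by
      intro i
      rcases hins E (f i) (a i) (b i) hE hCE (hab i).1 (hab i).2 with h1 | h1
      · exact ⟨true, h1⟩
      · exact ⟨false, h1⟩
    choose t ht using ht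
    exact ⟨f, a, b, t, hf1, hab, fun i => (hf2 i).2, hf3, ht⟩
  choose! f a b t hinj hf hu hL ht using key
  have hE0 : ∀ E ∈ X, IsPolygon E := fun E hE => hE.1
  have hP : ∀ s : Bool, LeftOf (pc K0 h s) h (pz h z s) := fun s => pc_left hK s
  have hmain := compareG (C' := fun E => C' E ∧ L ≤ numU E) (y := x ^ 2) (ι := Fin M)
    (μ := ℕ × Bool)
    (fun E r h1 => ⟨hC' E r h1.1, by rw [numU_shift]; exact h1.2⟩) hy (X := X)
    (fun E hE => ⟨hE.1, hE.2.2.1, hE.2.2.2⟩)
    (fun E i => insK (pc K0 h (t E i)) h (pz h z (t E i)) (a E i) E (f E i))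
    (fun E i => ((f E i - lev (insK (pc K0 h (t E i)) h (pz h z (t E i)) (a E i) E
      (f E i))).toNat, t E i))
    (m := n + 2 * h + K0.card)
    (fun E hE i => ⟨insK_poly (hP _) (hE0 E hE) (hf E hE i).1 (hf E hE i).2,
      ⟨ht E hE i, numU_insK (hP _) (hE0 E hE) (hf E hE i).1 (hf E hE i).2 (hL E hE i)⟩, by
        rw [insK_card (hP _) (hE0 E hE) (hf E hE i).1 (hf E hE i).2, hE.2.2.2, pc_card]⟩)
    (by
      intro E hE i E' hE' i' r heq hmk
      obtain ⟨hc, hl⟩ := hf E hE i
      obtain ⟨hc', hl'⟩ := hf E' hE' i'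
      rw [Prod.mk.injEq] at hmk
      obtain ⟨hmk, htt⟩ := hmk
      rw [htt] at hmk heq
      have hG := insK_poly (hP (t E' i')) (hE0 E hE) hc hl
      have h1 : (cross (insK (pc K0 h (t E' i')) h (pz h z (t E' i')) (a E i) E (f E i))
          (f E i)).Nonempty := by
        rw [(insK_cross (hP _) (hE0 E hE) hc hl).1 _ le_rfl, hc]
        exact ⟨_, Set.mem_insert _ _⟩
      have h2 : (cross (insK (pc K0 h (t E' i')) h (pz h z (t E' i')) (a E' i') E' (f E' i'))
          (f E' i')).Nonempty := by
        rw [(insK_cross (hP _) (hE0 E' hE') hc' hl').1 _ le_rfl, hc']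
        exact ⟨_, Set.mem_insert _ _⟩
      have h3 := lev_le h1
      have h4 := lev_le h2
      have h5 : lev (insK (pc K0 h (t E' i')) h (pz h z (t E' i')) (a E' i') E' (f E' i')) =
          lev (insK (pc K0 h (t E' i')) h (pz h z (t E' i')) (a E i) E (f E i)) + r.2.2 := by
        rw [heq]
        exact lev_shift hG.verts_nonempty r
      have hk : f E' i' = f E i + r.2.2 := by
        omega
      have heq' : insK (pc K0 h (t E' i')) h (pz h z (t E' i')) (a E' i') E' (f E' i') =
          insK (pc K0 h (t E' i')) h (pz h z (t E' i')) ((a E i).1 + r.1, (a E i).2 + r.2.1)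
            (shift r E) (f E' i') := by
        rw [hk, ← insK_shift, ← hk]
        exact heq
      have hs : E' = shift r E := by
        refine insK_inj (hP _) (hE0 E' hE') (isPolygon_shift (hE0 E hE) r) hc' hl'
          (b' := ((b E i).1 + r.1, (b E i).2 + r.2.1)) ?_ (lex_shift hl r) heq'
        rw [hk]
        exact cross_shift_pair hc r
      refine ⟨⟨r, hs⟩, ?_⟩
      have hr : r = 0 := by
        refine Normed.eq_zero hE.2.2.1 ?_
        rw [← hs]
        exact hE'.2.2.1
      have hEE : E' = E := by rw [hs, hr, shift_zero]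
      rw [hEE, hr] at hk
      apply hinj E hE
      rw [hk]
      simp)
    (fun F => (marks (pc K0 h true) h (pz h z true) F).image (fun m => (m, true)) ∪
      (marks (pc K0 h false) h (pz h z false) F).image (fun m => (m, false)))
    (by
      intro E hE i r
      obtain ⟨hc, hl⟩ := hf E hE i
      have hG := insK_poly (hP (t E i)) (hE0 E hE) hc hl
      have h1 : f E i + r.2.2 ∈ TT (pc K0 h (t E i)) h (pz h z (t E i))
          (shift r (insK (pc K0 h (t E i)) h (pz h z (t E i)) (a E i) E (f E i))) :=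
        ⟨shift r E, _, _, isPolygon_shift (hE0 E hE) r,
          (uppU_shift r E _).2 (hu E hE i), cross_shift_pair hc r, lex_shift hl r,
          insK_shift r _ h _ (a E i) E (f E i)⟩
      have h2 := mem_marks (hP _) (pc_knot nK _) h1
      rw [lev_shift hG.verts_nonempty r, add_sub_add_right_eq_sub] at h2
      rw [Finset.mem_union, Finset.mem_image, Finset.mem_image]
      revert h2
      cases t E i
      · exact fun h2 => Or.inr ⟨_, h2, rfl⟩
      · exact fun h2 => Or.inl ⟨_, h2, rfl⟩)
    (M := 2 * h) (fun F _ _ => by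
      refine (Finset.card_union_le _ _).trans ?_
      have h1 := Finset.card_image_le (s := marks (pc K0 h true) h (pz h z true) F)
        (f := fun m => (m, true))
      have h2 := Finset.card_image_le (s := marks (pc K0 h false) h (pz h z false) F)
        (f := fun m => (m, false))
      have h3 := marks_card (hP true) (pc_knot nK _) F
      have h4 := marks_card (hP false) (pc_knot nK _) F
      omega)
  have hsum : ∑ᶠ E ∈ X, ∑ i : Fin M, (x ^ 2) ^ span
      (insK (pc K0 h (t E i)) h (pz h z (t E i)) (a E i) E (f E i)) =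
      (M : ℝ) * x ^ (2 * h) * Zt (x ^ 2) (fun E => C E ∧ L + M ≤ numU E) n := by
    unfold Zt
    rw [mul_finsum_mem]
    refine finsum_mem_congr rfl fun E hE => ?_
    have h1 : ∀ i : Fin M, (x ^ 2) ^ span
        (insK (pc K0 h (t E i)) h (pz h z (t E i)) (a E i) E (f E i)) =
        x ^ (2 * h) * (x ^ 2) ^ span E := by
      intro i
      rw [insK_span (hP _) (hE0 E hE) (hf E hE i).1 (hf E hE i).2, pow_add, ← pow_mul x 2 h,
        mul_comm]
    rw [Finset.sum_congr rfl fun i _ => h1 i, Finset.sum_const, Finset.card_univ, Fintype.card_fin,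
      nsmul_eq_mul, mul_assoc]
  rw [← hsum]
  exact hmain

end Pool.Agent.KTen
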