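import Pool.Agent.KTen.Splice
import Pool.Agent.LatticeTube.G1
import Pool.Agent.MP_aea6d5_co.PolyCyc

/-! The part of a polygon between two sections with two edges consists of two walks. -/

set_option autoImplicit false

open Set

namespace Pool.Agent.KTen

open Pool.Agent.LK Pool.Agent.KTube

variable {E : ES} {s t : ℤ} {a b : ℤ × ℤ} {w1 w2 : List P3}

/-! ### Paths and lists of steps -/

/-- The steps of the path `f 0, …, f m`. -/
private def steps (f : ℕ → P3) : ℕ → List P3
  | 0 => []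
  | m + 1 => (f 1 - f 0) :: steps (fun i => f (i + 1)) m

private theorem steps_length (f : ℕ → P3) (m : ℕ) : (steps f m).length = m := by
  induction m generalizing f with
  | zero => rfl
  | succ m ih => rw [steps, List.length_cons, ih]

private theorem steps_sum (f : ℕ → P3) (m : ℕ) : (steps f m).sum = f m - f 0 := by
  induction m generalizing f with
  | zero => simp [steps]
  | succ m ih => rw [steps, List.sum_cons, ih]; abel

private theorem mem_steps {f : ℕ → P3} {m : ℕ} {d : P3} (h : d ∈ steps f m) :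
    ∃ i < m, d = f (i + 1) - f i := by
  induction m generalizing f with
  | zero => simp [steps] at h
  | succ m ih =>
    rw [steps, List.mem_cons] at h
    rcases h with rfl | h
    · exact ⟨0, by omega, rfl⟩
    · obtain ⟨i, hi, rfl⟩ := ih h
      exact ⟨i + 1, by omega, rfl⟩

private theorem mem_pathE_steps {f : ℕ → P3} {m : ℕ} {e : Sym2 P3} :
    e ∈ pathE (f 0) (steps f m) ↔ ∃ i < m, e = s(f i, f (i + 1)) := by
  induction m generalizing f with
  | zero => simp [steps, pathE]
  | succ m ih =>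
    rw [steps, pathE, Finset.mem_insert, add_sub_cancel]
    rw [ih (f := fun i => f (i + 1))]
    constructor
    · rintro (rfl | ⟨i, hi, rfl⟩)
      · exact ⟨0, by omega, rfl⟩
      · exact ⟨i + 1, by omega, rfl⟩
    · rintro ⟨i, hi, rfl⟩
      rcases Nat.eq_zero_or_pos i with rfl | hpos
      · exact Or.inl rfl
      · right
        refine ⟨i - 1, by omega, ?_⟩
        rw [Nat.sub_add_cancel hpos]

private theorem adj_sub {u v : P3} (h : Adj u v) : IsUnit3 (v - u) := by
  unfold IsUnit3 Adj at *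
  simp only [Prod.fst_sub, Prod.snd_sub, Prod.fst_zero, Prod.snd_zero, sub_zero]
  rw [abs_sub_comm v.1, abs_sub_comm v.2.1, abs_sub_comm v.2.2]
  exact h

private theorem adj_lev {u v : P3} (h : Adj u v) : v.2.2 ≤ u.2.2 + 1 ∧ u.2.2 ≤ v.2.2 + 1 := by
  unfold Adj at h
  have e1 := abs_nonneg (u.1 - v.1)
  have e2 := abs_nonneg (u.2.1 - v.2.1)
  have e3 := le_abs_self (u.2.2 - v.2.2)
  have e4 := neg_abs_le (u.2.2 - v.2.2)
  omega

/-- an edge which crosses the plane -/
private theorem crossing {k : ℤ} {u v : P3} (ha : Adj u v) (hu : u.2.2 ≤ k) (hv : k + 1 ≤ v.2.2) :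
    u = (u.1, u.2.1, k) ∧ v = (u.1, u.2.1, k + 1) := by
  have h := adj_lev ha
  have h3 : u.2.2 = k := by omega
  have h4 : v.2.2 = k + 1 := by omega
  unfold Adj at ha
  have e1 := abs_nonneg (u.1 - v.1)
  have e2 := abs_nonneg (u.2.1 - v.2.1)
  have e3 : |u.2.2 - v.2.2| = 1 := by
    rw [h3, h4]
    have : k - (k + 1) = -1 := by ring
    rw [this]
    rfl
  have e4 : |u.1 - v.1| = 0 := by omega
  have e5 : |u.2.1 - v.2.1| = 0 := by omega
  rw [abs_eq_zero, sub_eq_zero] at e4 e5
  exact ⟨Prod.ext rfl (Prod.ext rfl h3), Prod.ext e4.symm (Prod.ext e5.symm h4)⟩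

/-- crossing edges of a cyclic enumeration -/
private theorem cross_of {k : ℤ} {u v : P3} (hE : IsPolygon E) (huv : s(u, v) ∈ E)
    (h : (u.2.2 ≤ k ∧ k + 1 ≤ v.2.2) ∨ (v.2.2 ≤ k ∧ k + 1 ≤ u.2.2)) :
    ∃ c ∈ cross E k, s(u, v) = s((c.1, c.2, k), (c.1, c.2, k + 1)) := by
  rcases h with ⟨h1, h2⟩ | ⟨h1, h2⟩
  · obtain ⟨e1, e2⟩ := crossing (hE.adj _ _ huv) h1 h2
    have e3 : s(u, v) = s((u.1, u.2.1, k), (u.1, u.2.1, k + 1)) := by rw [← e1, ← e2]
    refine ⟨(u.1, u.2.1), ?_, e3⟩
    show s((u.1, u.2.1, k), (u.1, u.2.1, k + 1)) ∈ E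
    rw [← e3]
    exact huv
  · have hvu : s(v, u) ∈ E := by rw [Sym2.eq_swap]; exact huv
    obtain ⟨e1, e2⟩ := crossing (hE.adj _ _ hvu) h1 h2
    have e3 : s(u, v) = s((v.1, v.2.1, k), (v.1, v.2.1, k + 1)) := by
      rw [← e1, ← e2, Sym2.eq_swap]
    refine ⟨(v.1, v.2.1), ?_, e3⟩
    show s((v.1, v.2.1, k), (v.1, v.2.1, k + 1)) ∈ E
    rw [← e3]
    exact huv

/-- Between two crossings of a plane the levels stay on one side. -/
private theorem stay {n : ℕ} {g : ℕ → P3} (hE : IsPolygon E) (hc : Cyc E n g) {k : ℤ} {i₀ i₁ : ℕ}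
    (hi₁ : i₁ ≤ n)
    (hno : ∀ i, i₀ ≤ i → i < i₁ → ∀ c ∈ cross E k,
      s(g i, g (i + 1)) ≠ s((c.1, c.2, k), (c.1, c.2, k + 1))) :
    (k + 1 ≤ (g i₀).2.2 → ∀ i, i₀ ≤ i → i ≤ i₁ → k + 1 ≤ (g i).2.2) ∧
    ((g i₀).2.2 ≤ k → ∀ i, i₀ ≤ i → i ≤ i₁ → (g i).2.2 ≤ k) := by
  constructor
  · intro h0 i hi
    induction i, hi using Nat.le_induction with
    | base => intro _; exact h0
    | succ i hi ih =>
      intro hle
      by_contra hcon
      obtain ⟨c, hc1, hc2⟩ := cross_of hE (hc.mem_edge (i := i) (by omega)) (k := k)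
        (Or.inr ⟨by omega, ih (by omega)⟩)
      exact hno i hi (by omega) c hc1 hc2
  · intro h0 i hi
    induction i, hi using Nat.le_induction with
    | base => intro _; exact h0
    | succ i hi ih =>
      intro hle
      by_contra hcon
      obtain ⟨c, hc1, hc2⟩ := cross_of hE (hc.mem_edge (i := i) (by omega)) (k := k)
        (Or.inl ⟨ih (by omega), by omega⟩)
      exact hno i hi (by omega) c hc1 hc2

private theorem edge_up {k : ℤ} {u v : P3} {c : ℤ × ℤ}
    (h : s(u, v) = s((c.1, c.2, k), (c.1, c.2, k + 1))) (hu : u.2.2 ≤ k) :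
    u = (c.1, c.2, k) ∧ v = (c.1, c.2, k + 1) := by
  rcases Sym2.eq_iff.1 h with ⟨h1, h2⟩ | ⟨h1, -⟩
  · exact ⟨h1, h2⟩
  · exfalso
    rw [h1] at hu
    have : k + 1 ≤ k := hu
    omega

private theorem edge_down {k : ℤ} {u v : P3} {c : ℤ × ℤ}
    (h : s(u, v) = s((c.1, c.2, k), (c.1, c.2, k + 1))) (hu : k + 1 ≤ u.2.2) :
    u = (c.1, c.2, k + 1) ∧ v = (c.1, c.2, k) := by
  rcases Sym2.eq_iff.1 h with ⟨h1, -⟩ | ⟨h1, h2⟩
  · exfalso
    rw [h1] at hu
    have : k + 1 ≤ k := hu
    omega
  · exact ⟨h1, h2⟩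

private theorem col_inj {k : ℤ} {c c' : ℤ × ℤ}
    (h : s(((c.1, c.2, k) : P3), (c.1, c.2, k + 1)) = s((c'.1, c'.2, k), (c'.1, c'.2, k + 1))) :
    c = c' := by
  obtain ⟨h1, -⟩ := edge_up h (le_refl k)
  simp only [Prod.mk.injEq] at h1
  exact Prod.ext h1.1 h1.2.1

/-- **The two walks.** -/
theorem exists_mid (hE : IsPolygon E) (hst : s < t) (hs : IsTwo E s) (ht : IsTwo E t) :
    ∃ a b w1 w2, Mid E s t a b w1 w2 := by
  classical
  obtain ⟨a, b, hab, hsc⟩ := Set.ncard_eq_two.1 hs
  obtain ⟨c1', c2', hcc', htc'⟩ := Set.ncard_eq_two.1 ht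
  have ha : s((a.1, a.2, s), (a.1, a.2, s + 1)) ∈ E := by
    have : a ∈ cross E s := by rw [hsc]; simp
    exact this
  have hb : s((b.1, b.2, s), (b.1, b.2, s + 1)) ∈ E := by
    have : b ∈ cross E s := by rw [hsc]; simp
    exact this
  obtain ⟨n, g, hc, g0, g1⟩ := exists_cyc hE ha
  have h3 := hc.three
  obtain ⟨j, hj, hjb⟩ := (hc.edge _ _).1 hb
  have hj0 : j ≠ 0 := by
    rintro rfl
    rw [zero_add, g0, g1] at hjb
    exact hab (col_inj hjb).symm
  -- crossings of the plane `s`
  have hcs : ∀ i, i < n → i ≠ 0 → i ≠ j → ∀ c ∈ cross E s,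
      s(g i, g (i + 1)) ≠ s((c.1, c.2, s), (c.1, c.2, s + 1)) := by
    intro i hi hi0 hij c hcc h
    rw [hsc] at hcc
    rcases hcc with rfl | rfl
    · apply hi0
      apply hc.edge_inj hi (by omega)
      rw [h, zero_add, g0, g1]
    · apply hij
      apply hc.edge_inj hi hj
      rw [h, hjb]
  have hA : ∀ i, 1 ≤ i → i ≤ j → s + 1 ≤ (g i).2.2 := by
    refine (stay hE hc (i₀ := 1) (i₁ := j) hj.le fun i hi hij => hcs i (by omega) (by omega)
      (by omega)).1 ?_
    rw [g1]
  obtain ⟨gj, gj1⟩ := edge_down hjb.symm (hA j (by omega) le_rfl)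
  have hB : ∀ i, j + 1 ≤ i → i ≤ n → (g i).2.2 ≤ s := by
    refine (stay hE hc (i₀ := j + 1) (i₁ := n) le_rfl fun i hi hij => hcs i (by omega) (by omega)
      (by omega)).2 ?_
    rw [gj1]
  -- crossings of the plane `t`
  obtain ⟨p, q, c1, c2, hcc, htc, hpq, hq, hp1, hp2⟩ : ∃ (p q : ℕ) (c1 c2 : ℤ × ℤ), c1 ≠ c2 ∧
      cross E t = {c1, c2} ∧ p < q ∧ q < n ∧
      s(g p, g (p + 1)) = s((c1.1, c1.2, t), (c1.1, c1.2, t + 1)) ∧
      s(g q, g (q + 1)) = s((c2.1, c2.2, t), (c2.1, c2.2, t + 1)) := by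
    have m1 : s((c1'.1, c1'.2, t), (c1'.1, c1'.2, t + 1)) ∈ E := by
      have : c1' ∈ cross E t := by rw [htc']; simp
      exact this
    have m2 : s((c2'.1, c2'.2, t), (c2'.1, c2'.2, t + 1)) ∈ E := by
      have : c2' ∈ cross E t := by rw [htc']; simp
      exact this
    obtain ⟨p, hp, hpe⟩ := (hc.edge _ _).1 m1
    obtain ⟨q, hq, hqe⟩ := (hc.edge _ _).1 m2
    have hpq : p ≠ q := by
      rintro rfl
      exact hcc' (col_inj (hpe.trans hqe.symm))
    rcases lt_or_gt_of_ne hpq with h | h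
    · exact ⟨p, q, c1', c2', hcc', htc', h, hq, hpe.symm, hqe.symm⟩
    · exact ⟨q, p, c2', c1', hcc'.symm, by rw [htc', Set.pair_comm], h, hp, hqe.symm, hpe.symm⟩
  have hct : ∀ i, i < n → i ≠ p → i ≠ q → ∀ c ∈ cross E t,
      s(g i, g (i + 1)) ≠ s((c.1, c.2, t), (c.1, c.2, t + 1)) := by
    intro i hi hip hiq c hcc h
    rw [htc] at hcc
    rcases hcc with rfl | rfl
    · exact hip (hc.edge_inj hi (by omega) (h.trans hp1.symm))
    · exact hiq (hc.edge_inj hi hq (h.trans hp2.symm))
  have hC : ∀ i, 0 ≤ i → i ≤ p → (g i).2.2 ≤ t := by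
    refine (stay hE hc (i₀ := 0) (i₁ := p) (by omega) fun i hi hip => hct i (by omega) (by omega)
      (by omega)).2 ?_
    rw [g0]
    exact hst.le
  obtain ⟨gp, gp1⟩ := edge_up hp1 (hC p (by omega) le_rfl)
  have hD : ∀ i, p + 1 ≤ i → i ≤ q → t + 1 ≤ (g i).2.2 := by
    refine (stay hE hc (i₀ := p + 1) (i₁ := q) hq.le fun i hi hip => hct i (by omega) (by omega)
      (by omega)).1 ?_
    rw [gp1]
  obtain ⟨gq, gq1⟩ := edge_down hp2 (hD q (by omega) le_rfl)
  have hEE : ∀ i, q + 1 ≤ i → i ≤ n → (g i).2.2 ≤ t := by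
    refine (stay hE hc (i₀ := q + 1) (i₁ := n) le_rfl fun i hi hip => hct i (by omega) (by omega)
      (by omega)).2 ?_
    rw [gq1]
  have hqj : q < j := by
    by_contra hcon
    rcases Nat.lt_or_ge j q with h | h
    · have := hB q (by omega) hq.le
      rw [gq] at this
      have h2 : t + 1 ≤ s := this
      omega
    · have hqj : q = j := by omega
      subst hqj
      have h2 : (g q).2.2 = t + 1 := by rw [gq]
      have h3 : (g q).2.2 = s + 1 := by rw [gj]
      omega
  -- membership in the middle part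
  have hmid : ∀ i, i < n → (s(g i, g (i + 1)) ∈ midE E s t ↔ i ≤ p ∨ (q ≤ i ∧ i ≤ j)) := by
    intro i hi
    rw [mem_midE]
    constructor
    · rintro ⟨-, h⟩
      by_contra hcon
      push Not at hcon
      obtain ⟨h1, h2⟩ := hcon
      rcases Nat.lt_or_ge i q with h5 | h5
      · have e1 := hD i (by omega) (by omega)
        have e2 := hD (i + 1) (by omega) (by omega)
        omega
      · have h6 := h2 h5
        have e1 := hB i (by omega) (by omega)
        have e2 := hB (i + 1) (by omega) (by omega)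
        omega
    · intro h
      refine ⟨hc.mem_edge hi, ?_⟩
      rcases h with h | ⟨h, h'⟩
      · rcases Nat.eq_zero_or_pos i with rfl | hpos
        · right
          rw [zero_add, g1]
          exact ⟨le_rfl, hst⟩
        · left
          exact ⟨hA i hpos (by omega), hC i (by omega) h⟩
      · rcases Nat.lt_or_ge q i with h5 | h5
        · left
          exact ⟨hA i (by omega) h', hEE i (by omega) hi.le⟩
        · have hiq : i = q := by omega
          subst hiq
          right
          exact ⟨hA (i + 1) (by omega) (by omega), hEE (i + 1) (by omega) (by omega)⟩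
  -- the walks
  have hf0 : g (j + 1 - 0) = (b.1, b.2, s) := by rw [Nat.sub_zero, gj1]
  have hfm : g (j + 1 - (j + 1 - q)) = (c2.1, c2.2, t + 1) := by
    rw [Nat.sub_sub_self (by omega), gq]
  have e1 : pathE (a.1, a.2, s) (steps g (p + 1)) = pathE (g 0) (steps g (p + 1)) := by rw [g0]
  have e2 : pathE (b.1, b.2, s) (steps (fun i => g (j + 1 - i)) (j + 1 - q)) =
      pathE (g (j + 1 - 0)) (steps (fun i => g (j + 1 - i)) (j + 1 - q)) := by
    rw [hf0]
  have s1 : (steps g (p + 1)).sum = (c1.1 - a.1, c1.2 - a.2, t + 1 - s) := by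
    rw [steps_sum, gp1, g0]
    rfl
  have s2 : (steps (fun i => g (j + 1 - i)) (j + 1 - q)).sum =
      (c2.1 - b.1, c2.2 - b.2, t + 1 - s) := by
    rw [steps_sum, hfm, hf0]
    rfl
  have t1 : ((a.1 + (steps g (p + 1)).sum.1, a.2 + (steps g (p + 1)).sum.2.1) : ℤ × ℤ) = c1 := by
    rw [s1]
    refine Prod.ext ?_ ?_
    · show a.1 + (c1.1 - a.1) = c1.1
      ring
    · show a.2 + (c1.2 - a.2) = c1.2
      ring
  have t2 : ((b.1 + (steps (fun i => g (j + 1 - i)) (j + 1 - q)).sum.1,
      b.2 + (steps (fun i => g (j + 1 - i)) (j + 1 - q)).sum.2.1) : ℤ × ℤ) = c2 := by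
    rw [s2]
    refine Prod.ext ?_ ?_
    · show b.1 + (c2.1 - b.1) = c2.1
      ring
    · show b.2 + (c2.2 - b.2) = c2.2
      ring
  -- the edges of the middle part
  have hmemE : ∀ e, e ∈ midE E s t ↔ ∃ i < n, (i ≤ p ∨ (q ≤ i ∧ i ≤ j)) ∧
      e = s(g i, g (i + 1)) := by
    intro e
    constructor
    · intro he
      have he' : e ∈ E := (Finset.mem_filter.1 he).1
      rw [hc.eq_image, Finset.mem_image] at he'
      obtain ⟨i, hi, rfl⟩ := he'
      rw [Finset.mem_range] at hi
      exact ⟨i, hi, (hmid i hi).1 he, rfl⟩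
    · rintro ⟨i, hi, h, rfl⟩
      exact (hmid i hi).2 h
  refine ⟨a, b, steps g (p + 1), steps (fun i => g (j + 1 - i)) (j + 1 - q), ?_⟩
  refine ⟨hst, hsc, hab, ?_, ?_, ?_, ?_, ?_, ?_, ?_⟩
  · intro d hd
    rw [List.mem_append] at hd
    rcases hd with hd | hd
    · obtain ⟨i, hi, rfl⟩ := mem_steps hd
      exact adj_sub (hE.adj _ _ (hc.mem_edge (by omega)))
    · obtain ⟨i, hi, rfl⟩ := mem_steps hd
      have h5 : j + 1 - i = (j + 1 - (i + 1)) + 1 := by omega
      have h6 := hc.mem_edge (i := j + 1 - (i + 1)) (by omega)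
      rw [← h5, Sym2.eq_swap] at h6
      exact adj_sub (hE.adj _ _ h6)
  · ext e
    have key : e ∈ pathE (g (j + 1 - 0)) (steps (fun i => g (j + 1 - i)) (j + 1 - q)) ↔
      ∃ i < j + 1 - q, e = s(g (j + 1 - i), g (j + 1 - (i + 1))) :=
      mem_pathE_steps (f := fun i => g (j + 1 - i)) (m := j + 1 - q) (e := e)
    rw [hmemE, Finset.mem_union, e1, e2, mem_pathE_steps, key]
    constructor
    · rintro ⟨i, hi, h | ⟨h, h'⟩, rfl⟩
      · exact Or.inl ⟨i, by omega, rfl⟩
      · have x1 : j + 1 - (j - i) = i + 1 := by clear hmemE key e1 e2; omega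
        have x2 : j + 1 - (j - i + 1) = i := by clear hmemE key e1 e2; omega
        have x3 : j - i < j + 1 - q := by clear hmemE key e1 e2; omega
        refine Or.inr ⟨j - i, x3, ?_⟩
        rw [x1, x2, Sym2.eq_swap]
    · rintro (⟨i, hi, rfl⟩ | ⟨i, hi, rfl⟩)
      · exact ⟨i, by omega, Or.inl (by omega), rfl⟩
      · have x1 : j + 1 - (i + 1) = j - i := by clear hmemE key e1 e2; omega
        have x2 : j + 1 - i = j - i + 1 := by clear hmemE key e1 e2; omega
        have x3 : j - i < n := by clear hmemE key e1 e2; omega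
        have x4 : q ≤ j - i ∧ j - i ≤ j := by clear hmemE key e1 e2; omega
        refine ⟨j - i, x3, Or.inr x4, ?_⟩
        rw [x1, x2, Sym2.eq_swap]
  · rw [steps_length, steps_length]
    have h5 : midE E s t = (Finset.range (p + 1) ∪ Finset.Icc q j).image
        fun i => s(g i, g (i + 1)) := by
      ext e
      rw [hmemE, Finset.mem_image]
      constructor
      · rintro ⟨i, hi, h, rfl⟩
        refine ⟨i, ?_, rfl⟩
        rw [Finset.mem_union, Finset.mem_range, Finset.mem_Icc]
        omega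
      · rintro ⟨i, hi, rfl⟩
        rw [Finset.mem_union, Finset.mem_range, Finset.mem_Icc] at hi
        exact ⟨i, by omega, by omega, rfl⟩
    rw [h5, Finset.card_image_of_injOn, Finset.card_union_of_disjoint, Finset.card_range,
      Nat.card_Icc]
    · rw [Finset.disjoint_left]
      intro i hi hi'
      rw [Finset.mem_range] at hi
      rw [Finset.mem_Icc] at hi'
      omega
    · intro i hi i' hi' h
      rw [Finset.mem_coe, Finset.mem_union, Finset.mem_range, Finset.mem_Icc] at hi hi'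
      exact hc.edge_inj (by omega) (by omega) h
  · rw [s1]
    show s + (t + 1 - s) = t + 1
    ring
  · rw [s2]
    show s + (t + 1 - s) = t + 1
    ring
  · rw [t1, t2]
    exact htc
  · rw [t1, t2]
    exact hcc

theorem Mid.swap (h : Mid E s t a b w1 w2) : Mid E s t b a w2 w1 where
  lt := h.lt
  bot := by rw [h.bot, Set.pair_comm]
  ne := h.ne.symm
  unit := fun d hd => h.unit d (by
    rw [List.mem_append] at hd ⊢
    exact hd.symm)
  edges := by rw [h.edges, Finset.union_comm]
  card := by rw [h.card, add_comm]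
  lev1 := h.lev2
  lev2 := h.lev1
  top := by rw [h.top, Set.pair_comm]
  ne' := h.ne'.symm

/-! ### Parity of the sections -/

private theorem cross_finite (E : ES) (k : ℤ) : (cross E k).Finite := by
  have h : (fun c : ℤ × ℤ => s(((c.1, c.2, k) : P3), (c.1, c.2, k + 1))) '' cross E k ⊆ ↑E := by
    rintro _ ⟨c, hc, rfl⟩
    exact hc
  exact Set.Finite.of_finite_image (E.finite_toSet.subset h) fun c _ c' _ h => col_inj h

open Classical in
private theorem even_cross {E : ES} (hE : IsPolygon E) (k : ℤ) : Even (cross E k).ncard := by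
  -- the lower half of the vertices
  set W : Finset P3 := (verts_finite E).toFinset.filter (fun u => u.2.2 ≤ k) with hW
  set V : Finset P3 := (verts_finite E).toFinset with hV
  have hmV : ∀ u, u ∈ V ↔ u ∈ verts E := fun u => by rw [hV, Set.Finite.mem_toFinset]
  have hmW : ∀ u, u ∈ W ↔ u ∈ verts E ∧ u.2.2 ≤ k := fun u => by
    rw [hW, Finset.mem_filter, Set.Finite.mem_toFinset]
  -- darts
  set D : Finset (P3 × P3) := (W ×ˢ V).filter (fun p => s(p.1, p.2) ∈ E) with hD
  have hmD : ∀ p : P3 × P3, p ∈ D ↔ p.1.2.2 ≤ k ∧ s(p.1, p.2) ∈ E := by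
    intro p
    rw [hD, Finset.mem_filter, Finset.mem_product, hmW, hmV]
    constructor
    · rintro ⟨⟨⟨_, h1⟩, _⟩, h2⟩
      exact ⟨h1, h2⟩
    · rintro ⟨h1, h2⟩
      exact ⟨⟨⟨mem_verts_left h2, h1⟩, mem_verts_right h2⟩, h2⟩
  have hcardD : D.card = 2 * W.card := by
    have h1 : D.card = ∑ u ∈ W, (D.filter fun p => p.1 = u).card := by
      apply Finset.card_eq_sum_card_fiberwise
      intro p hp
      rw [Finset.mem_coe, hmD] at hp
      rw [Finset.mem_coe, hmW]
      exact ⟨mem_verts_left hp.2, hp.1⟩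
    have h2 : ∀ u ∈ W, (D.filter fun p => p.1 = u).card = 2 := by
      intro u hu
      rw [hmW] at hu
      rw [← hE.deg u hu.1]
      have h3 : {w | s(u, w) ∈ E} = (D.filter fun p => p.1 = u).image Prod.snd := by
        ext w
        rw [Finset.mem_coe, Finset.mem_image]
        constructor
        · intro hw
          refine ⟨(u, w), ?_, rfl⟩
          rw [Finset.mem_filter, hmD]
          exact ⟨⟨hu.2, hw⟩, rfl⟩
        · rintro ⟨p, hp, rfl⟩
          rw [Finset.mem_filter, hmD] at hp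
          obtain ⟨⟨_, h4⟩, rfl⟩ := hp
          exact h4
      rw [h3, Set.ncard_coe_finset, Finset.card_image_of_injOn]
      rintro ⟨a, b⟩ hp ⟨a', b'⟩ hq h
      rw [Finset.mem_coe, Finset.mem_filter] at hp hq
      have e1 : a = u := hp.2
      have e2 : a' = u := hq.2
      have e3 : b = b' := h
      rw [e1, e2, e3]
    rw [h1, Finset.sum_congr rfl h2, Finset.sum_const, smul_eq_mul, mul_comm]
  -- the darts inside the lower half
  set D1 : Finset (P3 × P3) := D.filter (fun p => p.2.2.2 ≤ k) with hD1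
  set D2 : Finset (P3 × P3) := D.filter (fun p => ¬ p.2.2.2 ≤ k) with hD2
  have hsum : D1.card + D2.card = D.card := Finset.card_filter_add_card_filter_not _
  have hmD1 : ∀ p : P3 × P3, p ∈ D1 ↔ (p.1.2.2 ≤ k ∧ s(p.1, p.2) ∈ E) ∧ p.2.2.2 ≤ k := by
    intro p
    rw [hD1, Finset.mem_filter, hmD]
  have heven1 : Even D1.card := by
    rw [← ZMod.natCast_eq_zero_iff_even]
    have h1 : (D1.card : ZMod 2) = ∑ p ∈ D1, (1 : ZMod 2) := by simp
    rw [h1]
    refine Finset.sum_involution (fun p _ => (p.2, p.1)) ?_ ?_ ?_ ?_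
    · intro p _
      decide
    · intro p hp _ h2
      rw [hmD1] at hp
      have h3 : p.2 = p.1 := congrArg Prod.fst h2
      exact (hE.adj _ _ hp.1.2).ne h3.symm
    · intro p hp
      rw [hmD1] at hp ⊢
      refine ⟨⟨hp.2, ?_⟩, hp.1.1⟩
      rw [Sym2.eq_swap]
      exact hp.1.2
    · intro p _
      rfl
  have hcr : ∀ p ∈ D2, p.1 = (p.1.1, p.1.2.1, k) ∧ p.2 = (p.1.1, p.1.2.1, k + 1) := by
    intro p hp
    rw [hD2, Finset.mem_filter, hmD] at hp
    exact crossing (hE.adj _ _ hp.1.2) hp.1.1 (by have := hp.2; omega)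
  have hcard2 : D2.card = (cross E k).ncard := by
    have h1 : cross E k = (D2.image fun p => (p.1.1, p.1.2.1) : Finset (ℤ × ℤ)) := by
      ext c
      rw [Finset.mem_coe, Finset.mem_image]
      constructor
      · intro hc
        refine ⟨((c.1, c.2, k), (c.1, c.2, k + 1)), ?_, rfl⟩
        rw [hD2, Finset.mem_filter, hmD]
        refine ⟨⟨le_refl _, hc⟩, ?_⟩
        show ¬ k + 1 ≤ k
        omega
      · rintro ⟨p, hp, rfl⟩
        obtain ⟨e1, e2⟩ := hcr p hp
        rw [hD2, Finset.mem_filter, hmD] at hp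
        show s((p.1.1, p.1.2.1, k), (p.1.1, p.1.2.1, k + 1)) ∈ E
        rw [← e1, ← e2]
        exact hp.1.2
    rw [h1, Set.ncard_coe_finset, Finset.card_image_of_injOn]
    intro p hp q hq h
    obtain ⟨h3, h4⟩ := hcr p hp
    obtain ⟨h3', h4'⟩ := hcr q hq
    have h' : ((p.1.1, p.1.2.1) : ℤ × ℤ) = (q.1.1, q.1.2.1) := h
    have e0 : p.1.1 = q.1.1 := (Prod.mk.inj h').1
    have e0' : p.1.2.1 = q.1.2.1 := (Prod.mk.inj h').2
    refine Prod.ext ?_ ?_
    · rw [h3, h3', e0, e0']
    · rw [h4, h4', e0, e0']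
  rw [← hcard2]
  rw [Nat.even_iff] at heven1 ⊢
  omega

/-! ### Counting the vertical steps -/

private def IsVert (e : Sym2 P3) : Prop := ∃ (c : ℤ × ℤ) (k : ℤ), e = s((c.1, c.2, k), (c.1, c.2, k + 1))

open Classical in
private theorem card_vert_le (p : P3) (w : List P3) :
    ((pathE p w).filter IsVert).card ≤ nv w := by
  induction w generalizing p with
  | nil => simp [pathE]
  | cons d w ih =>
    have h0 : nv (d :: w) = (if d.2.2 ≠ 0 then 1 else 0) + nv w := by
      unfold nv
      rw [List.countP_cons]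
      simp only [decide_eq_true_eq]
      omega
    rw [h0, pathE, Finset.filter_insert]
    by_cases hd : d.2.2 = 0
    · have h1 : ¬ IsVert s(p, p + d) := by
        rintro ⟨c, k, h⟩
        rcases Sym2.eq_iff.1 h with ⟨h2, h3⟩ | ⟨h2, h3⟩
        · have h4 : p.2.2 = k := by rw [h2]
          have h5 : p.2.2 + d.2.2 = k + 1 := congrArg (fun u : P3 => u.2.2) h3
          omega
        · have h4 : p.2.2 = k + 1 := by rw [h2]
          have h5 : p.2.2 + d.2.2 = k := congrArg (fun u : P3 => u.2.2) h3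
          omega
      rw [if_neg h1]
      exact (ih _).trans (Nat.le_add_left _ _)
    · rw [if_pos hd]
      split_ifs
      · refine (Finset.card_insert_le _ _).trans ?_
        have := ih (p + d)
        omega
      · have := ih (p + d)
        omega

/-- A walk from below a plane to above it crosses the plane. -/
private theorem exists_crossing {k : ℤ} (p : P3) (w : List P3) (hw : ∀ d ∈ w, IsUnit3 d)
    (hp : p.2.2 ≤ k) (hq : k + 1 ≤ p.2.2 + w.sum.2.2) :
    ∃ c : ℤ × ℤ, s((c.1, c.2, k), (c.1, c.2, k + 1)) ∈ pathE p w := by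
  induction w generalizing p with
  | nil =>
    exfalso
    have : (([] : List P3).sum).2.2 = 0 := rfl
    omega
  | cons d w ih =>
    rw [pathE]
    have h0 : (d :: w).sum.2.2 = d.2.2 + w.sum.2.2 := by rw [List.sum_cons]; rfl
    rw [h0] at hq
    have hpd : (p + d).2.2 = p.2.2 + d.2.2 := rfl
    rcases le_or_gt (k + 1) (p + d).2.2 with h | h
    · have hadj : Adj p (p + d) := by
        have h1 := hw d (List.mem_cons_self ..)
        unfold IsUnit3 Adj at h1
        unfold Adj
        simp only [Prod.fst_add, Prod.snd_add, Prod.fst_zero, Prod.snd_zero, sub_zero] at *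
        rw [show p.1 - (p.1 + d.1) = -d.1 by ring, show p.2.1 - (p.2.1 + d.2.1) = -d.2.1 by ring,
          show p.2.2 - (p.2.2 + d.2.2) = -d.2.2 by ring, abs_neg, abs_neg, abs_neg]
        exact h1
      obtain ⟨e1, e2⟩ := crossing hadj hp h
      refine ⟨(p.1, p.2.1), Finset.mem_insert.2 (Or.inl ?_)⟩
      show s((p.1, p.2.1, k), (p.1, p.2.1, k + 1)) = s(p, p + d)
      rw [← e1, ← e2]
    · obtain ⟨c, hc⟩ := ih (p + d) (fun x hx => hw x (List.mem_cons_of_mem _ hx)) (by omega)
        (by rw [hpd]; omega)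
      exact ⟨c, Finset.mem_insert.2 (Or.inr hc)⟩

/-- If the sections between are nonempty and have more than two edges then there are many vertical
steps. -/
theorem Mid.nv_ge (hE : IsPolygon E) (h : Mid E s t a b w1 w2)
    (hk : ∀ k, s < k → k < t → ¬ IsTwo E k) : 4 * (t - s) ≤ (nv w1 : ℤ) + nv w2 := by
  classical
  have hst := h.lt
  -- the number of vertical edges in the middle part
  have h1 : ∑ k ∈ Finset.Icc s t, (cross E k).ncard ≤ ((midE E s t).filter IsVert).card := by
    have e1 : ∀ k, (cross E k).ncard = ((midE E s t ∪ E).filter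
        fun e => ∃ c : ℤ × ℤ, e = s((c.1, c.2, k), (c.1, c.2, k + 1))).card := by
      intro k
      have e2 : (fun c : ℤ × ℤ => s(((c.1, c.2, k) : P3), (c.1, c.2, k + 1))) '' cross E k =
          (((midE E s t ∪ E).filter
            fun e => ∃ c : ℤ × ℤ, e = s((c.1, c.2, k), (c.1, c.2, k + 1)) : Finset (Sym2 P3)) :
              Set (Sym2 P3)) := by
        ext e
        rw [Finset.mem_coe, Finset.mem_filter, Finset.mem_union]
        constructor
        · rintro ⟨c, hc, rfl⟩
          exact ⟨Or.inr hc, c, rfl⟩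
        · rintro ⟨hc | hc, c, rfl⟩
          · exact ⟨c, (Finset.mem_filter.1 hc).1, rfl⟩
          · exact ⟨c, hc, rfl⟩
      rw [← Set.ncard_coe_finset, ← e2, Set.ncard_image_of_injective _ fun c c' h => col_inj h]
    simp only [e1]
    rw [← Finset.card_biUnion]
    · refine Finset.card_le_card fun e he => ?_
      obtain ⟨k, hk1, he⟩ := Finset.mem_biUnion.1 he
      rw [Finset.mem_Icc] at hk1
      rw [Finset.mem_filter, Finset.mem_union] at he
      obtain ⟨he1, c, rfl⟩ := he
      rw [Finset.mem_filter]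
      refine ⟨?_, c, k, rfl⟩
      rcases he1 with he1 | he1
      · exact he1
      · rw [mem_midE]
        refine ⟨he1, ?_⟩
        rcases eq_or_lt_of_le hk1.1 with h5 | h5
        · right
          show s + 1 ≤ k + 1 ∧ k + 1 ≤ t
          omega
        · left
          show s + 1 ≤ k ∧ k ≤ t
          omega
    · intro k _ k' _ hkk
      rw [Function.onFun, Finset.disjoint_left]
      intro e he he'
      rw [Finset.mem_filter] at he he'
      obtain ⟨-, c, rfl⟩ := he
      obtain ⟨-, c', h6⟩ := he'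
      apply hkk
      rcases Sym2.eq_iff.1 h6 with ⟨h7, -⟩ | ⟨h7, h8⟩
      · exact congrArg (fun u : P3 => u.2.2) h7
      · have e3 : k = k' + 1 := congrArg (fun u : P3 => u.2.2) h7
        have e4 : k + 1 = k' := congrArg (fun u : P3 => u.2.2) h8
        omega
  have h2 : ((midE E s t).filter IsVert).card ≤ nv w1 + nv w2 := by
    rw [h.edges, Finset.filter_union]
    exact (Finset.card_union_le _ _).trans (add_le_add (card_vert_le _ _) (card_vert_le _ _))
  -- the sections
  have hs2 : (cross E s).ncard = 2 := by rw [h.bot, Set.ncard_pair h.ne]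
  have ht2 : (cross E t).ncard = 2 := by rw [h.top, Set.ncard_pair h.ne']
  have hne : ∀ k, s < k → k < t → 4 ≤ (cross E k).ncard := by
    intro k h5 h6
    have e1 := even_cross hE k
    have e2 : (cross E k).Nonempty := by
      obtain ⟨c, hc⟩ := exists_crossing (k := k) (a.1, a.2, s) w1
        (fun d hd => h.unit d (List.mem_append_left _ hd)) h5.le (by
          show k + 1 ≤ s + w1.sum.2.2
          rw [h.lev1]
          omega)
      refine ⟨c, ?_⟩
      have e3 : s((c.1, c.2, k), (c.1, c.2, k + 1)) ∈ midE E s t := by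
        rw [h.edges]
        exact Finset.mem_union_left _ hc
      exact (Finset.mem_filter.1 e3).1
    have e3 : 0 < (cross E k).ncard := (Set.ncard_pos (cross_finite E k)).2 e2
    have e4 : (cross E k).ncard ≠ 2 := hk k h5 h6
    obtain ⟨m, hm⟩ := e1
    omega
  have h3 : Finset.Icc s t = insert s (insert t (Finset.Ioo s t)) := by
    ext k
    simp only [Finset.mem_Icc, Finset.mem_insert, Finset.mem_Ioo]
    omega
  have h4 : 4 * (Finset.Ioo s t).card ≤ ∑ k ∈ Finset.Ioo s t, (cross E k).ncard := by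
    rw [mul_comm, ← smul_eq_mul]
    refine Finset.card_nsmul_le_sum _ _ _ fun k hk' => ?_
    rw [Finset.mem_Ioo] at hk'
    exact hne k hk'.1 hk'.2
  rw [h3, Finset.sum_insert (by
    simp only [Finset.mem_insert, Finset.mem_Ioo]
    omega), Finset.sum_insert (by
    simp only [Finset.mem_Ioo]
    omega), hs2, ht2] at h1
  rw [Int.card_Ioo] at h4
  omega

theorem nh_add_nv (w : List P3) : nh w + nv w = w.length := by
  induction w with
  | nil => rfl
  | cons d w ih =>
    unfold nh nv at *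
    rw [List.countP_cons, List.countP_cons, List.length_cons, ← ih]
    by_cases hd : d.2.2 = 0 <;> simp [hd] <;> omega

private theorem hor_le {w : List P3} (hw : ∀ d ∈ w, IsUnit3 d) :
    (w.sum.1).natAbs + (w.sum.2.1).natAbs ≤ nh w := by
  induction w with
  | nil => simp [nh]
  | cons d w ih =>
    have h1 := hw d (List.mem_cons_self ..)
    have h2 := ih fun x hx => hw x (List.mem_cons_of_mem _ hx)
    have h3 : (d :: w).sum.1 = d.1 + w.sum.1 := by rw [List.sum_cons]; rfl
    have h4 : (d :: w).sum.2.1 = d.2.1 + w.sum.2.1 := by rw [List.sum_cons]; rfl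
    have h5 : nh (d :: w) = (if d.2.2 = 0 then 1 else 0) + nh w := by
      unfold nh
      rw [List.countP_cons]
      simp only [decide_eq_true_eq]
      omega
    unfold IsUnit3 Adj at h1
    simp only [Prod.fst_zero, Prod.snd_zero, sub_zero] at h1
    have e1 := Int.natCast_natAbs d.1
    have e2 := Int.natCast_natAbs d.2.1
    have e3 := Int.natCast_natAbs d.2.2
    rw [h3, h4, h5]
    split_ifs with h6 <;> omega

/-- The horizontal displacement is at most the number of horizontal steps, with the same parity. -/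
theorem nrm1_disp_le (hw : ∀ d ∈ w1 ++ w2, IsUnit3 d) : nrm1 (disp w1 w2) ≤ nh w1 + nh w2 := by
  have h1 := hor_le (w := w1) fun d hd => hw d (List.mem_append_left _ hd)
  have h2 := hor_le (w := w2) fun d hd => hw d (List.mem_append_right _ hd)
  unfold nrm1 disp
  show ((w2.sum).1 - (w1.sum).1).natAbs + ((w2.sum).2.1 - (w1.sum).2.1).natAbs ≤ nh w1 + nh w2
  omega

/-- The difference of the columns is not zero, at the bottom and at the top. -/
theorem Mid.diff (h : Mid E s t a b w1 w2) :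
    b - a ≠ 0 ∧ b - a + disp w1 w2 ≠ 0 := by
  refine ⟨sub_ne_zero.2 h.ne.symm, fun h0 => h.ne' ?_⟩
  have e1 : b.1 - a.1 + ((w2.sum).1 - (w1.sum).1) = 0 := congrArg Prod.fst h0
  have e2 : b.2 - a.2 + ((w2.sum).2.1 - (w1.sum).2.1) = 0 := congrArg Prod.snd h0
  refine Prod.ext ?_ ?_
  · show a.1 + (w1.sum).1 = b.1 + (w2.sum).1
    linarith
  · show a.2 + (w1.sum).2.1 = b.2 + (w2.sum).2.1
    linarith

end Pool.Agent.KTen
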