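import Pool.Agent.KTen.PlaceDefs
import Pool.Agent.KTube.Middle
import Pool.Agent.KTube.Slide

/-! Places on the edges of polygons: the relation `Cong`. -/

set_option autoImplicit false

open Set

namespace Pool.Agent.KTen

open Pool.Agent.LK Pool.Agent.KTube

variable {E F G : ES} {X Y Z : Set R3} {σ τ υ : R3 → R3}

theorem EqP.refl (X : Set R3) (σ : R3 → R3) : EqP X X σ σ := fun _ _ =>
  ⟨Homeomorph.refl _, by simp⟩

theorem EqP.symm (h : EqP X Y σ τ) : EqP Y X τ σ := fun J hJ => (h J hJ).symm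

theorem EqP.trans (h : EqP X Y σ τ) (h' : EqP Y Z τ υ) : EqP X Z σ υ := fun J hJ =>
  (h J hJ).trans (h' J hJ)

theorem rho_rho (p : R3) : rho (rho p) = p := by
  simp [rho]

theorem rho_mem {p : R3} (hp : p ∈ Bx) : rho p ∈ Bx := by
  obtain ⟨h1, h2, h3⟩ := hp
  exact ⟨by simpa [rho] using h1, h2, by simpa [rho] using h3⟩

theorem rho_image_Bx : rho '' Bx = Bx := by
  ext p
  constructor
  · rintro ⟨q, hq, rfl⟩
    exact rho_mem hq
  · intro hp
    exact ⟨rho p, rho_mem hp, rho_rho p⟩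

theorem insr_rho (X : Set R3) (σ : R3 → R3) (J : Set R3) :
    insr X (σ ∘ rho) J = insr X σ (rho '' J) := by
  unfold insr
  rw [image_comp, image_comp, rho_image_Bx]

theorem EqP.rev (h : EqP X Y σ τ) : EqP X Y (σ ∘ rho) (τ ∘ rho) := by
  intro J hJ
  rw [insr_rho, insr_rho]
  refine h _ ?_
  rintro _ ⟨p, hp, rfl⟩
  exact rho_mem (hJ hp)

theorem cht_rho (u a b : P3) : cht u a b ∘ rho = cht (u + a) (-a) b := by
  funext p
  obtain ⟨a1, a2, a3⟩ := a
  obtain ⟨b1, b2, b3⟩ := b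
  obtain ⟨u1, u2, u3⟩ := u
  refine Prod.ext ?_ (Prod.ext ?_ ?_) <;>
  · simp only [cht, rho, crs, Function.comp_apply, Prod.mk_add_mk, Prod.neg_mk]
    push_cast
    ring

theorem frm_neg {a b : P3} (h : Frm a b (crs a b)) : Frm (-a) b (crs (-a) b) := by
  rcases unit_cases (isUnit3_of_frm h) with rfl | rfl | rfl | rfl | rfl | rfl <;>
    rcases unit_cases (isUnit3_of_frm' h) with rfl | rfl | rfl | rfl | rfl | rfl <;>
    first
    | decide
    | exact absurd h (by decide)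

theorem Place.rho (h : Place E σ) : Place E (σ ∘ rho) := by
  obtain ⟨u, a, b, h1, h2, rfl⟩ := h
  refine ⟨u + a, -a, b, ?_, frm_neg h2, cht_rho u a b⟩
  rw [add_neg_cancel_right, Sym2.eq_swap]
  exact h1

theorem eqP_of_sld (h : Sld X σ τ) : EqP X X σ τ := fun _ hJ => Eqv.toS (h.eqv hJ)

/-- A place can be moved to every edge, with one of the two directions, and with any frame. -/
theorem place_slide (hE : IsPolygon E) (hσ : Place E σ) {u v : P3} (huv : s(u, v) ∈ E) :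
    ∃ x y, s(x, y) = s(u, v) ∧ ∀ b, Frm (y - x) b (crs (y - x) b) →
      Sld (body E) σ (cht x (y - x) b) := by
  obtain ⟨u0, a0, b0, h1, h2, rfl⟩ := hσ
  obtain ⟨n, g, hc, hg0, hg1⟩ := exists_cyc hE h1
  have hthree := hc.three
  have hstart : At E (cht u0 a0 b0) (g 0) (g (0 + 1)) := by
    rw [hg0, zero_add, hg1]
    refine ⟨b0, ?_, ?_⟩
    · rw [add_sub_cancel_left]
      exact h2
    · rw [add_sub_cancel_left]
      exact Sld.refl _ _
  have hwalk : ∀ i, i < n → At E (cht u0 a0 b0) (g i) (g (i + 1)) := by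
    intro i
    induction i with
    | zero => exact fun _ => hstart
    | succ i ih =>
      intro hi
      refine (ih (by omega)).step slideStatement hE (hc.mem_edge (by omega)) (hc.mem_edge hi) ?_
      intro heq
      rcases Nat.lt_or_ge (i + 1 + 1) n with h | h
      · have := hc.inj i (by omega) (i + 1 + 1) h heq
        omega
      · have h3 : i + 1 + 1 = n := by omega
        rw [h3, hc.per] at heq
        have := hc.inj i (by omega) 0 (by omega) heq
        omega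
  obtain ⟨j, hj, hje⟩ := (hc.edge u v).1 huv
  obtain ⟨b', h3, h4⟩ := hwalk j hj
  refine ⟨g j, g (j + 1), hje.symm, fun b hb => h4.trans ?_⟩
  refine turnStatement E _ _ _ _ hE ?_ h3 hb
  rw [add_sub_cancel]
  exact hc.mem_edge hj

theorem exists_place (hE : IsPolygon E) : ∃ σ, Place E σ := by
  obtain ⟨u, v, huv⟩ := exists_edge hE
  have h1 : IsUnit3 (v - u) := isUnit3_of_adj (hE.adj _ _ huv)
  have h2 : ∃ b, Frm (v - u) b (crs (v - u) b) := by
    rcases unit_cases h1 with h | h | h | h | h | h <;> rw [h]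
    · exact ⟨(0, 1, 0), by decide⟩
    · exact ⟨(0, 1, 0), by decide⟩
    · exact ⟨(1, 0, 0), by decide⟩
    · exact ⟨(1, 0, 0), by decide⟩
    · exact ⟨(1, 0, 0), by decide⟩
    · exact ⟨(1, 0, 0), by decide⟩
  obtain ⟨b, hb⟩ := h2
  exact ⟨_, u, v - u, b, by rwa [add_sub_cancel], hb, rfl⟩

theorem Cong.refl (hE : IsPolygon E) : Cong E E := by
  obtain ⟨σ, hσ⟩ := exists_place hE
  exact ⟨σ, σ, hσ, hσ, EqP.refl _ _⟩

theorem Cong.symm (h : Cong E F) : Cong F E := by
  obtain ⟨σ, τ, h1, h2, h3⟩ := h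
  exact ⟨τ, σ, h2, h1, h3.symm⟩

/-- One may prescribe the place of `E`. -/
theorem Cong.place0 (hE : IsPolygon E) (h : Cong E F) (hσ : Place E σ) :
    ∃ τ, Place F τ ∧ EqP (body E) (body F) σ τ := by
  obtain ⟨σ', τ', ⟨u', a', b', h1, h2, rfl⟩, h4, h5⟩ := h
  obtain ⟨x, y, hxy, hsl⟩ := place_slide hE hσ h1
  rcases Sym2.eq_iff.1 hxy with ⟨rfl, rfl⟩ | ⟨rfl, rfl⟩
  · have h6 := hsl b' (by rw [add_sub_cancel_left]; exact h2)
    rw [add_sub_cancel_left] at h6
    exact ⟨τ', h4, (eqP_of_sld h6).trans h5⟩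
  · have e : y - (y + a') = -a' := by abel
    have h6 := hsl b' (by rw [e]; exact frm_neg h2)
    rw [e, ← cht_rho] at h6
    exact ⟨_, h4.rho, (eqP_of_sld h6).trans h5.rev⟩

theorem Cong.trans (hF : IsPolygon F) (h : Cong E F) (h' : Cong F G) : Cong E G := by
  obtain ⟨σ, τ, h1, h2, h3⟩ := h
  obtain ⟨υ, h4, h5⟩ := h'.place0 hF h2
  exact ⟨σ, υ, h1, h4, h3.trans h5⟩

/-- One may prescribe the place of `E` and the edge of `F` (but not the direction on it). -/
theorem Cong.place (hE : IsPolygon E) (hF : IsPolygon F) (h : Cong E F) (hσ : Place E σ) {u v : P3}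
    (huv : s(u, v) ∈ F) : ∃ x y, s(x, y) = s(u, v) ∧ ∀ b, Frm (y - x) b (crs (y - x) b) →
      EqP (body E) (body F) σ (cht x (y - x) b) := by
  obtain ⟨τ, h1, h2⟩ := h.place0 hE hσ
  obtain ⟨x, y, hxy, hsl⟩ := place_slide hF h1 huv
  exact ⟨x, y, hxy, fun b hb => h2.trans (eqP_of_sld (hsl b hb))⟩

theorem eqP_image (h : R3 ≃ₜ R3) (hτ : ∀ p ∈ Bx, h (σ p) = τ p) : EqP X (h '' X) σ τ := by
  intro J hJ
  have h3 : ∀ S ⊆ Bx, h '' (σ '' S) = τ '' S := by
    intro S hS
    rw [image_image]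
    exact image_congr fun p hp => hτ p (hS hp)
  refine Eqv.toS ⟨h, ?_⟩
  unfold insr
  rw [image_union, image_sdiff h.injective, h3 _ le_rfl, h3 _ hJ]

/-! ### The straight pattern -/

/-- The straight pattern. -/
def J0 : Set R3 := {p | p ∈ Bx ∧ p.2 = 0}

/-- The box in standard position. -/
noncomputable def bx0 (p : R3) : R3 := (1 / 2 + p.1 / 32, p.2.1 / 32, p.2.2 / 32)

theorem cht_eq {u a b : P3} (hF : Frm a b (crs a b)) : cht u a b = fhomeo u hF ∘ bx0 := by
  funext p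
  rw [Function.comp_apply, fhomeo_apply]
  rfl

theorem insr_straight (hE : IsPolygon E) (hσ : Place E σ) : insr (body E) σ J0 = body E := by
  obtain ⟨u, a, b, h1, hF, rfl⟩ := hσ
  obtain ⟨E₀, rfl⟩ := exists_mapE u hF E
  have hP := isPolygon_of_fmap hF hE
  have f0 : fmap u a b (crs a b) (0, 0, 0) = u := by simp [fmap]
  have f1 : fmap u a b (crs a b) (1, 0, 0) = u + a := by
    simp [fmap]
    rfl
  have h2 : s(((0, 0, 0) : P3), ((1, 0, 0) : P3)) ∈ E₀ := by
    rw [← mem_mapE_fmap (x := u) hF, f0, f1]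
    exact h1
  rw [insr, body_fmap hF, cht_eq hF, image_comp, image_comp,
    ← image_sdiff (fhomeo u hF).injective, ← image_union]
  congr 1
  ext P
  constructor
  · rintro (⟨hp, -⟩ | ⟨q, ⟨hq, hq0⟩, rfl⟩)
    · exact hp
    · refine ⟨_, _, h2, ?_⟩
      rw [mem_seg_zero]
      have hq1 := abs_le.1 hq.1
      refine ⟨1 / 2 + q.1 / 32, by linarith, by linarith, ?_⟩
      simp [bx0, hq0]
  · intro hp
    by_cases hb : P ∈ bx0 '' Bx
    · right
      obtain ⟨q, hq, rfl⟩ := hb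
      refine ⟨q, ⟨hq, ?_⟩, rfl⟩
      obtain ⟨k1, k2, k3⟩ := hq
      rw [abs_le] at k1 k2 k3
      have h3 := body_near_mid hP.adj hp (by simp only [bx0]; linarith)
        (by simp only [bx0]; linarith) (by simp only [bx0]; rw [abs_lt]; constructor <;> linarith)
        (by simp only [bx0]; rw [abs_lt]; constructor <;> linarith)
      simp only [bx0, Prod.mk_eq_zero] at h3
      refine Prod.ext ?_ ?_
      · have := h3.1
        change q.2.1 = 0
        linarith
      · have := h3.2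
        change q.2.2 = 0
        linarith
    · exact Or.inl ⟨hp, hb⟩

theorem Cong.sameType (hE : IsPolygon E) (hF : IsPolygon F) (h : Cong E F) : SameType E F := by
  obtain ⟨σ, τ, h1, h2, h3⟩ := h
  have h4 := h3 J0 (fun p hp => hp.1)
  rw [insr_straight hE h1, insr_straight hF h2] at h4
  obtain ⟨Φ, hΦ⟩ := h4
  exact restrict_homeo Φ hΦ

/-! ### Translations -/

theorem eqP_shift (E : ES) (t u a b : P3) :
    EqP (body E) (body (shift t E)) (cht u a b) (cht (u + t) a b) := by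
  rw [body_shift]
  refine eqP_image _ fun p _ => ?_
  obtain ⟨u1, u2, u3⟩ := u
  obtain ⟨t1, t2, t3⟩ := t
  refine Prod.ext ?_ (Prod.ext ?_ ?_) <;>
  · simp only [cht, toR, Homeomorph.coe_addRight, Prod.mk_add_mk]
    push_cast
    ring

theorem cong_shift (hE : IsPolygon E) (t : P3) : Cong E (shift t E) := by
  obtain ⟨_, u, a, b, h1, h2, rfl⟩ := exists_place hE
  refine ⟨_, _, ⟨u, a, b, h1, h2, rfl⟩, ⟨u + t, a, b, ?_, h2, rfl⟩, eqP_shift E t u a b⟩
  rw [mem_shift]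
  have e : u + t + a - t = u + a := by abel
  rw [e, add_sub_cancel_right]
  exact h1

/-! ### Stretching -/

/-- The stretching of the line near `k + 3/4`. -/
noncomputable def chi (k : ℤ) (h : ℕ) (z : ℝ) : ℝ :=
  z + h * max 0 (min 1 (4 * (z - k) - 5 / 2))

variable {k : ℤ} {h : ℕ}

theorem chi_low {z : ℝ} (hz : z ≤ k + 5 / 8) : chi k h z = z := by
  rw [chi, min_eq_right (by linarith), max_eq_left (by linarith)]
  ring

theorem chi_high {z : ℝ} (hz : (k : ℝ) + 7 / 8 ≤ z) : chi k h z = z + h := by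
  rw [chi, min_eq_left (by linarith), max_eq_right (by linarith)]
  ring

theorem strictMono_chi (k : ℤ) (h : ℕ) : StrictMono (chi k h) := by
  intro a b hab
  have h1 : max 0 (min 1 (4 * (a - k) - 5 / 2)) ≤ max 0 (min 1 (4 * (b - k) - 5 / 2)) :=
    max_le_max le_rfl (min_le_min le_rfl (by linarith))
  have h2 : (h : ℝ) * max 0 (min 1 (4 * (a - k) - 5 / 2)) ≤
      h * max 0 (min 1 (4 * (b - k) - 5 / 2)) :=
    mul_le_mul_of_nonneg_left h1 (Nat.cast_nonneg h)
  unfold chi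
  linarith

theorem surjective_chi (k : ℤ) (h : ℕ) : Function.Surjective (chi k h) := by
  have hc : Continuous (chi k h) := by
    unfold chi
    fun_prop
  refine hc.surjective (Filter.tendsto_atTop_mono (fun z => ?_) Filter.tendsto_id)
    (Filter.tendsto_atBot_mono (fun z => ?_)
      (Filter.tendsto_atBot_add_const_right _ (h : ℝ) Filter.tendsto_id))
  · unfold chi
    have : 0 ≤ (h : ℝ) * max 0 (min 1 (4 * (z - k) - 5 / 2)) :=
      mul_nonneg (Nat.cast_nonneg h) (le_max_left _ _)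
    simp only [id_eq]
    linarith
  · unfold chi
    have h1 : max 0 (min 1 (4 * (z - (k : ℝ)) - 5 / 2)) ≤ 1 := max_le zero_le_one (min_le_left _ _)
    have := mul_le_mul_of_nonneg_left h1 (Nat.cast_nonneg (α := ℝ) h)
    simp only [id_eq]
    linarith

/-- The stretching of space near the level `k + 3/4`. -/
noncomputable def strC (k : ℤ) (h : ℕ) : R3 ≃ₜ R3 :=
  (Homeomorph.refl ℝ).prodCongr ((Homeomorph.refl ℝ).prodCongr
    (homeoOf (chi k h) (strictMono_chi k h) (surjective_chi k h)))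

theorem strC_apply (p : R3) : strC k h p = (p.1, p.2.1, chi k h p.2.2) := rfl

theorem body_layer (hE : ∀ u v, s(u, v) ∈ E → Adj u v) {p : R3} (hp : p ∈ body E)
    (h1 : (k : ℝ) < p.2.2) (h2 : p.2.2 < k + 1) {z : ℝ} (h3 : (k : ℝ) ≤ z) (h4 : z ≤ k + 1) :
    (p.1, p.2.1, z) ∈ body E := by
  obtain ⟨u, v, huv, hx⟩ := hp
  rcases adj_cases k (hE u v huv) with ⟨h5, h6⟩ | ⟨h5, h6⟩ | ⟨a, b, h5⟩
  · have : p.2.2 ≤ k := seg_bounds hx (by exact_mod_cast h5) (by exact_mod_cast h6)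
    linarith
  · have : (k : ℝ) + 1 ≤ p.2.2 := seg_bounds' hx (by exact_mod_cast h5) (by exact_mod_cast h6)
    linarith
  · have hx' := mem_vseg.1 (seg_of_eq h5 hx)
    exact ⟨_, _, h5 ▸ huv, mem_vseg.2 ⟨hx'.1, hx'.2.1, h3, h4⟩⟩

theorem layer_swap (hE : ∀ u v, s(u, v) ∈ E → Adj u v) {f g : ℝ → ℝ} (hf : StrictMono f)
    (hg : StrictMono g) (hs : Function.Surjective g) (h1 : ∀ z : ℝ, z ≤ k → f z = g z)
    (h2 : ∀ z : ℝ, k + 1 ≤ z → f z = g z) {p : R3} (hp : p ∈ body E) :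
    ∃ q ∈ body E, (q.1, q.2.1, g q.2.2) = (p.1, p.2.1, f p.2.2) := by
  rcases le_or_gt p.2.2 k with h3 | h3
  · exact ⟨p, hp, by rw [h1 _ h3]⟩
  rcases le_or_gt ((k : ℝ) + 1) p.2.2 with h4 | h4
  · exact ⟨p, hp, by rw [h2 _ h4]⟩
  obtain ⟨q, hq⟩ := hs (f p.2.2)
  refine ⟨(p.1, p.2.1, q), body_layer hE hp h3 h4 ?_ ?_, by simp [hq]⟩
  · rw [← hg.le_iff_le, hq, ← h1 _ le_rfl]
    exact (hf h3).le
  · rw [← hg.le_iff_le, hq, ← h2 _ le_rfl]
    exact (hf h4).le

theorem body_strC (hE : ∀ u v, s(u, v) ∈ E → Adj u v) :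
    strC k h '' body E = body (stretch E k h) := by
  rw [← body_stretch hE]
  ext y
  constructor
  · rintro ⟨p, hp, rfl⟩
    obtain ⟨q, hq, e⟩ := layer_swap (k := k) hE (strictMono_chi k h) (strictMono_psi k h)
      (surjective_psi k h) (fun z hz => by rw [chi_low (by linarith), psi_low hz])
      (fun z hz => by rw [chi_high (by linarith), psi_high hz]) hp
    exact ⟨q, hq, e⟩
  · rintro ⟨p, hp, rfl⟩
    obtain ⟨q, hq, e⟩ := layer_swap (k := k) hE (strictMono_psi k h) (strictMono_chi k h)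
      (surjective_chi k h) (fun z hz => by rw [chi_low (by linarith), psi_low hz])
      (fun z hz => by rw [chi_high (by linarith), psi_high hz]) hp
    exact ⟨q, hq, e⟩

theorem cht_level {u a b : P3} (hF : Frm a b (crs a b)) {p : R3} (hp : p ∈ Bx) :
    |(cht u a b p).2.2 - ((u.2.2 : ℝ) + (a.2.2 : ℝ) / 2)| ≤ 1 / 32 := by
  obtain ⟨k1, k2, k3⟩ := hp
  rw [abs_le] at k1 k2 k3 ⊢
  rcases unit_cases (isUnit3_of_frm hF) with rfl | rfl | rfl | rfl | rfl | rfl <;>
    rcases unit_cases (isUnit3_of_frm' hF) with rfl | rfl | rfl | rfl | rfl | rfl <;>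
    first
    | exact absurd hF (by decide)
    | (constructor <;> · simp only [cht, crs]; push_cast; linarith)

/-- The place at a low edge of `E` and the place at the corresponding edge of `stretch E k h`. -/
theorem eqP_stretch (hE : IsPolygon E) (k : ℤ) (h : ℕ) {u a b : P3} (hu : s(u, u + a) ∈ E)
    (hF : Frm a b (crs a b)) (hlow : u.2.2 ≤ k ∨ (u + a).2.2 ≤ k) :
    EqP (body E) (body (stretch E k h)) (cht u a b) (cht u a b) := by
  rw [← body_strC hE.adj]
  refine eqP_image _ fun p hp => ?_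
  rw [strC_apply, chi_low]
  have h1 := (abs_le.1 (cht_level (u := u) hF hp)).2
  have h2 : 2 * u.2.2 + a.2.2 ≤ 2 * k + 1 := by
    have h3 : (u + a).2.2 = u.2.2 + a.2.2 := rfl
    rw [h3] at hlow
    have := hE.adj _ _ hu
    rw [adj_iff_sq2] at this
    have h4 : u.2.2 - (u + a).2.2 = - a.2.2 := by rw [h3]; ring
    rw [h4] at this
    have h5 : a.2.2 ≤ 1 := by nlinarith
    have h6 : -1 ≤ a.2.2 := by nlinarith
    omega
  have h3 : 2 * (u.2.2 : ℝ) + a.2.2 ≤ 2 * k + 1 := by exact_mod_cast h2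
  linarith

theorem eqP_stretch_high (hE : IsPolygon E) (k : ℤ) (h : ℕ) {u a b : P3}
    (hF : Frm a b (crs a b)) (h1 : k + 1 ≤ u.2.2) (h2 : k + 1 ≤ (u + a).2.2) :
    EqP (body E) (body (stretch E k h)) (cht u a b) (cht (u + hv h) a b) := by
  rw [← body_strC hE.adj]
  refine eqP_image _ fun p hp => ?_
  rw [strC_apply, chi_high]
  · obtain ⟨u1, u2, u3⟩ := u
    refine Prod.ext ?_ (Prod.ext ?_ ?_) <;>
    · simp only [cht, hv, Prod.mk_add_mk]
      push_cast
      ring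
  · have h3 := (abs_le.1 (cht_level (u := u) hF hp)).1
    have h4 : (u + a).2.2 = u.2.2 + a.2.2 := rfl
    rw [h4] at h2
    have h5 : (k : ℝ) + 1 ≤ u.2.2 := by exact_mod_cast h1
    have h6 : (k : ℝ) + 1 ≤ u.2.2 + a.2.2 := by exact_mod_cast h2
    linarith

theorem cong_stretch (hE : IsPolygon E) (k : ℤ) (h : ℕ) : Cong E (stretch E k h) := by
  obtain ⟨_, u, a, b, h1, hF, rfl⟩ := exists_place hE
  have hz : (u + a).2.2 = u.2.2 + a.2.2 := rfl
  rcases adj_cases k (hE.adj _ _ h1) with ⟨h2, h3⟩ | ⟨h2, h3⟩ | ⟨x, y, h2⟩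
  · exact ⟨_, _, ⟨u, a, b, h1, hF, rfl⟩,
      ⟨u, a, b, mem_stretch.2 (Or.inl ⟨h1, h2, h3⟩), hF, rfl⟩,
      eqP_stretch hE k h h1 hF (Or.inl h2)⟩
  · refine ⟨_, _, ⟨u, a, b, h1, hF, rfl⟩,
      ⟨u + hv h, a, b, mem_stretch.2 (Or.inr (Or.inl ⟨?_, ?_, ?_⟩)), hF, rfl⟩,
      eqP_stretch_high hE k h hF h2 h3⟩
    · change s(u + hv h - hv h, u + hv h + a - hv h) ∈ E
      have e : u + hv h + a - hv h = u + a := by abel
      rw [e, add_sub_cancel_right]
      exact h1
    · change k + 1 + h ≤ u.2.2 + h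
      omega
    · change k + 1 + h ≤ u.2.2 + h + a.2.2
      omega
  · refine ⟨_, _, ⟨u, a, b, h1, hF, rfl⟩,
      ⟨u, a, b, mem_stretch.2 (Or.inr (Or.inr ⟨x, y, 0, by omega, h2 ▸ h1, ?_⟩)), hF, rfl⟩,
      eqP_stretch hE k h h1 hF ?_⟩
    · rw [h2]
      simp
    · rw [Sym2.eq_iff] at h2
      rcases h2 with ⟨h3, -⟩ | ⟨-, h3⟩
      · left
        rw [h3]
      · right
        rw [h3]

end Pool.Agent.KTen
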