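import Pool.Agent.KTube.Remove
import Pool.Agent.KTube.SlideDefs
import Pool.Agent.KTen.Defs

/-! Places on the edges of polygons: definitions. -/

set_option autoImplicit false

open Set

namespace Pool.Agent.KTen

open Pool.Agent.LK Pool.Agent.KTube

/-- `σ` is a small box at the middle of an edge of `E` (the frame of the box gives a direction of
the polygon). -/
def Place (E : ES) (σ : R3 → R3) : Prop :=
  ∃ u a b : P3, s(u, u + a) ∈ E ∧ Frm a b (crs a b) ∧ σ = cht u a b

/-- The places `σ` in `X` and `τ` in `Y` are equivalent: whatever pattern is inserted in both, the
results are equivalent by a homeomorphism of the sphere. -/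
def EqP (X Y : Set R3) (σ τ : R3 → R3) : Prop := ∀ J ⊆ Bx, EqvS (insr X σ J) (insr Y τ J)

/-- Some places of the polygons are equivalent. This is finer than equality of knot types if
homeomorphisms of space may reverse the orientation of space and of the knots. -/
def Cong (E R : ES) : Prop := ∃ σ τ, Place E σ ∧ Place R τ ∧ EqP (body E) (body R) σ τ

/-- The rotation of the box that reverses the direction. -/
def rho (p : R3) : R3 := (-p.1, p.2.1, -p.2.2)

end Pool.Agent.KTen
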