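import Pool.Agent.KTen.Count
import Pool.Agent.KTen.Sections
import Pool.Agent.MP_aea6d5_co.PolyCyc

/-! Counting polygons with a weight for horizontal edges. -/

set_option autoImplicit false

open Set

namespace Pool.Agent.KTen

open Pool.Agent.LK Pool.Agent.KTube

variable {C C' : ES → Prop} {n : ℕ} {y : ℝ}

/-- the steps of a cyclic enumeration -/
private def stp (g : ℕ → P3) (i : ℕ) : P3 := g (i + 1) - g i

open Classical in
/-- the code of a step -/
private noncomputable def cde (g : ℕ → P3) (i : ℕ) : Option (Bool × Bool × Bool) :=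
  if (stp g i).2.2 = 0 then
    some (decide ((stp g i).1 ≠ 0), decide (0 < (stp g i).1 + (stp g i).2.1),
      decide (0 < (stp g (i + 1)).2.2))
  else none

private theorem unit_cases {d : P3} (h : |d.1| + |d.2.1| + |d.2.2| = 1) :
    (d.2.2 = 0 ∧ ((d.2.1 = 0 ∧ (d.1 = 1 ∨ d.1 = -1)) ∨ (d.1 = 0 ∧ (d.2.1 = 1 ∨ d.2.1 = -1)))) ∨
    (d.1 = 0 ∧ d.2.1 = 0 ∧ (d.2.2 = 1 ∨ d.2.2 = -1)) := by
  obtain ⟨a, b, c⟩ := d
  simp only at h ⊢
  rcases abs_cases a with ⟨h1, h1'⟩ | ⟨h1, h1'⟩ <;> rcases abs_cases b with ⟨h2, h2'⟩ | ⟨h2, h2'⟩ <;>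
    rcases abs_cases c with ⟨h3, h3'⟩ | ⟨h3, h3'⟩ <;> omega

private theorem stp_unit {E : ES} (hE : IsPolygon E) {g : ℕ → P3} (hc : Cyc E n g) {i : ℕ}
    (hi : i < n) : |(stp g i).1| + |(stp g i).2.1| + |(stp g i).2.2| = 1 := by
  have h := hE.adj _ _ (hc.mem_edge hi)
  unfold Adj at h
  unfold stp
  simp only [Prod.fst_sub, Prod.snd_sub]
  rw [abs_sub_comm (g (i + 1)).1, abs_sub_comm (g (i + 1)).2.1, abs_sub_comm (g (i + 1)).2.2]
  exact h

/-- no reversal -/
private theorem stp_ne {E : ES} {g : ℕ → P3} (hc : Cyc E n g) {i : ℕ}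
    (hi : i + 1 < n) : stp g (i + 1) ≠ -stp g i := by
  intro h
  have h1 : g (i + 1 + 1) = g i := by
    unfold stp at h
    have h2 : g (i + 1 + 1) = g (i + 1 + 1) - g (i + 1) + g (i + 1) := by ring
    rw [h2, h]
    ring
  have h3 := hc.three
  rcases Nat.lt_or_ge (i + 1 + 1) n with h2 | h2
  · have := hc.inj _ h2 i (by omega) h1
    omega
  · have h4 : i + 1 + 1 = n := by omega
    rw [h4, hc.per] at h1
    have := hc.inj 0 (by omega) i (by omega) h1
    omega

/-- decoding -/
private theorem decode {E E' : ES} (hE : IsPolygon E) (hE' : IsPolygon E') {g g' : ℕ → P3}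
    (hc : Cyc E n g) (hc' : Cyc E' n g') (h0 : (stp g 0).2.2 = 0) (h0' : (stp g' 0).2.2 = 0)
    (hcode : ∀ i < n, cde g i = cde g' i) : ∀ i < n, stp g i = stp g' i := by
  intro i
  induction i using Nat.strong_induction_on with
  | _ i ih =>
    intro hi
    have hci := hcode i hi
    have hu := unit_cases (stp_unit hE hc hi)
    have hu' := unit_cases (stp_unit hE' hc' hi)
    by_cases hz : (stp g i).2.2 = 0
    · have hz' : (stp g' i).2.2 = 0 := by
        by_contra hne
        unfold cde at hci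
        rw [if_pos hz, if_neg hne] at hci
        exact absurd hci (by simp)
      unfold cde at hci
      rw [if_pos hz, if_pos hz'] at hci
      simp only [Option.some.injEq, Prod.mk.injEq, decide_eq_decide] at hci
      obtain ⟨h1, h2, _⟩ := hci
      refine Prod.ext ?_ (Prod.ext ?_ (hz.trans hz'.symm))
      · omega
      · omega
    · have hz' : (stp g' i).2.2 ≠ 0 := by
        intro hne
        unfold cde at hci
        rw [if_neg hz, if_pos hne] at hci
        exact absurd hci (by simp)
      obtain ⟨j, rfl⟩ : ∃ j, i = j + 1 := by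
        refine ⟨i - 1, ?_⟩
        have : i ≠ 0 := by
          rintro rfl
          exact hz h0
        omega
      have hj := ih j (by omega) (by omega)
      have hcj := hcode j (by omega)
      by_cases hzj : (stp g j).2.2 = 0
      · have hzj' : (stp g' j).2.2 = 0 := by rw [← hj]; exact hzj
        unfold cde at hcj
        rw [if_pos hzj, if_pos hzj'] at hcj
        simp only [Option.some.injEq, Prod.mk.injEq, decide_eq_decide] at hcj
        obtain ⟨_, _, h3⟩ := hcj
        refine Prod.ext ?_ (Prod.ext ?_ ?_)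
        · omega
        · omega
        · omega
      · have hne := stp_ne hc (i := j) hi
        have hne' := stp_ne hc' (i := j) hi
        rw [← hj] at hne'
        have huj := unit_cases (stp_unit hE hc (i := j) (by omega))
        have key : ∀ d e : P3, ((d.2.2 = 0 ∧ ((d.2.1 = 0 ∧ (d.1 = 1 ∨ d.1 = -1)) ∨
            (d.1 = 0 ∧ (d.2.1 = 1 ∨ d.2.1 = -1)))) ∨
            (d.1 = 0 ∧ d.2.1 = 0 ∧ (d.2.2 = 1 ∨ d.2.2 = -1))) →
            ((e.2.2 = 0 ∧ ((e.2.1 = 0 ∧ (e.1 = 1 ∨ e.1 = -1)) ∨
            (e.1 = 0 ∧ (e.2.1 = 1 ∨ e.2.1 = -1)))) ∨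
            (e.1 = 0 ∧ e.2.1 = 0 ∧ (e.2.2 = 1 ∨ e.2.2 = -1))) → d.2.2 ≠ 0 → e.2.2 ≠ 0 →
            e ≠ -d → e = d := by
          intro d e hd he hd0 he0 hed
          have h1 : ¬ (e.1 = -d.1 ∧ e.2.1 = -d.2.1 ∧ e.2.2 = -d.2.2) := by
            rintro ⟨h1, h2, h3⟩
            exact hed (Prod.ext h1 (Prod.ext h2 h3))
          refine Prod.ext ?_ (Prod.ext ?_ ?_) <;> omega
        have e1 := key _ _ huj hu hzj hz hne
        have e2 := key _ _ huj hu' hzj hz' hne'
        rw [e1, e2]

/-- equal steps: translates -/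
private theorem shift_of_steps {E E' : ES} {g g' : ℕ → P3} (hc : Cyc E n g) (hc' : Cyc E' n g')
    (h : ∀ i < n, stp g i = stp g' i) : E' = shift (g' 0 - g 0) E := by
  have h1 : ∀ i ≤ n, g' i = g i + (g' 0 - g 0) := by
    intro i
    induction i with
    | zero =>
      intro _
      ring
    | succ i ih =>
      intro hi
      have h2 := ih (by omega)
      have h3 := h i (by omega)
      unfold stp at h3
      have h4 : g' (i + 1) = (g' (i + 1) - g' i) + g' i := by ring
      rw [h4, ← h3, h2]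
      ring
  refine edge_ext fun u v => ?_
  rw [mem_shift, hc.edge, hc'.edge]
  constructor
  · rintro ⟨i, hi, he⟩
    refine ⟨i, hi, ?_⟩
    rw [h1 i (by omega), h1 (i + 1) (by omega)] at he
    rw [Sym2.eq_iff] at he ⊢
    rcases he with ⟨e1, e2⟩ | ⟨e1, e2⟩
    · left
      rw [e1, e2]
      constructor <;> ring
    · right
      rw [e1, e2]
      constructor <;> ring
  · rintro ⟨i, hi, he⟩
    refine ⟨i, hi, ?_⟩
    rw [h1 i (by omega), h1 (i + 1) (by omega)]
    rw [Sym2.eq_iff] at he ⊢
    rcases he with ⟨e1, e2⟩ | ⟨e1, e2⟩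
    · left
      rw [← e1, ← e2]
      constructor <;> ring
    · right
      rw [← e1, ← e2]
      constructor <;> ring

private theorem hor_eq {E : ES} {g : ℕ → P3} (hc : Cyc E n g) :
    hor E = ((Finset.univ : Finset (Fin n)).filter fun i : Fin n =>
      (stp g (i : ℕ)).2.2 = 0).card := by
  classical
  unfold hor
  symm
  refine Finset.card_bij (fun (i : Fin n) _ => s(g (i : ℕ), g ((i : ℕ) + 1))) ?_ ?_ ?_
  · intro i hi
    rw [Finset.mem_filter] at hi ⊢
    refine ⟨hc.mem_edge i.isLt, (g i).2.2, ?_⟩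
    intro w hw
    have h2 := hi.2
    unfold stp at h2
    simp only [Prod.snd_sub] at h2
    rw [Sym2.mem_iff] at hw
    rcases hw with rfl | rfl
    · rfl
    · omega
  · intro i _ j _ h
    exact Fin.ext (hc.edge_inj i.isLt j.isLt h)
  · intro e he
    rw [Finset.mem_filter] at he
    obtain ⟨he1, k, hk⟩ := he
    rw [hc.eq_image, Finset.mem_image] at he1
    obtain ⟨i, hi, rfl⟩ := he1
    rw [Finset.mem_range] at hi
    refine ⟨⟨i, hi⟩, ?_, rfl⟩
    rw [Finset.mem_filter]
    refine ⟨Finset.mem_univ _, ?_⟩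
    have h1 := hk (g i) (Sym2.mem_mk_left _ _)
    have h2 := hk (g (i + 1)) (Sym2.mem_mk_right _ _)
    unfold stp
    simp only [Prod.snd_sub]
    omega

/-- **Words.** The polygons with `n` edges, with a weight `t` for each horizontal edge: a polygon
is determined by its cyclic word; a maximal run of vertical steps has one direction. -/
theorem sum_hor {t : ℝ} (ht : 0 ≤ t) (n : ℕ) :
    ∑ᶠ E ∈ NSet (fun _ => True) n, t ^ hor E ≤ (1 + 8 * t) ^ n := by
  classical
  have hex : ∀ E : ES, ∃ g : ℕ → P3, E ∈ NSet (fun _ => True) n →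
      Cyc E n g ∧ (stp g 0).2.2 = 0 := by
    intro E
    by_cases hE : E ∈ NSet (fun _ => True) n
    · obtain ⟨hP, _, _, hn⟩ := hE
      have h2 := two_le_hor hP
      unfold hor at h2
      obtain ⟨e, he⟩ := Finset.card_pos.mp (lt_of_lt_of_le (by norm_num) h2)
      rw [Finset.mem_filter] at he
      obtain ⟨he1, k, hk⟩ := he
      induction e using Sym2.ind with
      | _ a b =>
        obtain ⟨m, g, hc, hg0, hg1⟩ := exists_cyc hP he1
        have hm : m = n := by rw [← hc.card_eq, hn]
        subst hm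
        refine ⟨g, fun _ => ⟨hc, ?_⟩⟩
        have h3 := hk a (Sym2.mem_mk_left _ _)
        have h4 := hk b (Sym2.mem_mk_right _ _)
        unfold stp
        rw [zero_add, hg0, hg1]
        simp only [Prod.snd_sub]
        omega
    · exact ⟨0, fun h => absurd h hE⟩
  choose G hG using hex
  let code : ES → (Fin n → Option (Bool × Bool × Bool)) := fun E i => cde (G E) i
  have hinj : Set.InjOn code (NSet (fun _ => True) n) := by
    intro E hE E' hE' h
    obtain ⟨hc, h0⟩ := hG E hE
    obtain ⟨hc', h0'⟩ := hG E' hE'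
    have h1 := decode hE.1 hE'.1 hc hc' h0 h0' (fun i hi => congrFun h ⟨i, hi⟩)
    have h2 := shift_of_steps hc hc' h1
    have h3 : Normed (shift (G E' 0 - G E 0) E) := by
      rw [← h2]
      exact hE'.2.2.1
    have h4 := hE.2.2.1.eq_zero h3
    rw [h4, shift_zero] at h2
    exact h2.symm
  have hfin : (NSet (fun _ => True) n).Finite :=
    Set.Finite.of_finite_image (Set.toFinite _) hinj
  rw [finsum_mem_eq_finite_toFinset_sum _ hfin]
  let w : Option (Bool × Bool × Bool) → ℝ := fun x => if x = none then 1 else t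
  have hw : ∀ x, 0 ≤ w x := by
    intro x
    simp only [w]
    split_ifs
    · norm_num
    · exact ht
  have hval : ∀ E ∈ hfin.toFinset, t ^ hor E = ∏ i, w (code E i) := by
    intro E hE
    rw [Set.Finite.mem_toFinset] at hE
    obtain ⟨hc, h0⟩ := hG E hE
    rw [hor_eq hc]
    have h1 : ∀ i : Fin n, w (code E i) = if (stp (G E) i).2.2 = 0 then t else 1 := by
      intro i
      simp only [w, code, cde]
      by_cases h2 : (stp (G E) i).2.2 = 0
      · rw [if_pos h2, if_pos h2, if_neg (by simp)]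
      · rw [if_neg h2, if_neg h2, if_pos rfl]
    rw [Finset.prod_congr rfl fun i _ => h1 i, Finset.prod_ite, Finset.prod_const,
      Finset.prod_const_one, mul_one]
  rw [Finset.sum_congr rfl hval]
  have hinj' : Set.InjOn code (hfin.toFinset : Set ES) := by
    rw [Set.Finite.coe_toFinset]
    exact hinj
  rw [← Finset.sum_image (f := fun c : Fin n → Option (Bool × Bool × Bool) => ∏ i, w (c i)) hinj']
  have hsum : (∑ x, w x) = 1 + 8 * t := by
    simp only [w, Fintype.sum_option, if_true]
    rw [Finset.sum_congr rfl (g := fun _ => t) (fun x _ => by rw [if_neg (by simp)])]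
    rw [Finset.sum_const, Finset.card_univ]
    simp only [Fintype.card_prod, Fintype.card_bool, nsmul_eq_mul]
    norm_num
  calc ∑ c ∈ hfin.toFinset.image code, ∏ i, w (c i)
      ≤ ∑ c : Fin n → Option (Bool × Bool × Bool), ∏ i, w (c i) :=
        Finset.sum_le_sum_of_subset_of_nonneg (Finset.subset_univ _)
          (fun c _ _ => Finset.prod_nonneg fun i _ => hw _)
    _ = (1 + 8 * t) ^ n := by
        rw [← hsum, Fintype.sum_pow]

end Pool.Agent.KTen
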