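import Pool.Agent.KTen.Sections
import Pool.Agent.KTen.SumHor
import Pool.Agent.LatticeTube.G4a
import Pool.Agent.MP_aea6d5_co.KMono

/-! Bounds for partition functions, `y = x ^ 2`. -/

set_option autoImplicit false

open Set Filter Topology

namespace Pool.Agent.KTen

open Pool.Agent.LK Pool.Agent.KTube

variable {x : ℝ}

private theorem ratioA_fin {S : Set ES} (hS : S.Finite) (f : ES → ℝ) :
    ∑ᶠ E ∈ S, f E = ∑ E ∈ hS.toFinset, f E := finsum_mem_eq_finite_toFinset_sum f hS

private theorem ratioA_mono {C C' : ES → Prop} {n : ℕ} {f g : ES → ℝ}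
    (h : ∀ E ∈ NSet C n, C' E ∧ f E ≤ g E) (hg : ∀ E ∈ NSet C' n, 0 ≤ g E) :
    ∑ᶠ E ∈ NSet C n, f E ≤ ∑ᶠ E ∈ NSet C' n, g E := by
  rw [ratioA_fin (nset_finite C n), ratioA_fin (nset_finite C' n)]
  refine (Finset.sum_le_sum fun E hE => (h E ((nset_finite C n).mem_toFinset.1 hE)).2).trans ?_
  refine Finset.sum_le_sum_of_subset_of_nonneg (fun E hE => ?_) fun E hE _ =>
    hg E ((nset_finite C' n).mem_toFinset.1 hE)
  have hE' := (nset_finite C n).mem_toFinset.1 hE
  exact (nset_finite C' n).mem_toFinset.2 ⟨hE'.1, (h E hE').1, hE'.2.2⟩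

private theorem ratioA_mul {C : ES → Prop} {n : ℕ} (a : ℝ) (f : ES → ℝ) :
    ∑ᶠ E ∈ NSet C n, a * f E = a * ∑ᶠ E ∈ NSet C n, f E := by
  rw [ratioA_fin (nset_finite C n), ratioA_fin (nset_finite C n), Finset.mul_sum]

private theorem ratioA_span {E : ES} {C : ES → Prop} {n : ℕ} (hx : 1 ≤ x) (hE : E ∈ NSet C n) :
    (x ^ 2) ^ span E = x ^ n * (1 / x) ^ (E.card - 2 * span E) ∧
      hor E ≤ E.card - 2 * span E := by
  have h1 := card_eq hE.1
  have h2 := two_span_le hE.1
  have h3 := hE.2.2.2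
  refine ⟨?_, by omega⟩
  have h4 : n = 2 * span E + (E.card - 2 * span E) := by omega
  have h5 : x ≠ 0 := by positivity
  rw [show x ^ n = x ^ (2 * span E + (E.card - 2 * span E)) from congrArg _ h4, ← pow_mul, pow_add,
    mul_assoc, ← mul_pow, mul_one_div_cancel h5, one_pow, mul_one]

/-- The number of polygons with a weight, all types together. -/
theorem zt_le_pow (hx : 1 ≤ x) (C : ES → Prop) (n : ℕ) : Zt (x ^ 2) C n ≤ (x + 8) ^ n := by
  have hx0 : 0 < x := by linarith
  have h1 : Zt (x ^ 2) C n ≤ ∑ᶠ E ∈ NSet (fun _ => True) n, x ^ n * (1 / x) ^ hor E := by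
    refine ratioA_mono (fun E hE => ⟨trivial, ?_⟩) fun E _ => by positivity
    obtain ⟨h2, h3⟩ := ratioA_span hx hE
    rw [h2]
    refine mul_le_mul_of_nonneg_left ?_ (by positivity)
    exact pow_le_pow_of_le_one (by positivity) (by rw [div_le_one hx0]; exact hx) h3
  rw [ratioA_mul] at h1
  refine h1.trans ?_
  calc x ^ n * ∑ᶠ E ∈ NSet (fun _ => True) n, (1 / x) ^ hor E
      ≤ x ^ n * (1 + 8 * (1 / x)) ^ n :=
        mul_le_mul_of_nonneg_left (sum_hor (by positivity) n) (by positivity)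
    _ = (x + 8) ^ n := by
        rw [← mul_pow]
        congr 1
        field_simp

/-- **Few polygons have a large defect** `card - 2 span`. -/
theorem bad_le (hx : 100 ≤ x) (n : ℕ) :
    Zt (x ^ 2) (fun E => 30 / x * n ≤ ((E.card - 2 * span E : ℕ) : ℝ)) n ≤
      x ^ n * Real.exp (-(5 / x) * n) := by
  have hx0 : 0 < x := by linarith
  have he := Real.exp_one_lt_d9
  have he0 := Real.exp_pos 1
  have h1 : Zt (x ^ 2) (fun E => 30 / x * n ≤ ((E.card - 2 * span E : ℕ) : ℝ)) n ≤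
      ∑ᶠ E ∈ NSet (fun _ => True) n,
        x ^ n * Real.exp (-(30 / x * n)) * (Real.exp 1 / x) ^ hor E := by
    refine ratioA_mono (fun E hE => ⟨trivial, ?_⟩) fun E _ => by positivity
    obtain ⟨h2, h3⟩ := ratioA_span (x := x) (by linarith) hE
    have h4 : 30 / x * n ≤ ((E.card - 2 * span E : ℕ) : ℝ) := hE.2.1
    rw [h2]
    generalize E.card - 2 * span E = D at h3 h4 ⊢
    have h5 : (Real.exp 1 / x) ^ D ≤ (Real.exp 1 / x) ^ hor E :=
      pow_le_pow_of_le_one (by positivity) (by rw [div_le_one hx0]; linarith) h3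
    calc x ^ n * (1 / x) ^ D = x ^ n * (Real.exp (-(D : ℝ)) * (Real.exp 1 / x) ^ D) := by
          congr 1
          rw [div_pow, div_pow, ← Real.exp_nat_mul, mul_one, one_pow, ← mul_div_assoc,
            ← Real.exp_add, neg_add_cancel, Real.exp_zero]
      _ ≤ x ^ n * (Real.exp (-(30 / x * n)) * (Real.exp 1 / x) ^ hor E) := by
          refine mul_le_mul_of_nonneg_left (mul_le_mul ?_ h5 (by positivity) (by positivity))
            (by positivity)
          exact Real.exp_le_exp.2 (by linarith)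
      _ = _ := by ring
  rw [ratioA_mul] at h1
  refine h1.trans ?_
  calc x ^ n * Real.exp (-(30 / x * n)) * ∑ᶠ E ∈ NSet (fun _ => True) n,
        (Real.exp 1 / x) ^ hor E
      ≤ x ^ n * Real.exp (-(30 / x * n)) * (1 + 8 * (Real.exp 1 / x)) ^ n :=
        mul_le_mul_of_nonneg_left (sum_hor (by positivity) n) (by positivity)
    _ ≤ x ^ n * Real.exp (-(30 / x * n)) * Real.exp (25 / x * n) := by
        refine mul_le_mul_of_nonneg_left ?_ (by positivity)
        have h2 : 1 + 8 * (Real.exp 1 / x) ≤ Real.exp (25 / x) := by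
          have h3 := Real.add_one_le_exp (25 / x)
          have h4 : 8 * (Real.exp 1 / x) ≤ 25 / x := by
            rw [← mul_div_assoc]
            exact div_le_div_of_nonneg_right (by linarith) hx0.le
          linarith
        calc (1 + 8 * (Real.exp 1 / x)) ^ n ≤ (Real.exp (25 / x)) ^ n :=
              pow_le_pow_left₀ (by positivity) h2 n
          _ = Real.exp (25 / x * n) := by rw [← Real.exp_nat_mul, mul_comm]
    _ = x ^ n * Real.exp (-(5 / x) * n) := by
        rw [mul_assoc, ← Real.exp_add]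
        congr 2
        ring

/-- Vertical rectangles. -/
theorem u_ge (hx : 1 ≤ x) {n : ℕ} (hn : Even n) (h4 : 4 ≤ n) :
    x ^ (n - 2) ≤ Zt (x ^ 2) UClass n := by
  obtain ⟨m, hm⟩ := hn
  obtain ⟨h, rfl⟩ : ∃ h, m = h + 1 := ⟨m - 1, by omega⟩
  obtain ⟨h1, h2, h3, h5, h6, h7⟩ := LatticeTube.vrectStatement 0 0 h (by omega)
  have hmem : ((0, 0, 0) : P3) ∈ verts (LatticeTube.vrect 0 0 h) := by
    refine ⟨(0 + 1, 0, 0), ?_⟩
    unfold LatticeTube.vrect
    simp only [Finset.mem_union, Finset.mem_insert]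
    exact Or.inl (Or.inl (Or.inl (by norm_num)))
  have hE : LatticeTube.vrect 0 0 h ∈ NSet UClass n := by
    refine ⟨h1, ⟨h1, h2⟩, ⟨fun u hu => ?_, ⟨_, hmem, rfl⟩, ⟨_, hmem, rfl⟩, ⟨_, hmem, rfl⟩⟩, ?_⟩
    · have h8 := h3.1 u hu
      rcases h7 u hu with h9 | h9
      · rw [Prod.mk.injEq] at h9
        exact ⟨by omega, by omega, h8⟩
      · rw [Prod.mk.injEq] at h9
        exact ⟨by omega, by omega, h8⟩
    · omega
  have h8 : span (LatticeTube.vrect 0 0 h) = h := h6
  unfold Zt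
  rw [ratioA_fin (nset_finite UClass n)]
  refine le_trans ?_ (Finset.single_le_sum (f := fun E => (x ^ 2) ^ span E)
    (fun E _ => by positivity) ((nset_finite UClass n).mem_toFinset.2 hE))
  show x ^ (n - 2) ≤ (x ^ 2) ^ span (LatticeTube.vrect 0 0 h)
  rw [h8, ← pow_mul]
  refine le_of_eq ?_
  congr 1
  omega

private theorem ratioA_empty {C : ES → Prop} {n : ℕ} (h : ∀ E : ES, IsPolygon E → E.card ≠ n)
    (y : ℝ) : Zt y C n = 0 := by
  have h1 : NSet C n = ∅ := by
    ext E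
    simp only [Set.mem_empty_iff_false, iff_false]
    exact fun hE => h E hE.1 hE.2.2.2
  unfold Zt
  rw [h1]
  simp

theorem u_odd {n : ℕ} (hn : ¬ Even n) (C : ES → Prop) (y : ℝ) : Zt y C n = 0 := by
  refine ratioA_empty (fun E hE h => hn ?_) y
  rw [← h]
  exact even_card hE

theorem u_small {n : ℕ} (hn : n < 4) (C : ES → Prop) (y : ℝ) : Zt y C n = 0 := by
  refine ratioA_empty (fun E hE h => ?_) y
  obtain ⟨a, b, hab⟩ := exists_edge hE
  obtain ⟨m, g, hc, -, -⟩ := exists_cyc hE hab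
  have h1 := hc.card_eq
  have h2 := hc.three
  obtain ⟨k, hk⟩ := even_card hE
  omega

theorem u_pos (hx : 1 ≤ x) {n : ℕ} (hn : Even n) (h4 : 4 ≤ n) : 0 < Zt (x ^ 2) UClass n :=
  lt_of_lt_of_le (by positivity) (u_ge hx hn h4)

end Pool.Agent.KTen
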