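import Pool.Agent.KTen.SpliceType
import Pool.Agent.KTen.Sections
import Pool.Agent.KTen.Count
import Pool.Agent.KTen.Conn
import Pool.Agent.KTen.Mid
import Pool.Agent.MP_aea6d5_co.Pair

/-! Replacing the first knotted piece by connectors. -/

set_option autoImplicit false

open Set

namespace Pool.Agent.KTen

open Pool.Agent.LK Pool.Agent.KTube

/-- The polygons with `n` edges in normal position that have at most `N + 1` prime factors and a
first knotted piece which consists of walks with the steps `w1` and `w2`. -/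
def WSet (N n : ℕ) (w1 w2 : List P3) : Set ES :=
  {E | E ∈ NSet (Few (N + 1)) n ∧ ∃ s t a b, Piece E s t ∧ Mid E s t a b w1 w2}

/-! ### Planes of polygons with lowest level `0` -/

/-- The lowest level is `0`. -/
private def LowZ (E : ES) : Prop := (∀ u ∈ verts E, 0 ≤ u.2.2) ∧ ∃ u ∈ verts E, u.2.2 = 0

private theorem cross_iff {E : ES} (hE : IsPolygon E) (hN : LowZ E) (k : ℤ) :
    (cross E k).Nonempty ↔ 0 ≤ k ∧ k < span E :=
  LatticeTube.sectionStatement.2 E hE hN k

private theorem lowZ_shift {E : ES} {r : P3} (h : LowZ E) (h' : LowZ (shift r E)) :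
    r.2.2 = 0 := by
  obtain ⟨h1, u, hu, hu0⟩ := h
  obtain ⟨h2, v, hv, hv0⟩ := h'
  have a1 := h2 (u + r) (mem_verts_shift.2 (by simpa using hu))
  have a2 := h1 _ (mem_verts_shift.1 hv)
  simp only [Prod.snd_add, Prod.snd_sub] at a1 a2
  omega

private theorem adj_z {u v : P3} (h : Adj u v) : |u.2.2 - v.2.2| ≤ 1 := by
  unfold Adj at h
  have e1 := abs_nonneg (u.1 - v.1)
  have e2 := abs_nonneg (u.2.1 - v.2.1)
  omega

/-- The lowest level of the lower part. -/
private theorem lowZ_splice {E C F : ES} {s t : ℤ} (hC : IsPolygon C)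
    (hF : IsPolygon F) (hN : LowZ E) (hs : (cross E s).Nonempty) (hst : s ≤ t) :
    LowZ (splice (splice E C s) F t) := by
  obtain ⟨h1, u, hu, hu0⟩ := hN
  obtain ⟨c, hc⟩ := hs
  have hs0 : 0 ≤ s := h1 _ (left_mem_verts hc)
  refine ⟨?_, ?_⟩
  · rintro p ⟨v, hv⟩
    rcases mem_splice.1 hv with ⟨h2, -⟩ | ⟨h2, h3⟩
    · rcases mem_splice.1 h2 with ⟨h4, -⟩ | ⟨h4, h5⟩
      · exact h1 _ ⟨v, h4⟩
      · have := adj_z (hC.adj _ _ h4)
        rw [abs_le] at this
        omega
    · have := adj_z (hF.adj _ _ h2)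
      rw [abs_le] at this
      omega
  · obtain ⟨v, hv⟩ := hu
    refine ⟨u, ⟨v, ?_⟩, hu0⟩
    rw [mem_splice, mem_splice]
    exact Or.inl ⟨Or.inl ⟨hv, Or.inl (by omega)⟩, Or.inl (by omega)⟩

/-! ### Translations of walks -/

private theorem pathE_shift (r : P3) : ∀ (w : List P3) (p : P3),
    pathE (p + r) w = shift r (pathE p w) := by
  intro w
  induction w with
  | nil => intro p; simp [pathE, shift, mapE]
  | cons e w ih =>
    intro p
    refine edge_ext fun u v => ?_
    have e1 : p + r + e = p + e + r := by abel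
    simp only [pathE]
    rw [mem_shift, Finset.mem_insert, Finset.mem_insert, e1, ih, mem_shift]
    refine or_congr ?_ Iff.rfl
    rw [Sym2.eq_iff, Sym2.eq_iff]
    simp only [sub_eq_iff_eq_add]

private theorem shift_union (r : P3) (A B : ES) : shift r (A ∪ B) = shift r A ∪ shift r B := by
  refine edge_ext fun u v => ?_
  rw [mem_shift, Finset.mem_union, Finset.mem_union, mem_shift, mem_shift]

/-! ### The order of two columns -/

private def lx (a b : ℤ × ℤ) : Prop := a.1 < b.1 ∨ (a.1 = b.1 ∧ a.2 < b.2)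

private theorem lx_pair {a b c e : ℤ × ℤ} (hab : a ≠ b) (h : ({a, b} : Set (ℤ × ℤ)) = {c, e})
    (hl : lx a b ↔ lx c e) : a = c ∧ b = e := by
  have ha : a ∈ ({c, e} : Set (ℤ × ℤ)) := h ▸ (by simp)
  have hb : b ∈ ({c, e} : Set (ℤ × ℤ)) := h ▸ (by simp)
  simp only [mem_insert_iff, mem_singleton_iff] at ha hb
  rcases ha with ha | ha <;> rcases hb with hb | hb
  · exact absurd (ha.trans hb.symm) hab
  · exact ⟨ha, hb⟩
  · exfalso
    subst ha hb
    obtain ⟨a1, a2⟩ := a
    obtain ⟨b1, b2⟩ := b
    simp only [ne_eq, Prod.mk.injEq, not_and] at hab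
    simp only [lx] at hl
    by_cases h1 : a1 = b1
    · have := hab h1
      omega
    · omega
  · exact absurd (ha.trans hb.symm) hab

private theorem lx_add {a b : ℤ × ℤ} (c : ℤ × ℤ) : lx (a + c) (b + c) ↔ lx a b := by
  simp only [lx, Prod.fst_add, Prod.snd_add]
  omega

/-! ### One replacement -/

/-- The polygon in which the piece between `s` and `t` is replaced by the connector `C`. -/
private noncomputable def rep (H : ℕ) (w1 : List P3) (E C : ES) (s t : ℤ) (a : ℤ × ℤ) : ES :=
  splice (splice E (shift (a.1, a.2, s) C) s)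
    (shift (-(w1.sum).1, -(w1.sum).2.1, s + H - t) E) (s + H)

private structure RepFacts (N H d n : ℕ) (w1 w2 : List P3) (E C : ES) (s t : ℤ) (a b : ℤ × ℤ)
    (G : ES) : Prop where
  poly : IsPolygon G
  few : Few N G
  card : G.card + w1.length + w2.length = n + 2 * (H + 1) + d
  low : LowZ G
  span : (span G : ℤ) + (t - s) = span E + H
  cr : cross G s = {a, b}
  bot : botE G s = botE E s
  mid : midE G s (s + H) = shift (a.1, a.2, s) (midE C 0 H)
  top : topE G (s + H) = shift (-(w1.sum).1, -(w1.sum).2.1, s + H - t) (topE E t)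

private theorem rep_facts {N H d n : ℕ} {w1 w2 : List P3} {E C : ES} {s t : ℤ} {a b : ℤ × ℤ}
    (hH : 1 ≤ H) (hE : E ∈ NSet (Few (N + 1)) n) (hP : Piece E s t) (hM : Mid E s t a b w1 w2)
    (pC : IsPolygon C) (uC : Unknotted C) (c0 : cross C 0 = {0, b - a})
    (c1 : cross C H = {0, b - a + disp w1 w2}) (c2 : ∀ k : ℤ, 0 ≤ k → k ≤ H → IsTwo C k)
    (c3 : (midE C 0 H).card = 2 * (H + 1) + d) :
    RepFacts N H d n w1 w2 E C s t a b (rep H w1 E C s t a) := by
  obtain ⟨pE, fE, nE, kE⟩ := hE
  obtain ⟨hst, hs, ht, -, lE, lE'⟩ := hP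
  set C' : ES := shift (a.1, a.2, s) C with hC'
  set r : P3 := (-(w1.sum).1, -(w1.sum).2.1, s + H - t) with hr
  set E' : ES := shift r E with hE'
  have hHz : (1 : ℤ) ≤ H := by exact_mod_cast hH
  have pC' : IsPolygon C' := isPolygon_shift pC _
  have pE' : IsPolygon E' := isPolygon_shift pE _
  have uC' : Unknotted C' := (moveFacts.trans (a.1, a.2, s) C).symm.unknotted uC
  have crC : ∀ j : ℤ, cross C' (j + s) = (fun c : ℤ × ℤ => (c.1 + a.1, c.2 + a.2)) '' cross C j :=
    fun j => cross_shift (a.1, a.2, s) C j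
  have cs : cross C' s = {a, b} := by
    have := crC 0
    rw [zero_add, c0, image_pair] at this
    rw [this]
    congr 1
    · simp
    · rw [singleton_eq_singleton_iff]
      exact Prod.ext (by simp) (by simp)
  have ct : cross C' (s + H) = cross E' (s + H) := by
    have h1 := crC H
    rw [c1, image_pair, add_comm] at h1
    have h2 := cross_shift r E t
    have e1 : t + r.2.2 = s + H := by simp only [hr]; ring
    rw [e1, hM.top, image_pair] at h2
    rw [h1, h2]
    congr 1
    · refine Prod.ext ?_ ?_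
      · simp only [hr, Prod.fst_zero, zero_add]; ring
      · simp only [hr, Prod.snd_zero, zero_add]; ring
    · rw [singleton_eq_singleton_iff]
      refine Prod.ext ?_ ?_
      · simp only [hr, disp, Prod.fst_add, Prod.fst_sub]; ring
      · simp only [hr, disp, Prod.snd_add, Prod.snd_sub]; ring
  have two : ∀ j : ℤ, s ≤ j → j ≤ s + H → IsTwo C' j := by
    intro j h1 h2
    have h3 := (isTwo_shift (a.1, a.2, s) C (j - s)).2 (c2 (j - s) (by omega) (by omega))
    simpa using h3
  have cEs : cross C' s = cross E s := by rw [cs, hM.bot]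
  have p1 : IsPolygon (splice E C' s) := isPolygon_splice pE pC' hs cEs
  have cc : cross (splice E C' s) (s + H) = cross C' (s + H) :=
    cross_splice_high cEs (by omega)
  have tw1 : IsTwo (splice E C' s) (s + H) := by
    unfold IsTwo
    rw [cc]
    exact two _ (by omega) le_rfl
  have hG : rep H w1 E C s t a = splice (splice E C' s) E' (s + H) := rfl
  have pG : IsPolygon (rep H w1 E C s t a) := by
    rw [hG]
    exact isPolygon_splice p1 pE' tw1 (by rw [cc, ct])
  have parts := parts_splice (E := E) (F := C') (G := E') (s := s) (t := s + H) pE.adj pC'.adj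
    pE'.adj (by omega) cEs ct
  rw [← hG] at parts
  have e1 : t + r.2.2 = s + H := by simp only [hr]; ring
  have hmid : midE (rep H w1 E C s t a) s (s + H) = shift (a.1, a.2, s) (midE C 0 H) := by
    rw [parts.2.1]
    have := midE_shift (a.1, a.2, s) C 0 H
    rw [zero_add, add_comm] at this
    exact this
  have htop : topE (rep H w1 E C s t a) (s + H) = shift r (topE E t) := by
    rw [parts.2.2]
    have := topE_shift r E t
    rw [e1] at this
    exact this
  have hcr : cross (rep H w1 E C s t a) s = {a, b} := by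
    rw [hG, cross_splice_low pE'.adj (by rw [cc, ct]) (by omega),
      cross_splice_low pC'.adj cEs le_rfl, hM.bot]
  have lowE : LowZ E := ⟨fun u hu => (nE.1 u hu).2.2, nE.2.2.2⟩
  have neE : (cross E s).Nonempty := by rw [hM.bot]; exact insert_nonempty _ _
  have neT : (cross E t).Nonempty := by rw [hM.top]; exact insert_nonempty _ _
  have lowG : LowZ (rep H w1 E C s t a) := lowZ_splice pC' pE' lowE neE (by omega)
  refine ⟨pG, ?_, ?_, lowG, ?_, hcr, parts.1, hmid, htop⟩
  · -- few
    rw [hG]
    have hst' : SameType E E' := moveFacts.trans r E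
    refine few_splice pE' ?_ (hinv_few (N + 1) _ _ hst' fE) ?_ p1 (by rw [cc, ct]) ?_
    · have := (isTwo_shift r E t).2 ht
      rwa [e1] at this
    · intro h
      have := (lowU_shift r E t).1 (by rw [e1]; exact h)
      exact lE' this
    · exact lowU_trans pE pC' hs (two _ (by omega) le_rfl) (by omega) cEs lE uC'
  · -- card
    have h1 := card_parts (s := s) (t := s + H) pG.adj (by omega)
    have h2 := card_parts (s := s) (t := t) pE.adj hst
    rw [parts.1, hmid, htop, card_shift, card_shift, c3] at h1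
    have h3 := hM.card
    omega
  · -- span
    have h1 := (cross_iff pE lowE t).1 neT
    have h2 : ∀ k : ℤ, s + H ≤ k → ((cross (rep H w1 E C s t a) k).Nonempty ↔
        (cross E (k - H + (t - s))).Nonempty) := by
      intro k hk
      rw [hG, cross_splice_high (by rw [cc, ct]) hk]
      have h3 := cross_shift r E (k - H + (t - s))
      have e2 : k - H + (t - s) + r.2.2 = k := by simp only [hr]; ring
      rw [e2] at h3
      rw [h3]
      exact image_nonempty
    have hs0 := (cross_iff pE lowE s).1 neE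
    have h4 : ∀ k : ℤ, s + H ≤ k → (k < span (rep H w1 E C s t a) ↔
        k - H + (t - s) < span E) := by
      intro k hk
      have h5 := cross_iff pG lowG k
      have h6 := cross_iff pE lowE (k - H + (t - s))
      have h7 := h2 k hk
      rw [h5, h6] at h7
      constructor
      · intro h8; exact (h7.1 ⟨by omega, h8⟩).2
      · intro h8; exact (h7.2 ⟨by omega, h8⟩).2
    have h5 := (h4 (s + H) le_rfl).2 (by omega)
    have h6 := h4 ((span (rep H w1 E C s t a) : ℤ)) (by omega)
    have h7 := h4 ((span (rep H w1 E C s t a) : ℤ) - 1) (by omega)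
    omega

private theorem shift_inj {r : P3} {A B : ES} (h : shift r A = shift r B) : A = B :=
  shift_injective r h

/-- The replaced polygon and the marks determine the polygon. -/
private theorem rep_inj {N H d n : ℕ} {w1 w2 : List P3} {E E' C C' : ES} {s t s' t' : ℤ}
    {a b a' b' : ℤ × ℤ} (hH : 1 ≤ H) (hE : IsPolygon E) (hE' : IsPolygon E')
    (hM : Mid E s t a b w1 w2) (hM' : Mid E' s' t' a' b' w1 w2)
    (hG : RepFacts N H d n w1 w2 E C s t a b (rep H w1 E C s t a))
    (hG' : RepFacts N H d n w1 w2 E' C' s' t' a' b' (rep H w1 E' C' s' t' a')) {r : P3}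
    (heq : rep H w1 E' C' s' t' a' = shift r (rep H w1 E C s t a)) (hs : s = s')
    (hl : lx a b ↔ lx a' b') :
    b' - a' = b - a ∧ midE C' 0 H = midE C 0 H ∧ E' = shift r E := by
  subst hs
  have hr0 : r.2.2 = 0 := lowZ_shift hG.low (heq ▸ hG'.low)
  have hHz : (1 : ℤ) ≤ H := by exact_mod_cast hH
  set G := rep H w1 E C s t a with hGdef
  set G' := rep H w1 E' C' s t' a' with hGdef'
  have htt : t' = t := by
    have h1 := hM.lev1
    have h2 := hM'.lev1
    omega
  subst htt
  have hcr : ({a', b'} : Set (ℤ × ℤ)) = {a + (r.1, r.2.1), b + (r.1, r.2.1)} := by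
    have h1 := cross_shift r G s
    rw [hr0, add_zero, ← heq, hG'.cr, hG.cr, image_pair] at h1
    exact h1
  have hab := lx_pair hM'.ne hcr (by rw [lx_add]; exact hl.symm)
  obtain ⟨ha, hb⟩ := hab
  have hv : b' - a' = b - a := by rw [ha, hb]; abel
  have ep : ((a'.1, a'.2, s) : P3) = (a.1, a.2, s) + r := by
    rw [ha]
    refine Prod.ext rfl (Prod.ext rfl ?_)
    simp [hr0]
  have eq' : ((b'.1, b'.2, s) : P3) = (b.1, b.2, s) + r := by
    rw [hb]
    refine Prod.ext rfl (Prod.ext rfl ?_)
    simp [hr0]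
  refine ⟨hv, ?_, ?_⟩
  · have h1 := midE_shift r G s (s + H)
    rw [hr0, add_zero, add_zero, ← heq, hG'.mid, hG.mid, shift_shift, ep, add_comm r] at h1
    exact shift_inj h1
  · have b1 : botE E' s = shift r (botE E s) := by
      have h1 := botE_shift r G s
      rwa [hr0, add_zero, ← heq, hG'.bot, hG.bot] at h1
    have t1 : topE E' t' = shift r (topE E t') := by
      have h1 := topE_shift r G (s + H)
      rw [hr0, add_zero, ← heq, hG'.top, hG.top, shift_shift, add_comm r, ← shift_shift] at h1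
      exact shift_inj h1
    have m1 : midE E' s t' = shift r (midE E s t') := by
      rw [hM'.edges, hM.edges, shift_union, ep, eq', pathE_shift, pathE_shift]
    have hE'' : IsPolygon (shift r E) := isPolygon_shift hE _
    refine eq_of_parts hE'.adj hE''.adj hM.lt ?_ ?_ ?_
    · have h2 := botE_shift r E s
      rw [hr0, add_zero] at h2
      rw [b1, h2]
    · have h2 := midE_shift r E s t'
      rw [hr0, add_zero, add_zero] at h2
      rw [m1, h2]
    · have h2 := topE_shift r E t'
      rw [hr0, add_zero] at h2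
      rw [t1, h2]

/-- **Replacement of the first knotted piece.** -/
theorem replace_le {N n : ℕ} {y : ℝ} (hy : 0 ≤ y) {q : ℕ}
    (hq : 1 ≤ q) (w1 w2 : List P3) {d m : ℕ} (hd : d = nrm1 (disp w1 w2) + 2)
    (hm : m + w1.length + w2.length = n + 2 * (q * d + 1) + d) :
    (∑ᶠ E ∈ WSet N n w1 w2, y ^ span E) * ((q : ℝ) ^ d * y ^ (q * d)) ≤
      y ^ ((w1.sum).2.2.toNat - 1) * (m * Zt y (Few N) m) := by
  classical
  have hH : 1 ≤ q * d := by
    have : 1 ≤ d := by omega
    exact Nat.one_le_iff_ne_zero.2 (by positivity)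
  -- the connectors
  have hC : ∀ v : ℤ × ℤ, ∃ C : (Fin d → Fin q) → ES, v ≠ 0 → v + disp w1 w2 ≠ 0 →
      (∀ f, IsPolygon (C f) ∧ Unknotted (C f) ∧
      cross (C f) 0 = {0, v} ∧ cross (C f) (q * d) = {0, v + disp w1 w2} ∧
      (∀ k : ℤ, 0 ≤ k → k ≤ q * d → IsTwo (C f) k) ∧
      (midE (C f) 0 (q * d)).card = 2 * (q * d + 1) + d) ∧
      ∀ f g, midE (C f) 0 (q * d) = midE (C g) 0 (q * d) → f = g := by
    intro v
    by_cases hv : v ≠ 0 ∧ v + disp w1 w2 ≠ 0
    · obtain ⟨C, hC⟩ := exists_conn hq hv.1 hv.2 (d := d) (by rw [add_sub_cancel_left]; exact hd)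
      exact ⟨C, fun _ _ => hC⟩
    · exact ⟨fun _ => ∅, fun h1 h2 => absurd ⟨h1, h2⟩ hv⟩
  choose C hC using hC
  have hdat : ∀ E : ES, ∃ (s t : ℤ) (a b : ℤ × ℤ), E ∈ WSet N n w1 w2 →
      Piece E s t ∧ Mid E s t a b w1 w2 := by
    intro E
    by_cases hE : E ∈ WSet N n w1 w2
    · obtain ⟨-, s, t, a, b, h1, h2⟩ := hE
      exact ⟨s, t, a, b, fun _ => ⟨h1, h2⟩⟩
    · exact ⟨0, 0, 0, 0, fun h => absurd h hE⟩
  choose s t a b hd' using hdat
  set X := WSet N n w1 w2 with hX
  set g : ES → (Fin d → Fin q) → ES :=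
    fun E f => rep (q * d) w1 E (C (b E - a E) f) (s E) (t E) (a E) with hg
  have hcast : ((q * d : ℕ) : ℤ) = q * d := by push_cast; rfl
  have facts : ∀ E ∈ X, ∀ f, RepFacts N (q * d) d n w1 w2 E (C (b E - a E) f) (s E) (t E)
      (a E) (b E) (g E f) := by
    intro E hE f
    obtain ⟨hP, hM⟩ := hd' E hE
    obtain ⟨n1, n2⟩ := hM.diff
    obtain ⟨c1, c2, c3, c4, c5, c6⟩ := (hC _ n1 n2).1 f
    refine rep_facts hH hE.1 hP hM c1 c2 c3 ?_ ?_ ?_
    · rw [hcast]; exact c4
    · intro k h1 h2
      rw [hcast] at h2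
      exact c5 k h1 h2
    · rw [hcast]; exact c6
  set mk : ES → (Fin d → Fin q) → ℕ × Bool := fun E _ => ((s E).toNat, decide (lx (a E) (b E)))
    with hmk
  set S : ES → Finset (ℕ × Bool) := fun F => Finset.range (span F) ×ˢ Finset.univ with hS
  have hs0 : ∀ E ∈ X, 0 ≤ s E := by
    intro E hE
    obtain ⟨hP, hM⟩ := hd' E hE
    have h1 : ((a E).1, (a E).2) ∈ cross E (s E) := by rw [hM.bot]; simp
    exact (hE.1.2.2.1.1 _ (left_mem_verts h1)).2.2
  have hcmp := compare (n := n) (y := y) (C' := Few N) (hinv_few N) hy (X := X)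
    (fun E hE => ⟨hE.1.1, hE.1.2.2.1, hE.1.2.2.2⟩) g mk (m := m)
    (fun E hE f => ⟨(facts E hE f).poly, (facts E hE f).few, by
      have := (facts E hE f).card
      omega⟩)
    (by
      intro E hE i E' hE' i' r heq hmm
      simp only [hmk, Prod.mk.injEq, decide_eq_decide] at hmm
      obtain ⟨hs1, hl⟩ := hmm
      have h1 := hs0 E hE
      have h2 := hs0 E' hE'
      have hs : s E = s E' := by omega
      obtain ⟨k1, k2, k3⟩ := rep_inj hH hE.1.1 hE'.1.1 (hd' E hE).2 (hd' E' hE').2
        (facts E hE i) (facts E' hE' i') heq hs hl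
      refine ⟨⟨r, k3⟩, ?_⟩
      obtain ⟨n1, n2⟩ := (hd' E hE).2.diff
      rw [k1, hcast] at k2
      exact ((hC _ n1 n2).2 _ _ k2).symm)
    S
    (by
      intro E hE i r
      have h1 := facts E hE i
      have h2 : (cross (g E i) (s E)).Nonempty := by rw [h1.cr]; exact insert_nonempty _ _
      have h3 := (cross_iff h1.poly h1.low _).1 h2
      simp only [hmk, hS, Finset.mem_product, Finset.mem_range, Finset.mem_univ, and_true]
      rw [span_shift]
      omega) (M := m)
    (by
      intro F hF hc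
      simp only [hS, Finset.card_product, Finset.card_range, Finset.card_univ, Fintype.card_bool]
      have h1 := two_span_le hF
      have h2 := card_eq hF
      omega)
  have hfin : X.Finite := (nset_finite (Few (N + 1)) n).subset fun E hE => hE.1
  rw [finsum_mem_eq_finite_toFinset_sum _ hfin] at hcmp ⊢
  rw [Finset.sum_mul]
  have key : ∀ E ∈ hfin.toFinset, y ^ span E * ((q : ℝ) ^ d * y ^ (q * d)) =
      y ^ ((w1.sum).2.2.toNat - 1) * ∑ i : Fin d → Fin q, y ^ span (g E i) := by
    intro E hE
    rw [Set.Finite.mem_toFinset] at hE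
    have hM := (hd' E hE).2
    have h0 : ∀ i, y ^ ((w1.sum).2.2.toNat - 1) * y ^ span (g E i) = y ^ span E * y ^ (q * d) := by
      intro i
      have h1 := (facts E hE i).span
      have h2 := hM.lev1
      have h3 := hM.lt
      rw [← pow_add, ← pow_add]
      congr 1
      omega
    rw [Finset.mul_sum, Finset.sum_congr rfl fun i _ => h0 i, Finset.sum_const, Finset.card_univ,
      Fintype.card_fun, Fintype.card_fin, Fintype.card_fin, nsmul_eq_mul]
    push_cast
    ring
  rw [Finset.sum_congr rfl key, ← Finset.mul_sum]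
  exact mul_le_mul_of_nonneg_left hcmp (by positivity)

end Pool.Agent.KTen
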