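import Pool.Agent.KTen.Defs

/-! Splicing of polygons at a section with two edges. -/

set_option autoImplicit false

open Set

namespace Pool.Agent.KTen

open Pool.Agent.LK Pool.Agent.KTube

variable {E F G H : ES} {k l s t : ℤ}

/-- An edge that crosses the plane is in both sets. -/
private theorem cross_transfer (aF : ∀ u v, s(u, v) ∈ F → Adj u v) (hc : cross F k = cross E k)
    {u v : P3} (h : s(u, v) ∈ F) (h1 : u.2.2 ≤ k ∨ v.2.2 ≤ k)
    (h2 : k + 1 ≤ u.2.2 ∨ k + 1 ≤ v.2.2) : s(u, v) ∈ E := by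
  rcases adj_cases k (aF u v h) with ⟨h3, h4⟩ | ⟨h3, h4⟩ | ⟨a, b, h3⟩
  · omega
  · omega
  · rw [h3] at h ⊢
    have h4 : ((a, b) : ℤ × ℤ) ∈ cross F k := h
    rw [hc] at h4
    exact h4

private theorem adj_z {u v : P3} (h : Adj u v) : u.2.2 ≤ v.2.2 + 1 ∧ v.2.2 ≤ u.2.2 + 1 := by
  unfold Adj at h
  have e1 := abs_nonneg (u.1 - v.1)
  have e2 := abs_nonneg (u.2.1 - v.2.1)
  have e3 := le_abs_self (u.2.2 - v.2.2)
  have e4 := neg_abs_le (u.2.2 - v.2.2)
  constructor <;> omega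

private theorem ext_edges {E F : ES} (h : ∀ u v : P3, s(u, v) ∈ E ↔ s(u, v) ∈ F) : E = F := by
  ext e
  induction e using Sym2.ind with
  | _ x y => exact h x y

theorem mem_lowE {u v : P3} : s(u, v) ∈ lowE E k ↔ s(u, v) ∈ E ∧ (u.2.2 ≤ k ∨ v.2.2 ≤ k) := by
  classical
  unfold lowE
  rw [Finset.mem_filter]
  simp [Sym2.mem_iff]

theorem mem_uppE {u v : P3} :
    s(u, v) ∈ uppE E k ↔ s(u, v) ∈ E ∧ (k + 1 ≤ u.2.2 ∨ k + 1 ≤ v.2.2) := by
  classical
  unfold uppE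
  rw [Finset.mem_filter]
  simp only [Sym2.mem_iff, exists_eq_or_imp, exists_eq_left]

theorem mem_splice {u v : P3} : s(u, v) ∈ splice E F k ↔
    (s(u, v) ∈ E ∧ (u.2.2 ≤ k ∨ v.2.2 ≤ k)) ∨ (s(u, v) ∈ F ∧ (k + 1 ≤ u.2.2 ∨ k + 1 ≤ v.2.2)) := by
  unfold splice
  rw [Finset.mem_union, mem_lowE, mem_uppE]

theorem mem_midE {u v : P3} : s(u, v) ∈ midE E s t ↔
    s(u, v) ∈ E ∧ ((s + 1 ≤ u.2.2 ∧ u.2.2 ≤ t) ∨ (s + 1 ≤ v.2.2 ∧ v.2.2 ≤ t)) := by
  classical
  unfold midE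
  rw [Finset.mem_filter]
  simp only [Sym2.mem_iff, exists_eq_or_imp, exists_eq_left]

theorem mem_botE {u v : P3} : s(u, v) ∈ botE E s ↔ s(u, v) ∈ E ∧ u.2.2 ≤ s ∧ v.2.2 ≤ s := by
  classical
  unfold botE
  rw [Finset.mem_filter]
  simp only [Sym2.mem_iff, forall_eq_or_imp, forall_eq]

theorem mem_topE {u v : P3} :
    s(u, v) ∈ topE E t ↔ s(u, v) ∈ E ∧ t + 1 ≤ u.2.2 ∧ t + 1 ≤ v.2.2 := by
  classical
  unfold topE
  rw [Finset.mem_filter]
  simp only [Sym2.mem_iff, forall_eq_or_imp, forall_eq]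

theorem splice_self (E : ES) (k : ℤ) : splice E E k = E := by
  refine ext_edges fun u v => ?_
  rw [mem_splice]
  constructor
  · rintro (⟨h, -⟩ | ⟨h, -⟩) <;> exact h
  · intro h
    rcases le_or_gt u.2.2 k with h1 | h1
    · exact Or.inl ⟨h, Or.inl h1⟩
    · exact Or.inr ⟨h, Or.inl h1⟩

/-- Splicing spliced sets at the same plane. -/
theorem splice_splice (h1 : cross E k = cross F k) (h2 : cross G k = cross H k)
    (h3 : cross E k = cross H k) (aE : ∀ u v, s(u, v) ∈ E → Adj u v)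
    (aF : ∀ u v, s(u, v) ∈ F → Adj u v) (aG : ∀ u v, s(u, v) ∈ G → Adj u v)
    (aH : ∀ u v, s(u, v) ∈ H → Adj u v) :
    splice (splice E F k) (splice G H k) k = splice E H k := by
  refine ext_edges fun u v => ?_
  rw [mem_splice, mem_splice, mem_splice, mem_splice]
  constructor
  · rintro (⟨⟨h4, h5⟩ | ⟨h4, h5⟩, h6⟩ | ⟨⟨h4, h5⟩ | ⟨h4, h5⟩, h6⟩)
    · exact Or.inl ⟨h4, h5⟩
    · exact Or.inl ⟨cross_transfer aF h1.symm h4 h6 h5, h6⟩
    · exact Or.inr ⟨cross_transfer aG h2 h4 h5 h6, h6⟩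
    · exact Or.inr ⟨h4, h5⟩
  · rintro (⟨h4, h5⟩ | ⟨h4, h5⟩)
    · exact Or.inl ⟨Or.inl ⟨h4, h5⟩, h5⟩
    · exact Or.inr ⟨Or.inr ⟨h4, h5⟩, h5⟩

theorem splice_assoc (h : k ≤ l) : splice E (splice F G l) k = splice (splice E F k) G l := by
  refine ext_edges fun u v => ?_
  rw [mem_splice, mem_splice, mem_splice, mem_splice]
  constructor
  · rintro (⟨h4, h5⟩ | ⟨⟨h4, h5⟩ | ⟨h4, h5⟩, h6⟩)
    · exact Or.inl ⟨Or.inl ⟨h4, h5⟩, by omega⟩
    · exact Or.inl ⟨Or.inr ⟨h4, h6⟩, h5⟩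
    · exact Or.inr ⟨h4, h5⟩
  · rintro (⟨⟨h4, h5⟩ | ⟨h4, h5⟩, h6⟩ | ⟨h4, h5⟩)
    · exact Or.inl ⟨h4, h5⟩
    · exact Or.inr ⟨Or.inl ⟨h4, h6⟩, h5⟩
    · exact Or.inr ⟨Or.inr ⟨h4, h5⟩, by omega⟩

theorem cross_splice_low (aF : ∀ u v, s(u, v) ∈ F → Adj u v) (hc : cross F k = cross E k)
    {j : ℤ} (hj : j ≤ k) : cross (splice E F k) j = cross E j := by
  ext c
  rw [mem_cross, mem_cross, mem_splice]
  constructor
  · rintro (⟨h1, -⟩ | ⟨h1, h2⟩)
    · exact h1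
    · exact cross_transfer aF hc h1 (Or.inl (by simpa using hj)) h2 |> fun h => h
  · intro h
    exact Or.inl ⟨h, Or.inl (by simpa using hj)⟩

theorem cross_splice_high (hc : cross F k = cross E k) {j : ℤ} (hj : k ≤ j) :
    cross (splice E F k) j = cross F j := by
  ext c
  rw [mem_cross, mem_cross, mem_splice]
  constructor
  · rintro (⟨h1, h2⟩ | ⟨h1, -⟩)
    · simp only at h2
      have h3 : j = k := by omega
      subst h3
      have h4 : c ∈ cross E j := h1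
      rw [← hc] at h4
      exact h4
    · exact h1
  · intro h
    exact Or.inr ⟨h, Or.inr (by simp only; omega)⟩

private theorem mem_parts (aE : ∀ u v, s(u, v) ∈ E → Adj u v) (hst : s < t) {u v : P3} :
    s(u, v) ∈ E ↔ (s(u, v) ∈ botE E s ∨ s(u, v) ∈ midE E s t) ∨ s(u, v) ∈ topE E t := by
  rw [mem_botE, mem_midE, mem_topE]
  constructor
  · intro h
    have h1 := adj_z (aE u v h)
    by_cases h2 : (s + 1 ≤ u.2.2 ∧ u.2.2 ≤ t) ∨ (s + 1 ≤ v.2.2 ∧ v.2.2 ≤ t)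
    · exact Or.inl (Or.inr ⟨h, h2⟩)
    · rcases le_or_gt u.2.2 s with h3 | h3
      · exact Or.inl (Or.inl ⟨h, h3, by omega⟩)
      · exact Or.inr ⟨h, by omega, by omega⟩
  · rintro ((⟨h, -⟩ | ⟨h, -⟩) | ⟨h, -⟩) <;> exact h

theorem union_parts (aE : ∀ u v, s(u, v) ∈ E → Adj u v) (hst : s < t) :
    botE E s ∪ midE E s t ∪ topE E t = E := by
  refine ext_edges fun u v => ?_
  rw [Finset.mem_union, Finset.mem_union]
  exact (mem_parts aE hst).symm

/-- A polygon is the disjoint union of its three parts. -/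
theorem card_parts (aE : ∀ u v, s(u, v) ∈ E → Adj u v) (hst : s < t) :
    (botE E s).card + (midE E s t).card + (topE E t).card = E.card := by
  have h1 : Disjoint (botE E s) (midE E s t) := by
    rw [Finset.disjoint_left]
    intro e
    induction e using Sym2.ind with
    | _ u v =>
      intro h2 h3
      rw [mem_botE] at h2
      rw [mem_midE] at h3
      omega
  have h2 : Disjoint (botE E s ∪ midE E s t) (topE E t) := by
    rw [Finset.disjoint_left]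
    intro e
    induction e using Sym2.ind with
    | _ u v =>
      intro h2 h3
      rw [Finset.mem_union, mem_botE, mem_midE] at h2
      rw [mem_topE] at h3
      omega
  rw [← Finset.card_union_of_disjoint h1, ← Finset.card_union_of_disjoint h2, union_parts aE hst]

/-- Two sets with the same three parts are equal. -/
theorem eq_of_parts (aE : ∀ u v, s(u, v) ∈ E → Adj u v) (aF : ∀ u v, s(u, v) ∈ F → Adj u v)
    (hst : s < t) (h1 : botE E s = botE F s) (h2 : midE E s t = midE F s t)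
    (h3 : topE E t = topE F t) : E = F := by
  rw [← union_parts aE hst, ← union_parts aF hst, h1, h2, h3]

/-- The parts of a double splice `E` below `s`, `F` between, `G` above `t`. -/
theorem parts_splice (aE : ∀ u v, s(u, v) ∈ E → Adj u v) (aF : ∀ u v, s(u, v) ∈ F → Adj u v)
    (aG : ∀ u v, s(u, v) ∈ G → Adj u v) (hst : s < t) (h1 : cross F s = cross E s)
    (h2 : cross F t = cross G t) :
    botE (splice (splice E F s) G t) s = botE E s ∧
      midE (splice (splice E F s) G t) s t = midE F s t ∧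
      topE (splice (splice E F s) G t) t = topE G t := by
  refine ⟨ext_edges fun u v => ?_, ext_edges fun u v => ?_, ext_edges fun u v => ?_⟩
  · rw [mem_botE, mem_botE, mem_splice, mem_splice]
    constructor
    · rintro ⟨⟨⟨h4, h5⟩ | ⟨h4, h5⟩, h6⟩ | ⟨h4, h5⟩, h7, h8⟩
      · exact ⟨h4, h7, h8⟩
      · omega
      · omega
    · rintro ⟨h4, h5, h6⟩
      exact ⟨Or.inl ⟨Or.inl ⟨h4, Or.inl h5⟩, by omega⟩, h5, h6⟩
  · rw [mem_midE, mem_midE, mem_splice, mem_splice]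
    constructor
    · rintro ⟨⟨⟨h4, h5⟩ | ⟨h4, h5⟩, h6⟩ | ⟨h4, h5⟩, h7⟩
      · exact ⟨cross_transfer aE h1.symm h4 h5 (by omega), h7⟩
      · exact ⟨h4, h7⟩
      · exact ⟨cross_transfer aG h2.symm h4 (by omega) h5, h7⟩
    · rintro ⟨h4, h5⟩
      exact ⟨Or.inl ⟨Or.inr ⟨h4, by omega⟩, by omega⟩, h5⟩
  · rw [mem_topE, mem_topE, mem_splice, mem_splice]
    constructor
    · rintro ⟨⟨⟨h4, h5⟩ | ⟨h4, h5⟩, h6⟩ | ⟨h4, h5⟩, h7, h8⟩
      · omega
      · omega
      · exact ⟨h4, h7, h8⟩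
    · rintro ⟨h4, h5, h6⟩
      exact ⟨Or.inr ⟨h4, Or.inl h5⟩, h5, h6⟩

end Pool.Agent.KTen
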