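import Pool.Agent.KTen.SpliceStep

/-! Stretching and detours commute with splicing. -/

set_option autoImplicit false

open Set

namespace Pool.Agent.KTen

open Pool.Agent.LK Pool.Agent.KTube

variable {E F : ES} {k : ℤ} {L M : ℕ} {a a' : ℤ × ℤ}

/-- The walk to the reference section and back commutes with splicing. -/
private theorem run_splice (hS : StretchStatement) : ∀ (d : ℕ) (E F : ES) (k : ℤ),
    IsPolygon E → IsPolygon F → InTube L M E → InTube L M F → (cross E k).ncard = 2 →
    Reach L M d (cross E k) → cross F k = cross E k →
    run L M d (splice E F k) k = splice (run L M d E k) (run L M d F k) (k + d) := by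
  intro d
  induction d with
  | zero =>
    intro E F k _ _ _ _ _ _ _
    simp [run]
  | succ d ih =>
    intro E F k hE hF tE tF h2 hr hc
    obtain ⟨-, h4, h5⟩ := nxt_spec hr
    have hcs : cross (splice E F k) k = cross E k := cross_splice_low hF.adj hc le_rfl
    have e1 : run L M (d + 1) (splice E F k) k = run L M d
        (step (splice E F k) k (nxt L M d (cross E k)).1 (nxt L M d (cross E k)).2) (k + 1) := by
      rw [run, hcs]
    have e2 : run L M (d + 1) E k = run L M d
        (step E k (nxt L M d (cross E k)).1 (nxt L M d (cross E k)).2) (k + 1) := rfl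
    have e3 : run L M (d + 1) F k = run L M d
        (step F k (nxt L M d (cross E k)).1 (nxt L M d (cross E k)).2) (k + 1) := by
      rw [run, hc]
    rw [e1, e2, e3]
    set a := (nxt L M d (cross E k)).1 with ha
    set a' := (nxt L M d (cross E k)).2 with ha'
    have hok : StepOk L M E k a a' := ⟨hE, tE, h4⟩
    have hok' : StepOk L M F k a a' := ⟨hF, tF, by rw [hc]; exact h4⟩
    have hcm := hok.cross_mid
    have hcm' := hok'.cross_mid
    rw [step_splice hok hok' hc, ih (step E k a a') (step F k a a') (k + 1) (hok.isPolygon hS)
      (hok'.isPolygon hS) hok.inTube hok'.inTube (by rw [hcm]; exact ncard_moved h4 h2)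
      (by rw [hcm]; exact h5) (by rw [hcm', hcm, hc])]
    congr 1
    push_cast
    ring

/-- **Detours commute with splicing.** -/
theorem ins_splice (hS : StretchStatement) (hL : 1 ≤ L) (hE : IsPolygon E) (hF : IsPolygon F)
    (tE : InTube L M E) (tF : InTube L M F) (h2 : IsTwo E k) (hc : cross F k = cross E k) :
    ins L M (splice E F k) k = splice (ins L M E k) (ins L M F k) (k + hgt L M) := by
  obtain ⟨hd, hr⟩ := dst_spec (M := M) hL h2 (box_cross tE)
  have hcs : cross (splice E F k) k = cross E k := cross_splice_low hF.adj hc le_rfl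
  unfold ins
  rw [hcs, hc]
  set d := dst L M (cross E k) with hdef
  obtain ⟨e, he⟩ : ∃ e : ℕ, hgt L M - d = e := ⟨_, rfl⟩
  have hde : d + e = hgt L M := by omega
  rw [he]
  have hcm : cross (stretch E k (2 * e)) (k + e) = cross E k :=
    cross_stretch_mid (by omega) (by push_cast; omega)
  have hcm' : cross (stretch F k (2 * e)) (k + e) = cross F k :=
    cross_stretch_mid (by omega) (by push_cast; omega)
  rw [stretch_splice hE.adj hF.adj hc (h := 2 * e) (i := e) (by omega),
    run_splice hS d (stretch E k (2 * e)) (stretch F k (2 * e)) (k + e)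
    (hS E k (2 * e) hE).1 (hS F k (2 * e) hF).1 (inTube_stretch tE) (inTube_stretch tF)
    (by rw [hcm]; exact h2) (by rw [hcm]; exact hr) (by rw [hcm, hcm', hc])]
  congr 1
  rw [← hde]
  push_cast
  ring

end Pool.Agent.KTen
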