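import Pool.Agent.KTen.Splice
import Pool.Agent.KTube.Detour

/-! Stretching and detours commute with splicing. -/

set_option autoImplicit false

open Set

namespace Pool.Agent.KTen

open Pool.Agent.LK Pool.Agent.KTube

variable {E F : ES} {k : ℤ} {L M : ℕ} {a a' : ℤ × ℤ}

private theorem ss_cross (hc : cross F k = cross E k) (b1 b2 : ℤ) :
    s(((b1, b2, k) : P3), (b1, b2, k + 1)) ∈ F ↔ s(((b1, b2, k) : P3), (b1, b2, k + 1)) ∈ E := by
  have h1 : (b1, b2) ∈ cross F k ↔ (b1, b2) ∈ cross E k := by rw [hc]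
  exact h1

private theorem ss_cross_splice (hc : cross F k = cross E k) (b1 b2 : ℤ) :
    s(((b1, b2, k) : P3), (b1, b2, k + 1)) ∈ splice E F k ↔
      s(((b1, b2, k) : P3), (b1, b2, k + 1)) ∈ E := by
  rw [mem_splice]
  constructor
  · rintro (⟨h1, -⟩ | ⟨h1, -⟩)
    · exact h1
    · exact (ss_cross hc b1 b2).1 h1
  · intro h1
    exact Or.inl ⟨h1, Or.inl le_rfl⟩

theorem stretch_splice (aE : ∀ u v, s(u, v) ∈ E → Adj u v) (aF : ∀ u v, s(u, v) ∈ F → Adj u v)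
    (hc : cross F k = cross E k) {h i : ℕ} (hi : i ≤ h) :
    stretch (splice E F k) k h = splice (stretch E k h) (stretch F k h) (k + i) := by
  have hi' : (i : ℤ) ≤ h := by exact_mod_cast hi
  have hi0 : (0 : ℤ) ≤ i := by positivity
  ext e
  induction e using Sym2.ind with
  | _ u v =>
    rw [mem_stretch, mem_splice (E := stretch E k h), mem_stretch (E := E), mem_stretch (E := F)]
    constructor
    · rintro (⟨h1, h2, h3⟩ | ⟨h1, h2, h3⟩ | ⟨b1, b2, j, hj, h1, h2⟩)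
      · rw [mem_splice] at h1
        rcases h1 with ⟨h1, -⟩ | ⟨-, h4⟩
        · exact Or.inl ⟨Or.inl ⟨h1, h2, h3⟩, Or.inl (by omega)⟩
        · omega
      · rw [mem_splice] at h1
        simp only [Prod.snd_sub] at h1
        rcases h1 with ⟨-, h4⟩ | ⟨h1, -⟩
        · omega
        · exact Or.inr ⟨Or.inr (Or.inl ⟨h1, h2, h3⟩), Or.inl (by omega)⟩
      · rw [ss_cross_splice hc] at h1
        have hj' : (j : ℤ) ≤ h := by exact_mod_cast hj
        have key : (u.2.2 = k + j ∨ v.2.2 = k + j) ∧ (u.2.2 = k + j + 1 ∨ v.2.2 = k + j + 1) := by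
          rw [Sym2.eq_iff] at h2
          rcases h2 with ⟨rfl, rfl⟩ | ⟨rfl, rfl⟩ <;> simp
        rcases le_or_gt (j : ℤ) i with h5 | h5
        · exact Or.inl ⟨Or.inr (Or.inr ⟨b1, b2, j, hj, h1, h2⟩), by omega⟩
        · exact Or.inr ⟨Or.inr (Or.inr ⟨b1, b2, j, hj, (ss_cross hc b1 b2).2 h1, h2⟩), by omega⟩
    · rintro (⟨⟨h1, h2, h3⟩ | ⟨h1, h2, h3⟩ | ⟨b1, b2, j, hj, h1, h2⟩, h4⟩ |
        ⟨⟨h1, h2, h3⟩ | ⟨h1, h2, h3⟩ | ⟨b1, b2, j, hj, h1, h2⟩, h4⟩)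
      · exact Or.inl ⟨mem_splice.2 (Or.inl ⟨h1, Or.inl h2⟩), h2, h3⟩
      · omega
      · exact Or.inr (Or.inr ⟨b1, b2, j, hj, (ss_cross_splice hc b1 b2).2 h1, h2⟩)
      · omega
      · refine Or.inr (Or.inl ⟨mem_splice.2 (Or.inr ⟨h1, Or.inl ?_⟩), h2, h3⟩)
        simp only [Prod.snd_sub]
        omega
      · exact Or.inr (Or.inr ⟨b1, b2, j, hj,
          (ss_cross_splice hc b1 b2).2 ((ss_cross hc b1 b2).1 h1), h2⟩)

theorem step_splice (hE : StepOk L M E k a a') (hF : StepOk L M F k a a')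
    (hc : cross F k = cross E k) :
    step (splice E F k) k a a' = splice (step E k a a') (step F k a a') (k + 1) := by
  have h0 := stretch_splice (h := 2) (i := 1) hE.poly.adj hF.poly.adj hc (by norm_num)
  ext e
  induction e using Sym2.ind with
  | _ u v =>
    rw [mem_step, h0, mem_splice, mem_splice (E := step E k a a'), mem_step, mem_step]
    have k1 : s(u, v) = s(((a.1, a.2, k + 1) : P3), (a'.1, a'.2, k + 1)) →
        u.2.2 = k + 1 ∧ v.2.2 = k + 1 := by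
      intro h
      rw [Sym2.eq_iff] at h
      rcases h with ⟨rfl, rfl⟩ | ⟨rfl, rfl⟩ <;> simp
    have k2 : s(u, v) = s(((a'.1, a'.2, k + 1) : P3), (a'.1, a'.2, k + 1 + 1)) →
        (u.2.2 = k + 1 ∧ v.2.2 = k + 1 + 1) ∨ (u.2.2 = k + 1 + 1 ∧ v.2.2 = k + 1) := by
      intro h
      rw [Sym2.eq_iff] at h
      rcases h with ⟨rfl, rfl⟩ | ⟨rfl, rfl⟩ <;> simp
    have k3 : s(u, v) = s(((a'.1, a'.2, k + 1 + 1) : P3), (a.1, a.2, k + 1 + 1)) →
        u.2.2 = k + 1 + 1 ∧ v.2.2 = k + 1 + 1 := by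
      intro h
      rw [Sym2.eq_iff] at h
      rcases h with ⟨rfl, rfl⟩ | ⟨rfl, rfl⟩ <;> simp
    have c1 : ((1 : ℕ) : ℤ) = 1 := rfl
    rw [c1]
    constructor
    · rintro (⟨⟨h1, h2⟩ | ⟨h1, h2⟩, h3⟩ | h1 | h1 | h1)
      · exact Or.inl ⟨Or.inl ⟨h1, h3⟩, h2⟩
      · exact Or.inr ⟨Or.inl ⟨h1, h3⟩, h2⟩
      · have := k1 h1
        exact Or.inl ⟨Or.inr (Or.inl h1), by omega⟩
      · have := k2 h1
        exact Or.inl ⟨Or.inr (Or.inr (Or.inl h1)), by omega⟩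
      · have := k3 h1
        exact Or.inr ⟨Or.inr (Or.inr (Or.inr h1)), by omega⟩
    · rintro (⟨⟨h1, h2⟩ | h1 | h1 | h1, h3⟩ | ⟨⟨h1, h2⟩ | h1 | h1 | h1, h3⟩)
      · exact Or.inl ⟨Or.inl ⟨h1, h3⟩, h2⟩
      · exact Or.inr (Or.inl h1)
      · exact Or.inr (Or.inr (Or.inl h1))
      · exact Or.inr (Or.inr (Or.inr h1))
      · exact Or.inl ⟨Or.inr ⟨h1, h3⟩, h2⟩
      · exact Or.inr (Or.inl h1)
      · exact Or.inr (Or.inr (Or.inl h1))
      · exact Or.inr (Or.inr (Or.inr h1))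

end Pool.Agent.KTen
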