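import Pool.Agent.KTen.Ratio
import Pool.Agent.MP_aea6d5_co.RLimit
import Pool.Agent.MP_aea6d5_co.Main

/-! Supermultiplicativity and the growth rate. -/

set_option autoImplicit false

open Set Filter Topology

namespace Pool.Agent.KTen

open Pool.Agent.LK Pool.Agent.KTube

variable {x : ℝ}

private theorem sup_planes_finite (E : ES) : {k : ℤ | (cross E k).Nonempty}.Finite := by
  refine Set.Finite.subset ((verts_finite E).image fun u => u.2.2) ?_
  rintro k ⟨c, hc⟩
  exact ⟨_, left_mem_verts (Pool.Agent.KTube.mem_cross.1 hc), rfl⟩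

private theorem sup_span_sw (E : ES) : span (mapE sw E) = span E := by
  unfold span
  congr 1
  ext k
  constructor
  · rintro ⟨c, hc⟩
    exact ⟨(c.2, c.1), mem_swE.1 hc⟩
  · rintro ⟨c, hc⟩
    refine ⟨(c.2, c.1), ?_⟩
    show s((c.2, c.1, k), (c.2, c.1, k + 1)) ∈ mapE sw E
    rw [mem_swE]
    exact hc

private theorem sup_span_shift (t : P3) (E : ES) : span (shift t E) = span E := by
  unfold span
  have h : {k : ℤ | (cross (shift t E) k).Nonempty} =
      (fun k => k + t.2.2) '' {k : ℤ | (cross E k).Nonempty} := by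
    ext k
    constructor
    · rintro ⟨c, hc⟩
      refine ⟨k - t.2.2, ⟨(c.1 - t.1, c.2 - t.2.1), ?_⟩, by simp⟩
      have h1 : s((c.1, c.2, k), (c.1, c.2, k + 1)) ∈ shift t E := hc
      rw [mem_shift] at h1
      have e1 : ((c.1, c.2, k) : P3) - t = (c.1 - t.1, c.2 - t.2.1, k - t.2.2) := rfl
      have e2 : ((c.1, c.2, k + 1) : P3) - t = (c.1 - t.1, c.2 - t.2.1, k - t.2.2 + 1) := by
        refine Prod.ext rfl (Prod.ext rfl ?_)
        simp only [Prod.snd_sub]
        ring
      rw [e1, e2] at h1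
      exact h1
    · rintro ⟨j, ⟨c, hc⟩, rfl⟩
      refine ⟨(c.1 + t.1, c.2 + t.2.1), ?_⟩
      show s((c.1 + t.1, c.2 + t.2.1, j + t.2.2), (c.1 + t.1, c.2 + t.2.1, j + t.2.2 + 1)) ∈
        shift t E
      rw [mem_shift]
      have e1 : ((c.1 + t.1, c.2 + t.2.1, j + t.2.2) : P3) - t = (c.1, c.2, j) := by
        refine Prod.ext ?_ (Prod.ext ?_ ?_) <;> simp
      have e2 : ((c.1 + t.1, c.2 + t.2.1, j + t.2.2 + 1) : P3) - t = (c.1, c.2, j + 1) := by
        refine Prod.ext ?_ (Prod.ext ?_ ?_)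
        · simp
        · simp
        · simp only [Prod.snd_sub]
          ring
      rw [e1, e2]
      exact hc
  rw [h, Set.ncard_image_of_injective _ (add_left_injective _)]

private theorem sup_span_cut {R E F : ES} {a : P3} (h : HCut R E F a) :
    span R = span E + span F + 1 := by
  unfold span
  have e : {k : ℤ | (cross R k).Nonempty} =
      insert a.2.2 ({k : ℤ | (cross E k).Nonempty} ∪ {k : ℤ | (cross F k).Nonempty}) := by
    ext k
    rw [Set.mem_insert_iff, Set.mem_union]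
    constructor
    · rintro ⟨c, hc⟩
      have h1 : s((c.1, c.2, k), (c.1, c.2, k + 1)) ∈ R := hc
      rw [h.mem] at h1
      rcases h1 with ⟨h1, -⟩ | ⟨h1, -⟩ | h1 | h1
      · exact Or.inr (Or.inl ⟨c, h1⟩)
      · exact Or.inr (Or.inr ⟨c, h1⟩)
      · left
        rw [Sym2.eq_iff] at h1
        rcases h1 with ⟨h1, h2⟩ | ⟨h1, h2⟩
        · have := congrArg (fun u : P3 => u.2.2) h1
          exact this
        · have g1 := congrArg (fun u : P3 => u.2.2) h1
          have g2 := congrArg (fun u : P3 => u.2.2) h2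
          simp only [Prod.snd_add] at g1 g2
          omega
      · left
        rw [Sym2.eq_iff] at h1
        rcases h1 with ⟨h1, h2⟩ | ⟨h1, h2⟩
        · have := congrArg (fun u : P3 => u.2.2) h1
          simp only [Prod.snd_add] at this
          omega
        · have g1 := congrArg (fun u : P3 => u.2.2) h1
          have g2 := congrArg (fun u : P3 => u.2.2) h2
          simp only [Prod.snd_add] at g1 g2
          omega
    · rintro (h1 | ⟨c, hc⟩ | ⟨c, hc⟩)
      · subst h1
        refine ⟨(a.1, a.2.1), ?_⟩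
        show s((a.1, a.2.1, a.2.2), (a.1, a.2.1, a.2.2 + 1)) ∈ R
        rw [h.mem]
        refine Or.inr (Or.inr (Or.inl ?_))
        have e3 : ((a.1, a.2.1, a.2.2 + 1) : P3) = a + (0, 0, 1) := by
          refine Prod.ext ?_ (Prod.ext ?_ ?_) <;> simp
        rw [e3]
      · refine ⟨c, ?_⟩
        show s((c.1, c.2, k), (c.1, c.2, k + 1)) ∈ R
        rw [h.mem]
        refine Or.inl ⟨hc, ?_⟩
        intro h2
        rw [Sym2.eq_iff] at h2
        rcases h2 with ⟨h1, h2⟩ | ⟨h1, h2⟩
        · have g1 := congrArg (fun u : P3 => u.2.2) h1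
          have g2 := congrArg (fun u : P3 => u.2.2) h2
          simp only [Prod.snd_add] at g1 g2
          omega
        · have g1 := congrArg (fun u : P3 => u.2.2) h1
          have g2 := congrArg (fun u : P3 => u.2.2) h2
          simp only [Prod.snd_add] at g1 g2
          omega
      · refine ⟨c, ?_⟩
        show s((c.1, c.2, k), (c.1, c.2, k + 1)) ∈ R
        rw [h.mem]
        refine Or.inr (Or.inl ⟨hc, ?_⟩)
        intro h2
        rw [Sym2.eq_iff] at h2
        rcases h2 with ⟨h1, h2⟩ | ⟨h1, h2⟩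
        · have g1 := congrArg (fun u : P3 => u.2.2) h1
          have g2 := congrArg (fun u : P3 => u.2.2) h2
          simp only [Prod.snd_add] at g1 g2
          omega
        · have g1 := congrArg (fun u : P3 => u.2.2) h1
          have g2 := congrArg (fun u : P3 => u.2.2) h2
          simp only [Prod.snd_add] at g1 g2
          omega
  have hE : ∀ k, (cross E k).Nonempty → k < a.2.2 := by
    rintro k ⟨c, hc⟩
    have := (h.le_of_mem hc).2
    simp only at this
    omega
  have hF : ∀ k, (cross F k).Nonempty → a.2.2 < k := by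
    rintro k ⟨c, hc⟩
    exact (h.lt_of_mem hc).1
  have hfin : ({k : ℤ | (cross E k).Nonempty} ∪ {k : ℤ | (cross F k).Nonempty}).Finite :=
    (sup_planes_finite E).union (sup_planes_finite F)
  have hnot : a.2.2 ∉ ({k : ℤ | (cross E k).Nonempty} ∪ {k : ℤ | (cross F k).Nonempty}) := by
    rintro (h1 | h1)
    · exact lt_irrefl _ (hE _ h1)
    · exact lt_irrefl _ (hF _ h1)
  have hdis : Disjoint {k : ℤ | (cross E k).Nonempty} {k : ℤ | (cross F k).Nonempty} := by
    rw [Set.disjoint_left]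
    intro k h1 h2
    exact lt_irrefl _ ((hE k h1).trans (hF k h2))
  rw [e, Set.ncard_insert_of_notMem hnot hfin, Set.ncard_union_eq hdis (sup_planes_finite E)
    (sup_planes_finite F)]

private theorem sup_zt (y : ℝ) (n : ℕ) : Zt y UClass n = ∑ E ∈ U UClass n, y ^ span E := by
  have hC : ClosedZ UClass := unknotClosedZ
  have h : NSet UClass n = (↑(U UClass n) : Set ES) := by
    ext E
    rw [Finset.mem_coe, mem_U hC]
    constructor
    · rintro ⟨_, h2, h3, h4⟩
      exact ⟨h2, h4, h3⟩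
    · rintro ⟨h2, h4, h3⟩
      exact ⟨h2.1, h2, h3, h4⟩
  unfold Zt
  rw [h, finsum_mem_coe_finset]

private theorem sup_half {y : ℝ} (hy : 0 ≤ y) (n : ℕ) (p : ES → Prop) [DecidablePred p]
    (hp : ∀ E, UClass E → p E ∨ p (mapE sw E)) :
    Zt y UClass n ≤ 2 * ∑ E ∈ (U UClass n).filter p, y ^ span E := by
  classical
  have hC : ClosedZ UClass := unknotClosedZ
  rw [sup_zt]
  have hsub : U UClass n ⊆ (U UClass n).filter p ∪ ((U UClass n).filter p).image (mapE sw) := by
    intro E hE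
    rw [Finset.mem_union]
    rcases hp E ((mem_U hC).1 hE).1 with h | h
    · exact Or.inl (Finset.mem_filter.2 ⟨hE, h⟩)
    · refine Or.inr (Finset.mem_image.2 ⟨mapE sw E, Finset.mem_filter.2 ⟨sw_mem_U hC hE, h⟩, ?_⟩)
      exact mapE_sw_sw E
  have hpos : ∀ E : ES, 0 ≤ y ^ span E := fun E => pow_nonneg hy _
  have hinj : Set.InjOn (mapE sw) (↑((U UClass n).filter p) : Set ES) := by
    intro E _ F _ h
    have := congrArg (mapE sw) h
    rwa [mapE_sw_sw, mapE_sw_sw] at this
  have h1 : ∑ E ∈ ((U UClass n).filter p).image (mapE sw), y ^ span E =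
      ∑ E ∈ (U UClass n).filter p, y ^ span E := by
    rw [Finset.sum_image hinj]
    exact Finset.sum_congr rfl fun E _ => by rw [sup_span_sw]
  calc ∑ E ∈ U UClass n, y ^ span E
      ≤ ∑ E ∈ (U UClass n).filter p ∪ ((U UClass n).filter p).image (mapE sw), y ^ span E :=
        Finset.sum_le_sum_of_subset_of_nonneg hsub fun E _ _ => hpos E
    _ ≤ ∑ E ∈ (U UClass n).filter p, y ^ span E +
        ∑ E ∈ ((U UClass n).filter p).image (mapE sw), y ^ span E := by
        rw [← Finset.sum_union_inter]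
        exact le_add_of_nonneg_right (Finset.sum_nonneg fun E _ => hpos E)
    _ = 2 * ∑ E ∈ (U UClass n).filter p, y ^ span E := by rw [h1]; ring

/-- **Supermultiplicativity**, by stacked joins. -/
theorem zt_super (hx : 1 ≤ x) (m n : ℕ) :
    x ^ 2 * (Zt (x ^ 2) UClass m * Zt (x ^ 2) UClass n) ≤ 4 * Zt (x ^ 2) UClass (m + n) := by
  classical
  have hC : ClosedZ UClass := unknotClosedZ
  have hy : (0 : ℝ) ≤ x ^ 2 := by positivity
  generalize x ^ 2 = y at hy
  set A := (U UClass m).filter (fun E => ∃ a, XTop E a) with hA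
  set B := (U UClass n).filter (fun E => ∃ a, XBot E a) with hB
  have h1 : Zt y UClass m ≤ 2 * ∑ E ∈ A, y ^ span E :=
    sup_half hy m _ fun E hE => xtop_or (hC.poly _ hE)
  have h2 : Zt y UClass n ≤ 2 * ∑ E ∈ B, y ^ span E :=
    sup_half hy n _ fun E hE => xbot_or hC hE
  have hJ : ∀ q : ES × ES, ∃ R s w a, q ∈ A ×ˢ B →
      UClass R ∧ Normed R ∧ HCut R (shift s q.1) (shift w q.2) a := by
    intro q
    by_cases hq : q ∈ A ×ˢ B
    swap
    · exact ⟨∅, 0, 0, 0, fun h => absurd h hq⟩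
    rw [Finset.mem_product, hA, hB, Finset.mem_filter, Finset.mem_filter, mem_U hC,
      mem_U hC] at hq
    obtain ⟨⟨⟨c1, -, -⟩, a, a1, a2⟩, ⟨c2, -, -⟩, b, b1, b2⟩ := hq
    have hcut : HCut (joinZ q.1 (shift (a + (0, 0, 1) - b) q.2) a.1 a.2.1 a.2.2) q.1
        (shift (a + (0, 0, 1) - b) q.2) a := by
      refine ⟨a1, ?_, a2, ?_, rfl⟩
      · rw [mem_shift]
        have e1 : a + (0, 0, 1) - (a + (0, 0, 1) - b) = b := by abel
        have e2 : a + (1, 0, 0) + (0, 0, 1) - (a + (0, 0, 1) - b) = b + (1, 0, 0) := by abel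
        rw [e1, e2]; exact b1
      · intro v hv
        have := b2 _ (mem_verts_shift.1 hv)
        simp only [Prod.snd_sub, Prod.snd_add] at this
        omega
    have e1 : ((a.1, a.2.1, a.2.2) : P3) = a := rfl
    have e2 : ((a.1 + 1, a.2.1, a.2.2) : P3) = a + (1, 0, 0) := by
      refine Prod.ext ?_ (Prod.ext ?_ ?_) <;> simp
    have e3 : ((a.1, a.2.1, a.2.2 + 1) : P3) = a + (0, 0, 1) := by
      refine Prod.ext ?_ (Prod.ext ?_ ?_) <;> simp
    have e4 : ((a.1 + 1, a.2.1, a.2.2 + 1) : P3) = a + (1, 0, 0) + (0, 0, 1) := by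
      refine Prod.ext ?_ (Prod.ext ?_ ?_) <;> simp
    have hCj := hC.join q.1 (shift (a + (0, 0, 1) - b) q.2) a.1 a.2.1 a.2.2 c1
      (hC.shift c2 _) hcut.below (by rw [e1, e2]; exact hcut.eE) (by rw [e3, e4]; exact hcut.eF)
    obtain ⟨t, ht⟩ := exists_normed (hC.poly _ hCj).verts_nonempty
    have hsh := hcut.shift t
    rw [shift_shift] at hsh
    exact ⟨_, t, _, _, fun _ => ⟨hC.shift hCj t, ht, hsh⟩⟩
  choose R s w a hR using hJ
  have hmaps : ∀ q ∈ A ×ˢ B, R q ∈ U UClass (m + n) := by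
    intro q hq'
    obtain ⟨g1, g2, g3⟩ := hR q hq'
    rw [Finset.mem_product, hA, hB, Finset.mem_filter, Finset.mem_filter, mem_U hC,
      mem_U hC] at hq'
    rw [mem_U hC]
    refine ⟨g1, ?_, g2⟩
    rw [g3.card, card_shift, card_shift, hq'.1.1.2.1, hq'.2.1.2.1]
  have hinj : Set.InjOn R (↑(A ×ˢ B) : Set (ES × ES)) := by
    intro q hq q' hq' he
    rw [Finset.mem_coe] at hq hq'
    obtain ⟨g1, g2, g3⟩ := hR q hq
    obtain ⟨f1, f2, f3⟩ := hR q' hq'
    rw [Finset.mem_product, hA, hB, Finset.mem_filter, Finset.mem_filter, mem_U hC,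
      mem_U hC] at hq hq'
    rw [← he] at f3
    obtain ⟨k1, k2⟩ := g3.unique f3 (by
      rw [card_shift, card_shift, hq.1.1.2.1, hq'.1.1.2.1])
    have key : ∀ {E E1 : ES} {t t1 : P3}, Normed E → Normed E1 →
        shift t E = shift t1 E1 → E = E1 := by
      intro E E1 t t1 hE hE1 ht
      have q1 : shift (t1 - t) E1 = E := by
        have := congrArg (shift (-t)) ht
        rw [shift_shift, shift_shift, neg_add_cancel, shift_zero] at this
        rw [this]; congr 1; abel
      have q2 : t1 - t = 0 := hE1.eq_zero (by rw [q1]; exact hE)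
      rw [← q1, q2, shift_zero]
    exact Prod.ext (key hq.1.1.2.2 hq'.1.1.2.2 k1) (key hq.2.1.2.2 hq'.2.1.2.2 k2)
  have h3 : ∑ q ∈ A ×ˢ B, y ^ span (R q) ≤ Zt y UClass (m + n) := by
    rw [sup_zt, ← Finset.sum_image (f := fun E : ES => y ^ span E) hinj]
    refine Finset.sum_le_sum_of_subset_of_nonneg ?_ fun E _ _ => pow_nonneg hy _
    intro E hE
    obtain ⟨q, hq, rfl⟩ := Finset.mem_image.1 hE
    exact hmaps q hq
  have h4 : ∑ q ∈ A ×ˢ B, y ^ span (R q) =
      y * ((∑ E ∈ A, y ^ span E) * ∑ E ∈ B, y ^ span E) := by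
    rw [Finset.sum_mul_sum, ← Finset.sum_product', Finset.mul_sum]
    refine Finset.sum_congr rfl fun q hq => ?_
    rw [sup_span_cut (hR q hq).2.2, sup_span_shift, sup_span_shift, pow_succ, pow_add]
    ring
  have hA0 : 0 ≤ ∑ E ∈ A, y ^ span E := Finset.sum_nonneg fun E _ => pow_nonneg hy _
  have hB0 : 0 ≤ Zt y UClass n := by
    rw [sup_zt]
    exact Finset.sum_nonneg fun E _ => pow_nonneg hy _
  calc y * (Zt y UClass m * Zt y UClass n)
      ≤ y * ((2 * ∑ E ∈ A, y ^ span E) * (2 * ∑ E ∈ B, y ^ span E)) :=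
        mul_le_mul_of_nonneg_left (mul_le_mul h1 h2 hB0 (by linarith)) hy
    _ = 4 * (y * ((∑ E ∈ A, y ^ span E) * ∑ E ∈ B, y ^ span E)) := by ring
    _ ≤ 4 * Zt y UClass (m + n) := by
        rw [← h4]
        exact mul_le_mul_of_nonneg_left h3 (by norm_num)

end Pool.Agent.KTen
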