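import Pool.Agent.KTen.UpWord

/-! Summation over the walks of the first knotted piece. -/

set_option autoImplicit false

open Set Filter Topology

namespace Pool.Agent.KTen

open Pool.Agent.LK Pool.Agent.KTube

variable {x : ℝ}

/-- sums over covered sets -/
private theorem finsum_le_of_cover {α ι : Type} {X : Set α} (hX : X.Finite) (I : Finset ι)
    (W : ι → Set α) (hW : ∀ i ∈ I, (W i).Finite) (hc : ∀ a ∈ X, ∃ i ∈ I, a ∈ W i) (f : α → ℝ)
    (hf : ∀ a, 0 ≤ f a) : ∑ᶠ a ∈ X, f a ≤ ∑ i ∈ I, ∑ᶠ a ∈ W i, f a := by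
  classical
  by_cases hI : Nonempty ι
  swap
  · have hX0 : X = ∅ := by
      rw [Set.eq_empty_iff_forall_notMem]
      intro a ha
      obtain ⟨i, -, -⟩ := hc a ha
      exact hI ⟨i⟩
    rw [hX0]
    simp only [Set.mem_empty_iff_false, finsum_false, finsum_zero]
    exact Finset.sum_nonneg fun i _ => finsum_nonneg fun a => finsum_nonneg fun _ => hf a
  choose! g hg hg' using hc
  rw [finsum_mem_eq_finite_toFinset_sum _ hX,
    ← Finset.sum_fiberwise_of_maps_to (t := I) (g := g) fun a ha => hg a (hX.mem_toFinset.1 ha)]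
  refine Finset.sum_le_sum fun i hi => ?_
  rw [finsum_mem_eq_finite_toFinset_sum _ (hW i hi)]
  refine Finset.sum_le_sum_of_subset_of_nonneg ?_ fun a _ _ => hf a
  intro a ha
  rw [Finset.mem_filter, hX.mem_toFinset] at ha
  rw [(hW i hi).mem_toFinset, ← ha.2]
  exact hg' a ha.1

/-- the unit vectors -/
private def units : Finset P3 :=
  {(1, 0, 0), (-1, 0, 0), (0, 1, 0), (0, -1, 0), (0, 0, 1), (0, 0, -1)}

private theorem mem_units {d : P3} : d ∈ units ↔ IsUnit3 d := by
  obtain ⟨a, b, c⟩ := d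
  simp only [units, Finset.mem_insert, Finset.mem_singleton, Prod.mk.injEq, IsUnit3, Adj]
  have h0 : (0 : P3) = (0, 0, 0) := rfl
  rw [h0]
  simp only [sub_zero]
  constructor
  · rintro (⟨rfl, rfl, rfl⟩ | ⟨rfl, rfl, rfl⟩ | ⟨rfl, rfl, rfl⟩ | ⟨rfl, rfl, rfl⟩ | ⟨rfl, rfl, rfl⟩ |
      ⟨rfl, rfl, rfl⟩) <;> simp
  · intro h
    rcases abs_cases a with ⟨e1, _⟩ | ⟨e1, _⟩ <;> rcases abs_cases b with ⟨e2, _⟩ | ⟨e2, _⟩ <;>
      rcases abs_cases c with ⟨e3, _⟩ | ⟨e3, _⟩ <;> rw [e1, e2, e3] at h <;> omega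

/-- the weight of a step -/
private noncomputable def phi (x : ℝ) (d : P3) : ℝ :=
  if d.2.2 = 0 then 603 / x else 1 / Real.sqrt x

private theorem phi_nonneg (hx : 0 < x) (d : P3) : 0 ≤ phi x d := by
  unfold phi
  split_ifs <;> positivity

private theorem sum_phi (x : ℝ) :
    ∑ d ∈ units, phi x d = 4 * (603 / x) + 2 * (1 / Real.sqrt x) := by
  unfold units
  rw [Finset.sum_insert (by decide), Finset.sum_insert (by decide), Finset.sum_insert (by decide),
    Finset.sum_insert (by decide), Finset.sum_insert (by decide), Finset.sum_singleton]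
  simp only [phi]
  norm_num
  ring

private theorem sum_phi_le (hx : 10 ^ 4 ≤ x) : ∑ d ∈ units, phi x d ≤ 27 / 100 := by
  have hx0 : 0 < x := by linarith
  rw [sum_phi]
  have h1 : 603 / x ≤ 603 / 10 ^ 4 := div_le_div_of_nonneg_left (by norm_num) (by norm_num) hx
  have h2 : 100 ≤ Real.sqrt x := by
    apply Real.le_sqrt_of_sq_le
    linarith
  have h3 : 1 / Real.sqrt x ≤ 1 / 100 := div_le_div_of_nonneg_left (by norm_num) (by norm_num) h2
  norm_num at h1 h3 ⊢
  linarith

private theorem prod_phi (x : ℝ) (w : List P3) :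
    (603 / x) ^ nh w * (1 / Real.sqrt x) ^ nv w = (w.map (phi x)).prod := by
  induction w with
  | nil => simp [nh, nv]
  | cons d w ih =>
    rw [List.map_cons, List.prod_cons, ← ih]
    unfold nh nv phi
    by_cases h : d.2.2 = 0
    · rw [List.countP_cons_of_pos (by simpa using h), List.countP_cons_of_neg (by simpa using h),
        if_pos h, pow_succ]
      ring
    · rw [List.countP_cons_of_neg (by simpa using h), List.countP_cons_of_pos (by simpa using h),
        if_neg h, pow_succ]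
      ring

private theorem nh_append (u w : List P3) : nh (u ++ w) = nh u + nh w := List.countP_append

private theorem nv_append (u w : List P3) : nv (u ++ w) = nv u + nv w := List.countP_append

/-- the sum over all words of the length `l` -/
private theorem sum_words (x : ℝ) (l : ℕ) :
    ∑ p ∈ Fintype.piFinset (fun _ : Fin l => units), ((List.ofFn p).map (phi x)).prod =
      (∑ d ∈ units, phi x d) ^ l := by
  have h := Finset.prod_univ_sum (fun _ : Fin l => units) (fun _ d => phi x d)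
  rw [Finset.prod_const, Finset.card_univ, Fintype.card_fin] at h
  rw [h]
  refine Finset.sum_congr rfl fun p _ => ?_
  rw [List.map_ofFn, List.prod_ofFn]
  rfl

private theorem exists_sum_bound (k : ℕ) : ∃ C : ℝ, 0 ≤ C ∧ ∀ j n : ℕ,
    ∑ l ∈ Finset.Icc j n, ((l : ℝ) + 1) ^ k * (27 / 100) ^ l ≤ C * (1 / 2) ^ j := by
  have hs : Summable fun l : ℕ => ((l : ℝ) + 1) ^ k * (54 / 100 : ℝ) ^ l := by
    have h1 := summable_pow_mul_geometric_of_norm_lt_one (R := ℝ) k (r := 54 / 100)
      (by rw [Real.norm_eq_abs, abs_of_pos (by norm_num)]; norm_num)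
    have h2 := (summable_nat_add_iff 1).2 h1
    have h3 := h2.mul_left (100 / 54 : ℝ)
    refine h3.congr fun l => ?_
    push_cast
    rw [pow_succ]
    ring
  refine ⟨∑' l : ℕ, ((l : ℝ) + 1) ^ k * (54 / 100 : ℝ) ^ l, tsum_nonneg fun l => by positivity,
    fun j n => ?_⟩
  calc ∑ l ∈ Finset.Icc j n, ((l : ℝ) + 1) ^ k * (27 / 100) ^ l
      ≤ ∑ l ∈ Finset.Icc j n, (((l : ℝ) + 1) ^ k * (54 / 100 : ℝ) ^ l) * (1 / 2) ^ j := by
        refine Finset.sum_le_sum fun l hl => ?_
        have h1 := (Finset.mem_Icc.1 hl).1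
        have h2 : (27 / 100 : ℝ) ^ l = (54 / 100 : ℝ) ^ l * (1 / 2) ^ l := by
          rw [← mul_pow]
          norm_num
        rw [h2, ← mul_assoc]
        refine mul_le_mul_of_nonneg_left ?_ (by positivity)
        exact pow_le_pow_of_le_one (by norm_num) (by norm_num) h1
    _ = (∑ l ∈ Finset.Icc j n, ((l : ℝ) + 1) ^ k * (54 / 100 : ℝ) ^ l) * (1 / 2) ^ j := by
        rw [Finset.sum_mul]
    _ ≤ _ := mul_le_mul_of_nonneg_right (hs.sum_le_tsum _ fun l _ => by positivity) (by positivity)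

/-- Sum over words: the first knotted piece has at least `j` edges. -/
theorem piece_le (hx : 10 ^ 4 ≤ x) {N : ℕ} {D : ℝ}
    (hD : ∀ m, Zt (x ^ 2) (Few N) m ≤ D * (m : ℝ) ^ N * Zt (x ^ 2) UClass m) :
    ∃ B : ℝ, 0 ≤ B ∧ ∀ n, Even n → 4 ≤ n → ∀ j : ℕ,
      Zt (x ^ 2) (fun E => Few (N + 1) E ∧ ∃ s t, Piece E s t ∧ j ≤ (midE E s t).card) n ≤
        B * (1 / 2) ^ j * ((n : ℝ) ^ (N + 1) * Zt (x ^ 2) UClass n) := by
  classical
  have hx0 : 0 < x := by linarith
  have hy : (0 : ℝ) ≤ x ^ 2 := by positivity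
  obtain ⟨B, hB, hword⟩ := word_le hx hD
  obtain ⟨C, hC, hsum⟩ := exists_sum_bound (N + 2)
  refine ⟨B * C, mul_nonneg hB hC, fun n hn h4 j => ?_⟩
  set R : ℝ := (n : ℝ) ^ (N + 1) * Zt (x ^ 2) UClass n with hR
  have hR0 : 0 ≤ R := mul_nonneg (by positivity) (zt_nonneg hy _ _)
  set I : Finset (Σ l : ℕ, ℕ × (Fin l → P3)) :=
    (Finset.Icc j n).sigma fun l => Finset.range (l + 1) ×ˢ Fintype.piFinset fun _ : Fin l => units
    with hI
  set W : (Σ l : ℕ, ℕ × (Fin l → P3)) → Set ES := fun i =>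
    WSet N n ((List.ofFn i.2.2).take i.2.1) ((List.ofFn i.2.2).drop i.2.1) with hW
  have hcover := finsum_le_of_cover
    (nset_finite (fun E => Few (N + 1) E ∧ ∃ s t, Piece E s t ∧ j ≤ (midE E s t).card) n) I W
    (fun i _ => (nset_finite (Few (N + 1)) n).subset fun E hE => hE.1)
    (by
      rintro E ⟨hE, ⟨hF, s, t, hP, hj⟩, hN, hcard⟩
      obtain ⟨a, b, w1, w2, hM⟩ := exists_mid hE hP.1 hP.2.1 hP.2.2.1
      have hlen : (w1 ++ w2).length = (midE E s t).card := by
        rw [List.length_append, hM.card]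
      have hle : (midE E s t).card ≤ n := by
        rw [← hcard]
        exact Finset.card_le_card (Finset.filter_subset _ _)
      refine ⟨⟨(w1 ++ w2).length, w1.length, fun m => (w1 ++ w2).get m⟩, ?_, ?_⟩
      · rw [hI, Finset.mem_sigma, Finset.mem_product, Finset.mem_Icc, Finset.mem_range,
          Fintype.mem_piFinset]
        refine ⟨⟨hj.trans hlen.ge, hlen.le.trans hle⟩, ?_, fun m => ?_⟩
        · simp only [List.length_append]
          omega
        · exact mem_units.2 (hM.unit _ (List.get_mem _ _))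
      · have h1 : List.ofFn (fun m => (w1 ++ w2).get m) = w1 ++ w2 := List.ofFn_get _
        simp only [hW]
        rw [h1, List.take_left, List.drop_left]
        exact ⟨⟨hE, hF, hN, hcard⟩, s, t, a, b, hP, hM⟩)
    (fun E => (x ^ 2) ^ span E) (fun E => pow_nonneg hy _)
  have hterm : ∀ i ∈ I, ∑ᶠ E ∈ W i, (x ^ 2) ^ span E ≤
      (B * R * ((i.1 : ℝ) + 1) ^ (N + 1)) * ((List.ofFn i.2.2).map (phi x)).prod := by
    rintro ⟨l, m, p⟩ hi
    rw [hI, Finset.mem_sigma, Finset.mem_product, Fintype.mem_piFinset] at hi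
    obtain ⟨h1, h2, h3⟩ := hi
    simp only at h1 h2 h3 ⊢
    have h4' := hword n hn h4 ((List.ofFn p).take m) ((List.ofFn p).drop m) (by
      rw [List.take_append_drop]
      intro d hd
      rw [List.mem_ofFn] at hd
      obtain ⟨i, rfl⟩ := hd
      exact mem_units.1 (h3 i))
    refine h4'.trans ?_
    rw [← nh_append, ← nv_append, List.take_append_drop]
    have h5 := prod_phi x (List.ofFn p)
    have h6 : nh (List.ofFn p) ≤ l := by
      have h7 := nh_add_nv (List.ofFn p)
      rw [List.length_ofFn] at h7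
      omega
    have h7 : ((nh (List.ofFn p) + 1 : ℕ) : ℝ) ≤ (l : ℝ) + 1 := by exact_mod_cast Nat.succ_le_succ h6
    have h8 : 0 ≤ ((List.ofFn p).map (phi x)).prod := by
      rw [← h5]
      positivity
    calc B * ((nh (List.ofFn p) + 1 : ℕ) : ℝ) ^ (N + 1) * (603 / x) ^ nh (List.ofFn p) *
          (1 / Real.sqrt x) ^ nv (List.ofFn p) * R
        = (B * R * ((nh (List.ofFn p) + 1 : ℕ) : ℝ) ^ (N + 1)) *
          ((603 / x) ^ nh (List.ofFn p) * (1 / Real.sqrt x) ^ nv (List.ofFn p)) := by ring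
      _ = (B * R * ((nh (List.ofFn p) + 1 : ℕ) : ℝ) ^ (N + 1)) *
          ((List.ofFn p).map (phi x)).prod := by rw [h5]
      _ ≤ (B * R * ((l : ℝ) + 1) ^ (N + 1)) * ((List.ofFn p).map (phi x)).prod := by
          refine mul_le_mul_of_nonneg_right (mul_le_mul_of_nonneg_left ?_ (mul_nonneg hB hR0)) h8
          exact pow_le_pow_left₀ (Nat.cast_nonneg _) h7 _
  have hφ0 : 0 ≤ ∑ d ∈ units, phi x d := Finset.sum_nonneg fun d _ => phi_nonneg hx0 d
  calc Zt (x ^ 2) (fun E => Few (N + 1) E ∧ ∃ s t, Piece E s t ∧ j ≤ (midE E s t).card) n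
      ≤ ∑ i ∈ I, ∑ᶠ E ∈ W i, (x ^ 2) ^ span E := hcover
    _ ≤ ∑ i ∈ I, (B * R * ((i.1 : ℝ) + 1) ^ (N + 1)) * ((List.ofFn i.2.2).map (phi x)).prod :=
        Finset.sum_le_sum hterm
    _ = ∑ l ∈ Finset.Icc j n, ((l : ℝ) + 1) * ((B * R * ((l : ℝ) + 1) ^ (N + 1)) *
          (∑ d ∈ units, phi x d) ^ l) := by
        rw [hI, Finset.sum_sigma]
        refine Finset.sum_congr rfl fun l _ => ?_
        rw [Finset.sum_product]
        have h1 : ∀ m ∈ Finset.range (l + 1), ∑ p ∈ Fintype.piFinset (fun _ : Fin l => units),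
            (B * R * ((l : ℝ) + 1) ^ (N + 1)) * ((List.ofFn p).map (phi x)).prod =
            (B * R * ((l : ℝ) + 1) ^ (N + 1)) * (∑ d ∈ units, phi x d) ^ l := fun m _ => by
          rw [← Finset.mul_sum, sum_words]
        refine (Finset.sum_congr rfl h1).trans ?_
        rw [Finset.sum_const, Finset.card_range, nsmul_eq_mul]
        push_cast
        rfl
    _ ≤ ∑ l ∈ Finset.Icc j n, (B * R) * (((l : ℝ) + 1) ^ (N + 2) * (27 / 100) ^ l) := by
        refine Finset.sum_le_sum fun l _ => ?_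
        have h1 : (∑ d ∈ units, phi x d) ^ l ≤ (27 / 100) ^ l :=
          pow_le_pow_left₀ hφ0 (sum_phi_le hx) l
        have h2 : 0 ≤ B * R * ((l : ℝ) + 1) ^ (N + 2) := by
          have := mul_nonneg hB hR0
          positivity
        calc ((l : ℝ) + 1) * ((B * R * ((l : ℝ) + 1) ^ (N + 1)) * (∑ d ∈ units, phi x d) ^ l)
            = (B * R * ((l : ℝ) + 1) ^ (N + 2)) * (∑ d ∈ units, phi x d) ^ l := by
              rw [pow_succ _ (N + 1)]
              ring
          _ ≤ (B * R * ((l : ℝ) + 1) ^ (N + 2)) * (27 / 100) ^ l :=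
              mul_le_mul_of_nonneg_left h1 h2
          _ = _ := by ring
    _ = (B * R) * ∑ l ∈ Finset.Icc j n, ((l : ℝ) + 1) ^ (N + 2) * (27 / 100) ^ l := by
        rw [Finset.mul_sum]
    _ ≤ (B * R) * (C * (1 / 2) ^ j) :=
        mul_le_mul_of_nonneg_left (hsum j n) (mul_nonneg hB hR0)
    _ = B * C * (1 / 2) ^ j * R := by ring

end Pool.Agent.KTen
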