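import Pool.Agent.KTen.Replace
import Pool.Agent.KTen.Ratio

/-! The weight of the polygons with given walks in the first knotted piece. -/

set_option autoImplicit false

open Set Filter Topology

namespace Pool.Agent.KTen

open Pool.Agent.LK Pool.Agent.KTube

variable {x : ℝ}

/-- Comparison of `U_m` and `U_n` for `m + l = n + 2 (q d + 1) + d`. -/
private lemma uw_ratio (hx : 10 ^ 4 ≤ x) {A : ℝ} (hA1 : 1 ≤ A)
    (hA : ∀ n, Even n → 4 ≤ n → ∀ j : ℕ,
      Zt (x ^ 2) UClass (n + 2 * j) ≤ A * (x ^ 2 * (1 + 200 / x)) ^ j * Zt (x ^ 2) UClass n)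
    {q d l m n : ℕ} (hq : (q : ℝ) ≤ x / 200) (hd : 2 ≤ d) (hn : Even n) (h4 : 4 ≤ n)
    (hm : m + l = n + 2 * (q * d + 1) + d) :
    Zt (x ^ 2) UClass m * x ^ l ≤
      A * Real.exp (1.02 * d) * x ^ (2 * (q * d) + 2 + d) * Zt (x ^ 2) UClass n := by
  have hx0 : (0 : ℝ) < x := by linarith
  have hx1 : (1 : ℝ) ≤ x := by linarith
  have hU : ∀ k, 0 ≤ Zt (x ^ 2) UClass k := fun k => zt_nonneg (by positivity) _ _
  have hexp1 : (1 : ℝ) ≤ Real.exp (1.02 * d) := Real.one_le_exp (by positivity)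
  by_cases hme : Even m
  swap
  · rw [u_odd hme, zero_mul]
    have := hU n
    positivity
  rcases Nat.lt_or_ge m n with hlt | hge
  · obtain ⟨j, hj⟩ : ∃ j, n = m + 2 * j := by
      obtain ⟨a, ha⟩ := hn
      obtain ⟨b, hb⟩ := hme
      exact ⟨a - b, by omega⟩
    have h1 := ratio_down hx1 m j
    rw [← hj] at h1
    have hl : l = 2 * j + (2 * (q * d) + 2 + d) := by omega
    have h2 : Zt (x ^ 2) UClass m * x ^ l =
        x ^ (2 * (q * d) + 2 + d) * ((x ^ 2) ^ j * Zt (x ^ 2) UClass m) := by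
      rw [hl, pow_add, pow_mul]
      ring
    rw [h2]
    calc x ^ (2 * (q * d) + 2 + d) * ((x ^ 2) ^ j * Zt (x ^ 2) UClass m)
        ≤ x ^ (2 * (q * d) + 2 + d) * Zt (x ^ 2) UClass n :=
          mul_le_mul_of_nonneg_left h1 (by positivity)
      _ = 1 * (x ^ (2 * (q * d) + 2 + d) * Zt (x ^ 2) UClass n) := (one_mul _).symm
      _ ≤ (A * Real.exp (1.02 * d)) * (x ^ (2 * (q * d) + 2 + d) * Zt (x ^ 2) UClass n) := by
          refine mul_le_mul_of_nonneg_right ?_ (mul_nonneg (by positivity) (hU n))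
          exact one_le_mul_of_one_le_of_one_le hA1 hexp1
      _ = _ := by ring
  · obtain ⟨j, hj⟩ : ∃ j, m = n + 2 * j := by
      obtain ⟨a, ha⟩ := hn
      obtain ⟨b, hb⟩ := hme
      exact ⟨b - a, by omega⟩
    have h1 := hA n hn h4 j
    rw [← hj] at h1
    have hl : 2 * j + l = 2 * (q * d) + 2 + d := by omega
    have hjb : (j : ℝ) ≤ q * d + 1 + d / 2 := by
      have h2 : 2 * j ≤ 2 * (q * d) + 2 + d := by omega
      have h3 : (2 : ℝ) * j ≤ 2 * (q * d) + 2 + d := by exact_mod_cast h2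
      linarith
    have h5 : (1 + 200 / x) ^ j ≤ Real.exp (1.02 * d) := by
      have h6 : 1 + 200 / x ≤ Real.exp (200 / x) := by
        have := Real.add_one_le_exp (200 / x)
        linarith
      calc (1 + 200 / x) ^ j ≤ Real.exp (200 / x) ^ j :=
            pow_le_pow_left₀ (by positivity) h6 j
        _ = Real.exp (j * (200 / x)) := by rw [← Real.exp_nat_mul]
        _ ≤ Real.exp (1.02 * d) := by
            apply Real.exp_le_exp.2
            have h7 : (0 : ℝ) ≤ 200 / x := by positivity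
            have h8 : 200 / x ≤ 0.02 := by
              rw [div_le_iff₀ hx0]
              linarith
            have h9 : (q : ℝ) * (200 / x) ≤ 1 := by
              rw [mul_div_assoc', div_le_one hx0]
              linarith
            have hd' : (2 : ℝ) ≤ d := by exact_mod_cast hd
            calc (j : ℝ) * (200 / x) ≤ (q * d + 1 + d / 2) * (200 / x) :=
                  mul_le_mul_of_nonneg_right hjb h7
              _ = (q * (200 / x)) * d + (1 + d / 2) * (200 / x) := by ring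
              _ ≤ 1 * d + (1 + d / 2) * 0.02 := by
                  refine add_le_add (mul_le_mul_of_nonneg_right h9 (by positivity)) ?_
                  exact mul_le_mul_of_nonneg_left h8 (by positivity)
              _ ≤ 1.02 * d := by linarith
    calc Zt (x ^ 2) UClass m * x ^ l
        ≤ (A * (x ^ 2 * (1 + 200 / x)) ^ j * Zt (x ^ 2) UClass n) * x ^ l :=
          mul_le_mul_of_nonneg_right h1 (by positivity)
      _ = A * (1 + 200 / x) ^ j * (x ^ (2 * j + l) * Zt (x ^ 2) UClass n) := by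
          rw [mul_pow, ← pow_mul, pow_add]
          ring
      _ ≤ A * Real.exp (1.02 * d) * (x ^ (2 * j + l) * Zt (x ^ 2) UClass n) := by
          refine mul_le_mul_of_nonneg_right ?_ (mul_nonneg (by positivity) (hU n))
          exact mul_le_mul_of_nonneg_left h5 (by linarith)
      _ = _ := by rw [hl]; ring

private lemma uw_const (hx : 10 ^ 4 ≤ x) {q : ℕ} (hq : x / 200 < q + 1) :
    x * Real.exp 1.02 ≤ 603 * q := by
  have h1 : Real.exp 1.02 ≤ 2.8 := by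
    have h2 : Real.exp 1.02 = Real.exp 1 * Real.exp 0.02 := by
      rw [← Real.exp_add]
      norm_num
    have h3 : Real.exp 1 ≤ 2.7182818286 := Real.exp_one_lt_d9.le
    have h4 : Real.exp 0.02 ≤ 1.0205 := by
      have h6 := Real.exp_bound_div_one_sub_of_interval (x := 0.02) (by norm_num) (by norm_num)
      have h5 : (1 : ℝ) / (1 - 0.02) ≤ 1.0205 := by norm_num
      linarith
    calc Real.exp 1.02 = Real.exp 1 * Real.exp 0.02 := h2
      _ ≤ 2.7182818286 * 1.0205 := by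
          apply mul_le_mul h3 h4 (Real.exp_pos _).le (by norm_num)
      _ ≤ 2.8 := by norm_num
  have h2 : (0.0049 : ℝ) * x ≤ q := by
    have h3 : x / 200 - 1 < q := by linarith
    have h4 : (0.0049 : ℝ) * x ≤ x / 200 - 1 := by linarith
    linarith
  have hx0 : (0 : ℝ) < x := by linarith
  calc x * Real.exp 1.02 ≤ x * 2.8 := mul_le_mul_of_nonneg_left h1 hx0.le
    _ ≤ 603 * (0.0049 * x) := by nlinarith
    _ ≤ 603 * q := by linarith

/-- One pair of words. -/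
theorem word_le (hx : 10 ^ 4 ≤ x) {N : ℕ} {D : ℝ}
    (hD : ∀ m, Zt (x ^ 2) (Few N) m ≤ D * (m : ℝ) ^ N * Zt (x ^ 2) UClass m) :
    ∃ B : ℝ, 0 ≤ B ∧ ∀ n, Even n → 4 ≤ n → ∀ w1 w2 : List P3,
      (∀ d ∈ w1 ++ w2, IsUnit3 d) →
      ∑ᶠ E ∈ WSet N n w1 w2, (x ^ 2) ^ span E ≤
        B * ((nh w1 + nh w2 + 1 : ℕ) : ℝ) ^ (N + 1) * (603 / x) ^ (nh w1 + nh w2) *
          (1 / Real.sqrt x) ^ (nv w1 + nv w2) * ((n : ℝ) ^ (N + 1) * Zt (x ^ 2) UClass n) := by
  obtain ⟨A, hA1, hA⟩ := ratio_up hx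
  have hx0 : (0 : ℝ) < x := by linarith
  have hx1 : (1 : ℝ) ≤ x := by linarith
  have hU : ∀ k, 0 ≤ Zt (x ^ 2) UClass k := fun k => zt_nonneg (by positivity) _ _
  obtain ⟨q, hqdef⟩ : ∃ q, q = ⌊x / 200⌋₊ := ⟨_, rfl⟩
  have hqx : (q : ℝ) ≤ x / 200 := by
    rw [hqdef]
    exact Nat.floor_le (by positivity)
  have hqx' : x / 200 < q + 1 := by
    rw [hqdef]
    exact Nat.lt_floor_add_one _
  have hq1 : 1 ≤ q := by
    have h1 : (1 : ℝ) < q + 1 := by linarith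
    have h2 : (0 : ℝ) < q := by linarith
    exact_mod_cast h2
  refine ⟨|D| * A * x ^ 2 * 603 ^ 2 * ((4 * q + 5 : ℕ) : ℝ) ^ (N + 1), by positivity, ?_⟩
  intro n hn h4 w1 w2 hw
  have hUn := hU n
  have hrhs : 0 ≤ |D| * A * x ^ 2 * 603 ^ 2 * ((4 * q + 5 : ℕ) : ℝ) ^ (N + 1) *
      ((nh w1 + nh w2 + 1 : ℕ) : ℝ) ^ (N + 1) * (603 / x) ^ (nh w1 + nh w2) *
      (1 / Real.sqrt x) ^ (nv w1 + nv w2) * ((n : ℝ) ^ (N + 1) * Zt (x ^ 2) UClass n) := by
    positivity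
  rcases Set.eq_empty_or_nonempty (WSet N n w1 w2) with hemp | ⟨E, hE⟩
  · rw [hemp]
    simp only [Set.mem_empty_iff_false, finsum_false, finsum_zero]
    exact hrhs
  -- the numbers
  obtain ⟨⟨hpoly, -, -, hcard⟩, s, t, a, b, hP, hM⟩ := hE
  obtain ⟨T, hT⟩ : ∃ T, T = (w1.sum).2.2.toNat - 1 := ⟨_, rfl⟩
  have hTst : (T : ℤ) = t - s := by
    have h1 := hM.lev1
    have h2 := hM.lt
    omega
  have hTV : 4 * T ≤ nv w1 + nv w2 := by
    have h1 := hM.nv_ge hpoly hP.2.2.2.1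
    rw [← hTst] at h1
    exact_mod_cast h1
  obtain ⟨h, hh⟩ : ∃ h, h = nh w1 + nh w2 := ⟨_, rfl⟩
  obtain ⟨V, hV⟩ : ∃ V, V = nv w1 + nv w2 := ⟨_, rfl⟩
  obtain ⟨d, hd⟩ : ∃ d, d = nrm1 (disp w1 w2) + 2 := ⟨_, rfl⟩
  have hdh : d ≤ h + 2 := by
    have := nrm1_disp_le hw
    omega
  have hl : w1.length + w2.length = h + V := by
    have e1 := nh_add_nv w1
    have e2 := nh_add_nv w2
    omega
  have hln : w1.length + w2.length ≤ n := by
    rw [← hM.card, ← hcard]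
    refine Finset.card_le_card fun e he => ?_
    unfold midE at he
    simp only [Finset.mem_filter] at he
    exact he.1
  obtain ⟨m, hm⟩ : ∃ m, m + (h + V) = n + 2 * (q * d + 1) + d :=
    ⟨n + 2 * (q * d + 1) + d - (h + V), by omega⟩
  have hrep := replace_le (N := N) (n := n) (y := x ^ 2) (by positivity) hq1 w1 w2 hd
    (m := m) (by omega)
  rw [← hT] at hrep
  obtain ⟨F, hF⟩ : ∃ F, F = ∑ᶠ E ∈ WSet N n w1 w2, (x ^ 2) ^ span E := ⟨_, rfl⟩
  rw [← hF] at hrep ⊢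
  have hrat := uw_ratio hx hA1 hA hqx (by omega) hn h4 hm
  rw [← hh, ← hV]
  rw [← hV] at hTV
  -- `r = √x`
  obtain ⟨r, hr⟩ : ∃ r, r = Real.sqrt x := ⟨_, rfl⟩
  have hr0 : 0 < r := by rw [hr]; exact Real.sqrt_pos.2 hx0
  have hrx : r ^ 2 = x := by rw [hr]; exact Real.sq_sqrt hx0.le
  have hr1 : 1 ≤ r := by
    by_contra hcon
    push Not at hcon
    nlinarith
  rw [← hr]
  -- `m`
  have hmb : m ≤ (4 * q + 5) * (n * (h + 1)) := by
    have h1 : m ≤ n + 2 * (q * d + 1) + d := by omega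
    have h2 : q * d ≤ q * (h + 2) := Nat.mul_le_mul_left _ hdh
    have h3 : n ≤ n * (h + 1) := Nat.le_mul_of_pos_right _ (by omega)
    have h5 : h + 1 ≤ n * (h + 1) := Nat.le_mul_of_pos_left _ (by omega)
    have h6 : q * (h + 2) ≤ 2 * (q * (n * (h + 1))) := by
      have h7 : h + 2 ≤ 2 * (n * (h + 1)) := by omega
      calc q * (h + 2) ≤ q * (2 * (n * (h + 1))) := Nat.mul_le_mul_left _ h7
        _ = 2 * (q * (n * (h + 1))) := by ring
    have h8 : (4 * q + 5) * (n * (h + 1)) = 4 * (q * (n * (h + 1))) + 5 * (n * (h + 1)) := by ring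
    rw [h8]
    omega
  have hmb' : (m : ℝ) ^ (N + 1) ≤ ((4 * q + 5 : ℕ) : ℝ) ^ (N + 1) *
      ((h + 1 : ℕ) : ℝ) ^ (N + 1) * (n : ℝ) ^ (N + 1) := by
    rw [← mul_pow, ← mul_pow]
    refine pow_le_pow_left₀ (by positivity) ?_ _
    have h1 : (m : ℝ) ≤ (((4 * q + 5) * (n * (h + 1)) : ℕ) : ℝ) := by exact_mod_cast hmb
    refine h1.trans (le_of_eq ?_)
    push_cast
    ring
  -- step 1
  have hmx : Zt (x ^ 2) (Few N) m ≤ |D| * (m : ℝ) ^ N * Zt (x ^ 2) UClass m := by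
    refine (hD m).trans ?_
    have h1 := hU m
    have h2 : D ≤ |D| := le_abs_self D
    gcongr
  have s1 : F * ((q : ℝ) ^ d * (x ^ 2) ^ (q * d)) * x ^ (h + V) ≤
      (x ^ 2) ^ T * (|D| * (m : ℝ) ^ (N + 1)) *
        (A * Real.exp (1.02 * d) * x ^ (2 * (q * d) + 2 + d) * Zt (x ^ 2) UClass n) := by
    calc F * ((q : ℝ) ^ d * (x ^ 2) ^ (q * d)) * x ^ (h + V)
        ≤ ((x ^ 2) ^ T * (m * Zt (x ^ 2) (Few N) m)) * x ^ (h + V) :=
          mul_le_mul_of_nonneg_right hrep (by positivity)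
      _ ≤ ((x ^ 2) ^ T * (m * (|D| * (m : ℝ) ^ N * Zt (x ^ 2) UClass m))) * x ^ (h + V) := by
          gcongr
      _ = (x ^ 2) ^ T * (|D| * (m : ℝ) ^ (N + 1)) * (Zt (x ^ 2) UClass m * x ^ (h + V)) := by
          rw [pow_succ]
          ring
      _ ≤ _ := mul_le_mul_of_nonneg_left hrat (by positivity)
  -- cancel `x ^ (2 q d)`
  have s2 : F * (q : ℝ) ^ d * x ^ (h + V) ≤
      (x ^ 2) ^ T * (|D| * (m : ℝ) ^ (N + 1)) *
        (A * Real.exp (1.02 * d) * x ^ (2 + d) * Zt (x ^ 2) UClass n) := by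
    have hpos : (0 : ℝ) < (x ^ 2) ^ (q * d) := by positivity
    refine le_of_mul_le_mul_right ?_ hpos
    calc F * (q : ℝ) ^ d * x ^ (h + V) * (x ^ 2) ^ (q * d)
        = F * ((q : ℝ) ^ d * (x ^ 2) ^ (q * d)) * x ^ (h + V) := by ring
      _ ≤ _ := s1
      _ = _ := by
          rw [← pow_mul, ← pow_mul, show 2 * (q * d) + 2 + d = 2 * (q * d) + (2 + d) by ring,
            pow_add x (2 * (q * d)) (2 + d)]
          ring
  -- `x ^ d e ^ (1.02 d) ≤ (603 q) ^ d`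
  have hc : x ^ d * Real.exp (1.02 * d) ≤ (603 : ℝ) ^ d * (q : ℝ) ^ d := by
    have h1 : Real.exp (1.02 * d) = Real.exp 1.02 ^ d := by
      rw [← Real.exp_nat_mul]
      congr 1
      ring
    rw [h1, ← mul_pow, ← mul_pow]
    exact pow_le_pow_left₀ (by positivity) (uw_const hx hqx') d
  have hqd : (0 : ℝ) < (q : ℝ) ^ d := by
    have : (0 : ℝ) < q := by exact_mod_cast hq1
    positivity
  have s3 : F * x ^ (h + V) ≤
      (x ^ 2) ^ T * (|D| * (m : ℝ) ^ (N + 1)) * (A * 603 ^ d * x ^ 2 * Zt (x ^ 2) UClass n) := by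
    refine le_of_mul_le_mul_right ?_ hqd
    calc F * x ^ (h + V) * (q : ℝ) ^ d = F * (q : ℝ) ^ d * x ^ (h + V) := by ring
      _ ≤ _ := s2
      _ = (x ^ 2) ^ T * (|D| * (m : ℝ) ^ (N + 1)) * (A * x ^ 2 * Zt (x ^ 2) UClass n) *
          (x ^ d * Real.exp (1.02 * d)) := by
          rw [pow_add]
          ring
      _ ≤ (x ^ 2) ^ T * (|D| * (m : ℝ) ^ (N + 1)) * (A * x ^ 2 * Zt (x ^ 2) UClass n) *
          ((603 : ℝ) ^ d * (q : ℝ) ^ d) := mul_le_mul_of_nonneg_left hc (by positivity)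
      _ = _ := by ring
  -- the vertical steps
  have hTr : (x ^ 2) ^ T ≤ r ^ V := by
    rw [← hrx, ← pow_mul, ← pow_mul]
    exact pow_le_pow_right₀ hr1 (by omega)
  have hxV : x ^ V = r ^ V * r ^ V := by
    rw [← hrx, ← pow_mul, ← pow_add]
    congr 1
    ring
  have h603 : (603 : ℝ) ^ d ≤ 603 ^ h * 603 ^ 2 := by
    rw [← pow_add]
    exact pow_le_pow_right₀ (by norm_num) hdh
  have hrV : (0 : ℝ) < r ^ V := by positivity
  have s4 : F * (x ^ h * r ^ V) ≤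
      |D| * (m : ℝ) ^ (N + 1) * (A * (603 ^ h * 603 ^ 2) * x ^ 2 * Zt (x ^ 2) UClass n) := by
    refine le_of_mul_le_mul_right ?_ hrV
    calc F * (x ^ h * r ^ V) * r ^ V = F * x ^ (h + V) := by
          rw [pow_add, hxV]
          ring
      _ ≤ _ := s3
      _ ≤ r ^ V * (|D| * (m : ℝ) ^ (N + 1)) *
          (A * (603 ^ h * 603 ^ 2) * x ^ 2 * Zt (x ^ 2) UClass n) := by
          gcongr
      _ = _ := by ring
  have hxr : (0 : ℝ) < x ^ h * r ^ V := by positivity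
  refine le_of_mul_le_mul_right (s4.trans ?_) hxr
  have e1 : (603 / x) ^ h * (1 / r) ^ V * (x ^ h * r ^ V) = 603 ^ h := by
    rw [div_pow, div_pow, one_pow]
    field_simp
  calc |D| * (m : ℝ) ^ (N + 1) * (A * (603 ^ h * 603 ^ 2) * x ^ 2 * Zt (x ^ 2) UClass n)
      ≤ |D| * (((4 * q + 5 : ℕ) : ℝ) ^ (N + 1) * ((h + 1 : ℕ) : ℝ) ^ (N + 1) *
        (n : ℝ) ^ (N + 1)) * (A * (603 ^ h * 603 ^ 2) * x ^ 2 * Zt (x ^ 2) UClass n) := by
        gcongr
    _ = |D| * (((4 * q + 5 : ℕ) : ℝ) ^ (N + 1) * ((h + 1 : ℕ) : ℝ) ^ (N + 1) *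
        (n : ℝ) ^ (N + 1)) * (A * (((603 / x) ^ h * (1 / r) ^ V * (x ^ h * r ^ V)) * 603 ^ 2) *
          x ^ 2 * Zt (x ^ 2) UClass n) := by rw [e1]
    _ = _ := by ring

end Pool.Agent.KTen
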